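import Pool.Agent.H79.NG.Def

/-!
# [H79 NG BAS] Basic facts on the target

All facts follow directly from the fields of `TC`. For `y ∈ N`: `infDist y N = 0`, `π y = y`.
* `proj_idem`: field `idem` at `y` with `π y = y`.
* `proj_le`: `‖Dπ(y) a‖² = <Dπ(y) a, Dπ(y) a> = <a, Dπ(y) Dπ(y) a> = <a, Dπ(y) a> ≤ ‖a‖ ‖Dπ(y) a‖`.
* `D2_normal`: `idem2` with `Dπ(y) b = b`: `D2 a b + Dπ(y) (D2 a b) = D2 a b`.
* `D2_inner`: `<D2 a b, c> = <D2 a b, Dπ(y) c> = <Dπ(y) (D2 a b), c> = 0`.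
* `hasFD`, `hasFD2`, `smAt`: `smooth` on the open set `{infDist < 4 δ}`.
* `exists_lipN`: for `y, z ∈ N` with `‖y - z‖ < 2 δ` use `lip1`, `lip2` and, for the chord,
`z - y - Dπ(y)(z - y) = π z - π y - Dπ(y)(z - y)`, whose norm is at most
`sup ‖Dπ(x) - Dπ(y)‖ ‖z - y‖ ≤ C ‖z - y‖²`, `x` on the segment (mean value inequality
`Convex.norm_image_sub_le_of_norm_hasFDerivWithin_le'` on `closedBall y ‖z - y‖`). For
`‖y - z‖ ≥ 2 δ` the left sides are at most `2 C`, resp. `(1 + C) ‖z - y‖`; so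
`K = C (1 + 1/δ) + (1 + C)/(2 δ)` or anything larger is possible.
* `geod_chord`: mean value inequality on the interval (`V` bounded by `a`).
* `geod_mono`, `geod_normal`, `geod_cont`: immediate.
-/

set_option autoImplicit false

namespace H79NG

open H60NH H60NT Metric Set Filter Topology
open scoped NNReal ContDiff

theorem inf_lt {m : ℕ} {N : Set (E m)} {π : E m → E m} {δ C : ℝ} (hT : TC N π δ C) {y : E m}
    (hy : y ∈ N) {c : ℝ} (hc : 0 < c) : infDist y N < c * δ := by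
  rw [infDist_zero_of_mem hy]
  exact mul_pos hc hT.pos

theorem nbhdN {m : ℕ} (N : Set (E m)) (r : ℝ) : IsOpen {y : E m | infDist y N < r} :=
  isOpen_lt (continuous_infDist_pt N) continuous_const

theorem proj_idem {m : ℕ} {N : Set (E m)} {π : E m → E m} {δ C : ℝ} (hT : TC N π δ C) {y : E m}
    (hy : y ∈ N) (a : E m) : fderiv ℝ π y (fderiv ℝ π y a) = fderiv ℝ π y a := by
  have h := hT.idem y (by rw [infDist_zero_of_mem hy]; have := hT.pos; linarith) a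
  rwa [hT.fixed y hy] at h

theorem proj_symm {m : ℕ} {N : Set (E m)} {π : E m → E m} {δ C : ℝ} (hT : TC N π δ C) {y : E m}
    (hy : y ∈ N) (a b : E m) :
    inner ℝ (fderiv ℝ π y a) b = inner ℝ a (fderiv ℝ π y b) := by
  exact hT.symm1 y (by rw [infDist_zero_of_mem hy]; have := hT.pos; linarith) a b

theorem proj_le {m : ℕ} {N : Set (E m)} {π : E m → E m} {δ C : ℝ} (hT : TC N π δ C) {y : E m}
    (hy : y ∈ N) (a : E m) : ‖fderiv ℝ π y a‖ ≤ ‖a‖ := by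
  rcases eq_or_lt_of_le (norm_nonneg (fderiv ℝ π y a)) with h0 | h0
  · rw [← h0]; exact norm_nonneg _
  · have h1 : ‖fderiv ℝ π y a‖ ^ 2 ≤ ‖a‖ * ‖fderiv ℝ π y a‖ := by
      calc ‖fderiv ℝ π y a‖ ^ 2 = inner ℝ (fderiv ℝ π y a) (fderiv ℝ π y a) :=
            (real_inner_self_eq_norm_sq _).symm
        _ = inner ℝ a (fderiv ℝ π y a) := by rw [proj_symm hT hy, proj_idem hT hy]
        _ ≤ ‖a‖ * ‖fderiv ℝ π y a‖ := real_inner_le_norm _ _
    rw [sq] at h1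
    exact le_of_mul_le_mul_right h1 h0

theorem D2_normal {m : ℕ} {N : Set (E m)} {π : E m → E m} {δ C : ℝ} (hT : TC N π δ C) {y : E m}
    (hy : y ∈ N) {a b : E m} (ha : fderiv ℝ π y a = a) (hb : fderiv ℝ π y b = b) :
    fderiv ℝ π y (D2 π y a b) = 0 := by
  have h := hT.idem2 y hy a b ha
  rw [hb] at h
  exact left_eq_add.mp h.symm

theorem D2_inner {m : ℕ} {N : Set (E m)} {π : E m → E m} {δ C : ℝ} (hT : TC N π δ C) {y : E m}
    (hy : y ∈ N) {a b c : E m} (ha : fderiv ℝ π y a = a) (hb : fderiv ℝ π y b = b)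
    (hc : fderiv ℝ π y c = c) : inner ℝ (D2 π y a b) c = 0 := by
  rw [← hc, ← proj_symm hT hy, D2_normal hT hy ha hb, inner_zero_left]

theorem D2_le {m : ℕ} {N : Set (E m)} {π : E m → E m} {δ C : ℝ} (hT : TC N π δ C) {y : E m}
    (hy : y ∈ N) (a b : E m) : ‖D2 π y a b‖ ≤ C * ‖a‖ * ‖b‖ := by
  have h0 : infDist y N < 4 * δ := by
    rw [infDist_zero_of_mem hy]; have := hT.pos; linarith
  calc ‖D2 π y a b‖ ≤ ‖D2 π y a‖ * ‖b‖ := ContinuousLinearMap.le_opNorm _ _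
    _ ≤ ‖D2 π y‖ * ‖a‖ * ‖b‖ :=
        mul_le_mul_of_nonneg_right (ContinuousLinearMap.le_opNorm _ _) (norm_nonneg _)
    _ ≤ C * ‖a‖ * ‖b‖ := mul_le_mul_of_nonneg_right
        (mul_le_mul_of_nonneg_right (hT.bd2 y h0) (norm_nonneg _)) (norm_nonneg _)

theorem smAt {m : ℕ} {N : Set (E m)} {π : E m → E m} {δ C : ℝ} (hT : TC N π δ C) {y : E m}
    (hy : infDist y N < 4 * δ) : ContDiffAt ℝ ∞ π y := by
  exact hT.smooth.contDiffAt ((nbhdN N (4 * δ)).mem_nhds hy)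

theorem hasFD {m : ℕ} {N : Set (E m)} {π : E m → E m} {δ C : ℝ} (hT : TC N π δ C) {y : E m}
    (hy : infDist y N < 4 * δ) : HasFDerivAt π (fderiv ℝ π y) y := by
  exact ((smAt hT hy).differentiableAt (by simp)).hasFDerivAt

theorem hasFD2 {m : ℕ} {N : Set (E m)} {π : E m → E m} {δ C : ℝ} (hT : TC N π δ C) {y : E m}
    (hy : infDist y N < 4 * δ) : HasFDerivAt (fderiv ℝ π) (D2 π y) y := by
  exact (((smAt hT hy).fderiv_right (m := ∞) (by simp)).differentiableAt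
    (by simp)).hasFDerivAt

theorem exists_lipN {m : ℕ} {N : Set (E m)} {π : E m → E m} {δ C : ℝ} (hT : TC N π δ C) :
    ∃ K : ℝ, 1 ≤ K ∧ C ≤ K ∧ ∀ y ∈ N, ∀ z ∈ N,
      ‖fderiv ℝ π y - fderiv ℝ π z‖ ≤ K * ‖y - z‖ ∧ ‖D2 π y - D2 π z‖ ≤ K * ‖y - z‖ ∧
      ‖(z - y) - fderiv ℝ π y (z - y)‖ ≤ K * ‖z - y‖ ^ 2 := by
  have hδ := hT.pos
  have hC := hT.one_le
  have hq : 0 ≤ 1 / δ := by positivity
  refine ⟨C + 2 * C / δ + 1 / δ, ?_, ?_, ?_⟩
  · have : 0 ≤ 2 * C / δ := by positivity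
    linarith
  · have : 0 ≤ 2 * C / δ := by positivity
    linarith
  intro y hy z hz
  have hy0 : infDist y N < 4 * δ := by rw [infDist_zero_of_mem hy]; linarith
  have hz0 : infDist z N < 4 * δ := by rw [infDist_zero_of_mem hz]; linarith
  have hy2 : infDist y N < 2 * δ := by rw [infDist_zero_of_mem hy]; linarith
  by_cases h : ‖y - z‖ < 2 * δ
  · have hK : C ≤ C + 2 * C / δ + 1 / δ := by
      have : 0 ≤ 2 * C / δ := by positivity
      linarith
    refine ⟨(hT.lip1 y z hy2 h).trans (mul_le_mul_of_nonneg_right hK (norm_nonneg _)),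
      (hT.lip2 y z hy2 h).trans (mul_le_mul_of_nonneg_right hK (norm_nonneg _)), ?_⟩
    have hd : ∀ x ∈ closedBall y ‖z - y‖, infDist x N < 4 * δ ∧ ‖y - x‖ < 2 * δ ∧
        ‖y - x‖ ≤ ‖z - y‖ := by
      intro x hx
      have h1 : ‖y - x‖ ≤ ‖z - y‖ := by
        rw [mem_closedBall, dist_comm, dist_eq_norm] at hx; exact hx
      have h2 : ‖y - x‖ < 2 * δ := lt_of_le_of_lt h1 (by rw [norm_sub_rev]; exact h)
      refine ⟨?_, h2, h1⟩
      have h3 := infDist_le_infDist_add_dist (s := N) (x := x) (y := y)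
      rw [infDist_zero_of_mem hy, dist_comm, dist_eq_norm] at h3
      linarith
    have h4 := (convex_closedBall y ‖z - y‖).norm_image_sub_le_of_norm_hasFDerivWithin_le'
      (f := π) (f' := fun x => fderiv ℝ π x) (φ := fderiv ℝ π y) (C := C * ‖z - y‖)
      (x := y) (y := z)
      (fun x hx => (hasFD hT (hd x hx).1).hasFDerivWithinAt) ?_
      (mem_closedBall_self (norm_nonneg _)) (by rw [mem_closedBall, dist_eq_norm])
    · rw [hT.fixed z hz, hT.fixed y hy] at h4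
      refine h4.trans ?_
      rw [mul_assoc, ← sq]
      exact mul_le_mul_of_nonneg_right hK (sq_nonneg _)
    · intro x hx
      obtain ⟨-, h5, h6⟩ := hd x hx
      rw [norm_sub_rev]
      exact (hT.lip1 y x hy2 h5).trans (mul_le_mul_of_nonneg_left h6 (by linarith))
  · have h' : 2 * δ ≤ ‖y - z‖ := not_lt.mp h
    have h1 : 2 * C ≤ 2 * C / δ * ‖y - z‖ := by
      rw [div_mul_eq_mul_div, le_div_iff₀ hδ]
      nlinarith
    have h2 : 2 * C / δ * ‖y - z‖ ≤ (C + 2 * C / δ + 1 / δ) * ‖y - z‖ :=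
      mul_le_mul_of_nonneg_right (by linarith) (norm_nonneg _)
    refine ⟨?_, ?_, ?_⟩
    · refine le_trans ?_ (h1.trans h2)
      calc _ ≤ ‖fderiv ℝ π y‖ + ‖fderiv ℝ π z‖ := norm_sub_le _ _
        _ ≤ C + C := add_le_add (hT.bd1 y hy0) (hT.bd1 z hz0)
        _ = 2 * C := by ring
    · refine le_trans ?_ (h1.trans h2)
      have h5 : ‖D2 π y - D2 π z‖ ≤ ‖D2 π y‖ + ‖D2 π z‖ := norm_sub_le (D2 π y) (D2 π z)
      have h6 := hT.bd2 y hy0
      have h7 := hT.bd2 z hz0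
      linarith
    · rw [norm_sub_rev] at h'
      have h3 : ‖(z - y) - fderiv ℝ π y (z - y)‖ ≤ 2 * ‖z - y‖ := by
        calc _ ≤ ‖z - y‖ + ‖fderiv ℝ π y (z - y)‖ := norm_sub_le _ _
          _ ≤ ‖z - y‖ + ‖z - y‖ := add_le_add le_rfl (proj_le hT hy _)
          _ = 2 * ‖z - y‖ := by ring
      refine h3.trans ?_
      have h4 : 2 * ‖z - y‖ ≤ 1 / δ * ‖z - y‖ ^ 2 := by
        rw [div_mul_eq_mul_div, one_mul, le_div_iff₀ hδ]
        nlinarith [norm_nonneg (z - y)]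
      refine h4.trans (mul_le_mul_of_nonneg_right ?_ (sq_nonneg _))
      have : 0 ≤ 2 * C / δ := by positivity
      linarith

theorem geod_chord {m : ℕ} {N : Set (E m)} {π : E m → E m} {Γ V : ℝ → E m} {a s₁ s₂ : ℝ}
    (h : Geod N π Γ V a (Icc s₁ s₂)) {s t : ℝ} (hs : s ∈ Icc s₁ s₂) (ht : t ∈ Icc s₁ s₂) :
    ‖Γ s - Γ t‖ ≤ a * |s - t| := by
  have h1 := (convex_Icc s₁ s₂).norm_image_sub_le_of_norm_hasDerivWithin_le (f := Γ) (f' := V)
    (C := a) (x := t) (y := s) (fun x hx => (h.der x hx).hasDerivWithinAt)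
    (fun x hx => (h.speed x hx).le) ht hs
  rwa [Real.norm_eq_abs] at h1

theorem geod_mono {m : ℕ} {N : Set (E m)} {π : E m → E m} {Γ V : ℝ → E m} {a : ℝ} {I J : Set ℝ}
    (h : Geod N π Γ V a I) (hJ : J ⊆ I) : Geod N π Γ V a J :=
  ⟨fun s hs => h.mem s (hJ hs), fun s hs => h.tan s (hJ hs), fun s hs => h.der s (hJ hs),
    fun s hs => h.der2 s (hJ hs), fun s hs => h.speed s (hJ hs)⟩

end H79NG
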