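import Pool.Agent.H79.NG.Extn
import Pool.Agent.H79.NG.Bas

/-!
# [H79 NG BFA] The operator `B` as a smooth function with compact support

`Bt_smooth`: with `Lf p = L p.1 p.2` (smooth), `fderiv ℝ (fun z => L z q') y' = (fderiv ℝ Lf (y',q')) ∘ inl`
(`inl` the inclusion of the first factor), so `p ↦ fderiv ℝ (fun z => L z (pt p.2)) (pt p.1)` is smooth
(`ContDiff.fderiv_right`, `ContDiff.clm_comp`). `Bt_cpt`: support in `tsupport θ ×ˢ tsupport θ`.
`Bt_N`: on `N`, `θ = 1` (`infDist = 0 ≤ δ`), `pt y = y`, `Pj pt y = fderiv ℝ π y`, which is idempotent.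
`Bt_pt`: for `infDist < 3 δ`, `pt (π y) = π y = pt y` and `Pj pt (π y) = fderiv ℝ π (π y) = Pj pt y`,
`θ (π y) = 1`.
-/

set_option autoImplicit false

namespace H79NG

open H60NH H60NT Metric Set Filter Topology
open scoped NNReal ContDiff

/-- The operator `B` of the text, cut off. -/
noncomputable def Bt {m : ℕ} (θ : E m → ℝ) (pt : E m → E m) (L : E m → E m → E m)
    (p : E m × E m) : E m →L[ℝ] E m :=
  (θ p.1 * θ p.2) • (-((Pj pt p.1).comp
    ((fderiv ℝ (fun z => L z (pt p.2)) (pt p.1)).comp (Pj pt p.1))) -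
      (Pj pt p.1).comp (Pj pt p.1))

theorem dL_eq {m : ℕ} {N : Set (E m)} {π : E m → E m} {v₀ : ℝ} {Ex L : E m → E m → E m}
    (hL : LogS N π Ex L v₀) (y q : E m) : fderiv ℝ (fun z => L z q) y =
      (fderiv ℝ (fun p : E m × E m => L p.1 p.2) (y, q)).comp
        ((ContinuousLinearMap.id ℝ (E m)).prod 0) := by
  have h1 : HasFDerivAt (fun p : E m × E m => L p.1 p.2)
      (fderiv ℝ (fun p : E m × E m => L p.1 p.2) (y, q)) (y, q) :=
    (hL.smooth.differentiable (by simp) (y, q)).hasFDerivAt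
  have h2 : HasFDerivAt (fun z : E m => (z, q)) ((ContinuousLinearMap.id ℝ (E m)).prod 0) y :=
    (hasFDerivAt_id y).prodMk (hasFDerivAt_const q y)
  have h3 : HasFDerivAt (fun z => L z q)
      ((fderiv ℝ (fun p : E m × E m => L p.1 p.2) (y, q)).comp
        ((ContinuousLinearMap.id ℝ (E m)).prod 0)) y :=
    HasFDerivAt.comp (g := fun p : E m × E m => L p.1 p.2) (f := fun z : E m => (z, q)) y h1 h2
  exact h3.fderiv

theorem Bt_smooth {m : ℕ} {N : Set (E m)} {π pt : E m → E m} {δ v₀ r s : ℝ} {θ : E m → ℝ}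
    {Ex L : E m → E m → E m} (hL : LogS N π Ex L v₀) (hp : Ext N π δ pt)
    (hθ : CutN N r s θ) : ContDiff ℝ ∞ (Bt θ pt L) := by
  have h0 : ContDiff ℝ ∞ (fderiv ℝ (fun p : E m × E m => L p.1 p.2)) :=
    hL.smooth.fderiv_right (by simp)
  have h1 : ContDiff ℝ ∞ (fun p : E m × E m => fderiv ℝ (fun z => L z (pt p.2)) (pt p.1)) := by
    have h2 : (fun p : E m × E m => fderiv ℝ (fun z => L z (pt p.2)) (pt p.1)) =
        fun p : E m × E m => (fderiv ℝ (fun p : E m × E m => L p.1 p.2) (pt p.1, pt p.2)).comp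
          ((ContinuousLinearMap.id ℝ (E m)).prod 0) := by
      funext p
      exact dL_eq hL _ _
    rw [h2]
    exact (h0.comp ((hp.smooth.comp contDiff_fst).prodMk
      (hp.smooth.comp contDiff_snd))).clm_comp contDiff_const
  have hP : ContDiff ℝ ∞ (fun p : E m × E m => Pj pt p.1) := hp.smoothPj.comp contDiff_fst
  exact ((hθ.smooth.comp contDiff_fst).mul (hθ.smooth.comp contDiff_snd)).smul
    (((hP.clm_comp (h1.clm_comp hP)).neg).sub (hP.clm_comp hP))

theorem Bt_cpt {m : ℕ} {N : Set (E m)} {pt : E m → E m} {r s : ℝ} {θ : E m → ℝ}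
    {L : E m → E m → E m} (hθ : CutN N r s θ) : HasCompactSupport (Bt θ pt L) := by
  have hc : IsCompact (tsupport θ ×ˢ tsupport θ) := IsCompact.prod hθ.cpt hθ.cpt
  have hz : ∀ A : E m →L[ℝ] E m, (0 : ℝ) • A = 0 := fun A => by
    apply ContinuousLinearMap.ext
    intro x
    exact zero_smul ℝ (A x)
  refine HasCompactSupport.of_support_subset_isCompact hc ?_
  intro p hp
  rw [Function.mem_support] at hp
  constructor
  · refine subset_tsupport θ ?_
    rw [Function.mem_support]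
    intro h0
    exact hp (by unfold Bt; rw [h0, zero_mul]; exact hz _)
  · refine subset_tsupport θ ?_
    rw [Function.mem_support]
    intro h0
    exact hp (by unfold Bt; rw [h0, mul_zero]; exact hz _)

theorem Bt_N {m : ℕ} {N : Set (E m)} {π pt : E m → E m} {δ C s : ℝ} {θ : E m → ℝ}
    {L : E m → E m → E m} (hT : TC N π δ C) (hp : Ext N π δ pt) (hθ : CutN N δ s θ)
    {y q : E m} (hy : y ∈ N) (hq : q ∈ N) (a : E m) :
    Bt θ pt L (y, q) a =
      -(fderiv ℝ π y (fderiv ℝ (fun z => L z q) y (fderiv ℝ π y a))) - fderiv ℝ π y a := by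
  have hδ := hT.pos
  have hy0 : infDist y N ≤ δ := by rw [infDist_zero_of_mem hy]; exact hδ.le
  have hq0 : infDist q N ≤ δ := by rw [infDist_zero_of_mem hq]; exact hδ.le
  have h1 : Bt θ pt L (y, q) = -((fderiv ℝ π y).comp
      ((fderiv ℝ (fun z => L z q) y).comp (fderiv ℝ π y))) -
        (fderiv ℝ π y).comp (fderiv ℝ π y) := by
    show (θ y * θ q) • (-((Pj pt y).comp
      ((fderiv ℝ (fun z => L z (pt q)) (pt y)).comp (Pj pt y))) -
        (Pj pt y).comp (Pj pt y)) = _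
    rw [hθ.one y hy0, hθ.one q hq0, hp.pjN hT hy, hp.eqN hT hy, hp.eqN hT hq, mul_one, one_smul]
  rw [h1]
  show -(fderiv ℝ π y (fderiv ℝ (fun z => L z q) y (fderiv ℝ π y a))) -
    fderiv ℝ π y (fderiv ℝ π y a) = _
  rw [proj_idem hT hy]

theorem Bt_pt {m : ℕ} {N : Set (E m)} {π pt : E m → E m} {δ C s : ℝ} {θ : E m → ℝ}
    {L : E m → E m → E m} (hT : TC N π δ C) (hp : Ext N π δ pt) (hθ : CutN N δ s θ)
    {y q : E m} (hy : infDist y N < 3 * δ) (hq : infDist q N < 3 * δ) :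
    Bt θ pt L (y, q) = (θ y * θ q) • Bt θ pt L (π y, π q) := by
  have hδ := hT.pos
  have hx : π y ∈ N := hT.mem y (by linarith)
  have hz : π q ∈ N := hT.mem q (by linarith)
  have hy0 : infDist (π y) N ≤ δ := by rw [infDist_zero_of_mem hx]; exact hδ.le
  have hq0 : infDist (π q) N ≤ δ := by rw [infDist_zero_of_mem hz]; exact hδ.le
  show (θ y * θ q) • (-((Pj pt y).comp
      ((fderiv ℝ (fun z => L z (pt q)) (pt y)).comp (Pj pt y))) -
        (Pj pt y).comp (Pj pt y)) = (θ y * θ q) • ((θ (π y) * θ (π q)) • (-((Pj pt (π y)).comp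
      ((fderiv ℝ (fun z => L z (pt (π q))) (pt (π y))).comp (Pj pt (π y)))) -
        (Pj pt (π y)).comp (Pj pt (π y))))
  rw [hθ.one _ hy0, hθ.one _ hq0, hp.pj hT hy, hp.pjN hT hx, hp.eqN hT hx, hp.eqN hT hz,
    hp.eq y hy, hp.eq q hq, mul_one, one_smul]

end H79NG
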