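import Pool.Agent.H79.NG.Cutn
import Pool.Agent.H79.NG.Bas

/-!
# [H79 NG EXT] A smooth extension of `π` with compact support

`exists_ext`: take `θ` from `exists_cutN` with `r = 3 δ`, `s = 7 δ / 2` and
`pt y = θ y • π y`. It is `C^∞`: near a point with `infDist < 4 δ` as a product of smooth maps
(`smAt`); near a point with `7 δ / 2 < infDist` it vanishes. The support is contained in the support
of `θ`.
The other statements: `pt = π` on the open set `{infDist < 3 δ}`, so the derivatives agree there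
(`Filter.EventuallyEq.fderiv_eq`, also for `fderiv ℝ pt`); `π y ∈ N` has `infDist = 0`;
`Pj pt y = fderiv ℝ pt (pt y)`. `der_pjN`: chain rule, `pt y = y`, derivative of `pt` at `y` is
`fderiv ℝ π y`, derivative of `fderiv ℝ pt` at `y` is `D2 π y`.
-/

set_option autoImplicit false

namespace H79NG

open H60NH H60NT Metric Set Filter Topology
open scoped NNReal ContDiff

theorem exists_ext {m : ℕ} {N : Set (E m)} {π : E m → E m} {δ C : ℝ} (hT : TC N π δ C) :
    ∃ pt : E m → E m, Ext N π δ pt := by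
  have hδ := hT.pos
  obtain ⟨θ, hθ⟩ := exists_cutN hT.compact hT.nonempty (r := 3 * δ) (s := 7 * δ / 2)
    (by linarith) (by linarith)
  refine ⟨fun y => θ y • π y, ?_, ?_, ?_⟩
  · rw [contDiff_iff_contDiffAt]
    intro y
    by_cases h : infDist y N < 4 * δ
    · exact hθ.smooth.contDiffAt.smul (smAt hT h)
    · have h1 : (fun y => θ y • π y) =ᶠ[𝓝 y] fun _ => 0 := by
        have h2 : IsOpen {z : E m | 7 * δ / 2 < infDist z N} :=
          isOpen_lt continuous_const (continuous_infDist_pt N)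
        filter_upwards [h2.mem_nhds (show 7 * δ / 2 < infDist y N by
          have := not_lt.mp h; linarith)] with z hz
        rw [hθ.zero z (le_of_lt hz), zero_smul]
      exact contDiffAt_const.congr_of_eventuallyEq h1
  · exact hθ.cpt.smul_right
  · intro y hy
    show θ y • π y = π y
    rw [hθ.one y hy.le, one_smul]

theorem Ext.fd {m : ℕ} {N : Set (E m)} {π pt : E m → E m} {δ : ℝ} (hp : Ext N π δ pt) {y : E m}
    (hy : infDist y N < 3 * δ) : fderiv ℝ pt y = fderiv ℝ π y := by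
  have h : pt =ᶠ[𝓝 y] π := by
    filter_upwards [(nbhdN N (3 * δ)).mem_nhds hy] with z hz
    exact hp.eq z hz
  exact h.fderiv_eq

theorem Ext.fd2 {m : ℕ} {N : Set (E m)} {π pt : E m → E m} {δ : ℝ} (hp : Ext N π δ pt) {y : E m}
    (hy : infDist y N < 3 * δ) : fderiv ℝ (fderiv ℝ pt) y = D2 π y := by
  have h : fderiv ℝ pt =ᶠ[𝓝 y] fderiv ℝ π := by
    filter_upwards [(nbhdN N (3 * δ)).mem_nhds hy] with z hz
    exact hp.fd hz
  exact h.fderiv_eq

theorem Ext.mem {m : ℕ} {N : Set (E m)} {π pt : E m → E m} {δ C : ℝ} (hT : TC N π δ C)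
    (hp : Ext N π δ pt) {y : E m} (hy : infDist y N < 3 * δ) : pt y ∈ N := by
  rw [hp.eq y hy]
  exact hT.mem y (by have := hT.pos; linarith)

theorem Ext.eqN {m : ℕ} {N : Set (E m)} {π pt : E m → E m} {δ C : ℝ} (hT : TC N π δ C)
    (hp : Ext N π δ pt) {y : E m} (hy : y ∈ N) : pt y = y := by
  rw [hp.eq y (inf_lt hT hy (by norm_num)), hT.fixed y hy]

theorem Ext.pj {m : ℕ} {N : Set (E m)} {π pt : E m → E m} {δ C : ℝ} (hT : TC N π δ C)
    (hp : Ext N π δ pt) {y : E m} (hy : infDist y N < 3 * δ) :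
    Pj pt y = fderiv ℝ π (π y) := by
  unfold Pj
  rw [hp.eq y hy]
  exact hp.fd (inf_lt hT (hT.mem y (by have := hT.pos; linarith)) (by norm_num))

theorem Ext.pjN {m : ℕ} {N : Set (E m)} {π pt : E m → E m} {δ C : ℝ} (hT : TC N π δ C)
    (hp : Ext N π δ pt) {y : E m} (hy : y ∈ N) : Pj pt y = fderiv ℝ π y := by
  rw [hp.pj hT (inf_lt hT hy (by norm_num)), hT.fixed y hy]

theorem Ext.smoothPj {m : ℕ} {N : Set (E m)} {π pt : E m → E m} {δ : ℝ} (hp : Ext N π δ pt) :
    ContDiff ℝ ∞ (Pj pt) := by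
  have h : ContDiff ℝ ∞ (fderiv ℝ pt) := hp.smooth.fderiv_right (by simp)
  exact h.comp hp.smooth

theorem Ext.derN {m : ℕ} {N : Set (E m)} {π pt : E m → E m} {δ C : ℝ} (hT : TC N π δ C)
    (hp : Ext N π δ pt) {y : E m} (hy : y ∈ N) : HasFDerivAt pt (fderiv ℝ π y) y := by
  have h : pt =ᶠ[𝓝 y] π := by
    filter_upwards [(nbhdN N (3 * δ)).mem_nhds (inf_lt hT hy (by norm_num))] with z hz
    exact hp.eq z hz
  exact (hasFD hT (inf_lt hT hy (by norm_num))).congr_of_eventuallyEq h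

theorem Ext.der_pjN {m : ℕ} {N : Set (E m)} {π pt : E m → E m} {δ C : ℝ} (hT : TC N π δ C)
    (hp : Ext N π δ pt) {y : E m} (hy : y ∈ N) :
    HasFDerivAt (Pj pt) ((D2 π y).comp (fderiv ℝ π y)) y := by
  have h1 : HasFDerivAt pt (fderiv ℝ π y) y := hp.derN hT hy
  have h2 : HasFDerivAt (fderiv ℝ pt) (D2 π y) (pt y) := by
    rw [hp.eqN hT hy, ← hp.fd2 (inf_lt hT hy (by norm_num))]
    have h3 : ContDiff ℝ ∞ (fderiv ℝ pt) := hp.smooth.fderiv_right (by simp)
    exact (h3.differentiable (by simp) y).hasFDerivAt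
  exact h2.comp y h1

end H79NG
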