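import Mathlib

/-!
# [H79 NG CCB] Bounds for smooth functions with compact support (Mathlib only)

`f`, `fderiv ℝ f`, `fderiv ℝ (fderiv ℝ f)`, `fderiv ℝ (fderiv ℝ (fderiv ℝ f))` are continuous with compact
support (`HasCompactSupport.fderiv`), hence bounded
(`Continuous.bounded_above_of_compact_support`); the Lipschitz bounds follow from the mean value
inequality `Convex.norm_image_sub_le_of_norm_fderiv_le` on `univ`. `M` = the maximum.
-/

set_option autoImplicit false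

namespace H79NG

open Metric Set Filter Topology
open scoped NNReal ContDiff

private theorem ccb_one {W X : Type*} [NormedAddCommGroup W] [NormedSpace ℝ W]
    [NormedAddCommGroup X] [NormedSpace ℝ X] {f : W → X} (hf : ContDiff ℝ ∞ f)
    (hc : HasCompactSupport f) :
    ∃ M : ℝ, 0 ≤ M ∧ (∀ x, ‖f x‖ ≤ M) ∧ (∀ x y, ‖f x - f y‖ ≤ M * ‖x - y‖) := by
  have h1 : Continuous (fderiv ℝ f) := hf.continuous_fderiv (by simp)
  have c1 : HasCompactSupport (fderiv ℝ f) := hc.fderiv (𝕜 := ℝ)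
  obtain ⟨M0, hM0⟩ := hc.exists_bound_of_continuous hf.continuous
  obtain ⟨M1, hM1⟩ := c1.exists_bound_of_continuous h1
  have hp0 : 0 ≤ M0 := (norm_nonneg _).trans (hM0 0)
  have hp1 : 0 ≤ M1 := (norm_nonneg _).trans (hM1 0)
  have d0 : Differentiable ℝ f := hf.differentiable (by simp)
  refine ⟨M0 + M1, by linarith, ?_, ?_⟩
  · intro x
    have := hM0 x
    linarith
  · intro x y
    exact Convex.norm_image_sub_le_of_norm_fderiv_le (𝕜 := ℝ) (fun z _ => d0 z)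
      (fun z _ => by have := hM1 z; linarith) convex_univ (mem_univ y) (mem_univ x)

theorem cc_bounds {W W' : Type*} [NormedAddCommGroup W] [NormedSpace ℝ W]
    [NormedAddCommGroup W'] [NormedSpace ℝ W'] {f : W → W'} (hf : ContDiff ℝ ∞ f)
    (hc : HasCompactSupport f) :
    ∃ M : ℝ, 0 ≤ M ∧ (∀ x, ‖f x‖ ≤ M) ∧ (∀ x, ‖fderiv ℝ f x‖ ≤ M) ∧
      (∀ x, ‖fderiv ℝ (fderiv ℝ f) x‖ ≤ M) ∧ (∀ x y, ‖f x - f y‖ ≤ M * ‖x - y‖) ∧
      (∀ x y, ‖fderiv ℝ f x - fderiv ℝ f y‖ ≤ M * ‖x - y‖) ∧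
      ∀ x y, ‖fderiv ℝ (fderiv ℝ f) x - fderiv ℝ (fderiv ℝ f) y‖ ≤ M * ‖x - y‖ := by
  have h1 : ContDiff ℝ ∞ (fderiv ℝ f) := hf.fderiv_right (m := ∞) (by simp)
  have h2 : ContDiff ℝ ∞ (fderiv ℝ (fderiv ℝ f)) := h1.fderiv_right (m := ∞) (by simp)
  have c1 : HasCompactSupport (fderiv ℝ f) := hc.fderiv (𝕜 := ℝ)
  have c2 : HasCompactSupport (fderiv ℝ (fderiv ℝ f)) := c1.fderiv (𝕜 := ℝ)
  obtain ⟨M0, hp0, hM0, hL0⟩ := ccb_one hf hc
  obtain ⟨M1, hp1, hM1, hL1⟩ := ccb_one h1 c1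
  obtain ⟨M2, hp2, hM2, hL2⟩ := ccb_one h2 c2
  refine ⟨M0 + M1 + M2, by linarith, ?_, ?_, ?_, ?_, ?_, ?_⟩
  · intro x
    exact (hM0 x).trans (by linarith)
  · intro x
    exact (hM1 x).trans (by linarith)
  · intro x
    exact (hM2 x).trans (by linarith)
  · intro x y
    exact (hL0 x y).trans (mul_le_mul_of_nonneg_right (by linarith) (norm_nonneg _))
  · intro x y
    exact (hL1 x y).trans (mul_le_mul_of_nonneg_right (by linarith) (norm_nonneg _))
  · intro x y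
    exact (hL2 x y).trans (mul_le_mul_of_nonneg_right (by linarith) (norm_nonneg _))

end H79NG
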