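import Mathlib
import Pool.Agent.H79.NG.Ccb

/-!
# [H79 NG TAY] Order of vanishing on the diagonal and derivatives (Mathlib only + CCB)

Let `M` be from `cc_bounds` for `f`.
`taylor2`: at a diagonal point `z = (y,y)`: for `h = (h₁,h₂)`, `‖f(z+h)‖ ≤ C ‖h₁ - h₂‖² ≤ 4 C ‖h‖²`
(here `C` may be replaced by `|C|`), and `f z = 0`, so `HasFDerivAt f 0 z`, i.e. `Df(z) = 0`. Then
`‖Df(y,q)‖ = ‖Df(y,q) - Df(y,y)‖ ≤ M ‖(0, q - y)‖ = M ‖y - q‖`.
`taylor3`: again `f z = 0` and `Df(z) = 0` (as `‖f(z+h)‖ ≤ 8 |C| ‖h‖³`). Claim `D²f(z) = 0`: the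
symmetric bilinear form `D²f(z)` satisfies `D²f(z)(h,h) = 0` for every `h`: by Taylor's formula
`f(z + t h) = (t²/2) D²f(z)(h,h) + o(t²)` (`Convex.taylor_approx_two_segment` with `s = univ`, `v = 0`
in the direction `w = h`; or, for a fixed `w ∈ W'`... use the mean value inequality twice:
`‖Df(z+h) - D²f(z) h‖ ≤ M ‖h‖²` since `D²f` is `M`-Lipschitz, and therefore
`‖f(z+h) - (1/2) D²f(z)(h,h)‖ ≤ M ‖h‖³` by the mean value inequality for
`h ↦ f(z+h) - (1/2) D²f(z)(h,h)`, whose derivative at `h` is `Df(z+h) - D²f(z) h` by the symmetry of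
`D²f(z)`, `ContDiffAt.isSymmSndFDerivAt`). So `‖D²f(z)(th,th)‖ ≤ C' ‖th‖³` for all `t`, i.e.
`‖D²f(z)(h,h)‖ ≤ C' t ‖h‖³`, `t → 0`. Polarization (symmetry) gives `D²f(z) = 0`. Hence
`‖D²f(x)‖ ≤ M ‖x - z‖`, and `‖Df(y,q)‖ ≤ M ‖y - q‖²` by the mean value inequality on the segment from
`(y,y)` to `(y,q)` (all its points are within `‖y - q‖` of `(y,y)`).
-/

set_option autoImplicit false

namespace H79NG

open Metric Set Filter Topology
open scoped NNReal ContDiff

/-- Mean value inequality with a power. -/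
theorem tay_mvt {E F : Type*} [NormedAddCommGroup E] [NormedSpace ℝ E]
    [NormedAddCommGroup F] [NormedSpace ℝ F] {φ : E → F} {φ' : E → E →L[ℝ] F} {M : ℝ} {k : ℕ}
    (hM : 0 ≤ M) (hd : ∀ x, HasFDerivAt φ (φ' x) x) (h0 : φ 0 = 0)
    (hb : ∀ x, ‖φ' x‖ ≤ M * ‖x‖ ^ k) (h : E) : ‖φ h‖ ≤ M * ‖h‖ ^ (k + 1) := by
  have h1 := (convex_closedBall (0 : E) ‖h‖).norm_image_sub_le_of_norm_hasFDerivWithin_le
    (f := φ) (f' := φ') (C := M * ‖h‖ ^ k) (x := 0) (y := h)
    (fun x _ => (hd x).hasFDerivWithinAt) (fun x hx => by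
      have h2 : ‖x‖ ≤ ‖h‖ := by simpa using hx
      calc ‖φ' x‖ ≤ M * ‖x‖ ^ k := hb x
        _ ≤ M * ‖h‖ ^ k := by gcongr) (by simp) (by simp)
  rw [h0, sub_zero, sub_zero] at h1
  calc ‖φ h‖ ≤ M * ‖h‖ ^ k * ‖h‖ := h1
    _ = M * ‖h‖ ^ (k + 1) := by ring

theorem tay_diag {V W : Type*} [NormedAddCommGroup V]
    [NormedAddCommGroup W] {f : V × V → W} {C : ℝ} {n : ℕ} (h : ∀ y q, ‖f (y, q)‖ ≤ C * ‖y - q‖ ^ n)
    (y : V) (x : V × V) : ‖f ((y, y) + x)‖ ≤ (|C| * 2 ^ n) * ‖x‖ ^ n := by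
  have h1 := h (y + x.1) (y + x.2)
  have h2 : ‖(y + x.1) - (y + x.2)‖ ≤ 2 * ‖x‖ := by
    have h3 : (y + x.1) - (y + x.2) = x.1 - x.2 := by abel
    rw [h3]
    calc ‖x.1 - x.2‖ ≤ ‖x.1‖ + ‖x.2‖ := norm_sub_le _ _
      _ ≤ ‖x‖ + ‖x‖ := add_le_add (norm_fst_le x) (norm_snd_le x)
      _ = 2 * ‖x‖ := by ring
  have h4 : ((y, y) + x : V × V) = (y + x.1, y + x.2) := rfl
  rw [h4]
  calc ‖f (y + x.1, y + x.2)‖ ≤ C * ‖(y + x.1) - (y + x.2)‖ ^ n := h1
    _ ≤ |C| * ‖(y + x.1) - (y + x.2)‖ ^ n := by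
        gcongr
        exact le_abs_self C
    _ ≤ |C| * (2 * ‖x‖) ^ n := by gcongr
    _ = (|C| * 2 ^ n) * ‖x‖ ^ n := by rw [mul_pow]; ring

theorem tay_zero {V W : Type*} [NormedAddCommGroup V]
    [NormedAddCommGroup W] {f : V × V → W} {C : ℝ} {n : ℕ} (hn : 1 < n)
    (h : ∀ y q, ‖f (y, q)‖ ≤ C * ‖y - q‖ ^ n) (y : V) : f (y, y) = 0 := by
  have h1 := h y y
  rw [sub_self, norm_zero, zero_pow (by omega), mul_zero] at h1
  exact norm_le_zero_iff.mp h1

theorem tay_fderiv {V W : Type*} [NormedAddCommGroup V] [NormedSpace ℝ V]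
    [NormedAddCommGroup W] [NormedSpace ℝ W] {f : V × V → W} {C : ℝ} {n : ℕ} (hn : 1 < n)
    (h : ∀ y q, ‖f (y, q)‖ ≤ C * ‖y - q‖ ^ n) (y : V) : fderiv ℝ f (y, y) = 0 := by
  have h1 : f =O[𝓝 (y, y)] fun x => ‖x - (y, y)‖ ^ n := by
    refine Asymptotics.IsBigO.of_bound (|C| * 2 ^ n) (Eventually.of_forall fun x => ?_)
    have h2 := tay_diag h y (x - (y, y))
    rw [add_sub_cancel] at h2
    rw [norm_pow, norm_norm]
    exact h2
  exact (h1.hasFDerivAt hn).fderiv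

theorem taylor2 {V W : Type*} [NormedAddCommGroup V] [NormedSpace ℝ V]
    [NormedAddCommGroup W] [NormedSpace ℝ W] {f : V × V → W} (hf : ContDiff ℝ ∞ f)
    (hc : HasCompactSupport f) {C : ℝ} (h : ∀ y q, ‖f (y, q)‖ ≤ C * ‖y - q‖ ^ 2) :
    ∃ C' : ℝ, 0 ≤ C' ∧ ∀ y q, ‖fderiv ℝ f (y, q)‖ ≤ C' * ‖y - q‖ := by
  obtain ⟨M, hM, -, -, -, -, hL, -⟩ := cc_bounds hf hc
  refine ⟨M, hM, fun y q => ?_⟩
  have h1 := hL (y, q) (y, y)
  rw [tay_fderiv one_lt_two h y, sub_zero] at h1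
  have h2 : ‖((y, q) : V × V) - (y, y)‖ = ‖y - q‖ := by
    rw [Prod.mk_sub_mk, sub_self, Prod.norm_mk, norm_zero, max_eq_right (norm_nonneg _),
      norm_sub_rev]
  rwa [h2] at h1

theorem taylor3 {V W : Type*} [NormedAddCommGroup V] [NormedSpace ℝ V]
    [NormedAddCommGroup W] [NormedSpace ℝ W] {f : V × V → W} (hf : ContDiff ℝ ∞ f)
    (hc : HasCompactSupport f) {C : ℝ} (h : ∀ y q, ‖f (y, q)‖ ≤ C * ‖y - q‖ ^ 3) :
    ∃ C' : ℝ, 0 ≤ C' ∧ ∀ y q, ‖fderiv ℝ f (y, q)‖ ≤ C' * ‖y - q‖ ^ 2 := by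
  obtain ⟨M, hM, -, -, -, -, -, hL2⟩ := cc_bounds hf hc
  have hfd : Differentiable ℝ f := hf.differentiable (by simp)
  have hf1 : ContDiff ℝ ∞ (fderiv ℝ f) := hf.fderiv_right (by simp)
  have hfd1 : Differentiable ℝ (fderiv ℝ f) := hf1.differentiable (by simp)
  -- the second derivative vanishes on the diagonal
  have key : ∀ y, fderiv ℝ (fderiv ℝ f) (y, y) = 0 := by
    intro y
    set z : V × V := (y, y) with hz
    set B := fderiv ℝ (fderiv ℝ f) z with hB
    have hsym : ∀ a b, B a b = B b a := by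
      intro a b
      have h1 : IsSymmSndFDerivAt ℝ f z := by
        refine (hf.contDiffAt (x := z)).isSymmSndFDerivAt ?_
        rw [minSmoothness_of_isRCLikeNormedField]
        exact WithTop.coe_le_coe.mpr le_top
      exact h1.eq a b
    have h1 : ∀ x, ‖fderiv ℝ f (z + x) - B x‖ ≤ M * ‖x‖ ^ (1 + 1) := by
      refine tay_mvt (φ' := fun x => fderiv ℝ (fderiv ℝ f) (z + x) - B) hM (fun x => ?_) ?_
        (fun x => ?_)
      · have h2 : HasFDerivAt (fun x => fderiv ℝ f (z + x)) (fderiv ℝ (fderiv ℝ f) (z + x)) x := by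
          have h3 := (hfd1 (z + x)).hasFDerivAt.comp x
            ((hasFDerivAt_id x).const_add z)
          exact h3
        exact h2.sub B.hasFDerivAt
      · simp only [add_zero, map_zero, sub_zero]
        exact tay_fderiv (by norm_num) h y
      · have h2 := hL2 (z + x) z
        rw [add_sub_cancel_left] at h2
        rw [pow_one]
        exact h2
    have h2 : ∀ x, ‖f (z + x) - (1 / 2 : ℝ) • B x x‖ ≤ M * ‖x‖ ^ (2 + 1) := by
      refine tay_mvt (φ' := fun x => fderiv ℝ f (z + x) - B x) hM (fun x => ?_) ?_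
        (fun x => h1 x)
      · have h2 : HasFDerivAt (fun x => f (z + x)) (fderiv ℝ f (z + x)) x := by
          have h3 := (hfd (z + x)).hasFDerivAt.comp x
            ((hasFDerivAt_id x).const_add z)
          exact h3
        have h3 : HasFDerivAt (fun x => B x x) ((2 : ℝ) • B x) x := by
          have h4 := (B.hasFDerivAt (x := x)).clm_apply (hasFDerivAt_id x)
          have h5 : (B x).comp (ContinuousLinearMap.id ℝ (V × V)) + (B.flip) (id x) =
              (2 : ℝ) • B x := by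
            refine ContinuousLinearMap.ext fun w => ?_
            change B x w + B w x = (2 : ℝ) • B x w
            rw [hsym w x, two_smul]
          rw [h5] at h4
          exact h4
        have h4 := h3.const_smul (1 / 2 : ℝ)
        rw [smul_smul] at h4
        norm_num at h4
        have h5 := h2.sub h4
        norm_num
        exact h5
      · simp only [add_zero, map_zero, smul_zero, sub_zero]
        exact tay_zero (by norm_num) h y
    have h3 : ∀ x, ‖B x x‖ ≤ (2 * (M + |C| * 2 ^ 3)) * ‖x‖ ^ 3 := by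
      intro x
      have h4 := h2 x
      have h5 := tay_diag h y x
      have h6 : B x x = (2 : ℝ) • (f (z + x) - (f (z + x) - (1 / 2 : ℝ) • B x x)) := by
        rw [sub_sub_cancel, smul_smul]
        norm_num
      rw [h6, norm_smul]
      have h7 := norm_sub_le (f (z + x)) (f (z + x) - (1 / 2 : ℝ) • B x x)
      rw [Real.norm_eq_abs, abs_of_pos (by norm_num : (0 : ℝ) < 2)]
      have h8 : M * ‖x‖ ^ (2 + 1) = M * ‖x‖ ^ 3 := by norm_num
      rw [h8] at h4
      nlinarith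
    have h4 : ∀ x, B x x = 0 := by
      intro x
      by_contra hne
      have hpos : 0 < ‖B x x‖ := norm_pos_iff.mpr hne
      set K := 2 * (M + |C| * 2 ^ 3) with hK
      have hK0 : 0 ≤ K := by positivity
      have h5 : ∀ t : ℝ, 0 < t → ‖B x x‖ ≤ K * ‖x‖ ^ 3 * t := by
        intro t ht
        have h6 := h3 (t • x)
        have h7 : B (t • x) (t • x) = (t ^ 2) • B x x := by
          rw [map_smul (B (t • x)) t x, map_smul B t x]
          change t • t • B x x = t ^ 2 • B x x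
          rw [smul_smul, sq]
        rw [h7, norm_smul, norm_smul, Real.norm_eq_abs, Real.norm_eq_abs, abs_of_pos ht,
          abs_of_pos (by positivity)] at h6
        have h8 : t ^ 2 * ‖B x x‖ ≤ t ^ 2 * (K * ‖x‖ ^ 3 * t) := by
          calc t ^ 2 * ‖B x x‖ ≤ K * (t * ‖x‖) ^ 3 := h6
            _ = t ^ 2 * (K * ‖x‖ ^ 3 * t) := by ring
        exact le_of_mul_le_mul_left h8 (by positivity)
      have h6 : 0 ≤ K * ‖x‖ ^ 3 := by positivity
      have h7 := h5 (‖B x x‖ / (2 * (K * ‖x‖ ^ 3 + 1))) (by positivity)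
      have h8 : K * ‖x‖ ^ 3 * (‖B x x‖ / (2 * (K * ‖x‖ ^ 3 + 1))) ≤ ‖B x x‖ / 2 := by
        rw [mul_div_assoc', div_le_div_iff₀ (by positivity) (by norm_num)]
        nlinarith
      linarith
    refine ContinuousLinearMap.ext fun a => ContinuousLinearMap.ext fun b => ?_
    have h5 := h4 (a + b)
    have h6 : B (a + b) (a + b) = B a a + B b a + (B a b + B b b) := by
      rw [map_add B a b]
      change B a (a + b) + B b (a + b) = _
      rw [map_add, map_add]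
      abel
    rw [h6, h4 a, h4 b, hsym b a, zero_add, add_zero, ← two_smul ℝ] at h5
    have h8 := (smul_eq_zero.mp h5).resolve_left (by norm_num)
    exact h8
  refine ⟨M, hM, fun y q => ?_⟩
  have h1 := tay_mvt (φ := fun v : V => fderiv ℝ f (y, y + v))
    (φ' := fun v => (fderiv ℝ (fderiv ℝ f) (y, y + v)).comp (ContinuousLinearMap.inr ℝ V V))
    (M := M) (k := 1) hM (fun v => ?_) ?_ (fun v => ?_) (q - y)
  · rw [add_sub_cancel, norm_sub_rev] at h1
    exact h1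
  · have h4 : HasFDerivAt (fun v : V => (y, y + v)) (ContinuousLinearMap.inr ℝ V V) v :=
      (hasFDerivAt_const y v).prodMk ((hasFDerivAt_id v).const_add y)
    exact HasFDerivAt.comp v (hfd1 (y, y + v)).hasFDerivAt h4
  · simp only [add_zero]
    exact tay_fderiv (by norm_num) h y
  · have h2 := hL2 (y, y + v) (y, y)
    rw [key y, sub_zero, Prod.mk_sub_mk, sub_self, add_sub_cancel_left, Prod.norm_mk, norm_zero,
      max_eq_right (norm_nonneg _)] at h2
    rw [pow_one]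
    calc ‖(fderiv ℝ (fderiv ℝ f) (y, y + v)).comp (ContinuousLinearMap.inr ℝ V V)‖
        ≤ ‖fderiv ℝ (fderiv ℝ f) (y, y + v)‖ * ‖ContinuousLinearMap.inr ℝ V V‖ :=
          ContinuousLinearMap.opNorm_comp_le _ _
      _ ≤ ‖fderiv ℝ (fderiv ℝ f) (y, y + v)‖ * 1 := by
          gcongr
          exact ContinuousLinearMap.norm_inr_le_one ℝ V V
      _ ≤ M * ‖v‖ := by rw [mul_one]; exact h2

end H79NG
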