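import Pool.Agent.H79.NG.Kfn
import Pool.Agent.H79.NG.Tay
import Pool.Agent.H79.NG.Extn
import Pool.Agent.H79.NG.Bas

/-!
# [H79 NG KDE] Derivatives of `L` near the diagonal

Take `pt`, `θ` (`exists_ext`, `exists_cutN` with `r = δ`, `s = 2 δ`), `C₁` from `Kf_bd` and `C₂` from `taylor3`
(`‖D Kf(y,q)‖ ≤ C₂ ‖y - q‖²`).
1. For `y, q ∈ N`: `Kf(y,q) = L y q - Dπ(y)(q - y)` (`Kf_nhds`, `π y = y`).
2. For `z` near `y` (`infDist z N < δ`): `L (π z) q = Kf(z,q) + Dπ(π z)(q - π z)`. Differentiate at `z = y` in a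
tangent direction `a` (`hasFD`, `hasFD2`, `π y = y`, `Dπ(y) a = a`):
`fderiv ℝ (fun z => L z q) y a = D Kf(y,q)(a,0) + D2 π y a (q - y) - Dπ(y) a`.
3. For `z` near `q`: `L y (π z) = Kf(y,z) + Dπ(y)(π z - y)`; derivative at `z = q` in a direction `b` tangent at
`q`: `fderiv ℝ (fun z => L y z) q b = D Kf(y,q)(0,b) + Dπ(y) b`.
(`L` is smooth, so `fun z => L z q` is differentiable everywhere; the chain rule with `π` at `y`.)
-/

set_option autoImplicit false

namespace H79NG

open H60NH H60NT Metric Set Filter Topology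
open scoped NNReal ContDiff

theorem dL_near {m : ℕ} {N : Set (E m)} {π : E m → E m} {δ C v₀ : ℝ} {Ex L : E m → E m → E m}
    (hT : TC N π δ C) (hX : ExpS N π Ex v₀) (hL : LogS N π Ex L v₀) :
    ∃ C' : ℝ, 0 ≤ C' ∧
      (∀ y ∈ N, ∀ q ∈ N, ‖L y q - fderiv ℝ π y (q - y)‖ ≤ C' * ‖y - q‖ ^ 3) ∧
      (∀ y ∈ N, ∀ q ∈ N, ∀ a, fderiv ℝ π y a = a →
        ‖fderiv ℝ (fun z => L z q) y a - (D2 π y a (q - y) - fderiv ℝ π y a)‖ ≤
          C' * ‖y - q‖ ^ 2 * ‖a‖) ∧
      ∀ y ∈ N, ∀ q ∈ N, ∀ b, fderiv ℝ π q b = b →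
        ‖fderiv ℝ (fun z => L y z) q b - fderiv ℝ π y b‖ ≤ C' * ‖y - q‖ ^ 2 * ‖b‖ := by
  obtain ⟨pt, hp⟩ := exists_ext hT
  obtain ⟨θ, hθ⟩ := exists_cutN hT.compact hT.nonempty hT.pos
    (show δ < 2 * δ by have := hT.pos; linarith)
  obtain ⟨C₁, hC1, k1⟩ := Kf_bd hT hX hL hp hθ
  have hKs : ContDiff ℝ ∞ (Kf θ pt L) := Kf_smooth hL hp hθ
  obtain ⟨C₂, hC2, k2⟩ := taylor3 hKs (Kf_cpt hθ) k1
  have hδ := hT.pos
  have hK : ∀ x : E m × E m, HasFDerivAt (Kf θ pt L) (fderiv ℝ (Kf θ pt L) x) x :=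
    fun x => (hKs.differentiable (by simp) x).hasFDerivAt
  have hLs : ∀ x : E m × E m, DifferentiableAt ℝ (fun p : E m × E m => L p.1 p.2) x :=
    fun x => hL.smooth.differentiable (by simp) x
  have hL1 : ∀ y q, HasFDerivAt (fun z => L z q) (fderiv ℝ (fun z => L z q) y) y := by
    intro y q
    have h0 : DifferentiableAt ℝ (fun z : E m => (z, q)) y :=
      (differentiableAt_id).prodMk (differentiableAt_const q)
    have h1 : DifferentiableAt ℝ (fun z => L z q) y :=
      DifferentiableAt.comp (g := fun p : E m × E m => L p.1 p.2) (f := fun z : E m => (z, q)) y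
        (hLs (y, q)) h0
    exact h1.hasFDerivAt
  have hL2 : ∀ y q, HasFDerivAt (fun z => L y z) (fderiv ℝ (fun z => L y z) q) q := by
    intro y q
    have h0 : DifferentiableAt ℝ (fun z : E m => (y, z)) q :=
      (differentiableAt_const y).prodMk (differentiableAt_id)
    have h1 : DifferentiableAt ℝ (fun z => L y z) q :=
      DifferentiableAt.comp (g := fun p : E m × E m => L p.1 p.2) (f := fun z : E m => (y, z)) q
        (hLs (y, q)) h0
    exact h1.hasFDerivAt
  have hlt : ∀ y ∈ N, infDist y N < δ := fun y hy => by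
    rw [infDist_zero_of_mem hy]; exact hδ
  refine ⟨C₁ + C₂, by linarith, ?_, ?_, ?_⟩
  · intro y hy q hq
    have h1 := Kf_nhds (L := L) hT hp hθ (hlt y hy) (hlt q hq)
    rw [hT.fixed y hy, hT.fixed q hq] at h1
    rw [← h1]
    exact (k1 y q).trans (mul_le_mul_of_nonneg_right (by linarith) (by positivity))
  · intro y hy q hq a ha
    have hy4 : infDist y N < 4 * δ := inf_lt hT hy (by norm_num)
    have h1 : (fun z => L (π z) q) =ᶠ[𝓝 y]
        fun z => Kf θ pt L (z, q) + fderiv ℝ π (π z) (q - π z) := by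
      filter_upwards [(nbhdN N δ).mem_nhds (hlt y hy)] with z hz
      rw [Kf_nhds (L := L) hT hp hθ hz (hlt q hq), hT.fixed q hq]
      abel
    have hπ : HasFDerivAt π (fderiv ℝ π y) y := hasFD hT hy4
    have hπy : π y = y := hT.fixed y hy
    have h2 : HasFDerivAt (fun z => L (π z) q)
        ((fderiv ℝ (fun z => L z q) y).comp (fderiv ℝ π y)) y := by
      have h3 : HasFDerivAt (fun z => L z q) (fderiv ℝ (fun z => L z q) y) (π y) := by
        rw [hπy]; exact hL1 y q
      exact h3.comp y hπ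
    have h40 : HasFDerivAt (fun z : E m => (z, q)) ((ContinuousLinearMap.id ℝ (E m)).prod 0) y :=
      (hasFDerivAt_id y).prodMk (hasFDerivAt_const q y)
    have h4 : HasFDerivAt (fun z => Kf θ pt L (z, q))
        ((fderiv ℝ (Kf θ pt L) (y, q)).comp ((ContinuousLinearMap.id ℝ (E m)).prod 0)) y :=
      HasFDerivAt.comp (g := Kf θ pt L) (f := fun z : E m => (z, q)) y (hK (y, q)) h40
    have h5 : HasFDerivAt (fun z => fderiv ℝ π (π z)) ((D2 π y).comp (fderiv ℝ π y)) y := by
      have h6 : HasFDerivAt (fderiv ℝ π) (D2 π y) (π y) := by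
        rw [hπy]; exact hasFD2 hT hy4
      exact h6.comp y hπ
    have h7 := h4.add (h5.clm_apply ((hasFDerivAt_const q y).sub hπ))
    have h8 := (h2.congr_of_eventuallyEq h1.symm).unique h7
    have h9 := congrArg (fun M : E m →L[ℝ] E m => M a) h8
    simp only [ContinuousLinearMap.comp_apply, add_apply,
      ContinuousLinearMap.prod_apply, Pi.sub_apply, neg_apply,
      zero_apply, ContinuousLinearMap.flip_apply, hπy, ha, zero_sub,
      ContinuousLinearMap.id_apply, map_neg] at h9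
    have h10 : fderiv ℝ (fun z => L z q) y a - (D2 π y a (q - y) - fderiv ℝ π y a) =
        fderiv ℝ (Kf θ pt L) (y, q) (a, 0) := by
      rw [h9, ha]
      abel
    rw [h10]
    calc ‖fderiv ℝ (Kf θ pt L) (y, q) (a, 0)‖ ≤ ‖fderiv ℝ (Kf θ pt L) (y, q)‖ * ‖(a, (0 : E m))‖ :=
          ContinuousLinearMap.le_opNorm _ _
      _ ≤ ((C₁ + C₂) * ‖y - q‖ ^ 2) * ‖a‖ := by
          refine mul_le_mul ((k2 y q).trans (mul_le_mul_of_nonneg_right (by linarith)
            (sq_nonneg _))) ?_ (norm_nonneg _) (by positivity)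
          rw [Prod.norm_mk, norm_zero, max_eq_left (norm_nonneg _)]
  · intro y hy q hq b hb
    have hq4 : infDist q N < 4 * δ := inf_lt hT hq (by norm_num)
    have h1 : (fun z => L y (π z)) =ᶠ[𝓝 q]
        fun z => Kf θ pt L (y, z) + fderiv ℝ π y (π z - y) := by
      filter_upwards [(nbhdN N δ).mem_nhds (hlt q hq)] with z hz
      rw [Kf_nhds (L := L) hT hp hθ (hlt y hy) hz, hT.fixed y hy]
      abel
    have hπ : HasFDerivAt π (fderiv ℝ π q) q := hasFD hT hq4
    have hπq : π q = q := hT.fixed q hq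
    have h2 : HasFDerivAt (fun z => L y (π z))
        ((fderiv ℝ (fun z => L y z) q).comp (fderiv ℝ π q)) q := by
      have h3 : HasFDerivAt (fun z => L y z) (fderiv ℝ (fun z => L y z) q) (π q) := by
        rw [hπq]; exact hL2 y q
      exact h3.comp q hπ
    have h40 : HasFDerivAt (fun z : E m => (y, z))
        ((0 : E m →L[ℝ] E m).prod (ContinuousLinearMap.id ℝ (E m))) q :=
      (hasFDerivAt_const y q).prodMk (hasFDerivAt_id q)
    have h4 : HasFDerivAt (fun z => Kf θ pt L (y, z))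
        ((fderiv ℝ (Kf θ pt L) (y, q)).comp
          ((0 : E m →L[ℝ] E m).prod (ContinuousLinearMap.id ℝ (E m)))) q :=
      HasFDerivAt.comp (g := Kf θ pt L) (f := fun z : E m => (y, z)) q (hK (y, q)) h40
    have h5 : HasFDerivAt (fun z => fderiv ℝ π y (π z - y))
        ((fderiv ℝ π y).comp (fderiv ℝ π q - 0)) q :=
      (fderiv ℝ π y).hasFDerivAt.comp q (hπ.sub (hasFDerivAt_const y q))
    have h7 := h4.add h5
    have h8 := (h2.congr_of_eventuallyEq h1.symm).unique h7
    have h9 := congrArg (fun M : E m →L[ℝ] E m => M b) h8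
    simp only [ContinuousLinearMap.comp_apply, add_apply,
      ContinuousLinearMap.prod_apply,
      zero_apply, hb, sub_zero, ContinuousLinearMap.id_apply] at h9
    have h10 : fderiv ℝ (fun z => L y z) q b - fderiv ℝ π y b =
        fderiv ℝ (Kf θ pt L) (y, q) (0, b) := by
      rw [h9]
      abel
    rw [h10]
    calc ‖fderiv ℝ (Kf θ pt L) (y, q) (0, b)‖ ≤ ‖fderiv ℝ (Kf θ pt L) (y, q)‖ * ‖((0 : E m), b)‖ :=
          ContinuousLinearMap.le_opNorm _ _
      _ ≤ ((C₁ + C₂) * ‖y - q‖ ^ 2) * ‖b‖ := by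
          refine mul_le_mul ((k2 y q).trans (mul_le_mul_of_nonneg_right (by linarith)
            (sq_nonneg _))) ?_ (norm_nonneg _) (by positivity)
          rw [Prod.norm_mk, norm_zero, max_eq_right (norm_nonneg _)]

end H79NG
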