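import Pool.Agent.H79.NG.Bfa
import Pool.Agent.H79.NG.Kde
import Pool.Agent.H79.NG.Tay
import Pool.Agent.H79.NG.Bas

/-!
# [H79 NG BFB] Estimates for `B`

1. On `N`: let `C₁` be from `dL_near`, `K` from `exists_lipN`. For `y, q ∈ N` and all `a, b`, with
`a' = Dπ(y) a`, `b' = Dπ(y) b` (tangent, `‖a'‖ ≤ ‖a‖`, `‖b'‖ ≤ ‖b‖`): by `Bt_N` and symmetry of `Dπ(y)`,
`<Bt(y,q) a, b> = - <DL a', b'> - <a', b'>`, `DL = fderiv ℝ (fun z => L z q) y`, and
`DL a' = D2 π y a' (q - y) - a' + E`, `‖E‖ ≤ C₁ ‖y - q‖² ‖a'‖`. So it is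
`- <D2 π y a' (q - y), b'> - <E, b'>`, and by `symm3`
`<D2 π y a' (q - y), b'> = <q - y, D2 π y a' b'> = <(q - y) - Dπ(y)(q - y), D2 π y a' b'>`
(`D2 π y a' b'` is normal), at most `K ‖q - y‖² C ‖a'‖ ‖b'‖`. Hence `‖Bt(y,q)‖ ≤ C₂ ‖y - q‖²`,
`C₂ = K C + C₁` (test with `b = Bt(y,q) a`).
2. Everywhere: let `M` bound `‖Bt‖` (`cc_bounds`). If `θ y θ q = 0` the value is `0`. Otherwise both
`infDist < 2 δ`; if `‖y - q‖ < 2 δ`, `Bt_pt` and `lip0` give `‖Bt(y,q)‖ ≤ C₂ ‖π y - π q‖² ≤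
C₂ C² ‖y - q‖²`; if `‖y - q‖ ≥ 2 δ`, `‖Bt‖ ≤ M ≤ M/(4 δ²) ‖y - q‖²`.
3. `taylor2`: `‖D Bt(y,q)‖ ≤ C₃ ‖y - q‖` everywhere; on the segment from `(y,q)` to `(y,q')`, this is at
most `C₃ (‖y - q‖ + ‖y - q'‖)` (convexity of the norm); mean value inequality.
-/

set_option autoImplicit false

namespace H79NG

open H60NH H60NT Metric Set Filter Topology
open scoped NNReal ContDiff

theorem Bt_bdN {m : ℕ} {N : Set (E m)} {π : E m → E m} {δ C v₀ : ℝ} {Ex L : E m → E m → E m}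
    (hT : TC N π δ C) (hX : ExpS N π Ex v₀) (hL : LogS N π Ex L v₀)
    {pt : E m → E m} {θ : E m → ℝ} (hp : Ext N π δ pt) (hθ : CutN N δ (2 * δ) θ) :
    ∃ C₂ : ℝ, 0 ≤ C₂ ∧ ∀ y ∈ N, ∀ q ∈ N, ‖Bt θ pt L (y, q)‖ ≤ C₂ * ‖y - q‖ ^ 2 := by
  obtain ⟨C₁, hC1, -, k2, -⟩ := dL_near hT hX hL
  obtain ⟨K, hK1, hCK, hK⟩ := exists_lipN hT
  have hC := hT.one_le
  refine ⟨C * K + C₁, by positivity, ?_⟩
  intro y hy q hq
  refine ContinuousLinearMap.opNorm_le_bound _ (by positivity) ?_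
  intro a
  obtain ⟨a', ha'⟩ : ∃ a', a' = fderiv ℝ π y a := ⟨_, rfl⟩
  have ht : fderiv ℝ π y a' = a' := by rw [ha']; exact proj_idem hT hy a
  have hn : ‖a'‖ ≤ ‖a‖ := by rw [ha']; exact proj_le hT hy a
  have hk := k2 y hy q hq a' ht
  obtain ⟨e, he⟩ : ∃ e, e = fderiv ℝ (fun z => L z q) y a' -
      (D2 π y a' (q - y) - fderiv ℝ π y a') := ⟨_, rfl⟩
  rw [← he] at hk
  have h1 : fderiv ℝ (fun z => L z q) y a' = e + D2 π y a' (q - y) - a' := by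
    rw [he, ht]; abel
  have h2 : fderiv ℝ π y (D2 π y a' (q - y)) =
      D2 π y a' ((q - y) - fderiv ℝ π y (q - y)) := by
    have h3 := hT.idem2 y hy a' (q - y) ht
    rw [map_sub (D2 π y a') (q - y) (fderiv ℝ π y (q - y))]
    exact eq_sub_of_add_eq' h3
  have h4 : Bt θ pt L (y, q) a =
      -(D2 π y a' ((q - y) - fderiv ℝ π y (q - y))) - fderiv ℝ π y e := by
    rw [Bt_N hT hp hθ hy hq, ← ha', h1, map_sub, map_add, h2, ht]
    abel
  rw [h4]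
  have h5 : ‖D2 π y a' ((q - y) - fderiv ℝ π y (q - y))‖ ≤ C * ‖a‖ * (K * ‖y - q‖ ^ 2) := by
    refine (D2_le hT hy _ _).trans ?_
    have h6 := (hK y hy q hq).2.2
    rw [norm_sub_rev q y] at h6
    exact mul_le_mul (mul_le_mul_of_nonneg_left hn (by linarith)) h6 (norm_nonneg _)
      (by positivity)
  have h7 : ‖fderiv ℝ π y e‖ ≤ C₁ * ‖y - q‖ ^ 2 * ‖a‖ :=
    (proj_le hT hy e).trans (hk.trans (mul_le_mul_of_nonneg_left hn (by positivity)))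
  calc _ ≤ ‖-(D2 π y a' ((q - y) - fderiv ℝ π y (q - y)))‖ + ‖fderiv ℝ π y e‖ :=
        norm_sub_le _ _
    _ ≤ C * ‖a‖ * (K * ‖y - q‖ ^ 2) + C₁ * ‖y - q‖ ^ 2 * ‖a‖ := by
        rw [norm_neg]; exact add_le_add h5 h7
    _ = (C * K + C₁) * ‖y - q‖ ^ 2 * ‖a‖ := by ring

theorem Bt_bounds {m : ℕ} {N : Set (E m)} {π : E m → E m} {δ C v₀ : ℝ} {Ex L : E m → E m → E m}
    (hT : TC N π δ C) (hX : ExpS N π Ex v₀) (hL : LogS N π Ex L v₀)
    {pt : E m → E m} {θ : E m → ℝ} (hp : Ext N π δ pt) (hθ : CutN N δ (2 * δ) θ) :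
    ∃ C' : ℝ, 0 ≤ C' ∧ (∀ y q, ‖Bt θ pt L (y, q)‖ ≤ C' * ‖y - q‖ ^ 2) ∧
      ∀ y q q', ‖Bt θ pt L (y, q) - Bt θ pt L (y, q')‖ ≤
        C' * (‖y - q‖ + ‖y - q'‖) * ‖q - q'‖ := by
  have hδ := hT.pos
  have hC := hT.one_le
  have hBs : ContDiff ℝ ∞ (Bt θ pt L) := Bt_smooth hL hp hθ
  have hBc : HasCompactSupport (Bt θ pt L) := Bt_cpt hθ
  obtain ⟨M, hM0, hM, -⟩ := cc_bounds hBs hBc
  obtain ⟨C₂, hC2, h1⟩ := Bt_bdN hT hX hL hp hθ
  have hall : ∀ y q, ‖Bt θ pt L (y, q)‖ ≤ (C₂ * C ^ 2 + M / (2 * δ) ^ 2) * ‖y - q‖ ^ 2 := by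
    have hA : 0 ≤ C₂ * C ^ 2 := by positivity
    have hB : 0 ≤ M / (2 * δ) ^ 2 := by positivity
    have hz : ∀ A : E m →L[ℝ] E m, (0 : ℝ) • A = 0 := fun A => by
      apply ContinuousLinearMap.ext
      intro x
      exact zero_smul ℝ (A x)
    intro y q
    by_cases hy : infDist y N < 2 * δ
    swap
    · have h2 : Bt θ pt L (y, q) = 0 := by
        unfold Bt
        rw [hθ.zero y (not_lt.mp hy), zero_mul]
        exact hz _
      rw [h2, norm_zero]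
      positivity
    by_cases hq : infDist q N < 2 * δ
    swap
    · have h2 : Bt θ pt L (y, q) = 0 := by
        unfold Bt
        rw [hθ.zero q (not_lt.mp hq), mul_zero]
        exact hz _
      rw [h2, norm_zero]
      positivity
    have hy3 : infDist y N < 3 * δ := by linarith
    have hq3 : infDist q N < 3 * δ := by linarith
    by_cases hd : ‖y - q‖ < 2 * δ
    swap
    · have h2 : (2 * δ) ^ 2 ≤ ‖y - q‖ ^ 2 := pow_le_pow_left₀ (by linarith) (not_lt.mp hd) 2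
      calc ‖Bt θ pt L (y, q)‖ ≤ M := hM _
        _ = M / (2 * δ) ^ 2 * (2 * δ) ^ 2 := by field_simp
        _ ≤ M / (2 * δ) ^ 2 * ‖y - q‖ ^ 2 := mul_le_mul_of_nonneg_left h2 hB
        _ ≤ _ := mul_le_mul_of_nonneg_right (by linarith) (by positivity)
    have hx : π y ∈ N := hT.mem y (by linarith)
    have hz' : π q ∈ N := hT.mem q (by linarith)
    have hxz : ‖π y - π q‖ ≤ C * ‖y - q‖ := hT.lip0 y q hy hd
    have h2 : ‖Bt θ pt L (y, q)‖ ≤ ‖Bt θ pt L (π y, π q)‖ := by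
      rw [Bt_pt hT hp hθ hy3 hq3, norm_smul, Real.norm_eq_abs,
        abs_of_nonneg (mul_nonneg (hθ.nonneg y) (hθ.nonneg q))]
      refine mul_le_of_le_one_left (norm_nonneg _) ?_
      exact mul_le_one₀ (hθ.le_one y) (hθ.nonneg q) (hθ.le_one q)
    calc ‖Bt θ pt L (y, q)‖ ≤ C₂ * ‖π y - π q‖ ^ 2 := h2.trans (h1 _ hx _ hz')
      _ ≤ C₂ * (C * ‖y - q‖) ^ 2 :=
          mul_le_mul_of_nonneg_left (pow_le_pow_left₀ (norm_nonneg _) hxz 2) hC2
      _ = C₂ * C ^ 2 * ‖y - q‖ ^ 2 := by ring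
      _ ≤ _ := mul_le_mul_of_nonneg_right (by linarith) (by positivity)
  obtain ⟨C₄, hC4, h4⟩ := taylor2 hBs hBc hall
  refine ⟨C₂ * C ^ 2 + M / (2 * δ) ^ 2 + C₄, by positivity, ?_, ?_⟩
  · intro y q
    exact (hall y q).trans (mul_le_mul_of_nonneg_right (by linarith) (sq_nonneg _))
  · intro y q q'
    obtain ⟨R, hR⟩ : ∃ R, R = ‖y - q‖ + ‖y - q'‖ := ⟨_, rfl⟩
    have hd : ∀ z, HasFDerivAt (fun z => Bt θ pt L (y, z))
        ((fderiv ℝ (Bt θ pt L) (y, z)).comp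
          ((0 : E m →L[ℝ] E m).prod (ContinuousLinearMap.id ℝ (E m)))) z := fun z =>
      HasFDerivAt.comp (g := Bt θ pt L) (f := fun z : E m => (y, z)) z
        (hBs.differentiable (by simp) (y, z)).hasFDerivAt
        ((hasFDerivAt_const y z).prodMk (hasFDerivAt_id z))
    have hn : ‖(0 : E m →L[ℝ] E m).prod (ContinuousLinearMap.id ℝ (E m))‖ ≤ 1 := by
      refine ContinuousLinearMap.opNorm_le_bound _ zero_le_one ?_
      intro x
      show ‖((0 : E m), x)‖ ≤ 1 * ‖x‖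
      rw [Prod.norm_mk, norm_zero, max_eq_right (norm_nonneg _), one_mul]
    have h5 := (convex_closedBall y R).norm_image_sub_le_of_norm_hasFDerivWithin_le
      (f := fun z => Bt θ pt L (y, z)) (C := C₄ * R) (x := q') (y := q)
      (fun z _ => (hd z).hasFDerivWithinAt) ?_ ?_ ?_
    · refine h5.trans ?_
      rw [← hR]
      exact mul_le_mul_of_nonneg_right (mul_le_mul_of_nonneg_right (by
        have : 0 ≤ C₂ * C ^ 2 + M / (2 * δ) ^ 2 := by positivity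
        linarith) (by rw [hR]; positivity)) (norm_nonneg _)
    · intro z hz
      rw [mem_closedBall, dist_comm, dist_eq_norm] at hz
      calc _ ≤ ‖fderiv ℝ (Bt θ pt L) (y, z)‖ *
            ‖(0 : E m →L[ℝ] E m).prod (ContinuousLinearMap.id ℝ (E m))‖ :=
            ContinuousLinearMap.opNorm_comp_le _ _
        _ ≤ (C₄ * ‖y - z‖) * 1 := mul_le_mul (h4 y z) hn (norm_nonneg _) (by positivity)
        _ ≤ C₄ * R := by rw [mul_one]; exact mul_le_mul_of_nonneg_left hz hC4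
    · rw [mem_closedBall, dist_comm, dist_eq_norm, hR]
      linarith [norm_nonneg (y - q)]
    · rw [mem_closedBall, dist_comm, dist_eq_norm, hR]
      linarith [norm_nonneg (y - q')]

end H79NG
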