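import Mathlib

/-!
# [H79 NG CML] A comparison lemma (Mathlib only)

Claim 1: `κ ≥ 0` on `I = [s₀, s₀+1]`. Suppose `κ(s₁) < 0`. Let `t₀ = sSup {s ∈ [s₀,s₁] | 0 ≤ κ s}`;
by continuity `κ(t₀) ≥ 0`, `t₀ < s₁` and `κ < 0` on `(t₀, s₁]`, so `κ(t₀) = 0`. On `(t₀, s₁]`
`κ' ≥ c₀ - K |κ| = c₀ + K κ ≥ K κ`, so `κ(s) exp(-K s)` has nonnegative derivative on `[t₀, s₁]` (interior)
and is nondecreasing: `κ(s₁) exp(-K s₁) ≥ κ(t₀) exp(-K t₀) = 0`, a contradiction.
Claim 2: so `κ' ≥ c₀ - K κ`, and `m(s) = κ(s) exp(K (s - s₀)) - c₀ (s - s₀)` has derivative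
`exp(K (s-s₀)) (κ' + K κ) - c₀ ≥ c₀ (exp(K (s-s₀)) - 1) ≥ 0` on `I`; `m(s₀) = 0`; so `m ≥ 0`
(`monotoneOn_of_deriv_nonneg`). Then `κ(s) ≥ c₀ (s-s₀) exp(-K(s-s₀)) ≥ c₀ exp(-K) (s-s₀)`.
-/

set_option autoImplicit false

namespace H79NG

open Metric Set Filter Topology
open scoped NNReal ContDiff

/-- A function with nonnegative derivative on an interval is nondecreasing. -/
private theorem cml_mono {a b : ℝ} (hab : a ≤ b) {f f' : ℝ → ℝ}
    (hd : ∀ s ∈ Icc a b, HasDerivAt f (f' s) s) (hn : ∀ s ∈ Ioo a b, 0 ≤ f' s) : f a ≤ f b := by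
  have hm : MonotoneOn f (Icc a b) := by
    refine monotoneOn_of_deriv_nonneg (convex_Icc a b)
      (fun s hs => (hd s hs).continuousAt.continuousWithinAt) ?_ ?_
    · intro s hs
      rw [interior_Icc] at hs
      exact (hd s (Ioo_subset_Icc_self hs)).differentiableAt.differentiableWithinAt
    · intro s hs
      rw [interior_Icc] at hs
      rw [(hd s (Ioo_subset_Icc_self hs)).deriv]
      exact hn s hs
  exact hm (left_mem_Icc.mpr hab) (right_mem_Icc.mpr hab) hab

theorem comparison {κ κ' : ℝ → ℝ} {s₀ c₀ K : ℝ} (hK : 0 ≤ K) (hc : 0 ≤ c₀)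
    (h : ∀ s ∈ Icc s₀ (s₀ + 1), HasDerivAt κ (κ' s) s) (h0 : κ s₀ = 0)
    (h1 : ∀ s ∈ Icc s₀ (s₀ + 1), c₀ - K * |κ s| ≤ κ' s) :
    ∀ s ∈ Icc s₀ (s₀ + 1), c₀ * Real.exp (-K) * (s - s₀) ≤ κ s := by
  have hnn : ∀ s ∈ Icc s₀ (s₀ + 1), 0 ≤ κ s := by
    intro s₁ hs₁
    by_contra hneg
    push Not at hneg
    have hsub : Icc s₀ s₁ ⊆ Icc s₀ (s₀ + 1) := Icc_subset_Icc_right hs₁.2
    have hcont : ContinuousOn κ (Icc s₀ s₁) := fun s hs =>
      (h s (hsub hs)).continuousAt.continuousWithinAt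
    set A : Set ℝ := {s ∈ Icc s₀ s₁ | 0 ≤ κ s} with hA
    have hAc : IsClosed A := by
      have := hcont.preimage_isClosed_of_isClosed isClosed_Icc (isClosed_Ici (a := (0 : ℝ)))
      exact this
    have hAne : A.Nonempty := ⟨s₀, left_mem_Icc.mpr hs₁.1, h0.ge⟩
    have hAb : BddAbove A := ⟨s₁, fun s hs => hs.1.2⟩
    have ht : sSup A ∈ A := hAc.csSup_mem hAne hAb
    set t₀ := sSup A with ht₀
    have hlt : t₀ < s₁ := by
      refine lt_of_le_of_ne ht.1.2 (fun hE => ?_)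
      have := ht.2
      rw [hE] at this
      linarith
    have hgt : ∀ s, t₀ < s → s ≤ s₁ → κ s < 0 := by
      intro s hs1 hs2
      by_contra hcon
      push Not at hcon
      have : s ∈ A := ⟨⟨ht.1.1.trans hs1.le, hs2⟩, hcon⟩
      have := le_csSup hAb this
      linarith
    have hsub2 : Icc t₀ s₁ ⊆ Icc s₀ (s₀ + 1) := (Icc_subset_Icc_left ht.1.1).trans hsub
    have hm := cml_mono hlt.le (f := fun s => κ s * Real.exp (-K * s))
      (f' := fun s => κ' s * Real.exp (-K * s) + κ s * (Real.exp (-K * s) * (-K)))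
      (fun s hs => by
        have e1 : HasDerivAt (fun s : ℝ => Real.exp (-K * s)) (Real.exp (-K * s) * (-K)) s := by
          have := ((hasDerivAt_id s).const_mul (-K)).exp
          simpa using this
        exact (h s (hsub2 hs)).mul e1)
      (fun s hs => by
        have h2 := hgt s hs.1 hs.2.le
        have h3 := h1 s (hsub2 (Ioo_subset_Icc_self hs))
        rw [abs_of_neg h2] at h3
        have h4 := Real.exp_pos (-K * s)
        have h5 : 0 ≤ κ' s - K * κ s := by linarith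
        have h6 : κ' s * Real.exp (-K * s) + κ s * (Real.exp (-K * s) * (-K)) =
            (κ' s - K * κ s) * Real.exp (-K * s) := by ring
        rw [h6]
        positivity)
    have h7 : 0 ≤ κ t₀ * Real.exp (-K * t₀) := mul_nonneg ht.2 (Real.exp_pos _).le
    have h8 : κ s₁ * Real.exp (-K * s₁) < 0 := mul_neg_of_neg_of_pos hneg (Real.exp_pos _)
    linarith
  intro s hs
  have hsub : Icc s₀ s ⊆ Icc s₀ (s₀ + 1) := Icc_subset_Icc_right hs.2
  have hm := cml_mono hs.1 (f := fun t => κ t * Real.exp (K * (t - s₀)) - c₀ * (t - s₀))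
    (f' := fun t => κ' t * Real.exp (K * (t - s₀)) + κ t * (Real.exp (K * (t - s₀)) * K) - c₀)
    (fun t ht => by
      have e1 : HasDerivAt (fun t : ℝ => Real.exp (K * (t - s₀)))
          (Real.exp (K * (t - s₀)) * K) t := by
        have := (((hasDerivAt_id t).sub_const s₀).const_mul K).exp
        simpa using this
      have e2 : HasDerivAt (fun t : ℝ => c₀ * (t - s₀)) c₀ t := by
        have := ((hasDerivAt_id t).sub_const s₀).const_mul c₀
        simpa using this
      exact ((h t (hsub ht)).mul e1).sub e2)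
    (fun t ht => by
      have ht' := hsub (Ioo_subset_Icc_self ht)
      have h2 := hnn t ht'
      have h3 := h1 t ht'
      rw [abs_of_nonneg h2] at h3
      have h4 : 1 ≤ Real.exp (K * (t - s₀)) := by
        apply Real.one_le_exp
        exact mul_nonneg hK (by linarith [ht.1])
      have h5 : c₀ ≤ κ' t + K * κ t := by linarith
      have h6 : κ' t * Real.exp (K * (t - s₀)) + κ t * (Real.exp (K * (t - s₀)) * K) - c₀ =
          (κ' t + K * κ t) * Real.exp (K * (t - s₀)) - c₀ := by ring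
      rw [h6]
      nlinarith)
  simp only [sub_self, mul_zero, Real.exp_zero, mul_one, h0] at hm
  have h7 : c₀ * (s - s₀) ≤ κ s * Real.exp (K * (s - s₀)) := by linarith
  have h8 : Real.exp (K * (s - s₀)) * Real.exp (-K) ≤ 1 := by
    rw [← Real.exp_add, Real.exp_le_one_iff]
    have : s - s₀ ≤ 1 := by linarith [hs.2]
    nlinarith
  calc c₀ * Real.exp (-K) * (s - s₀) = (c₀ * (s - s₀)) * Real.exp (-K) := by ring
    _ ≤ (κ s * Real.exp (K * (s - s₀))) * Real.exp (-K) :=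
        mul_le_mul_of_nonneg_right h7 (Real.exp_pos _).le
    _ = κ s * (Real.exp (K * (s - s₀)) * Real.exp (-K)) := by ring
    _ ≤ κ s * 1 := mul_le_mul_of_nonneg_left h8 (hnn s hs)
    _ = κ s := mul_one _

end H79NG
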