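import Pool.Agent.H79.NG.Bas

/-!
# [H79 NG CMP] Comparison of two geodesics (F4, estimate)

Let `K` be from `exists_lipN` (so `C ≤ K`, `1 ≤ K`), `T = s₂ - s₁ ≥ 1`, `I = [s₁ - 4, s₂ + 4]` of length
`T + 8 ≤ 9 T`, `D = Γ' - Γ`, `W = V' - V = D'`, `V₁ = D(s₁)`, `V₂ = D(s₂)`. `‖V‖, ‖V'‖ ≤ A`. On `I`:
`W' = D2 π Γ' V' V' - D2 π Γ V V`, so `‖W'‖ ≤ K A² ‖D‖ + 2 K A ‖W‖` (`D2 π Γ' - D2 π Γ` is bounded by
`K ‖D‖`, `‖D2 π Γ‖ ≤ K`: write `D2' V'V' - D2 V V = (D2' - D2) V' V' + D2 (V' - V) V' + D2 V (V' - V)`).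
Let `M = max_I ‖W‖` (attained, `W` is continuous on `I`). `‖D(s)‖ ≤ ‖V₁‖ + 9 T M` (mean value
inequality). So `‖W'‖ ≤ K A² ‖V₁‖ + K (9 A² T + 2 A) M =: R`. For `s ∈ I`:
`‖T W(s) - (V₂ - V₁)‖ ≤ T (9 T R)`: the function `x ↦ D(x) - x • W(s)` has derivative `W(x) - W(s)` of norm
`≤ 9 T R` on `[s₁, s₂]` (mean value inequality on `[s₁,s₂]`). So
`‖W(s)‖ ≤ ‖V₂ - V₁‖/T + 9 T R ≤ ‖V₂ - V₁‖/T + 9 K A² T ‖V₁‖ + 9 K (9 A² T² + 2 A T) M`.
If `A T ≤ a₀ = 1/(200 K)` (then `9 A²T² + 2 A T ≤ 11 A T`, `99 K A T ≤ 1/2`; note `A T ≥ 0`, since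
`A ≥ ‖V s₁‖ ≥ 0`): taking `s` with `‖W(s)‖ = M`, `M ≤ 2 ‖V₂ - V₁‖/T + 18 K A² T ‖V₁‖`. `C' = 18 K`.
-/

set_option autoImplicit false

namespace H79NG

open H60NH H60NT Metric Set Filter Topology
open scoped NNReal ContDiff

theorem cmp_geod {m : ℕ} {N : Set (E m)} {π : E m → E m} {δ C : ℝ} (hT : TC N π δ C) :
    ∃ a₀ C' : ℝ, 0 < a₀ ∧ 0 ≤ C' ∧
      ∀ (Γ V Γ' V' : ℝ → E m) (a a' A s₁ s₂ : ℝ), a ≤ A → a' ≤ A → s₁ + 1 ≤ s₂ →
        A * (s₂ - s₁) ≤ a₀ → Geod N π Γ V a (Icc (s₁ - 4) (s₂ + 4)) →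
        Geod N π Γ' V' a' (Icc (s₁ - 4) (s₂ + 4)) →
        ∀ s ∈ Icc (s₁ - 4) (s₂ + 4), ‖V' s - V s‖ ≤
          C' * (‖(Γ' s₂ - Γ s₂) - (Γ' s₁ - Γ s₁)‖ / (s₂ - s₁) +
            A ^ 2 * (s₂ - s₁) * (‖Γ' s₁ - Γ s₁‖ + ‖Γ' s₂ - Γ s₂‖)) := by
  obtain ⟨K, hK1, hCK, hKN⟩ := exists_lipN hT
  have hK0 : 0 ≤ K := by linarith
  refine ⟨1 / (200 * K), 18 * K, by positivity, by positivity, ?_⟩
  intro Γ V Γ' V' a a' A s₁ s₂ haA haA' hs12 hAT hg hg'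
  obtain ⟨T, hTd⟩ : ∃ T : ℝ, T = s₂ - s₁ := ⟨_, rfl⟩
  have hT1 : 1 ≤ T := by linarith
  rw [← hTd] at hAT ⊢
  obtain ⟨I, hI⟩ : ∃ I : Set ℝ, I = Icc (s₁ - 4) (s₂ + 4) := ⟨_, rfl⟩
  rw [← hI] at hg hg' ⊢
  have hs1I : s₁ ∈ I := by
    rw [hI]
    constructor <;> linarith
  have hs2I : s₂ ∈ I := by
    rw [hI]
    constructor <;> linarith
  have hA0 : 0 ≤ A := by
    have h1 := hg.speed s₁ hs1I
    have h2 := norm_nonneg (V s₁)
    linarith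
  have hV : ∀ s ∈ I, ‖V s‖ ≤ A := fun s hs => (hg.speed s hs).le.trans haA
  have hV' : ∀ s ∈ I, ‖V' s‖ ≤ A := fun s hs => (hg'.speed s hs).le.trans haA'
  obtain ⟨D, hD⟩ : ∃ D : ℝ → E m, ∀ s, D s = Γ' s - Γ s := ⟨_, fun _ => rfl⟩
  obtain ⟨W, hW⟩ : ∃ W : ℝ → E m, ∀ s, W s = V' s - V s := ⟨_, fun _ => rfl⟩
  obtain ⟨W1, hW1⟩ : ∃ W1 : ℝ → E m, ∀ s, W1 s = D2 π (Γ' s) (V' s) (V' s) -
      D2 π (Γ s) (V s) (V s) := ⟨_, fun _ => rfl⟩
  simp only [← hD, ← hW]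
  have hDd : ∀ s ∈ I, HasDerivAt D (W s) s := by
    intro s hs
    rw [funext hD, hW]
    exact (hg'.der s hs).sub (hg.der s hs)
  have hWd : ∀ s ∈ I, HasDerivAt W (W1 s) s := by
    intro s hs
    rw [funext hW, hW1]
    exact (hg'.der2 s hs).sub (hg.der2 s hs)
  have hIc : IsCompact I := by
    rw [hI]
    exact isCompact_Icc
  have hIconv : Convex ℝ I := by
    rw [hI]
    exact convex_Icc _ _
  obtain ⟨sm, hsm, hmax⟩ := hIc.exists_isMaxOn ⟨s₁, hs1I⟩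
    (f := fun s => ‖W s‖) (fun s hs => (hWd s hs).continuousAt.norm.continuousWithinAt)
  obtain ⟨M, hM⟩ : ∃ M : ℝ, M = ‖W sm‖ := ⟨_, rfl⟩
  have hWM : ∀ s ∈ I, ‖W s‖ ≤ M := by
    intro s hs
    rw [hM]
    exact hmax hs
  have hM0 : 0 ≤ M := by
    rw [hM]
    exact norm_nonneg _
  have habs : ∀ x ∈ Icc s₁ s₂, ∀ s ∈ I, |x - s| ≤ 9 * T := by
    intro x hx s hs
    rw [hI] at hs
    rw [abs_le]
    constructor <;> linarith [hx.1, hx.2, hs.1, hs.2]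
  have hsub : Icc s₁ s₂ ⊆ I := by
    rw [hI]
    exact Icc_subset_Icc (by linarith) (by linarith)
  -- the distance
  have hDb : ∀ s ∈ I, ‖D s‖ ≤ ‖D s₁‖ + 9 * T * M := by
    intro s hs
    have h1 := Convex.norm_image_sub_le_of_norm_hasDerivWithin_le
      (fun x hx => (hDd x hx).hasDerivWithinAt) hWM hIconv hs1I hs
    rw [Real.norm_eq_abs] at h1
    have h2 : |s - s₁| ≤ 9 * T := by
      rw [abs_sub_comm]
      exact habs s₁ ⟨le_rfl, by linarith⟩ s hs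
    have h3 : M * |s - s₁| ≤ M * (9 * T) := mul_le_mul_of_nonneg_left h2 hM0
    have h4 : D s = D s₁ + (D s - D s₁) := by abel
    rw [h4]
    refine (norm_add_le _ _).trans ?_
    linarith
  obtain ⟨R, hR⟩ : ∃ R : ℝ, R = K * A ^ 2 * (‖D s₁‖ + 9 * T * M) + 2 * K * A * M := ⟨_, rfl⟩
  have hR0 : 0 ≤ R := by
    rw [hR]
    positivity
  have hW1b : ∀ s ∈ I, ‖W1 s‖ ≤ R := by
    intro s hs
    have hΓN := hg.mem s hs
    have hΓN' := hg'.mem s hs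
    have e : W1 s = (D2 π (Γ' s) - D2 π (Γ s)) (V' s) (V' s) + D2 π (Γ s) (W s) (V' s) +
        D2 π (Γ s) (V s) (W s) := by
      rw [hW1, hW]
      simp only [sub_apply, map_sub]
      abel
    have h1 : ‖(D2 π (Γ' s) - D2 π (Γ s)) (V' s) (V' s)‖ ≤
        K * (‖D s₁‖ + 9 * T * M) * A * A := by
      refine (ContinuousLinearMap.le_opNorm₂ _ _ _).trans ?_
      have h2 := (hKN (Γ' s) hΓN' (Γ s) hΓN).2.1
      rw [← hD] at h2
      have h3 : K * ‖D s‖ ≤ K * (‖D s₁‖ + 9 * T * M) := mul_le_mul_of_nonneg_left (hDb s hs) hK0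
      exact mul_le_mul (mul_le_mul (h2.trans h3) (hV' s hs) (norm_nonneg _) (by positivity))
        (hV' s hs) (norm_nonneg _) (by positivity)
    have h2 : ‖D2 π (Γ s) (W s) (V' s)‖ ≤ K * M * A := by
      refine (D2_le hT hΓN _ _).trans ?_
      exact mul_le_mul (mul_le_mul hCK (hWM s hs) (norm_nonneg _) hK0) (hV' s hs)
        (norm_nonneg _) (by positivity)
    have h3 : ‖D2 π (Γ s) (V s) (W s)‖ ≤ K * A * M := by
      refine (D2_le hT hΓN _ _).trans ?_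
      exact mul_le_mul (mul_le_mul hCK (hV s hs) (norm_nonneg _) hK0) (hWM s hs)
        (norm_nonneg _) (by positivity)
    rw [e]
    refine (norm_add_le _ _).trans ?_
    have h4 := norm_add_le ((D2 π (Γ' s) - D2 π (Γ s)) (V' s) (V' s)) (D2 π (Γ s) (W s) (V' s))
    have h5 : R = K * (‖D s₁‖ + 9 * T * M) * A * A + K * M * A + K * A * M := by
      rw [hR]
      ring
    rw [h5]
    linarith
  -- the velocity
  have hWb : ∀ s ∈ I, ‖W s‖ ≤ ‖D s₂ - D s₁‖ / T + 9 * T * R := by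
    intro s hs
    have hh : ∀ x ∈ Icc s₁ s₂, HasDerivWithinAt (fun x => D x - x • W s) (W x - W s)
        (Icc s₁ s₂) x := by
      intro x hx
      have h1 := (hDd x (hsub hx)).sub ((hasDerivAt_id x).smul_const (W s))
      rw [one_smul] at h1
      exact h1.hasDerivWithinAt
    have hbd : ∀ x ∈ Icc s₁ s₂, ‖W x - W s‖ ≤ R * (9 * T) := by
      intro x hx
      have h1 := Convex.norm_image_sub_le_of_norm_hasDerivWithin_le
        (fun y hy => (hWd y hy).hasDerivWithinAt) hW1b hIconv hs (hsub hx)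
      rw [Real.norm_eq_abs] at h1
      exact h1.trans (mul_le_mul_of_nonneg_left (habs x hx s hs) hR0)
    have h1 := Convex.norm_image_sub_le_of_norm_hasDerivWithin_le hh hbd (convex_Icc s₁ s₂)
      (⟨le_rfl, by linarith⟩ : s₁ ∈ Icc s₁ s₂) (⟨by linarith, le_rfl⟩ : s₂ ∈ Icc s₁ s₂)
    beta_reduce at h1
    rw [Real.norm_eq_abs, ← hTd, abs_of_pos (by linarith)] at h1
    have h2 : T • W s = (D s₂ - D s₁) - ((D s₂ - s₂ • W s) - (D s₁ - s₁ • W s)) := by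
      rw [hTd, sub_smul]
      abel
    have h3 : T * ‖W s‖ ≤ ‖D s₂ - D s₁‖ + R * (9 * T) * T := by
      have h4 : ‖T • W s‖ = T * ‖W s‖ := by
        rw [norm_smul, Real.norm_eq_abs, abs_of_pos (by linarith)]
      rw [← h4, h2]
      exact (norm_sub_le _ _).trans (add_le_add le_rfl h1)
    have hT0 : 0 < T := by linarith
    have h5 : ‖W s‖ ≤ (‖D s₂ - D s₁‖ + R * (9 * T) * T) / T := by
      rw [le_div_iff₀ hT0]
      linarith
    refine h5.trans (le_of_eq ?_)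
    field_simp
  have hAT0 : 0 ≤ A * T := mul_nonneg hA0 (by linarith)
  have hAT1 : K * (A * T) ≤ 1 / 200 := by
    have h1 := mul_le_mul_of_nonneg_left hAT hK0
    have h2 : K * (1 / (200 * K)) = 1 / 200 := by
      field_simp
    linarith
  have hAT2 : A * T ≤ 1 := by
    have h1 : A * T ≤ K * (A * T) := le_mul_of_one_le_left hAT0 hK1
    linarith
  have hmain : M ≤ ‖D s₂ - D s₁‖ / T + 9 * (K * A ^ 2 * T * ‖D s₁‖) + 1 / 2 * M := by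
    have h1 := hWb sm hsm
    rw [← hM] at h1
    have h2 : 9 * T * R = 9 * (K * A ^ 2 * T * ‖D s₁‖) +
        (81 * (K * (A * T)) * (A * T) + 18 * (K * (A * T))) * M := by
      rw [hR]
      ring
    have h3 : 81 * (K * (A * T)) * (A * T) + 18 * (K * (A * T)) ≤ 1 / 2 := by
      have h4 : K * (A * T) * (A * T) ≤ K * (A * T) * 1 :=
        mul_le_mul_of_nonneg_left hAT2 (mul_nonneg hK0 hAT0)
      linarith
    have h5 := mul_le_mul_of_nonneg_right h3 hM0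
    linarith
  intro s hs
  have h1 := hWM s hs
  have hT0 : 0 < T := by linarith
  have h2 : 0 ≤ ‖D s₂ - D s₁‖ / T := by positivity
  have h3 : 0 ≤ A ^ 2 * T * ‖D s₂‖ := by positivity
  have h4 : 2 * (‖D s₂ - D s₁‖ / T) ≤ 18 * K * (‖D s₂ - D s₁‖ / T) :=
    mul_le_mul_of_nonneg_right (by linarith) h2
  have h5 : 0 ≤ 18 * K * (A ^ 2 * T * ‖D s₂‖) := by positivity
  have h6 : 18 * K * (‖D s₂ - D s₁‖ / T + A ^ 2 * T * (‖D s₁‖ + ‖D s₂‖)) =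
      18 * K * (‖D s₂ - D s₁‖ / T) + 18 * (K * A ^ 2 * T * ‖D s₁‖) +
        18 * K * (A ^ 2 * T * ‖D s₂‖) := by ring
  rw [h6]
  linarith

end H79NG
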