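import Pool.Agent.H79.NG.Bas

/-!
# [H79 NG CUB] Cubic approximation of `L` on `N`

`ℓ = L y q`, `‖ℓ‖ = ‖L y q - L y y‖ ≤ 2 ‖y - q‖`. `Γ(t) = Ex y (t • ℓ)`, `V(t) = fderiv ℝ (Ex y) (t • ℓ) ℓ`, a
geodesic on `[-1,1]`, `Γ(0) = y`, `Γ(1) = q`, `V(0) = ℓ` (`der0`, `ℓ` tangent by `tan`). `K` from
`exists_lipN`.
`g(t) = Dπ(y) V(t) - ℓ`: `g(0) = 0`, `g'(t) = Dπ(y)(D2 π Γ V V) = (Dπ(y) - Dπ(Γ))(D2 π Γ V V)` by
`D2_normal` at `Γ(t)`, of norm at most `K ‖y - Γ(t)‖ C ‖ℓ‖² ≤ K C ‖ℓ‖³` (`geod_chord`). So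
`‖g(t)‖ ≤ K C ‖ℓ‖³` on `[0,1]` (mean value inequality). `h(t) = Dπ(y)(Γ(t) - y) - t ℓ`: `h(0) = 0`,
`h' = g`, so `‖h(1)‖ ≤ K C ‖ℓ‖³ ≤ 8 K C ‖y - q‖³`, `h(1) = Dπ(y)(q - y) - ℓ`.
-/

set_option autoImplicit false

namespace H79NG

open H60NH H60NT Metric Set Filter Topology
open scoped NNReal ContDiff

theorem cubic {m : ℕ} {N : Set (E m)} {π : E m → E m} {δ C v₀ : ℝ} {Ex L : E m → E m → E m}
    (hT : TC N π δ C) (hX : ExpS N π Ex v₀) (hL : LogS N π Ex L v₀) :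
    ∃ C' : ℝ, 0 ≤ C' ∧ ∀ y ∈ N, ∀ q ∈ N, ‖L y q‖ ≤ v₀ →
      ‖L y q - fderiv ℝ π y (q - y)‖ ≤ C' * ‖y - q‖ ^ 3 := by
  obtain ⟨K, hK1, hCK, hK⟩ := exists_lipN hT
  have hK0 : 0 < K := by linarith
  have hC0 : 0 < C := by linarith [hT.one_le]
  refine ⟨8 * K * C, by positivity, ?_⟩
  intro y hy q hq h
  obtain ⟨ℓ, hℓ⟩ : ∃ ℓ, ℓ = L y q := ⟨_, rfl⟩
  have hl : fderiv ℝ π y ℓ = ℓ := by rw [hℓ]; exact hL.tan y hy q hq h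
  have hln : ‖ℓ‖ ≤ 2 * ‖y - q‖ := by
    have h1 := hL.lip y y q y
    rw [hL.diag, sub_zero, sub_self, norm_zero, zero_add, norm_sub_rev q y] at h1
    rw [hℓ]
    exact h1
  have hexp : Ex y ℓ = q := by rw [hℓ]; exact hL.exp y hy q hq h
  rw [← hℓ] at h ⊢
  have hg := hX.geod y hy ℓ hl h
  have hsub : ∀ t ∈ Icc (0 : ℝ) 1, t ∈ Icc (-1 : ℝ) 1 := fun t ht =>
    ⟨by linarith [ht.1], ht.2⟩
  have h0 : (0 : ℝ) ∈ Icc (0 : ℝ) 1 := by constructor <;> norm_num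
  have h1 : (1 : ℝ) ∈ Icc (0 : ℝ) 1 := by constructor <;> norm_num
  obtain ⟨Γ, hΓ⟩ : ∃ Γ : ℝ → E m, Γ = fun t : ℝ => Ex y (t • ℓ) := ⟨_, rfl⟩
  obtain ⟨V, hV⟩ : ∃ V : ℝ → E m, V = fun t : ℝ => fderiv ℝ (Ex y) (t • ℓ) ℓ := ⟨_, rfl⟩
  rw [← hΓ, ← hV] at hg
  have hΓ0 : Γ 0 = y := by rw [hΓ]; simpa using hX.zero y hy
  have hΓ1 : Γ 1 = q := by rw [hΓ]; simpa using hexp
  have hV0 : V 0 = ℓ := by rw [hV]; simpa using hX.der0 y hy ℓ hl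
  have b1 : ∀ t ∈ Icc (0 : ℝ) 1,
      ‖fderiv ℝ π y (D2 π (Γ t) (V t) (V t))‖ ≤ K * C * ‖ℓ‖ ^ 3 := by
    intro t ht
    have hm := hg.mem t (hsub t ht)
    have ht1 := hg.tan t (hsub t ht)
    have hn := D2_normal hT hm ht1 ht1
    have e1 : fderiv ℝ π y (D2 π (Γ t) (V t) (V t)) =
        (fderiv ℝ π y - fderiv ℝ π (Γ t)) (D2 π (Γ t) (V t) (V t)) := by
      rw [ContinuousLinearMap.sub_apply, hn, sub_zero]
    have e2 : ‖D2 π (Γ t) (V t) (V t)‖ ≤ C * ‖ℓ‖ * ‖ℓ‖ := by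
      have := D2_le hT hm (V t) (V t)
      rwa [hg.speed t (hsub t ht)] at this
    have e3 : ‖y - Γ t‖ ≤ ‖ℓ‖ := by
      have := geod_chord hg (hsub 0 h0) (hsub t ht)
      rw [hΓ0] at this
      refine this.trans ?_
      have h2 : |0 - t| ≤ 1 := by
        rw [zero_sub, abs_neg, abs_of_nonneg ht.1]
        exact ht.2
      calc ‖ℓ‖ * |0 - t| ≤ ‖ℓ‖ * 1 := mul_le_mul_of_nonneg_left h2 (norm_nonneg _)
        _ = ‖ℓ‖ := mul_one _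
    rw [e1]
    calc ‖(fderiv ℝ π y - fderiv ℝ π (Γ t)) (D2 π (Γ t) (V t) (V t))‖
        ≤ ‖fderiv ℝ π y - fderiv ℝ π (Γ t)‖ * ‖D2 π (Γ t) (V t) (V t)‖ :=
          ContinuousLinearMap.le_opNorm _ _
      _ ≤ (K * ‖ℓ‖) * (C * ‖ℓ‖ * ‖ℓ‖) := by
          refine mul_le_mul ((hK y hy (Γ t) hm).1.trans ?_) e2 (norm_nonneg _) (by positivity)
          exact mul_le_mul_of_nonneg_left e3 hK0.le
      _ = K * C * ‖ℓ‖ ^ 3 := by ring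
  have b2 : ∀ t ∈ Icc (0 : ℝ) 1, ‖fderiv ℝ π y (V t) - ℓ‖ ≤ K * C * ‖ℓ‖ ^ 3 := by
    intro t ht
    have e1 := (convex_Icc (0 : ℝ) 1).norm_image_sub_le_of_norm_hasDerivWithin_le
      (f := fun t => fderiv ℝ π y (V t) - ℓ)
      (f' := fun t => fderiv ℝ π y (D2 π (Γ t) (V t) (V t)))
      (C := K * C * ‖ℓ‖ ^ 3) (x := 0) (y := t)
      (fun s hs => (((fderiv ℝ π y).hasFDerivAt.comp_hasDerivAt s
        (hg.der2 s (hsub s hs))).sub_const ℓ).hasDerivWithinAt) b1 h0 ht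
    simp only [hV0, hl, sub_self, sub_zero] at e1
    refine e1.trans ?_
    rw [Real.norm_eq_abs, abs_of_nonneg ht.1]
    calc K * C * ‖ℓ‖ ^ 3 * t ≤ K * C * ‖ℓ‖ ^ 3 * 1 :=
          mul_le_mul_of_nonneg_left ht.2 (by positivity)
      _ = K * C * ‖ℓ‖ ^ 3 := mul_one _
  have b3 : ‖fderiv ℝ π y (q - y) - ℓ‖ ≤ K * C * ‖ℓ‖ ^ 3 := by
    have e1 := (convex_Icc (0 : ℝ) 1).norm_image_sub_le_of_norm_hasDerivWithin_le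
      (f := fun t => fderiv ℝ π y (Γ t - y) - t • ℓ)
      (f' := fun t => fderiv ℝ π y (V t) - ℓ)
      (C := K * C * ‖ℓ‖ ^ 3) (x := 0) (y := 1)
      (fun s hs => by
        have e2 := (fderiv ℝ π y).hasFDerivAt.comp_hasDerivAt s
          ((hg.der s (hsub s hs)).sub_const y)
        have e3 := (hasDerivAt_id s).smul_const ℓ
        rw [one_smul] at e3
        exact (e2.sub e3).hasDerivWithinAt) b2 h0 h1
    simpa [hΓ0, hΓ1] using e1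
  rw [norm_sub_rev]
  refine b3.trans ?_
  calc K * C * ‖ℓ‖ ^ 3 ≤ K * C * (2 * ‖y - q‖) ^ 3 := by gcongr
    _ = 8 * K * C * ‖y - q‖ ^ 3 := by ring

end H79NG
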