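import Pool.Agent.H79.NG.Def

/-!
# [H79 NG CUT] Cutoffs of `N`

Let `0 < r < s`. The sets `A = {infDist ≤ r}` and `Z = {s ≤ infDist}` are closed and disjoint
(`continuous_infDist_pt`). `exists_contMDiff_zero_iff_one_iff_of_isClosed` or
`exists_smooth_zero_one_of_isClosed` (with `𝓘(ℝ, E m)`), or
`exists_contDiff_zero_one_of_isClosed`-like lemmas (search Mathlib; an alternative is
`exists_contDiff_tsupport_subset`, or a finite sum of bumps) give a smooth `θ` with values in
`[0,1]`, `θ = 0` on `Z`, `θ = 1` on `A`. Compact support: the support is contained in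
`{infDist < s}`, which is contained in a bounded set (`N` is bounded and nonempty), and `E m` is
proper: `HasCompactSupport.of_support_subset_isCompact` with
`IsCompact.cthickening` / a closed ball.
-/

set_option autoImplicit false

namespace H79NG

open H60NH H60NT Metric Set Filter Topology
open scoped NNReal ContDiff Manifold

theorem exists_cutN {m : ℕ} {N : Set (E m)} (hc : IsCompact N) (hne : N.Nonempty) {r s : ℝ}
    (h0 : 0 < r) (hrs : r < s) : ∃ θ : E m → ℝ, CutN N r s θ := by
  have hA : IsClosed {y : E m | infDist y N ≤ r} :=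
    isClosed_le (continuous_infDist_pt N) continuous_const
  have hZ : IsClosed {y : E m | s ≤ infDist y N} :=
    isClosed_le continuous_const (continuous_infDist_pt N)
  have hd : Disjoint {y : E m | s ≤ infDist y N} {y : E m | infDist y N ≤ r} := by
    rw [Set.disjoint_left]
    intro y hy hy'
    simp only [mem_setOf_eq] at hy hy'
    linarith
  obtain ⟨θ, hθ0, hθ1, hθ⟩ := exists_contMDiffMap_zero_one_of_isClosed (n := (⊤ : ℕ∞)) 𝓘(ℝ, E m) hZ hA hd
  refine ⟨θ, ?_, ?_, fun y => (hθ y).1, fun y => (hθ y).2, fun y hy => hθ1 hy, fun y hy => hθ0 hy⟩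
  · exact θ.contMDiff.contDiff
  · refine HasCompactSupport.intro (hc.cthickening (r := s)) (fun y hy => ?_)
    apply hθ0
    rw [mem_cthickening_iff, not_le] at hy
    show s ≤ infDist y N
    unfold infDist
    have hfin : infEDist y N ≠ ⊤ := infEDist_ne_top hne
    rw [← ENNReal.ofReal_le_iff_le_toReal hfin]
    exact hy.le

end H79NG
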