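import Pool.Agent.H60.NT.Def

/-!
# [H79 NG] Geometry of the target of `MP_d943ab_an`, all dimensions (proofs id 299, Section 1)

Definitions. `V = E m`; a vector `a` is tangent at `y ∈ N` if `fderiv ℝ π y a = a`.

* `CutN`: a cutoff of `N`.
* `Ext`: a smooth extension `pt` of `π` with compact support.
* `ExpS`: `Ex y v` is the exponential map.
* `LogS`: `L y q` is its inverse (in `v`), smooth and globally defined.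
* `LogG`: the facts on `L` near the diagonal (Gauss lemma, the form `B`, cubic estimates).
* `Psi`: the radial profile. `Fd`: the fields `F_q(y) = Fd θ ψ pt L q y`.
* `RecD`: the data of the recentering argument along a geodesic.
-/

set_option autoImplicit false

namespace H79NG

open H60NH H60NT Metric Set Filter Topology
open scoped NNReal ContDiff

/-- A smooth cutoff of `N`, `1` for `infDist ≤ r`, `0` for `infDist ≥ s`. -/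
structure CutN {m : ℕ} (N : Set (E m)) (r s : ℝ) (θ : E m → ℝ) : Prop where
  smooth : ContDiff ℝ ∞ θ
  cpt : HasCompactSupport θ
  nonneg : ∀ y, 0 ≤ θ y
  le_one : ∀ y, θ y ≤ 1
  one : ∀ y, infDist y N ≤ r → θ y = 1
  zero : ∀ y, s ≤ infDist y N → θ y = 0

/-- A smooth extension of `π` with compact support. -/
structure Ext {m : ℕ} (N : Set (E m)) (π : E m → E m) (δ : ℝ) (pt : E m → E m) : Prop where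
  smooth : ContDiff ℝ ∞ pt
  cpt : HasCompactSupport pt
  eq : ∀ y, infDist y N < 3 * δ → pt y = π y

/-- The projection onto the tangent space at `π y`, as a smooth function of `y ∈ V`. -/
noncomputable def Pj {m : ℕ} (pt : E m → E m) (y : E m) : E m →L[ℝ] E m := fderiv ℝ pt (pt y)

/-- The exponential map of `N`. -/
structure ExpS {m : ℕ} (N : Set (E m)) (π : E m → E m) (Ex : E m → E m → E m) (v₀ : ℝ) :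
    Prop where
  pos : 0 < v₀
  smooth : ContDiff ℝ ∞ (fun p : E m × E m => Ex p.1 p.2)
  zero : ∀ y ∈ N, Ex y 0 = y
  der0 : ∀ y ∈ N, ∀ v, fderiv ℝ π y v = v → fderiv ℝ (Ex y) 0 v = v
  geod : ∀ y ∈ N, ∀ v, fderiv ℝ π y v = v → ‖v‖ ≤ v₀ →
    Geod N π (fun t : ℝ => Ex y (t • v)) (fun t : ℝ => fderiv ℝ (Ex y) (t • v) v) ‖v‖
      (Icc (-1) 1)

/-- The inverse `L y q = exp_y^{-1}(q)`, globally defined and smooth. -/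
structure LogS {m : ℕ} (N : Set (E m)) (π : E m → E m) (Ex : E m → E m → E m)
    (L : E m → E m → E m) (v₀ : ℝ) : Prop where
  pos : 0 < v₀
  smooth : ContDiff ℝ ∞ (fun p : E m × E m => L p.1 p.2)
  diag : ∀ y, L y y = 0
  low : ∀ y q, ‖y - q‖ ≤ 2 * ‖L y q‖
  lip : ∀ y y' q q', ‖L y q - L y' q'‖ ≤ 2 * (‖y - y'‖ + ‖q - q'‖)
  tan : ∀ y ∈ N, ∀ q ∈ N, ‖L y q‖ ≤ v₀ → fderiv ℝ π y (L y q) = L y q
  exp : ∀ y ∈ N, ∀ q ∈ N, ‖L y q‖ ≤ v₀ → Ex y (L y q) = q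
  uniq : ∀ y ∈ N, ∀ v, fderiv ℝ π y v = v → ‖v‖ ≤ v₀ → L y (Ex y v) = v

/-- The facts on `L` near the diagonal. `B y q` is the operator of the text. -/
structure LogG {m : ℕ} (N : Set (E m)) (π : E m → E m) (L : E m → E m → E m)
    (B : E m → E m → E m →L[ℝ] E m) (v₀ Cb : ℝ) : Prop where
  pos : 0 < v₀
  one_le : 1 ≤ Cb
  smooth : ContDiff ℝ ∞ (fun p : E m × E m => L p.1 p.2)
  diag : ∀ y, L y y = 0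
  low : ∀ y q, ‖y - q‖ ≤ 2 * ‖L y q‖
  lip : ∀ y y' q q', ‖L y q - L y' q'‖ ≤ 2 * (‖y - y'‖ + ‖q - q'‖)
  tan : ∀ y ∈ N, ∀ q ∈ N, ‖L y q‖ ≤ v₀ → fderiv ℝ π y (L y q) = L y q
  chord : ∀ y ∈ N, ∀ q ∈ N, ‖L y q‖ ≤ v₀ → ‖y - q‖ ≤ ‖L y q‖
  gauss : ∀ y ∈ N, ∀ q ∈ N, ‖L y q‖ < v₀ → ∀ a, fderiv ℝ π y a = a →
    inner ℝ (L y q) (fderiv ℝ (fun z => L z q) y a) = - inner ℝ (L y q) a
  form : ∀ y ∈ N, ∀ q ∈ N, ‖L y q‖ < v₀ → ∀ a b, fderiv ℝ π y a = a → fderiv ℝ π y b = b →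
    inner ℝ b (fderiv ℝ (fun z => L z q) y a) = - inner ℝ b a - inner ℝ b (B y q a)
  Bsymm : ∀ y ∈ N, ∀ q ∈ N, ‖L y q‖ < v₀ → ∀ a b, inner ℝ (B y q a) b = inner ℝ a (B y q b)
  Bker : ∀ y ∈ N, ∀ q ∈ N, ‖L y q‖ < v₀ → B y q (L y q) = 0
  Bbd : ∀ y ∈ N, ∀ q ∈ N, ‖B y q‖ ≤ Cb * ‖y - q‖ ^ 2
  Blip : ∀ y ∈ N, ∀ q ∈ N, ∀ q' ∈ N,
    ‖B y q - B y q'‖ ≤ Cb * (‖y - q‖ + ‖y - q'‖) * ‖q - q'‖
  cub : ∀ y ∈ N, ∀ q ∈ N, ‖L y q - fderiv ℝ π y (q - y)‖ ≤ Cb * ‖y - q‖ ^ 3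
  cuby : ∀ y ∈ N, ∀ q ∈ N, ∀ a, fderiv ℝ π y a = a →
    ‖fderiv ℝ (fun z => L z q) y a - (D2 π y a (q - y) - fderiv ℝ π y a)‖ ≤
      Cb * ‖y - q‖ ^ 2 * ‖a‖
  cubq : ∀ y ∈ N, ∀ q ∈ N, ∀ b, fderiv ℝ π q b = b →
    ‖fderiv ℝ (fun z => L y z) q b - fderiv ℝ π y b‖ ≤ Cb * ‖y - q‖ ^ 2 * ‖b‖

/-- The radial profile `ψ(r²) = φ₀(r)/r` times a cutoff. -/
structure Psi (ψ : ℝ → ℝ) (r₁ : ℝ) : Prop where
  smooth : ContDiff ℝ ∞ ψ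
  nonneg : ∀ s, 0 ≤ ψ s
  bd : ∀ r, 0 ≤ r → ψ (r ^ 2) * r ≤ 1
  near : ∀ s, s ≤ (r₁ / 4) ^ 2 → ψ s = 1 / r₁
  unit : ∀ r, r₁ / 2 ≤ r → r ≤ 3 * r₁ / 2 → ψ (r ^ 2) * r = 1
  der : ∀ r, r₁ / 2 ≤ r → r ≤ 3 * r₁ / 2 → 2 * r ^ 3 * deriv ψ (r ^ 2) = -1
  mono : ∀ s, 0 ≤ s → s ≤ (3 * r₁ / 2) ^ 2 → 0 ≤ ψ s + 2 * s * deriv ψ s
  zero : ∀ s, (2 * r₁) ^ 2 ≤ s → ψ s = 0

/-- The fields `F_q(y)`. -/
noncomputable def Fd {m : ℕ} (θ : E m → ℝ) (ψ : ℝ → ℝ) (pt : E m → E m)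
    (L : E m → E m → E m) (q y : E m) : E m :=
  -((θ q * θ y * ψ (‖L (pt y) (pt q)‖ ^ 2)) • L (pt y) (pt q))

/-- The data of the recentering argument along a geodesic, on the interval `[s₀, s₀ + 1]`: the
velocity `v` (with derivative `dv`), the unit fields `f = F_q(Γ)`, `g = F_{q'}(Γ)` with derivatives
`df`, `dg`, the tangent projection `P`, the operators `B`, `Bg`, and the distances `r`, `rg`. -/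
structure RecD {V : Type*} [NormedAddCommGroup V] [InnerProductSpace ℝ V]
    (r₁ CB C₀ C₂ a d s₀ : ℝ) (v dv f g df dg : ℝ → V) (P B Bg : ℝ → V →L[ℝ] V) (r rg : ℝ → ℝ) :
    Prop where
  a_nonneg : 0 ≤ a
  d_pos : 0 < d
  d_le : d ≤ 1
  speed : ∀ s ∈ Icc s₀ (s₀ + 1), ‖v s‖ = a
  uf : ∀ s ∈ Icc s₀ (s₀ + 1), ‖f s‖ = 1
  ug : ∀ s ∈ Icc s₀ (s₀ + 1), ‖g s‖ = 1
  Psymm : ∀ s ∈ Icc s₀ (s₀ + 1), ∀ x y, inner ℝ (P s x) y = inner ℝ x (P s y)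
  Pidem : ∀ s ∈ Icc s₀ (s₀ + 1), ∀ x, P s (P s x) = P s x
  Pv : ∀ s ∈ Icc s₀ (s₀ + 1), P s (v s) = v s
  Pf : ∀ s ∈ Icc s₀ (s₀ + 1), P s (f s) = f s
  Pg : ∀ s ∈ Icc s₀ (s₀ + 1), P s (g s) = g s
  hv : ∀ s ∈ Icc s₀ (s₀ + 1), HasDerivAt v (dv s) s
  Pdv : ∀ s ∈ Icc s₀ (s₀ + 1), P s (dv s) = 0
  hf : ∀ s ∈ Icc s₀ (s₀ + 1), HasDerivAt f (df s) s
  hg : ∀ s ∈ Icc s₀ (s₀ + 1), HasDerivAt g (dg s) s
  hr : ∀ s ∈ Icc s₀ (s₀ + 1), HasDerivAt r (inner ℝ (v s) (f s)) s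
  hrg : ∀ s ∈ Icc s₀ (s₀ + 1), HasDerivAt rg (inner ℝ (v s) (g s)) s
  form : ∀ s ∈ Icc s₀ (s₀ + 1), ∀ b, P s b = b → inner ℝ b (df s) =
    1 / r s * (inner ℝ b (v s) - inner ℝ (v s) (f s) * inner ℝ b (f s) + inner ℝ b (B s (v s)))
  formg : ∀ s ∈ Icc s₀ (s₀ + 1), ∀ b, P s b = b → inner ℝ b (dg s) =
    1 / rg s * (inner ℝ b (v s) - inner ℝ (v s) (g s) * inner ℝ b (g s) + inner ℝ b (Bg s (v s)))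
  normal : ∀ s ∈ Icc s₀ (s₀ + 1),
    ‖(dg s - df s) - P s (dg s - df s)‖ ≤ C₂ * a * ‖g s - f s‖
  Bsymm : ∀ s ∈ Icc s₀ (s₀ + 1), ∀ x y, inner ℝ (B s x) y = inner ℝ x (B s y)
  Bgsymm : ∀ s ∈ Icc s₀ (s₀ + 1), ∀ x y, inner ℝ (Bg s x) y = inner ℝ x (Bg s y)
  Bf : ∀ s ∈ Icc s₀ (s₀ + 1), B s (f s) = 0
  Bg0 : ∀ s ∈ Icc s₀ (s₀ + 1), Bg s (g s) = 0
  Bbd : ∀ s ∈ Icc s₀ (s₀ + 1), ‖B s‖ ≤ 1 / 2
  Bgbd : ∀ s ∈ Icc s₀ (s₀ + 1), ‖Bg s‖ ≤ 1 / 2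
  Bdif : ∀ s ∈ Icc s₀ (s₀ + 1), ‖(1 / rg s) • Bg s - (1 / r s) • B s‖ ≤ CB * d
  r_lo : ∀ s ∈ Icc s₀ (s₀ + 1), r₁ / 2 ≤ r s
  r_hi : ∀ s ∈ Icc s₀ (s₀ + 1), r s ≤ 2 * r₁
  rg_lo : ∀ s ∈ Icc s₀ (s₀ + 1), r₁ / 2 ≤ rg s
  rg_hi : ∀ s ∈ Icc s₀ (s₀ + 1), rg s ≤ 2 * r₁
  r0 : r s₀ - rg s₀ = d
  h0 : g s₀ = f s₀
  crude : ∀ s ∈ Icc s₀ (s₀ + 1), ‖g s - f s‖ ≤ C₀ * d

/-- Everything that is fixed before the fields are studied. -/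
structure FC {m : ℕ} (N : Set (E m)) (π : E m → E m) (δ CT : ℝ) (Ex L : E m → E m → E m)
    (B : E m → E m → E m →L[ℝ] E m) (pt : E m → E m) (θ : E m → ℝ) (ψ : ℝ → ℝ)
    (v₀ Cb r₁ : ℝ) : Prop where
  hT : TC N π δ CT
  hX : ExpS N π Ex v₀
  hL : LogS N π Ex L v₀
  hG : LogG N π L B v₀ Cb
  hp : Ext N π δ pt
  hθ : CutN N δ (2 * δ) θ
  hψ : Psi ψ r₁
  r_pos : 0 < r₁
  r_le : r₁ ≤ 1
  r_v : 4 * r₁ ≤ v₀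
  r_B : 640 * Cb * r₁ ^ 2 ≤ 1

end H79NG
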