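import Pool.Agent.H79.NG.Bas

/-!
# [H79 NG INV] The tangent bundle is invariant under the geodesic flow

`tangent_inv` (forward in time). Let `d(t) = γ(t) - π(γ(t))`, `e(t) = d'(t) = p(t) - Dπ(γ(t)) p(t)`
(`hasFD`). Differentiate again (`hasFD2`):
`e' = D2(p,p) - D2(p,p) - Dπ(γ)(D2(p,p)) = - Dπ(γ)(D2 π γ p p)`, where `D2 = D2 π (γ t)`.
Let `M` be a bound for `‖p‖` on `[0,T]` (continuous on a compact interval), `y = π(γ) ∈ N`,
`a = Dπ(γ) p`; `Dπ(y) a = a` by `TC.idem`; `Dπ(y)(D2 π y a a) = 0` by `D2_normal`. `‖γ - y‖ = ‖d‖ < 2 δ`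
(`dist_eq`: `‖γ - π γ‖ = infDist γ N`), `‖p - a‖ = ‖e‖`, `‖a‖ ≤ C M`. So by `lip1`, `lip2`, `bd1`, `bd2`
`‖Dπ(γ)(D2 π γ p p)‖ ≤ ‖(Dπ(γ) - Dπ(y)) D2 π γ p p‖ + ‖Dπ(y) (D2 π γ - D2 π y) p p‖ +
‖Dπ(y) D2 π y (p - a) p‖ + ‖Dπ(y) D2 π y a (p - a)‖ ≤ 2 C² M² ‖d‖ + C² M (1 + C) ‖e‖`.
So the function `(d, e) : ℝ → E m × E m` has derivative `(e, e')` with norm `≤ K ‖(d,e)‖`, and vanishes
at `0`; `eq_zero_of_abs_deriv_le_mul_abs_self_of_eq_zero_right` (or Gronwall) gives `d = e = 0` on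
`[0,T]` (for the left-closed interval the lemma gives `[0,T]`). So `γ = π γ ∈ N` (`TC.mem`) and
`Dπ(γ) p = p`. Speed: `(‖p‖²)' = 2 <p, D2(p,p)> = 2 <Dπ p, D2(p,p)> = 2 <p, Dπ D2(p,p)> = 0`
(`D2_inner`).
`geod_of_ode`: apply `tangent_inv` to `(γ, p)` and to `(γ(-t), -p(-t))` (which solves the same
equation: `D2(-p,-p) = D2(p,p)`).
-/

set_option autoImplicit false

namespace H79NG

open H60NH H60NT Metric Set Filter Topology
open scoped NNReal ContDiff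

private theorem inv_bound {V : Type*} [NormedAddCommGroup V] [NormedSpace ℝ V]
    (A A' : V →L[ℝ] V) (Q Q' : V →L[ℝ] V →L[ℝ] V) (p a : V) (C M d : ℝ) (hC : 1 ≤ C)
    (hd : 0 ≤ d) (hA' : ‖A'‖ ≤ C) (hAA : ‖A - A'‖ ≤ C * d)
    (hQ : ‖Q‖ ≤ C) (hQ' : ‖Q'‖ ≤ C) (hQQ : ‖Q - Q'‖ ≤ C * d) (hp : ‖p‖ ≤ M) (ha : ‖a‖ ≤ C * M)
    (h0 : A' (Q' a a) = 0) : ‖A (Q p p)‖ ≤ 2 * C ^ 2 * M ^ 2 * d + (C ^ 2 * M + C ^ 3 * M) * ‖p - a‖ := by
  have hM : 0 ≤ M := (norm_nonneg p).trans hp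
  have e : A (Q p p) = (A - A') (Q p p) + A' ((Q - Q') p p) + A' (Q' (p - a) p) +
      A' (Q' a (p - a)) + A' (Q' a a) := by
    simp only [ContinuousLinearMap.sub_apply, map_sub]
    abel
  have hap : ∀ (B : V →L[ℝ] V) (R : V →L[ℝ] V →L[ℝ] V) (x y : V) (b r u w : ℝ), ‖B‖ ≤ b →
      ‖R‖ ≤ r → ‖x‖ ≤ u → ‖y‖ ≤ w → 0 ≤ b → 0 ≤ r → 0 ≤ u → ‖B (R x y)‖ ≤ b * (r * u * w) := by
    intro B R x y b r u w hb hr hu hw hb0 hr0 hu0
    have h1 : ‖R x y‖ ≤ r * u * w := by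
      have h2 : ‖R x‖ ≤ r * u := (R.le_opNorm x).trans (mul_le_mul hr hu (norm_nonneg _) hr0)
      exact ((R x).le_opNorm y).trans (mul_le_mul h2 hw (norm_nonneg _) (mul_nonneg hr0 hu0))
    exact (B.le_opNorm _).trans (mul_le_mul hb h1 (norm_nonneg _) hb0)
  have b1 := hap (A - A') Q p p (C * d) C M M hAA hQ hp hp (by positivity) (by linarith) hM
  have b2 := hap A' (Q - Q') p p C (C * d) M M hA' hQQ hp hp (by linarith) (by positivity) hM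
  have b3 := hap A' Q' (p - a) p C C ‖p - a‖ M hA' hQ' le_rfl hp (by linarith) (by linarith)
    (norm_nonneg _)
  have b4 := hap A' Q' a (p - a) C C (C * M) ‖p - a‖ hA' hQ' ha le_rfl (by linarith) (by linarith)
    (by positivity)
  rw [e, h0, add_zero]
  have t1 := norm_add_le ((A - A') (Q p p) + A' ((Q - Q') p p) + A' (Q' (p - a) p)) (A' (Q' a (p - a)))
  have t2 := norm_add_le ((A - A') (Q p p) + A' ((Q - Q') p p)) (A' (Q' (p - a) p))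
  have t3 := norm_add_le ((A - A') (Q p p)) (A' ((Q - Q') p p))
  have s1 : C * d * (C * M * M) + C * (C * d * M * M) + C * (C * ‖p - a‖ * M) +
      C * (C * (C * M) * ‖p - a‖) = 2 * C ^ 2 * M ^ 2 * d + (C ^ 2 * M + C ^ 3 * M) * ‖p - a‖ := by
    ring
  linarith

theorem tangent_inv {m : ℕ} {N : Set (E m)} {π : E m → E m} {δ C : ℝ} (hT : TC N π δ C)
    {γ p : ℝ → E m} {T : ℝ} (hT0 : 0 ≤ T) (h1 : ∀ t ∈ Icc 0 T, HasDerivAt γ (p t) t)
    (h2 : ∀ t ∈ Icc 0 T, HasDerivAt p (D2 π (γ t) (p t) (p t)) t)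
    (h3 : ∀ t ∈ Icc 0 T, infDist (γ t) N < 2 * δ) (h4 : γ 0 ∈ N)
    (h5 : fderiv ℝ π (γ 0) (p 0) = p 0) :
    ∀ t ∈ Icc 0 T, γ t ∈ N ∧ fderiv ℝ π (γ t) (p t) = p t ∧ ‖p t‖ = ‖p 0‖ := by
  have hδ := hT.pos
  have hC := hT.one_le
  have h34 : ∀ t ∈ Icc 0 T, infDist (γ t) N < 4 * δ := fun t ht => by
    have := h3 t ht
    linarith
  have hpc : ContinuousOn p (Icc 0 T) := fun t ht => (h2 t ht).continuousAt.continuousWithinAt
  obtain ⟨M, hM⟩ := isCompact_Icc.exists_bound_of_continuousOn hpc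
  have hM0 : 0 ≤ M := (norm_nonneg _).trans (hM 0 ⟨le_rfl, hT0⟩)
  have hder : ∀ t ∈ Icc 0 T, HasDerivAt
      (fun t => (γ t - π (γ t), p t - fderiv ℝ π (γ t) (p t)))
      (p t - fderiv ℝ π (γ t) (p t), -(fderiv ℝ π (γ t) (D2 π (γ t) (p t) (p t)))) t := by
    intro t ht
    have a1 := (h1 t ht).sub ((hasFD hT (h34 t ht)).comp_hasDerivAt t (h1 t ht))
    have a2 := ((hasFD2 hT (h34 t ht)).comp_hasDerivAt t (h1 t ht)).clm_apply (h2 t ht)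
    have a3 := (h2 t ht).sub a2
    have a4 : D2 π (γ t) (p t) (p t) - (D2 π (γ t) (p t) (p t) +
        fderiv ℝ π (γ t) (D2 π (γ t) (p t) (p t))) =
        -(fderiv ℝ π (γ t) (D2 π (γ t) (p t) (p t))) := by abel
    exact a1.prodMk (a3.congr_deriv a4)
  have hzero : ∀ t ∈ Icc 0 T, (γ t - π (γ t), p t - fderiv ℝ π (γ t) (p t)) = 0 := by
    refine eq_zero_of_abs_deriv_le_mul_abs_self_of_eq_zero_right
      (K := 1 + (2 * C ^ 2 * M ^ 2 + (C ^ 2 * M + C ^ 3 * M)))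
      (f := fun t => (γ t - π (γ t), p t - fderiv ℝ π (γ t) (p t)))
      (f' := fun t => (p t - fderiv ℝ π (γ t) (p t),
        -(fderiv ℝ π (γ t) (D2 π (γ t) (p t) (p t)))))
      (fun t ht => (hder t ht).continuousAt.continuousWithinAt)
      (fun t ht => (hder t ⟨ht.1, ht.2.le⟩).hasDerivWithinAt) ?_ ?_
    · show (γ 0 - π (γ 0), p 0 - fderiv ℝ π (γ 0) (p 0)) = 0
      rw [hT.fixed _ h4, h5, sub_self, sub_self]
      rfl
    · intro t ht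
      have ht' : t ∈ Icc 0 T := ⟨ht.1, ht.2.le⟩
      have hy : π (γ t) ∈ N := hT.mem _ (h34 t ht')
      have hdist : ‖γ t - π (γ t)‖ = infDist (γ t) N := hT.dist_eq _ (h34 t ht')
      have hlt : ‖γ t - π (γ t)‖ < 2 * δ := by
        rw [hdist]
        exact h3 t ht'
      have hy4 : infDist (π (γ t)) N < 4 * δ := inf_lt hT hy (by norm_num)
      have hta : fderiv ℝ π (π (γ t)) (fderiv ℝ π (γ t) (p t)) = fderiv ℝ π (γ t) (p t) :=
        hT.idem _ (h34 t ht') _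
      have ha : ‖fderiv ℝ π (γ t) (p t)‖ ≤ C * M :=
        ((fderiv ℝ π (γ t)).le_opNorm _).trans
          (mul_le_mul (hT.bd1 _ (h34 t ht')) (hM t ht') (norm_nonneg _) (by linarith))
      have key := inv_bound (fderiv ℝ π (γ t)) (fderiv ℝ π (π (γ t))) (D2 π (γ t)) (D2 π (π (γ t)))
        (p t) (fderiv ℝ π (γ t) (p t)) C M ‖γ t - π (γ t)‖ hC (norm_nonneg _) (hT.bd1 _ hy4)
        (hT.lip1 _ _ (h3 t ht') hlt) (hT.bd2 _ (h34 t ht')) (hT.bd2 _ hy4)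
        (hT.lip2 _ _ (h3 t ht') hlt) (hM t ht') ha (D2_normal hT hy hta hta)
      have n1 : ‖γ t - π (γ t)‖ ≤ ‖(γ t - π (γ t), p t - fderiv ℝ π (γ t) (p t))‖ :=
        norm_fst_le (γ t - π (γ t), p t - fderiv ℝ π (γ t) (p t))
      have n2 : ‖p t - fderiv ℝ π (γ t) (p t)‖ ≤
          ‖(γ t - π (γ t), p t - fderiv ℝ π (γ t) (p t))‖ :=
        norm_snd_le (γ t - π (γ t), p t - fderiv ℝ π (γ t) (p t))
      obtain ⟨z, hz⟩ : ∃ z : ℝ, z = ‖(γ t - π (γ t), p t - fderiv ℝ π (γ t) (p t))‖ := ⟨_, rfl⟩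
      rw [← hz] at n1 n2
      have hz0 : 0 ≤ z := by
        rw [hz]
        exact norm_nonneg _
      have c1 : 0 ≤ 2 * C ^ 2 * M ^ 2 := by positivity
      have c2 : 0 ≤ C ^ 2 * M + C ^ 3 * M := by positivity
      show ‖(p t - fderiv ℝ π (γ t) (p t), -(fderiv ℝ π (γ t) (D2 π (γ t) (p t) (p t))))‖ ≤
        (1 + (2 * C ^ 2 * M ^ 2 + (C ^ 2 * M + C ^ 3 * M))) *
          ‖(γ t - π (γ t), p t - fderiv ℝ π (γ t) (p t))‖
      rw [← hz, Prod.norm_mk, norm_neg]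
      refine max_le ?_ ?_
      · have := mul_nonneg (add_nonneg c1 c2) hz0
        linarith
      · have m1 := mul_le_mul_of_nonneg_left n1 c1
        have m2 := mul_le_mul_of_nonneg_left n2 c2
        linarith
  have hN : ∀ t ∈ Icc 0 T, γ t ∈ N ∧ fderiv ℝ π (γ t) (p t) = p t := by
    intro t ht
    have h6 := hzero t ht
    have h7 : γ t - π (γ t) = 0 := congrArg Prod.fst h6
    have h8 : p t - fderiv ℝ π (γ t) (p t) = 0 := congrArg Prod.snd h6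
    refine ⟨?_, (sub_eq_zero.1 h8).symm⟩
    rw [sub_eq_zero.1 h7]
    exact hT.mem _ (h34 t ht)
  have hsp : ∀ t ∈ Icc 0 T, ‖p t‖ ^ 2 = ‖p 0‖ ^ 2 := by
    refine constant_of_has_deriv_right_zero (f := fun t => ‖p t‖ ^ 2) (hpc.norm.pow 2) ?_
    intro t ht
    have ht' : t ∈ Icc 0 T := ⟨ht.1, ht.2.le⟩
    obtain ⟨q1, q2⟩ := hN t ht'
    have h6 := (h2 t ht').norm_sq
    have h7 : inner ℝ (p t) (D2 π (γ t) (p t) (p t)) = 0 := by
      rw [real_inner_comm]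
      exact D2_inner hT q1 q2 q2 q2
    rw [h7, mul_zero] at h6
    exact h6.hasDerivWithinAt
  intro t ht
  obtain ⟨q1, q2⟩ := hN t ht
  refine ⟨q1, q2, ?_⟩
  exact (pow_left_inj₀ (norm_nonneg _) (norm_nonneg _) (by norm_num)).1 (hsp t ht)

theorem geod_of_ode {m : ℕ} {N : Set (E m)} {π : E m → E m} {δ C : ℝ} (hT : TC N π δ C)
    {γ p : ℝ → E m} {T : ℝ} (hT0 : 0 ≤ T) (h1 : ∀ t ∈ Icc (-T) T, HasDerivAt γ (p t) t)
    (h2 : ∀ t ∈ Icc (-T) T, HasDerivAt p (D2 π (γ t) (p t) (p t)) t)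
    (h3 : ∀ t ∈ Icc (-T) T, infDist (γ t) N < 2 * δ) (h4 : γ 0 ∈ N)
    (h5 : fderiv ℝ π (γ 0) (p 0) = p 0) : Geod N π γ p ‖p 0‖ (Icc (-T) T) := by
  have hp : ∀ t ∈ Icc 0 T, t ∈ Icc (-T) T := fun t ht => ⟨by linarith [ht.1], ht.2⟩
  have hn : ∀ t ∈ Icc 0 T, -t ∈ Icc (-T) T := fun t ht => ⟨by linarith [ht.2], by linarith [ht.1]⟩
  have A := tangent_inv hT hT0 (fun t ht => h1 t (hp t ht)) (fun t ht => h2 t (hp t ht))
    (fun t ht => h3 t (hp t ht)) h4 h5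
  have B := tangent_inv (γ := fun t => γ (-t)) (p := fun t => -(p (-t))) hT hT0
    (fun t ht => by
      have := (h1 (-t) (hn t ht)).scomp t (hasDerivAt_neg t)
      refine this.congr_deriv ?_
      simp)
    (fun t ht => by
      have := ((h2 (-t) (hn t ht)).scomp t (hasDerivAt_neg t)).neg
      refine this.congr_deriv ?_
      simp)
    (fun t ht => h3 _ (hn t ht)) (by simpa using h4) (by simpa using h5)
  have C' : ∀ t ∈ Icc (-T) T, γ t ∈ N ∧ fderiv ℝ π (γ t) (p t) = p t ∧ ‖p t‖ = ‖p 0‖ := by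
    intro t ht
    rcases le_total 0 t with h | h
    · exact A t ⟨h, ht.2⟩
    · have h6 := B (-t) ⟨by linarith, by linarith [ht.1]⟩
      simp only [neg_neg, map_neg, neg_inj, norm_neg, neg_zero] at h6
      exact h6
  exact ⟨fun t ht => (C' t ht).1, fun t ht => (C' t ht).2.1, h1, h2, fun t ht => (C' t ht).2.2⟩

end H79NG
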