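import Pool.Agent.H79.NG.Gfl
import Pool.Agent.H79.NG.Inv
import Pool.Agent.H79.NG.Bas

/-!
# [H79 NG EXC] The exponential map

Take `τ, X, Φ` from `exists_gflow`. `Ex y v = (Φ (y, τ⁻¹ • v) 1).1`, `v₀ = τ / 2`. Smooth as a composition
(`1 ∈ Ioo (-2) 2`).
(a) For `y ∈ N`, `‖p‖ ≤ 3/2`, `|t| < 2`: `w = (y,p)`, `Φ w t = (γ(t), P(t))` has `infDist γ(t) N ≤ δ/2 < δ`
and `‖P(t)‖ ≤ 2` (norm of the product is the maximum). So `γ' = τ P`, `P' = τ D2 π γ P P`, and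
`q(t) = τ P(t)` satisfies `γ' = q`, `q' = D2 π γ q q`.
(b) If moreover `Dπ(y) p = p`: by `geod_of_ode` on `Icc (-T) T` for every `T < 2`, `(γ, q)` is a
geodesic there with `q(0) = τ p`, speed `τ ‖p‖`.
(c) Homogeneity: for `y ∈ N`, `‖p‖ ≤ 3/2`, `|s| ≤ 1`: the curve `t ↦ (γ(s t), s P(s t))`, `|t| < 2`, where
`(γ,P) = Φ (y,p)`, is an integral curve of `X` through `(y, s p)` at `t = 0`: its derivative is
`(s τ P(st), s² τ D2 π γ P P) = (τ (s P), τ D2 π γ (sP)(sP)) = X(γ(st), s P(st))`. By uniqueness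
(`ODE_solution_unique_of_mem_Ioo` with the Lipschitz field `X` on `Ioo (-2) 2`, `t₀ = 0`) it is
`Φ (y, s p)`. At `t = 1`: `Ex y (s • (τ • p)) = γ(s)`.
(d) So for tangent `v` at `y ∈ N` with `‖v‖ ≤ τ`, `p = τ⁻¹ v`, `‖p‖ ≤ 1`: `Ex y (s • v) = γ(s)` for `|s| ≤ 1`.
For `‖v‖ ≤ τ/2` apply this with `2 v`: `Ex y (s • v) = Ex y ((s/2) • (2 v)) = γ₂(s/2)` for `|s| ≤ 2`, where
`γ₂, q₂` belong to `2 v`. So on the open interval `(-2, 2)` the curve `Γ(s) = Ex y (s • v)` has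
the derivative `(1/2) q₂(s/2)`, and it also has the derivative `fderiv ℝ (Ex y) (s • v) v` (chain rule), so
`V(s) = (1/2) q₂(s/2)` on `(-2,2)`, and the fields of `Geod` on `Icc (-1) 1` follow from (b):
`der2`: `V' = (1/4) D2(q₂,q₂) = D2(V,V)`; speed `(1/2) τ ‖2 τ⁻¹ v‖ = ‖v‖`.
`zero`: `s = 0`: `Ex y 0 = γ(0) = y`. `der0`: for small tangent `v` (`‖v‖ ≤ τ/2`)
`fderiv ℝ (Ex y) 0 v = V(0) = (1/2) q₂(0) = v`; for all tangent `v` by linearity.
-/

set_option autoImplicit false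

namespace H79NG

open H60NH H60NT Metric Set Filter Topology
open scoped NNReal ContDiff

theorem exists_exp {m : ℕ} {N : Set (E m)} {π : E m → E m} {δ C : ℝ} (hT : TC N π δ C) :
    ∃ (Ex : E m → E m → E m) (v₀ : ℝ), ExpS N π Ex v₀ := by
  obtain ⟨τ, X, Φ, hτ, hX, hsm, h0, hd, hb, hXv⟩ := exists_gflow hT
  have hδ := hT.pos
  have hi : ∀ y ∈ N, ∀ p : E m, ‖p‖ ≤ 3 / 2 → ∀ t ∈ Ioo (-2 : ℝ) 2,
      infDist (Φ (y, p) t).1 N ≤ δ / 2 ∧ ‖(Φ (y, p) t).2‖ ≤ 2 := by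
    intro y hy p hp t ht
    obtain ⟨b1, b2⟩ := hb (y, p) t ht
    have e1 : ‖(Φ (y, p) t).1 - y‖ ≤ ‖Φ (y, p) t - (y, p)‖ := norm_fst_le (Φ (y, p) t - (y, p))
    have e2 : ‖(Φ (y, p) t).2 - p‖ ≤ ‖Φ (y, p) t - (y, p)‖ := norm_snd_le (Φ (y, p) t - (y, p))
    constructor
    · have := infDist_le_dist_of_mem (x := (Φ (y, p) t).1) hy
      rw [dist_eq_norm] at this
      linarith
    · have := norm_add_le ((Φ (y, p) t).2 - p) p
      rw [sub_add_cancel] at this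
      linarith
  have hγ : ∀ y ∈ N, ∀ p : E m, ‖p‖ ≤ 3 / 2 → ∀ t ∈ Ioo (-2 : ℝ) 2,
      HasDerivAt (fun t => (Φ (y, p) t).1) (τ • (Φ (y, p) t).2) t ∧
      HasDerivAt (fun t => (Φ (y, p) t).2)
        (τ • D2 π (Φ (y, p) t).1 (Φ (y, p) t).2 (Φ (y, p) t).2) t := by
    intro y hy p hp t ht
    obtain ⟨i1, i2⟩ := hi y hy p hp t ht
    have h1 := hd (y, p) t ht
    have h2 : X (Φ (y, p) t) = (τ • (Φ (y, p) t).2,
        τ • D2 π (Φ (y, p) t).1 (Φ (y, p) t).2 (Φ (y, p) t).2) := hXv _ _ (by linarith) i2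
    rw [h2] at h1
    exact ⟨(ContinuousLinearMap.fst ℝ (E m) (E m)).hasFDerivAt.comp_hasDerivAt t h1,
      (ContinuousLinearMap.snd ℝ (E m) (E m)).hasFDerivAt.comp_hasDerivAt t h1⟩
  have hom : ∀ y ∈ N, ∀ p : E m, ‖p‖ ≤ 3 / 2 → ∀ s : ℝ, |s| ≤ 1 → ∀ t ∈ Ioo (-2 : ℝ) 2,
      Φ (y, s • p) t = ((Φ (y, p) (s * t)).1, s • (Φ (y, p) (s * t)).2) := by
    intro y hy p hp s hs t ht
    have hst : ∀ t ∈ Ioo (-2 : ℝ) 2, s * t ∈ Ioo (-2 : ℝ) 2 := by
      intro t ht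
      have h1 : |s * t| < 2 := by
        rw [abs_mul]
        have : |t| < 2 := abs_lt.2 ht
        calc |s| * |t| ≤ 1 * |t| := by gcongr
          _ < 2 := by linarith
      exact abs_lt.1 h1
    have key := ODE_solution_unique_of_mem_Ioo (v := fun _ => X) (s := fun _ => univ)
      (K := 1 / 8) (a := -2) (b := 2) (t₀ := 0) (f := Φ (y, s • p))
      (g := fun t => ((Φ (y, p) (s * t)).1, s • (Φ (y, p) (s * t)).2))
      (fun t _ => hX.lipschitzOnWith) (by norm_num)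
      (fun t ht => ⟨hd _ t ht, trivial⟩)
      (fun t ht => by
        refine ⟨?_, trivial⟩
        obtain ⟨d1, d2⟩ := hγ y hy p hp (s * t) (hst t ht)
        obtain ⟨i1, i2⟩ := hi y hy p hp (s * t) (hst t ht)
        have hm : HasDerivAt (fun t : ℝ => s * t) s t := by
          simpa using (hasDerivAt_id t).const_mul s
        have e1 := d1.scomp t hm
        have e2 := (d2.scomp t hm).const_smul s
        have e3 := e1.prodMk e2
        have e4 : X ((Φ (y, p) (s * t)).1, s • (Φ (y, p) (s * t)).2) =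
            (τ • (s • (Φ (y, p) (s * t)).2), τ • D2 π (Φ (y, p) (s * t)).1
              (s • (Φ (y, p) (s * t)).2) (s • (Φ (y, p) (s * t)).2)) := by
          refine hXv _ _ (by linarith) ?_
          rw [norm_smul, Real.norm_eq_abs]
          calc |s| * ‖(Φ (y, p) (s * t)).2‖ ≤ 1 * 2 := by gcongr
            _ = 2 := by norm_num
        show HasDerivAt _ (X ((Φ (y, p) (s * t)).1, s • (Φ (y, p) (s * t)).2)) t
        rw [e4]
        refine e3.congr_deriv ?_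
        refine Prod.ext ?_ ?_
        · show s • (τ • _) = τ • (s • _)
          rw [smul_comm]
        · show s • (s • (τ • _)) = _
          simp only [map_smul, smul_apply]
          rw [smul_comm s τ, smul_comm s τ])
      (by simp [h0])
    exact key ht
  have hgeo : ∀ y ∈ N, ∀ p : E m, ‖p‖ ≤ 3 / 2 → fderiv ℝ π y p = p →
      Geod N π (fun t => (Φ (y, p) t).1) (fun t => τ • (Φ (y, p) t).2) (τ * ‖p‖)
        (Icc (-1) 1) := by
    intro y hy p hp hpt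
    have h12 : ∀ t ∈ Icc (-1 : ℝ) 1, t ∈ Ioo (-2 : ℝ) 2 := fun t ht =>
      ⟨by linarith [ht.1], by linarith [ht.2]⟩
    have key := geod_of_ode hT (γ := fun t => (Φ (y, p) t).1)
      (p := fun t => τ • (Φ (y, p) t).2) (T := 1) zero_le_one
      (fun t ht => (hγ y hy p hp t (h12 t ht)).1)
      (fun t ht => by
        refine ((hγ y hy p hp t (h12 t ht)).2.const_smul τ).congr_deriv ?_
        simp only [map_smul, smul_apply])
      (fun t ht => by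
        have := (hi y hy p hp t (h12 t ht)).1
        linarith)
      (by simpa [h0] using hy) (by simp [h0, hpt])
    have e : ‖τ • (Φ (y, p) 0).2‖ = τ * ‖p‖ := by
      rw [h0, norm_smul, Real.norm_eq_abs, abs_of_pos hτ]
    rw [← e]
    exact key
  obtain ⟨Ex, hEx⟩ : ∃ Ex : E m → E m → E m, Ex = fun y v => (Φ (y, τ⁻¹ • v) 1).1 := ⟨_, rfl⟩
  have hsmE : ContDiff ℝ ∞ (fun p : E m × E m => Ex p.1 p.2) := by
    subst hEx
    have h1 : ContDiff ℝ ∞ (fun p : E m × E m => (p.1, τ⁻¹ • p.2)) :=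
      contDiff_fst.prodMk (contDiff_snd.const_smul τ⁻¹)
    exact contDiff_fst.comp ((hsm 1 (by norm_num)).comp h1)
  have hExy : ∀ y, Differentiable ℝ (Ex y) := by
    intro y
    have h1 : ContDiff ℝ ∞ (Ex y) :=
      hsmE.comp (contDiff_const.prodMk contDiff_id : ContDiff ℝ ∞ (fun v : E m => (y, v)))
    exact h1.differentiable (by simp)
  -- the curve `s ↦ Ex y (s • v)`
  have hval : ∀ y ∈ N, ∀ v : E m, ‖v‖ ≤ τ / 2 → ∀ s : ℝ, |s| ≤ 2 →
      Ex y (s • v) = (Φ (y, (2 * τ⁻¹) • v) (s / 2)).1 := by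
    intro y hy v hv s hs
    have hp : ‖(2 * τ⁻¹) • v‖ ≤ 3 / 2 := by
      rw [norm_smul, Real.norm_eq_abs, abs_of_pos (by positivity)]
      calc 2 * τ⁻¹ * ‖v‖ ≤ 2 * τ⁻¹ * (τ / 2) := by gcongr
        _ = 1 := by field_simp
        _ ≤ 3 / 2 := by norm_num
    have h1 := hom y hy ((2 * τ⁻¹) • v) hp (s / 2) (by
      rw [abs_div, abs_of_pos (by norm_num : (0 : ℝ) < 2)]
      linarith) 1 (by norm_num)
    have h2 : (s / 2) • ((2 * τ⁻¹) • v) = τ⁻¹ • (s • v) := by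
      rw [smul_smul, smul_smul]
      congr 1
      ring
    rw [h2, mul_one] at h1
    rw [hEx]
    show (Φ (y, τ⁻¹ • (s • v)) 1).1 = _
    rw [h1]
  have hpb : ∀ v : E m, ‖v‖ ≤ τ / 2 → ‖(2 * τ⁻¹) • v‖ ≤ 3 / 2 := by
    intro v hv
    rw [norm_smul, Real.norm_eq_abs, abs_of_pos (by positivity)]
    calc 2 * τ⁻¹ * ‖v‖ ≤ 2 * τ⁻¹ * (τ / 2) := by gcongr
      _ = 1 := by field_simp
      _ ≤ 3 / 2 := by norm_num
  have hder : ∀ y ∈ N, ∀ v : E m, ‖v‖ ≤ τ / 2 → ∀ s ∈ Ioo (-2 : ℝ) 2,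
      HasDerivAt (fun s : ℝ => Ex y (s • v)) (fderiv ℝ (Ex y) (s • v) v) s ∧
      fderiv ℝ (Ex y) (s • v) v = (1 / 2 : ℝ) • (τ • (Φ (y, (2 * τ⁻¹) • v) (s / 2)).2) := by
    intro y hy v hv s hs
    have hl : HasDerivAt (fun s : ℝ => s • v) v s := by
      simpa using (hasDerivAt_id s).smul_const v
    have h1 : HasDerivAt (fun s : ℝ => Ex y (s • v)) (fderiv ℝ (Ex y) (s • v) v) s :=
      ((hExy y) (s • v)).hasFDerivAt.comp_hasDerivAt s hl
    refine ⟨h1, ?_⟩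
    have hh : HasDerivAt (fun s : ℝ => s / 2) (1 / 2) s := by
      simpa using (hasDerivAt_id s).div_const 2
    have h2 := ((hγ y hy _ (hpb v hv) (s / 2)
      ⟨by linarith [hs.1], by linarith [hs.2]⟩).1).scomp s hh
    have h3 : (fun s : ℝ => Ex y (s • v)) =ᶠ[𝓝 s]
        ((fun t => (Φ (y, (2 * τ⁻¹) • v) t).1) ∘ fun s : ℝ => s / 2) := by
      filter_upwards [Ioo_mem_nhds hs.1 hs.2] with r hr
      exact hval y hy v hv r (abs_le.2 ⟨hr.1.le, hr.2.le⟩)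
    exact h1.unique (h2.congr_of_eventuallyEq h3)
  refine ⟨Ex, τ / 2, ?_⟩
  refine ⟨by positivity, hsmE, ?_, ?_, ?_⟩
  · intro y hy
    have h1 := hval y hy 0 (by simpa using by positivity) 0 (by simp)
    simpa [h0] using h1
  · intro y hy v hv
    have hc : 0 < τ / (2 * (‖v‖ + 1)) := by positivity
    obtain ⟨c, hcdef⟩ : ∃ c, c = τ / (2 * (‖v‖ + 1)) := ⟨_, rfl⟩
    rw [← hcdef] at hc
    have hcv : ‖c • v‖ ≤ τ / 2 := by
      rw [norm_smul, Real.norm_eq_abs, abs_of_pos hc, hcdef, div_mul_eq_mul_div,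
        div_le_div_iff₀ (by positivity) (by positivity)]
      nlinarith [norm_nonneg v]
    have h1 := (hder y hy (c • v) hcv 0 (by norm_num)).2
    rw [zero_smul, zero_div, h0] at h1
    have h2 : (1 / 2 : ℝ) • (τ • ((y, (2 * τ⁻¹) • (c • v)) : E m × E m).2) = c • v := by
      show (1 / 2 : ℝ) • (τ • ((2 * τ⁻¹) • (c • v))) = c • v
      rw [smul_smul, smul_smul]
      have : 1 / 2 * τ * (2 * τ⁻¹) = 1 := by field_simp
      rw [this, one_smul]
    rw [h2, map_smul] at h1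
    exact smul_right_injective _ hc.ne' h1
  · intro y hy v hv hvn
    have hpt : fderiv ℝ π y ((2 * τ⁻¹) • v) = (2 * τ⁻¹) • v := by rw [map_smul, hv]
    have G := hgeo y hy _ (hpb v hvn) hpt
    have h2 : ∀ s ∈ Icc (-1 : ℝ) 1, s / 2 ∈ Icc (-1 : ℝ) 1 := fun s hs =>
      ⟨by linarith [hs.1], by linarith [hs.2]⟩
    have h3 : ∀ s ∈ Icc (-1 : ℝ) 1, s ∈ Ioo (-2 : ℝ) 2 := fun s hs =>
      ⟨by linarith [hs.1], by linarith [hs.2]⟩
    have h4 : ∀ s ∈ Icc (-1 : ℝ) 1, |s| ≤ 2 := fun s hs =>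
      abs_le.2 ⟨by linarith [hs.1], by linarith [hs.2]⟩
    refine ⟨?_, ?_, ?_, ?_, ?_⟩
    · intro s hs
      show Ex y (s • v) ∈ N
      rw [hval y hy v hvn s (h4 s hs)]
      exact G.mem _ (h2 s hs)
    · intro s hs
      show fderiv ℝ π (Ex y (s • v)) (fderiv ℝ (Ex y) (s • v) v) = fderiv ℝ (Ex y) (s • v) v
      rw [hval y hy v hvn s (h4 s hs), (hder y hy v hvn s (h3 s hs)).2, map_smul]
      congr 1
      exact G.tan _ (h2 s hs)
    · intro s hs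
      exact (hder y hy v hvn s (h3 s hs)).1
    · intro s hs
      have hh : HasDerivAt (fun s : ℝ => s / 2) (1 / 2) s := by
        simpa using (hasDerivAt_id s).div_const 2
      have d1 := ((G.der2 (s / 2) (h2 s hs)).scomp s hh).const_smul (1 / 2 : ℝ)
      have e1 : (fun s : ℝ => fderiv ℝ (Ex y) (s • v) v) =ᶠ[𝓝 s]
          ((1 / 2 : ℝ) • ((fun t => τ • (Φ (y, (2 * τ⁻¹) • v) t).2) ∘ fun s : ℝ => s / 2)) := by
        filter_upwards [Ioo_mem_nhds (h3 s hs).1 (h3 s hs).2] with r hr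
        exact (hder y hy v hvn r hr).2
      refine (d1.congr_of_eventuallyEq e1).congr_deriv ?_
      show _ = D2 π (Ex y (s • v)) (fderiv ℝ (Ex y) (s • v) v) (fderiv ℝ (Ex y) (s • v) v)
      rw [hval y hy v hvn s (h4 s hs), (hder y hy v hvn s (h3 s hs)).2]
      simp only [map_smul, smul_apply, smul_smul]
      congr 1
      ring
    · intro s hs
      show ‖fderiv ℝ (Ex y) (s • v) v‖ = ‖v‖
      rw [(hder y hy v hvn s (h3 s hs)).2, norm_smul]
      have h5 := G.speed _ (h2 s hs)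
      have h6 : ‖τ • (Φ (y, (2 * τ⁻¹) • v) (s / 2)).2‖ = τ * ‖(2 * τ⁻¹) • v‖ := h5
      rw [h6, norm_smul, Real.norm_eq_abs, Real.norm_eq_abs, abs_of_pos (by positivity),
        abs_of_pos (by positivity)]
      field_simp

end H79NG
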