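import Mathlib
import Pool.Agent.H79.NG.Ccb

/-!
# [H79 NG FBD] Partial derivatives of a smooth function of two variables (Mathlib only + CCB)

`f(q,y)` smooth with compact support on `V × V`, `F q y = f (q,y)`. The partial derivatives are
`fderiv ℝ (F q) y = (Df(q,y)) ∘ inr`, `fderiv ℝ (fun p => F p y) q = (Df(q,y)) ∘ inl` (chain rule with the
affine maps `y ↦ (q,y)`, `q ↦ (q,y)`; `‖inl‖, ‖inr‖ ≤ 1`). All statements except the last follow from
`cc_bounds` for `f` (`‖(q,y) - (q',y')‖ = max ≤ ‖q - q'‖ + ‖y - y'‖`).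
Last statement (mixed difference): `G(q,y) = fderiv ℝ (F q) y = Df(q,y) ∘ inr` is smooth with compact
support; let `M'` be from `cc_bounds` for `G`. For fixed `q, q'` the map `y ↦ G(q',y) - G(q,y)` has the
derivative `DG(q',y) ∘ inr - DG(q,y) ∘ inr` of norm at most `M' ‖q' - q‖`; mean value inequality.
`C = max` of `1` and the constants.
-/

set_option autoImplicit false

namespace H79NG

open Metric Set Filter Topology
open scoped NNReal ContDiff

theorem fbd_comp_inr {V W : Type*} [NormedAddCommGroup V] [NormedSpace ℝ V]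
    [NormedAddCommGroup W] [NormedSpace ℝ W] (L : V × V →L[ℝ] W) :
    ‖L.comp (ContinuousLinearMap.inr ℝ V V)‖ ≤ ‖L‖ :=
  calc ‖L.comp (ContinuousLinearMap.inr ℝ V V)‖ ≤ ‖L‖ * ‖ContinuousLinearMap.inr ℝ V V‖ :=
        ContinuousLinearMap.opNorm_comp_le _ _
    _ ≤ ‖L‖ * 1 := by
        gcongr
        exact ContinuousLinearMap.norm_inr_le_one ℝ V V
    _ = ‖L‖ := mul_one _

theorem fbd_comp_inl {V W : Type*} [NormedAddCommGroup V] [NormedSpace ℝ V]
    [NormedAddCommGroup W] [NormedSpace ℝ W] (L : V × V →L[ℝ] W) :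
    ‖L.comp (ContinuousLinearMap.inl ℝ V V)‖ ≤ ‖L‖ :=
  calc ‖L.comp (ContinuousLinearMap.inl ℝ V V)‖ ≤ ‖L‖ * ‖ContinuousLinearMap.inl ℝ V V‖ :=
        ContinuousLinearMap.opNorm_comp_le _ _
    _ ≤ ‖L‖ * 1 := by
        gcongr
        exact ContinuousLinearMap.norm_inl_le_one ℝ V V
    _ = ‖L‖ := mul_one _

theorem fbd_inr {V : Type*} [NormedAddCommGroup V] [NormedSpace ℝ V] (q y : V) :
    HasFDerivAt (fun v : V => (q, v)) (ContinuousLinearMap.inr ℝ V V) y :=
  (hasFDerivAt_const q y).prodMk (hasFDerivAt_id y)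

theorem fbd_inl {V : Type*} [NormedAddCommGroup V] [NormedSpace ℝ V] (q y : V) :
    HasFDerivAt (fun v : V => (v, y)) (ContinuousLinearMap.inl ℝ V V) q :=
  (hasFDerivAt_id q).prodMk (hasFDerivAt_const y q)

theorem fbd_norm {V : Type*} [NormedAddCommGroup V] (q q' y y' : V) :
    ‖((q, y) : V × V) - (q', y')‖ ≤ ‖q - q'‖ + ‖y - y'‖ := by
  rw [Prod.mk_sub_mk, Prod.norm_mk]
  exact max_le (le_add_of_nonneg_right (norm_nonneg _)) (le_add_of_nonneg_left (norm_nonneg _))

theorem two_bounds {V W : Type*} [NormedAddCommGroup V] [NormedSpace ℝ V]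
    [NormedAddCommGroup W] [NormedSpace ℝ W] {F : V → V → W}
    (hf : ContDiff ℝ ∞ (fun p : V × V => F p.1 p.2))
    (hc : HasCompactSupport (fun p : V × V => F p.1 p.2)) :
    ∃ C : ℝ, 1 ≤ C ∧ (∀ q y, ‖fderiv ℝ (F q) y‖ ≤ C) ∧
      (∀ q y, ‖fderiv ℝ (fun p => F p y) q‖ ≤ C) ∧
      (∀ q q' y y', ‖fderiv ℝ (F q) y - fderiv ℝ (F q') y'‖ ≤ C * (‖q - q'‖ + ‖y - y'‖)) ∧
      (∀ q q' y, ‖fderiv ℝ (fun p => F p y) q - fderiv ℝ (fun p => F p y) q'‖ ≤
        C * ‖q - q'‖) ∧
      (∀ q q' y, ‖F q' y - F q y‖ ≤ C * ‖q' - q‖) ∧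
      ∀ q q' y y', ‖(fderiv ℝ (F q') y - fderiv ℝ (F q) y) -
        (fderiv ℝ (F q') y' - fderiv ℝ (F q) y')‖ ≤ C * ‖q' - q‖ * ‖y - y'‖ := by
  set f : V × V → W := fun p => F p.1 p.2 with hfdef
  obtain ⟨M, hM, -, hM1, -, hM3, hM4, -⟩ := cc_bounds hf hc
  have hfd : Differentiable ℝ f := hf.differentiable (by simp)
  have hf1 : ContDiff ℝ ∞ (fderiv ℝ f) := hf.fderiv_right (by simp)
  have hr : ∀ q y, fderiv ℝ (F q) y = (fderiv ℝ f (q, y)).comp (ContinuousLinearMap.inr ℝ V V) :=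
    fun q y => (HasFDerivAt.comp (g := f) y (hfd (q, y)).hasFDerivAt (fbd_inr q y)).fderiv
  have hl : ∀ q y, fderiv ℝ (fun p => F p y) q =
      (fderiv ℝ f (q, y)).comp (ContinuousLinearMap.inl ℝ V V) :=
    fun q y => (HasFDerivAt.comp (g := f) q (hfd (q, y)).hasFDerivAt (fbd_inl q y)).fderiv
  -- the smooth map `G`
  set G : V × V → (V →L[ℝ] W) :=
    fun p => (fderiv ℝ f p).comp (ContinuousLinearMap.inr ℝ V V) with hG
  have hGs : ContDiff ℝ ∞ G := hf1.clm_comp contDiff_const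
  have hGc : HasCompactSupport G := by
    have h1 : HasCompactSupport (fderiv ℝ f) := hc.fderiv (𝕜 := ℝ)
    refine h1.comp_left (g := fun L : V × V →L[ℝ] W => L.comp (ContinuousLinearMap.inr ℝ V V)) ?_
    exact ContinuousLinearMap.zero_comp _
  obtain ⟨M', hM', -, -, -, -, hM4', -⟩ := cc_bounds hGs hGc
  have hGd : Differentiable ℝ G := hGs.differentiable (by simp)
  refine ⟨max 1 (max M M'), le_max_left _ _, ?_, ?_, ?_, ?_, ?_, ?_⟩
  · intro q y
    rw [hr]
    exact (fbd_comp_inr _).trans ((hM1 _).trans ((le_max_left _ _).trans (le_max_right _ _)))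
  · intro q y
    rw [hl]
    exact (fbd_comp_inl _).trans ((hM1 _).trans ((le_max_left _ _).trans (le_max_right _ _)))
  · intro q q' y y'
    rw [hr, hr, ← ContinuousLinearMap.sub_comp]
    calc ‖(fderiv ℝ f (q, y) - fderiv ℝ f (q', y')).comp (ContinuousLinearMap.inr ℝ V V)‖
        ≤ ‖fderiv ℝ f (q, y) - fderiv ℝ f (q', y')‖ := fbd_comp_inr _
      _ ≤ M * ‖((q, y) : V × V) - (q', y')‖ := hM4 _ _
      _ ≤ M * (‖q - q'‖ + ‖y - y'‖) := by
          gcongr
          exact fbd_norm q q' y y'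
      _ ≤ max 1 (max M M') * (‖q - q'‖ + ‖y - y'‖) := by
          gcongr
          exact (le_max_left _ _).trans (le_max_right _ _)
  · intro q q' y
    rw [hl, hl, ← ContinuousLinearMap.sub_comp]
    calc ‖(fderiv ℝ f (q, y) - fderiv ℝ f (q', y)).comp (ContinuousLinearMap.inl ℝ V V)‖
        ≤ ‖fderiv ℝ f (q, y) - fderiv ℝ f (q', y)‖ := fbd_comp_inl _
      _ ≤ M * ‖((q, y) : V × V) - (q', y)‖ := hM4 _ _
      _ ≤ M * ‖q - q'‖ := by
          gcongr
          have h1 := fbd_norm q q' y y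
          rwa [sub_self, norm_zero, add_zero] at h1
      _ ≤ max 1 (max M M') * ‖q - q'‖ := by
          gcongr
          exact (le_max_left _ _).trans (le_max_right _ _)
  · intro q q' y
    calc ‖F q' y - F q y‖ ≤ M * ‖((q', y) : V × V) - (q, y)‖ := hM3 (q', y) (q, y)
      _ ≤ M * ‖q' - q‖ := by
          gcongr
          have h1 := fbd_norm q' q y y
          rwa [sub_self, norm_zero, add_zero] at h1
      _ ≤ max 1 (max M M') * ‖q' - q‖ := by
          gcongr
          exact (le_max_left _ _).trans (le_max_right _ _)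
  · intro q q' y y'
    rw [hr, hr, hr, hr]
    have h1 := (convex_univ (𝕜 := ℝ) (E := V)).norm_image_sub_le_of_norm_hasFDerivWithin_le
      (f := fun v => G (q', v) - G (q, v))
      (f' := fun v => (fderiv ℝ G (q', v)).comp (ContinuousLinearMap.inr ℝ V V) -
        (fderiv ℝ G (q, v)).comp (ContinuousLinearMap.inr ℝ V V))
      (C := max 1 (max M M') * ‖q' - q‖) (x := y') (y := y)
      (fun v _ => ?_) (fun v _ => ?_) (mem_univ _) (mem_univ _)
    · exact h1
    · have h2 := HasFDerivAt.comp (g := G) v (hGd (q', v)).hasFDerivAt (fbd_inr q' v)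
      have h3 := HasFDerivAt.comp (g := G) v (hGd (q, v)).hasFDerivAt (fbd_inr q v)
      exact (h2.sub h3).hasFDerivWithinAt
    · rw [← ContinuousLinearMap.sub_comp]
      calc ‖(fderiv ℝ G (q', v) - fderiv ℝ G (q, v)).comp (ContinuousLinearMap.inr ℝ V V)‖
          ≤ ‖fderiv ℝ G (q', v) - fderiv ℝ G (q, v)‖ := fbd_comp_inr _
        _ ≤ M' * ‖((q', v) : V × V) - (q, v)‖ := hM4' _ _
        _ ≤ M' * ‖q' - q‖ := by
            gcongr
            have h1 := fbd_norm q' q v v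
            rwa [sub_self, norm_zero, add_zero] at h1
        _ ≤ max 1 (max M M') * ‖q' - q‖ := by
            gcongr
            exact (le_max_right _ _).trans (le_max_right _ _)

end H79NG
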