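import Pool.Agent.H79.NG.Fsm
import Pool.Agent.H79.NG.Extn
import Pool.Agent.H79.NG.Bas

/-!
# [H79 NG FDN] Derivatives of the fields at points of `N`

`F_dery`: by `F_nhds`, `F_q(z) = -(ψ(‖L (π z) q‖²) • L (π z) q)` near `y`. The derivative of
`z ↦ L (π z) q` at `y` in the tangent direction `a` is `DL a`, `DL = fderiv ℝ (fun z => L z q) y` (`hasFD`,
`π y = y`, `Dπ(y) a = a`), that of `‖L (π z) q‖²` is `2 <L y q, DL a>`; product and chain rule. Second form:
`<L y q, DL a> = - <L y q, a>` (`gauss`).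
`F_near`: if `‖L y q‖ < r₁/4` then `‖L (π z) q‖ < r₁/4` for `z` near `y`, so `ψ = 1/r₁` there (`Psi.near`),
`F_q(z) = -(1/r₁) • L (π z) q`; similarly in `q`.
`F_form`: `L y q` is tangent; take the inner product of `F_dery` with `b` and use `LogG.form`:
`<b, DF a> = -(- 2 ψ' <L,a>) <b, L> - ψ <b, DL a> = 2 ψ' <L,a><L,b> + ψ (<b,a> + <b, B a>)`.
`F_symm`: `F_form` is symmetric in `a`, `b` (`LogG.Bsymm`).
`F_normal`: for `z` near `y`, `x = π z ∈ N` is a point of `N` and `F_q(z) = F_q(π z)` (both equal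
`-(ψ(‖L (π z) q‖²) • L (π z) q)`, `π (π z) = π z`), so by `F_tan` at `π z`:
`Dπ(π z) (F_q(z)) = F_q(z)` for `z` near `y`. Differentiate at `y` in the tangent direction `a` (`hasFD2`,
`π y = y`, `Dπ(y) a = a`): `D2 π y a (F_q(y)) + Dπ(y)(DF a) = DF a`.
-/

set_option autoImplicit false

namespace H79NG

open H60NH H60NT Metric Set Filter Topology
open scoped NNReal ContDiff

variable {m : ℕ} {N : Set (E m)} {π : E m → E m} {δ CT : ℝ} {Ex L : E m → E m → E m}
  {B : E m → E m → E m →L[ℝ] E m} {pt : E m → E m} {θ : E m → ℝ} {ψ : ℝ → ℝ} {v₀ Cb r₁ : ℝ}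

private theorem dL1 (h : FC N π δ CT Ex L B pt θ ψ v₀ Cb r₁) {y : E m} (q : E m)
    (hy : y ∈ N) : HasFDerivAt (fun z => L (π z) q)
      ((fderiv ℝ (fun z => L z q) y).comp (fderiv ℝ π y)) y := by
  have hπ : HasFDerivAt π (fderiv ℝ π y) y := hasFD h.hT (inf_lt h.hT hy (by norm_num))
  have h0 : DifferentiableAt ℝ (fun z : E m => (z, q)) y :=
    (differentiableAt_id).prodMk (differentiableAt_const q)
  have h1 : DifferentiableAt ℝ (fun z => L z q) y :=
    DifferentiableAt.comp (g := fun p : E m × E m => L p.1 p.2) (f := fun z : E m => (z, q)) y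
      (h.hL.smooth.differentiable (by simp) (y, q)) h0
  have h3 : HasFDerivAt (fun z => L z q) (fderiv ℝ (fun z => L z q) y) (π y) := by
    rw [h.hT.fixed y hy]; exact h1.hasFDerivAt
  exact h3.comp y hπ

private theorem dL2 (h : FC N π δ CT Ex L B pt θ ψ v₀ Cb r₁) {q : E m} (y : E m)
    (hq : q ∈ N) : HasFDerivAt (fun z => L y (π z))
      ((fderiv ℝ (fun z => L y z) q).comp (fderiv ℝ π q)) q := by
  have hπ : HasFDerivAt π (fderiv ℝ π q) q := hasFD h.hT (inf_lt h.hT hq (by norm_num))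
  have h0 : DifferentiableAt ℝ (fun z : E m => (y, z)) q :=
    (differentiableAt_const y).prodMk (differentiableAt_id)
  have h1 : DifferentiableAt ℝ (fun z => L y z) q :=
    DifferentiableAt.comp (g := fun p : E m × E m => L p.1 p.2) (f := fun z : E m => (y, z)) q
      (h.hL.smooth.differentiable (by simp) (y, q)) h0
  have h3 : HasFDerivAt (fun z => L y z) (fderiv ℝ (fun z => L y z) q) (π q) := by
    rw [h.hT.fixed q hq]; exact h1.hasFDerivAt
  exact h3.comp q hπ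

private theorem dF (h : FC N π δ CT Ex L B pt θ ψ v₀ Cb r₁) (q y : E m) :
    HasFDerivAt (Fd θ ψ pt L q) (fderiv ℝ (Fd θ ψ pt L q) y) y := by
  have h0 : DifferentiableAt ℝ (fun z : E m => (q, z)) y :=
    (differentiableAt_const q).prodMk (differentiableAt_id)
  have h1 : DifferentiableAt ℝ (fun z => Fd θ ψ pt L q z) y :=
    DifferentiableAt.comp (g := fun p : E m × E m => Fd θ ψ pt L p.1 p.2)
      (f := fun z : E m => (q, z)) y ((F_smooth h).differentiable (by simp) (q, y)) h0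
  exact h1.hasFDerivAt

theorem F_dery (h : FC N π δ CT Ex L B pt θ ψ v₀ Cb r₁) {q y : E m} (hq : q ∈ N) (hy : y ∈ N)
    (h1 : ‖L y q‖ < v₀) {a : E m} (ha : fderiv ℝ π y a = a) :
    fderiv ℝ (Fd θ ψ pt L q) y a =
      (2 * deriv ψ (‖L y q‖ ^ 2) * inner ℝ (L y q) a) • L y q -
        ψ (‖L y q‖ ^ 2) • fderiv ℝ (fun z => L z q) y a := by
  have h2 := (F_nhds h hq hy).1
  have h3 := dL1 h q hy
  have hπy : π y = y := h.hT.fixed y hy
  have h4 := h3.norm_sq
  have h5 : HasDerivAt ψ (deriv ψ (‖L (π y) q‖ ^ 2)) (‖L (π y) q‖ ^ 2) :=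
    (h.hψ.smooth.differentiable (by simp) _).hasDerivAt
  have h6 := h5.comp_hasFDerivAt y h4
  have h7 := (h6.smul h3).neg
  have h8 := (h7.congr_of_eventuallyEq h2).fderiv
  rw [h8]
  have h9 := h.hG.gauss y hy q hq h1 a ha
  simp only [neg_apply, add_apply, smul_apply,
    ContinuousLinearMap.smulRight_apply, ContinuousLinearMap.comp_apply, innerSL_apply_apply,
    Function.comp_apply, hπy, ha, h9, smul_eq_mul, nsmul_eq_mul]
  rw [neg_add, sub_eq_add_neg, add_comm, ← neg_smul]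
  congr 2
  push_cast
  ring

theorem F_near (h : FC N π δ CT Ex L B pt θ ψ v₀ Cb r₁) {q y : E m} (hq : q ∈ N) (hy : y ∈ N)
    (h1 : ‖L y q‖ < r₁ / 4) :
    (∀ a, fderiv ℝ π y a = a →
      fderiv ℝ (Fd θ ψ pt L q) y a = -((1 / r₁) • fderiv ℝ (fun z => L z q) y a)) ∧
    ∀ b, fderiv ℝ π q b = b →
      fderiv ℝ (fun p => Fd θ ψ pt L p y) q b = -((1 / r₁) • fderiv ℝ (fun z => L y z) q b) := by
  have hr := h.r_pos
  constructor
  · intro a ha
    have h2 := (F_nhds h hq hy).1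
    have h3 := dL1 h q hy
    have hc : ContinuousAt (fun z => ‖L (π z) q‖) y := h3.continuousAt.norm
    have h4 : ∀ᶠ z in 𝓝 y, ‖L (π z) q‖ < r₁ / 4 := by
      refine hc.eventually_lt continuousAt_const ?_
      show ‖L (π y) q‖ < r₁ / 4
      rw [h.hT.fixed y hy]
      exact h1
    have h5 : Fd θ ψ pt L q =ᶠ[𝓝 y] fun z => -((1 / r₁) • L (π z) q) := by
      filter_upwards [h2, h4] with z hz hz'
      rw [hz, h.hψ.near _ (pow_le_pow_left₀ (norm_nonneg _) hz'.le 2)]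
    have h6 := ((h3.const_smul (1 / r₁)).neg.congr_of_eventuallyEq h5).fderiv
    rw [h6]
    show -((1 / r₁) • fderiv ℝ (fun z => L z q) y (fderiv ℝ π y a)) = _
    rw [ha]
  · intro b hb
    have h2 := (F_nhds h hq hy).2
    have h3 := dL2 h y hq
    have hc : ContinuousAt (fun z => ‖L y (π z)‖) q := h3.continuousAt.norm
    have h4 : ∀ᶠ z in 𝓝 q, ‖L y (π z)‖ < r₁ / 4 := by
      refine hc.eventually_lt continuousAt_const ?_
      show ‖L y (π q)‖ < r₁ / 4
      rw [h.hT.fixed q hq]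
      exact h1
    have h5 : (fun p => Fd θ ψ pt L p y) =ᶠ[𝓝 q] fun z => -((1 / r₁) • L y (π z)) := by
      filter_upwards [h2, h4] with z hz hz'
      rw [hz, h.hψ.near _ (pow_le_pow_left₀ (norm_nonneg _) hz'.le 2)]
    have h6 := ((h3.const_smul (1 / r₁)).neg.congr_of_eventuallyEq h5).fderiv
    rw [h6]
    show -((1 / r₁) • fderiv ℝ (fun z => L y z) q (fderiv ℝ π q b)) = _
    rw [hb]

theorem F_form (h : FC N π δ CT Ex L B pt θ ψ v₀ Cb r₁) {q y : E m} (hq : q ∈ N) (hy : y ∈ N)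
    (h1 : ‖L y q‖ < v₀) {a b : E m} (ha : fderiv ℝ π y a = a) (hb : fderiv ℝ π y b = b) :
    inner ℝ b (fderiv ℝ (Fd θ ψ pt L q) y a) =
      2 * deriv ψ (‖L y q‖ ^ 2) * inner ℝ (L y q) a * inner ℝ (L y q) b +
        ψ (‖L y q‖ ^ 2) * (inner ℝ b a + inner ℝ b (B y q a)) := by
  rw [F_dery h hq hy h1 ha, inner_sub_right, inner_smul_right, inner_smul_right,
    h.hG.form y hy q hq h1 a b ha hb, real_inner_comm (L y q) b]
  ring

theorem F_symm (h : FC N π δ CT Ex L B pt θ ψ v₀ Cb r₁) {q y : E m} (hq : q ∈ N) (hy : y ∈ N)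
    (h1 : ‖L y q‖ < v₀) {a b : E m} (ha : fderiv ℝ π y a = a) (hb : fderiv ℝ π y b = b) :
    inner ℝ b (fderiv ℝ (Fd θ ψ pt L q) y a) = inner ℝ a (fderiv ℝ (Fd θ ψ pt L q) y b) := by
  rw [F_form h hq hy h1 ha hb, F_form h hq hy h1 hb ha, real_inner_comm b a,
    ← h.hG.Bsymm y hy q hq h1 a b, real_inner_comm (B y q a) b]
  ring

theorem F_normal (h : FC N π δ CT Ex L B pt θ ψ v₀ Cb r₁) {q y : E m} (hq : q ∈ N) (hy : y ∈ N)
    {a : E m} (ha : fderiv ℝ π y a = a) :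
    fderiv ℝ (Fd θ ψ pt L q) y a - fderiv ℝ π y (fderiv ℝ (Fd θ ψ pt L q) y a) =
      D2 π y a (Fd θ ψ pt L q y) := by
  have hδ := h.hT.pos
  have hy4 : infDist y N < 4 * δ := inf_lt h.hT hy (by norm_num)
  have hπ : HasFDerivAt π (fderiv ℝ π y) y := hasFD h.hT hy4
  have hπy : π y = y := h.hT.fixed y hy
  have h1 : (fun z => fderiv ℝ π (π z) (Fd θ ψ pt L q z)) =ᶠ[𝓝 y] Fd θ ψ pt L q := by
    filter_upwards [(F_nhds h hq hy).1, (nbhdN N (4 * δ)).mem_nhds hy4] with z hz hz4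
    have hzN : π z ∈ N := h.hT.mem z hz4
    have h2 : Fd θ ψ pt L q z = Fd θ ψ pt L q (π z) := by rw [hz, F_N h hq hzN]
    rw [h2]
    exact F_tan h hq hzN
  have h5 : HasFDerivAt (fun z => fderiv ℝ π (π z)) ((D2 π y).comp (fderiv ℝ π y)) y := by
    have h6 : HasFDerivAt (fderiv ℝ π) (D2 π y) (π y) := by
      rw [hπy]; exact hasFD2 h.hT hy4
    exact h6.comp y hπ
  have h7 := h5.clm_apply (dF h q y)
  have h8 := (h7.congr_of_eventuallyEq h1.symm).unique (dF h q y)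
  have h9 := congrArg (fun M : E m →L[ℝ] E m => M a) h8
  simp only [ContinuousLinearMap.comp_apply, add_apply, ContinuousLinearMap.flip_apply, hπy,
    ha] at h9
  rw [← h9]
  rw [h9]
  rw [sub_eq_iff_eq_add, add_comm]
  exact h9.symm

end H79NG
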