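import Mathlib

/-!
# [H79 NG GIV] Global smooth inverse of a small Lipschitz perturbation (Mathlib only)

`F w = A w + g w`. `F` approximates the linear equivalence `A` on `univ` with the constant `c`
(`ApproximatesLinearOn`: `‖F x - F y - A (x - y)‖ = ‖g x - g y‖ ≤ c ‖x - y‖`), and
`c < ‖A.symm‖₊⁻¹` (if `A.symm = 0` then `W'`, `W` are subsingletons); so
`ApproximatesLinearOn.toHomeomorph` gives a homeomorphism `Fh` with `Fh = F` as a function.
Its inverse is smooth by `Homeomorph.contDiff_symm`: the derivative of `F` at `w` is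
`A + Dg(w)` with `‖Dg(w)‖ ≤ c` (`norm_fderiv_le_of_lipschitz` or
`HasFDerivAt.le_of_lipschitz`), which is invertible:
`A + Dg(w) = A ∘ (1 + A.symm ∘ Dg(w))`, `‖A.symm ∘ Dg(w)‖ ≤ ‖A.symm‖ c < 1` (Neumann series,
`Units.oneSub` / `NormedRing`, `ContinuousLinearEquiv.unitsEquiv`, `W` complete).
Take `f = Fh.symm`.
-/

set_option autoImplicit false

namespace H79NG

open Metric Set Filter Topology
open scoped NNReal ContDiff

theorem glob_inv {W W' : Type*} [NormedAddCommGroup W] [NormedSpace ℝ W] [CompleteSpace W]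
    [NormedAddCommGroup W'] [NormedSpace ℝ W'] (A : W ≃L[ℝ] W') {g : W → W'}
    (hg : ContDiff ℝ ∞ g) {c : ℝ≥0} (hL : LipschitzWith c g)
    (hc : (c : ℝ) * ‖(A.symm : W' →L[ℝ] W)‖ < 1) :
    ∃ f : W' → W, ContDiff ℝ ∞ f ∧ (∀ w, f (A w + g w) = w) ∧ ∀ z, A (f z) + g (f z) = z := by
  have hF : ContDiff ℝ ∞ (fun w => A w + g w) := (A : W →L[ℝ] W').contDiff.add hg
  have happ : ApproximatesLinearOn (fun w => A w + g w) (A : W →L[ℝ] W') univ c := by
    intro x _ y _
    have e : A x + g x - (A y + g y) - (A : W →L[ℝ] W') (x - y) = g x - g y := by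
      rw [map_sub]
      show A x + g x - (A y + g y) - (A x - A y) = g x - g y
      abel
    rw [e]
    have := hL.dist_le_mul x y
    rwa [dist_eq_norm, dist_eq_norm] at this
  have hcN : Subsingleton W ∨ c < ‖(A.symm : W' →L[ℝ] W)‖₊⁻¹ := by
    by_cases h0 : ‖(A.symm : W' →L[ℝ] W)‖₊ = 0
    · left
      have h1 : (A.symm : W' →L[ℝ] W) = 0 := by
        rwa [nnnorm_eq_zero] at h0
      refine ⟨fun x y => ?_⟩
      have h2 : ∀ w : W, w = 0 := fun w => by
        have h3 : (A.symm : W' →L[ℝ] W) (A w) = 0 := by rw [h1]; rfl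
        have h4 : A.symm (A w) = 0 := h3
        rwa [A.symm_apply_apply] at h4
      rw [h2 x, h2 y]
    · right
      have h1 : c * ‖(A.symm : W' →L[ℝ] W)‖₊ < 1 := by exact_mod_cast hc
      have h2 : 0 < ‖(A.symm : W' →L[ℝ] W)‖₊ := pos_iff_ne_zero.2 h0
      rw [← one_div, lt_div_iff₀ h2]
      exact h1
  obtain ⟨Fh, hFh⟩ : ∃ Fh : W ≃ₜ W', ∀ w, Fh w = A w + g w :=
    ⟨ApproximatesLinearOn.toHomeomorph _ happ hcN, fun w => rfl⟩
  have hFc : (Fh : W → W') = fun w => A w + g w := funext hFh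
  have hder : ∀ w, ∃ L : W ≃L[ℝ] W', HasFDerivAt (Fh : W → W') (L : W →L[ℝ] W') w := by
    intro w
    obtain ⟨B, hB⟩ : ∃ B : W →L[ℝ] W, B = (A.symm : W' →L[ℝ] W).comp (fderiv ℝ g w) := ⟨_, rfl⟩
    have hBn : ‖-B‖ < 1 := by
      rw [norm_neg, hB]
      refine lt_of_le_of_lt (ContinuousLinearMap.opNorm_comp_le _ _) ?_
      refine lt_of_le_of_lt ?_ hc
      rw [mul_comm]
      exact mul_le_mul_of_nonneg_right (norm_fderiv_le_of_lipschitz ℝ hL) (norm_nonneg _)
    refine ⟨(ContinuousLinearEquiv.unitsEquiv ℝ W (Units.oneSub (-B) hBn)).trans A, ?_⟩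
    have h1 : HasFDerivAt (fun w => A w + g w) ((A : W →L[ℝ] W') + fderiv ℝ g w) w :=
      (A : W →L[ℝ] W').hasFDerivAt.add (hg.differentiable (by simp) w).hasFDerivAt
    rw [hFc]
    convert h1 using 1
    ext v
    show A ((ContinuousLinearEquiv.unitsEquiv ℝ W (Units.oneSub (-B) hBn)) v) =
      A v + fderiv ℝ g w v
    have h2 : (ContinuousLinearEquiv.unitsEquiv ℝ W (Units.oneSub (-B) hBn)) v = v + B v := by
      show ((Units.oneSub (-B) hBn : (W →L[ℝ] W)ˣ) : W →L[ℝ] W) v = v + B v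
      rw [Units.val_oneSub]
      simp
    rw [h2, map_add, hB]
    congr 1
    exact A.apply_symm_apply _
  choose L hLd using hder
  refine ⟨Fh.symm, Homeomorph.contDiff_symm Fh hLd (by rw [hFc]; exact hF), fun w => ?_, fun z => ?_⟩
  · rw [← hFh, Fh.symm_apply_apply]
  · rw [← hFh, Fh.apply_symm_apply]

end H79NG
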