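import Mathlib

/-!
# [H79 NG NEM] Composition with a smooth map is smooth on `C(K, W)` (Mathlib only)

`K` compact, `W` finite dimensional, `g : W → W'` smooth. Write `N_g h = g ∘ h`.
1. `N_g : C(K, W) → C(K, W')` is continuous (`ContinuousMap.continuous_postcomp`).
2. `N_g` is differentiable at `h` with derivative `k ↦ (x ↦ Dg(h x)(k x))`. Let `M = ‖h‖ + 1`;
`Dg` is uniformly continuous on the compact ball `closedBall 0 M`; for `ε > 0` let `η ≤ 1` be such
that `‖Dg(x) - Dg(y)‖ ≤ ε` for `x, y` in the ball with `‖x - y‖ ≤ η`. For `‖k‖ ≤ η` and every `x`,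
`‖g(h x + k x) - g(h x) - Dg(h x)(k x)‖ ≤ ε ‖k x‖`
(`Convex.norm_image_sub_le_of_norm_hasFDerivWithin_le'` on the ball of radius `η` about `h x`
intersected with `closedBall 0 M`, or on the segment). Take the supremum over `x`
(`ContinuousMap.norm_le`).
3. The derivative is `Φ (N_{Dg} h)` with the continuous linear map
`Φ : C(K, W →L W') → (C(K, W) →L C(K, W'))`, `Φ A k = (x ↦ A x (k x))` (norm at most 1; construct it
with `LinearMap.mkContinuous₂` or `LinearMap.mkContinuous` twice).
4. `contDiff_infty`, and for finite `n` induction with `contDiff_succ_iff_hasFDerivAt` (or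
`contDiff_succ_iff_fderiv`), for all `W'` and `g` at the same time: `N_{Dg}` is `C^n` by the
induction hypothesis (applied to `fderiv ℝ g : W → (W →L[ℝ] W')`) and `Φ` is linear continuous.
(For the universe of `W'` in the induction: state the induction lemma with `W W' : Type u` in the
same universe or use `ULift`; `W →L[ℝ] W'` has universe `max`. It is enough to prove the statement
for `W` and `W'` in the same universe `Type u`; the statement below is of this form.)
-/

set_option autoImplicit false

namespace H79NG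

open Metric Set Filter Topology
open scoped NNReal ContDiff

universe u

section nem

variable {K : Type*} [TopologicalSpace K] [CompactSpace K] {W W' : Type u}
    [NormedAddCommGroup W] [NormedSpace ℝ W] [NormedAddCommGroup W'] [NormedSpace ℝ W']

/-- pointwise application -/
private noncomputable def nemL (K : Type*) [TopologicalSpace K] [CompactSpace K] (W W' : Type u)
    [NormedAddCommGroup W] [NormedSpace ℝ W] [NormedAddCommGroup W'] [NormedSpace ℝ W'] :
    C(K, W →L[ℝ] W') →L[ℝ] (C(K, W) →L[ℝ] C(K, W')) :=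
  LinearMap.mkContinuous₂ (LinearMap.mk₂ ℝ
    (fun (A : C(K, W →L[ℝ] W')) (k : C(K, W)) =>
      (⟨fun x => A x (k x), A.continuous.clm_apply k.continuous⟩ : C(K, W')))
    (fun A B k => by ext x; simp) (fun c A k => by ext x; simp)
    (fun A k l => by ext x; simp) (fun c A k => by ext x; simp)) 1 (by
      intro A k
      rw [one_mul]
      refine (ContinuousMap.norm_le _ (by positivity)).2 fun x => ?_
      exact (A x).le_of_opNorm_le_of_le (A.norm_coe_le_norm x) (k.norm_coe_le_norm x))

private theorem nemL_apply (A : C(K, W →L[ℝ] W')) (k : C(K, W)) (x : K) :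
    nemL K W W' A k x = A x (k x) := rfl

private theorem nem_deriv [FiniteDimensional ℝ W] {g : W → W'} (hg : ContDiff ℝ 1 g)
    (dg : C(W, W →L[ℝ] W')) (hdg : ∀ w, dg w = fderiv ℝ g w) (G : C(W, W'))
    (hG : ∀ w, G w = g w) (h : C(K, W)) :
    HasFDerivAt (fun h : C(K, W) => G.comp h) (nemL K W W' (dg.comp h)) h := by
  rw [hasFDerivAt_iff_isLittleO_nhds_zero, Asymptotics.isLittleO_iff]
  intro c hc
  have hcomp : IsCompact (closedBall (0 : W) (‖h‖ + 1)) := isCompact_closedBall 0 _
  have huc := hcomp.uniformContinuousOn_of_continuous dg.continuous.continuousOn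
  rw [Metric.uniformContinuousOn_iff] at huc
  obtain ⟨δ, hδ, hu⟩ := huc c hc
  have hmin : 0 < min δ 1 := lt_min hδ one_pos
  filter_upwards [ball_mem_nhds (0 : C(K, W)) hmin] with k hk
  rw [mem_ball_zero_iff] at hk
  refine (ContinuousMap.norm_le _ (by positivity)).2 fun x => ?_
  have hkx : ‖k x‖ ≤ ‖k‖ := k.norm_coe_le_norm x
  have hhx : ‖h x‖ ≤ ‖h‖ := h.norm_coe_le_norm x
  have hsub : ∀ y ∈ ball (h x) (min δ 1), y ∈ closedBall (0 : W) (‖h‖ + 1) := by
    intro y hy
    rw [mem_ball, dist_eq_norm] at hy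
    rw [mem_closedBall, dist_zero_right]
    have h1 : ‖y‖ ≤ ‖y - h x‖ + ‖h x‖ := by
      have := norm_add_le (y - h x) (h x)
      rwa [sub_add_cancel] at this
    have h2 := min_le_right δ (1 : ℝ)
    linarith
  have hx0 : h x ∈ ball (h x) (min δ 1) := mem_ball_self hmin
  have hx1 : h x + k x ∈ ball (h x) (min δ 1) := by
    rw [mem_ball, dist_eq_norm, add_sub_cancel_left]
    linarith
  have key := Convex.norm_image_sub_le_of_norm_hasFDerivWithin_le' (𝕜 := ℝ) (f := g)
    (f' := fderiv ℝ g) (φ := fderiv ℝ g (h x)) (C := c) (s := ball (h x) (min δ 1))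
    (x := h x) (y := h x + k x)
    (fun y _ => (hg.differentiable (by norm_num) y).hasFDerivAt.hasFDerivWithinAt) (by
      intro y hy
      have h1 := hu y (hsub y hy) (h x) (hsub _ hx0) (by
        rw [mem_ball] at hy
        exact lt_of_lt_of_le hy (min_le_left _ _))
      rw [dist_eq_norm, hdg, hdg] at h1
      exact h1.le) (convex_ball _ _) hx0 hx1
  rw [add_sub_cancel_left] at key
  have e : (G.comp (h + k) - G.comp h - nemL K W W' (dg.comp h) k) x =
      g (h x + k x) - g (h x) - fderiv ℝ g (h x) (k x) := by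
    rw [ContinuousMap.sub_apply, ContinuousMap.sub_apply, nemL_apply, ContinuousMap.comp_apply,
      ContinuousMap.comp_apply, ContinuousMap.comp_apply, ContinuousMap.add_apply, hG, hG, hdg]
  rw [e]
  exact key.trans (mul_le_mul_of_nonneg_left hkx hc.le)

private theorem nem_aux [FiniteDimensional ℝ W] (n : ℕ) : ∀ (V : Type u) [NormedAddCommGroup V]
    [NormedSpace ℝ V] (G : C(W, V)), ContDiff ℝ ∞ G →
      ContDiff ℝ n (fun h : C(K, W) => G.comp h) := by
  induction n with
  | zero =>
    intro V _ _ G _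
    rw [Nat.cast_zero, contDiff_zero]
    exact ContinuousMap.continuous_postcomp G
  | succ n ih =>
    intro V _ _ G hG
    have hd : ContDiff ℝ ∞ (fderiv ℝ (G : W → V)) := hG.fderiv_right (by simp)
    obtain ⟨dg, hdg⟩ : ∃ dg : C(W, W →L[ℝ] V), dg = ⟨fderiv ℝ (G : W → V), hd.continuous⟩ :=
      ⟨_, rfl⟩
    have h1 : ContDiff ℝ n (fun h : C(K, W) => dg.comp h) := by
      apply ih (W →L[ℝ] V) dg
      rw [hdg]
      exact hd
    rw [Nat.cast_succ, contDiff_succ_iff_hasFDerivAt]
    have h2 : ContDiff ℝ n (nemL K W V) := ContinuousLinearMap.contDiff _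
    refine ⟨fun h => nemL K W V (dg.comp h), h2.comp h1, fun h => ?_⟩
    exact nem_deriv (hG.of_le (by exact_mod_cast le_top)) dg (fun w => by rw [hdg]; rfl) G
      (fun w => rfl) h

end nem

theorem nem_contDiff {K : Type*} [TopologicalSpace K] [CompactSpace K] {W W' : Type u}
    [NormedAddCommGroup W] [NormedSpace ℝ W] [FiniteDimensional ℝ W]
    [NormedAddCommGroup W'] [NormedSpace ℝ W'] {g : W → W'} (hg : ContDiff ℝ ∞ g) :
    ContDiff ℝ ∞ (fun h : C(K, W) => (⟨g, hg.continuous⟩ : C(W, W')).comp h) := by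
  rw [contDiff_infty]
  intro n
  exact nem_aux n W' ⟨g, hg.continuous⟩ hg

end H79NG
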