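import Mathlib
import Pool.Agent.H79.NG.Nem
import Pool.Agent.H79.NG.Giv

/-!
# [H79 NG FLW] The flow of a smooth vector field with small Lipschitz constant (Mathlib + NEM, GIV)

Let `K = Icc (-2) 2`, `Y = C(K, W)` (complete). `J : Y →L[ℝ] Y`, `(J γ)(t) = ∫_0^t γ(proj s) ds`,
where `proj = Set.projIcc`, is continuous linear with norm at most `2`
(`‖(J γ)(t)‖ ≤ |t| ‖γ‖ ≤ 2 ‖γ‖`; build it with `LinearMap.mkContinuous`; continuity in `t` of the
integral: `intervalIntegral.continuous_primitive` or the fundamental theorem). Let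
`G γ = - J (X ∘ γ)`; smooth by `nem_contDiff` (`W` and `W` are in the same universe), Lipschitz with
constant `1/4` (`‖X(γ t) - X(γ' t)‖ ≤ (1/8) ‖γ - γ'‖`, times `‖J‖ ≤ 2`). `glob_inv` with
`A = ContinuousLinearEquiv.refl` (norm of the identity `≤ 1`) gives a smooth `f : Y → Y` with
`f z - J (X ∘ f z) = z`. Let `Ψ w = f (const w)` (`ContinuousMap.const`, linear continuous in `w`), and
`Φ w t = Ψ w (projIcc t)`. Then `Φ w t = w + ∫_0^t X(Φ w s) ds` for `|t| ≤ 2`. Evaluation at a point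
is continuous linear, so `w ↦ Φ w t` is smooth. `Φ w 0 = w`. For `|t| < 2` the fundamental theorem
(`intervalIntegral.integral_hasDerivAt_right`, the integrand `s ↦ X(Ψ w (projIcc s))` is continuous
on `ℝ`) and `Φ w s = w + ∫_0^s ...` for `s` near `t` give the derivative.
-/

set_option autoImplicit false

namespace H79NG

open Metric Set Filter Topology
open scoped NNReal ContDiff

section flw

variable {W : Type*} [NormedAddCommGroup W] [NormedSpace ℝ W]

private theorem flw_le : (-2 : ℝ) ≤ 2 := by norm_num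

private noncomputable def flwP : ℝ → Icc (-2 : ℝ) 2 := projIcc (-2) 2 flw_le

private theorem flwP_cont : Continuous flwP := continuous_projIcc

private theorem flw_ii (γ : C(Icc (-2 : ℝ) 2, W)) (a b : ℝ) :
    IntervalIntegrable (fun s => γ (flwP s)) MeasureTheory.volume a b :=
  (γ.continuous.comp flwP_cont).intervalIntegrable a b

/-- the integral operator -/
private noncomputable def flwJl : C(Icc (-2 : ℝ) 2, W) →ₗ[ℝ] C(Icc (-2 : ℝ) 2, W) where
  toFun γ := ⟨fun t => ∫ s in (0 : ℝ)..t, γ (flwP s),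
    (intervalIntegral.continuous_primitive (fun a b => flw_ii γ a b) 0).comp continuous_subtype_val⟩
  map_add' γ δ := by
    ext t
    show (∫ s in (0 : ℝ)..t, (γ + δ) (flwP s)) =
      (∫ s in (0 : ℝ)..t, γ (flwP s)) + ∫ s in (0 : ℝ)..t, δ (flwP s)
    rw [← intervalIntegral.integral_add (flw_ii γ _ _) (flw_ii δ _ _)]
    rfl
  map_smul' c γ := by
    ext t
    show (∫ s in (0 : ℝ)..t, (c • γ) (flwP s)) = c • ∫ s in (0 : ℝ)..t, γ (flwP s)
    rw [← intervalIntegral.integral_smul]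
    rfl

private theorem flwJl_norm (γ : C(Icc (-2 : ℝ) 2, W)) : ‖flwJl γ‖ ≤ 2 * ‖γ‖ := by
  refine (ContinuousMap.norm_le _ (by positivity)).2 fun t => ?_
  have h1 : ‖∫ s in (0 : ℝ)..t, γ (flwP s)‖ ≤ ‖γ‖ * |(t : ℝ) - 0| :=
    intervalIntegral.norm_integral_le_of_norm_le_const fun s _ => γ.norm_coe_le_norm _
  have h2 : |(t : ℝ) - 0| ≤ 2 := by
    rw [sub_zero, abs_le]
    exact ⟨t.2.1, t.2.2⟩
  calc ‖∫ s in (0 : ℝ)..t, γ (flwP s)‖ ≤ ‖γ‖ * |(t : ℝ) - 0| := h1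
    _ ≤ ‖γ‖ * 2 := mul_le_mul_of_nonneg_left h2 (norm_nonneg _)
    _ = 2 * ‖γ‖ := mul_comm _ _

private noncomputable def flwJ : C(Icc (-2 : ℝ) 2, W) →L[ℝ] C(Icc (-2 : ℝ) 2, W) :=
  flwJl.mkContinuous 2 flwJl_norm

private noncomputable def flwC : W →L[ℝ] C(Icc (-2 : ℝ) 2, W) :=
  LinearMap.mkContinuous
    { toFun := fun w => ContinuousMap.const _ w
      map_add' := fun x y => by ext; rfl
      map_smul' := fun c x => by ext; rfl } 1 (fun w => by
        rw [one_mul]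
        exact (ContinuousMap.norm_le _ (norm_nonneg _)).2 fun t => le_rfl)

end flw

theorem exists_flow {W : Type*} [NormedAddCommGroup W] [NormedSpace ℝ W]
    [FiniteDimensional ℝ W] {X : W → W} (hX : ContDiff ℝ ∞ X) (hL : LipschitzWith (1 / 8) X) :
    ∃ Φ : W → ℝ → W, (∀ t ∈ Ioo (-2 : ℝ) 2, ContDiff ℝ ∞ (fun w => Φ w t)) ∧
      (∀ w, Φ w 0 = w) ∧ ∀ w, ∀ t ∈ Ioo (-2 : ℝ) 2, HasDerivAt (Φ w) (X (Φ w t)) t := by
  haveI : CompleteSpace W := FiniteDimensional.complete ℝ W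
  obtain ⟨Xc, hXc⟩ : ∃ Xc : C(W, W), Xc = ⟨X, hX.continuous⟩ := ⟨_, rfl⟩
  have hXa : ∀ w, Xc w = X w := fun w => by rw [hXc]; rfl
  have hN : ContDiff ℝ ∞ (fun h : C(Icc (-2 : ℝ) 2, W) => Xc.comp h) := by
    rw [hXc]
    exact nem_contDiff hX
  have hJc : ContDiff ℝ ∞ (flwJ : C(Icc (-2 : ℝ) 2, W) →L[ℝ] C(Icc (-2 : ℝ) 2, W)) :=
    ContinuousLinearMap.contDiff _
  have hG : ContDiff ℝ ∞ (fun h : C(Icc (-2 : ℝ) 2, W) => -flwJ (Xc.comp h)) :=
    (hJc.comp hN).neg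
  have hGL : LipschitzWith (1 / 4) (fun h : C(Icc (-2 : ℝ) 2, W) => -flwJ (Xc.comp h)) := by
    refine LipschitzWith.of_dist_le_mul fun h k => ?_
    rw [dist_neg_neg, dist_eq_norm, ← map_sub]
    have h1 : ‖flwJ (Xc.comp h - Xc.comp k)‖ ≤ 2 * ‖Xc.comp h - Xc.comp k‖ := flwJl_norm _
    have h2 : ‖Xc.comp h - Xc.comp k‖ ≤ 1 / 8 * ‖h - k‖ := by
      refine (ContinuousMap.norm_le _ (by positivity)).2 fun t => ?_
      rw [ContinuousMap.sub_apply, ContinuousMap.comp_apply, ContinuousMap.comp_apply, hXa, hXa]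
      have h3 := hL.dist_le_mul (h t) (k t)
      rw [dist_eq_norm, dist_eq_norm] at h3
      have h4 : ‖h t - k t‖ ≤ ‖h - k‖ := (h - k).norm_coe_le_norm t
      have h5 : (((1 / 8 : ℝ≥0)) : ℝ) = 1 / 8 := by norm_num
      rw [h5] at h3
      refine h3.trans (mul_le_mul_of_nonneg_left h4 (by norm_num))
    have h5 : (((1 / 4 : ℝ≥0)) : ℝ) = 1 / 4 := by norm_num
    rw [h5, dist_eq_norm]
    linarith
  have hc : (((1 / 4 : ℝ≥0)) : ℝ) * ‖((ContinuousLinearEquiv.refl ℝ C(Icc (-2 : ℝ) 2, W)).symm :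
      C(Icc (-2 : ℝ) 2, W) →L[ℝ] C(Icc (-2 : ℝ) 2, W))‖ < 1 := by
    have h1 : ‖((ContinuousLinearEquiv.refl ℝ C(Icc (-2 : ℝ) 2, W)).symm :
      C(Icc (-2 : ℝ) 2, W) →L[ℝ] C(Icc (-2 : ℝ) 2, W))‖ ≤ 1 := ContinuousLinearMap.norm_id_le
    have h5 : (((1 / 4 : ℝ≥0)) : ℝ) = 1 / 4 := by norm_num
    rw [h5]
    linarith
  obtain ⟨f, hf, -, hf2⟩ := glob_inv (ContinuousLinearEquiv.refl ℝ C(Icc (-2 : ℝ) 2, W)) hG hGL hc
  have hcc : ContDiff ℝ ∞ (flwC : W →L[ℝ] C(Icc (-2 : ℝ) 2, W)) := ContinuousLinearMap.contDiff _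
  have heq : ∀ (w : W) (t : ℝ), t ∈ Icc (-2 : ℝ) 2 → f (flwC w) (flwP t) =
      w + ∫ s in (0 : ℝ)..t, X (f (flwC w) (flwP s)) := by
    intro w t ht
    have h1 := hf2 (flwC w)
    have h2 := congrArg (fun γ : C(Icc (-2 : ℝ) 2, W) => γ (flwP t)) h1
    have h3 : (ContinuousLinearEquiv.refl ℝ C(Icc (-2 : ℝ) 2, W) (f (flwC w)) +
        -flwJ (Xc.comp (f (flwC w)))) (flwP t) =
        f (flwC w) (flwP t) - ∫ s in (0 : ℝ)..t, X (f (flwC w) (flwP s)) := by
      rw [ContinuousMap.add_apply, ContinuousMap.neg_apply, ← sub_eq_add_neg]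
      have h4 : flwP t = ⟨t, ht⟩ := projIcc_of_mem flw_le ht
      have h5 : flwJ (Xc.comp (f (flwC w))) (flwP t) =
          ∫ s in (0 : ℝ)..t, X (f (flwC w) (flwP s)) := by
        rw [h4]
        show (∫ s in (0 : ℝ)..t, (Xc.comp (f (flwC w))) (flwP s)) = _
        refine intervalIntegral.integral_congr fun s _ => ?_
        show Xc (f (flwC w) (flwP s)) = _
        rw [hXa]
      rw [h5]
      rfl
    have h6 : (flwC w) (flwP t) = w := rfl
    have h7 : f (flwC w) (flwP t) - ∫ s in (0 : ℝ)..t, X (f (flwC w) (flwP s)) = w := by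
      rw [← h3, ← h6]
      exact h2
    exact sub_eq_iff_eq_add.1 h7
  refine ⟨fun w t => f (flwC w) (flwP t), fun t _ => ?_, fun w => ?_, fun w t ht => ?_⟩
  · have h1 : ContDiff ℝ ∞ (ContinuousMap.evalCLM ℝ (flwP t) : C(Icc (-2 : ℝ) 2, W) →L[ℝ] W) :=
      ContinuousLinearMap.contDiff _
    exact h1.comp (hf.comp hcc)
  · have h1 := heq w 0 ⟨by norm_num, by norm_num⟩
    rw [intervalIntegral.integral_same, add_zero] at h1
    exact h1
  · have hcont : Continuous (fun s : ℝ => X (f (flwC w) (flwP s))) :=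
      hX.continuous.comp ((f (flwC w)).continuous.comp flwP_cont)
    have h1 : HasDerivAt (fun t => w + ∫ s in (0 : ℝ)..t, X (f (flwC w) (flwP s)))
        (X (f (flwC w) (flwP t))) t := by
      have h2 := (hcont.integral_hasStrictDerivAt 0 t).hasDerivAt
      exact h2.const_add w
    refine h1.congr_of_eventuallyEq ?_
    filter_upwards [Ioo_mem_nhds ht.1 ht.2] with s hs
    exact heq w s ⟨hs.1.le, hs.2.le⟩

end H79NG
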