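import Pool.Agent.H79.NG.Extn
import Pool.Agent.H79.NG.Bas

/-!
# [H79 NG FSM] The fields: smoothness, support, bound, values on `N`

`F_smooth`: `θ`, `ψ`, `pt`, `L` are smooth, `‖·‖²` is smooth (`contDiff_norm_sq`). `F_cpt`: the support is
contained in `tsupport θ ×ˢ tsupport θ`. `F_bd`: `‖Fd q y‖ = θ q θ y ψ(r²) r ≤ 1` with `r = ‖L (pt y) (pt q)‖`
(`Psi.bd`, `Psi.nonneg`). `F_N`: `θ = 1` and `pt = id` on `N`. `F_tan`: if `‖L y q‖ ≤ v₀`, `LogS.tan`;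
otherwise `‖L y q‖ > v₀ ≥ 4 r₁ ≥ 2 r₁`, so `ψ = 0` (`Psi.zero`) and `F = 0`.
`F_nhds`: near `y ∈ N`, `θ = 1` (`infDist < δ`) and `pt z = π z`; for `q ∈ N`, `θ q = 1`, `pt q = q`.
`L_le`: `‖L y q‖ = ‖L y q - L y y‖ ≤ 2 ‖y - q‖` (`LogG.lip`, `diag`).
-/

set_option autoImplicit false

namespace H79NG

open H60NH H60NT Metric Set Filter Topology
open scoped NNReal ContDiff

variable {m : ℕ} {N : Set (E m)} {π : E m → E m} {δ CT : ℝ} {Ex L : E m → E m → E m}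
  {B : E m → E m → E m →L[ℝ] E m} {pt : E m → E m} {θ : E m → ℝ} {ψ : ℝ → ℝ} {v₀ Cb r₁ : ℝ}

theorem L_le (h : FC N π δ CT Ex L B pt θ ψ v₀ Cb r₁) (y q : E m) :
    ‖L y q‖ ≤ 2 * ‖y - q‖ := by
  have h1 := h.hG.lip y y q y
  rw [h.hG.diag, sub_zero, sub_self, norm_zero, zero_add, norm_sub_rev] at h1
  exact h1

private theorem fsm_th (h : FC N π δ CT Ex L B pt θ ψ v₀ Cb r₁) {y : E m}
    (hy : infDist y N < δ) : θ y = 1 ∧ pt y = π y := by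
  have hδ := h.hT.pos
  exact ⟨h.hθ.one y hy.le, h.hp.eq y (by linarith)⟩

private theorem fsm_N (h : FC N π δ CT Ex L B pt θ ψ v₀ Cb r₁) {y : E m} (hy : y ∈ N) :
    θ y = 1 ∧ pt y = y := by
  have hδ := h.hT.pos
  refine ⟨(fsm_th h ?_).1, Ext.eqN h.hT h.hp hy⟩
  rw [infDist_zero_of_mem hy]
  exact hδ

theorem F_smooth (h : FC N π δ CT Ex L B pt θ ψ v₀ Cb r₁) :
    ContDiff ℝ ∞ (fun p : E m × E m => Fd θ ψ pt L p.1 p.2) := by
  have h1 : ContDiff ℝ ∞ (fun p : E m × E m => L (pt p.2) (pt p.1)) :=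
    h.hG.smooth.comp ((h.hp.smooth.comp contDiff_snd).prodMk (h.hp.smooth.comp contDiff_fst))
  have h2 : ContDiff ℝ ∞ (fun p : E m × E m => ψ (‖L (pt p.2) (pt p.1)‖ ^ 2)) :=
    h.hψ.smooth.comp (h1.norm_sq ℝ)
  unfold Fd
  exact ((((h.hθ.smooth.comp contDiff_fst).mul (h.hθ.smooth.comp contDiff_snd)).mul h2).smul
    h1).neg

theorem F_cpt (h : FC N π δ CT Ex L B pt θ ψ v₀ Cb r₁) :
    HasCompactSupport (fun p : E m × E m => Fd θ ψ pt L p.1 p.2) := by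
  have hc : IsCompact (tsupport θ ×ˢ tsupport θ) :=
    IsCompact.prod h.hθ.cpt h.hθ.cpt
  refine HasCompactSupport.of_support_subset_isCompact hc ?_
  intro p hp
  rw [Function.mem_support] at hp
  constructor
  · refine subset_tsupport θ ?_
    rw [Function.mem_support]
    intro h0
    refine hp ?_
    simp only [Fd, h0, zero_mul, zero_smul, neg_zero]
  · refine subset_tsupport θ ?_
    rw [Function.mem_support]
    intro h0
    refine hp ?_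
    simp only [Fd, h0, mul_zero, zero_mul, zero_smul, neg_zero]

theorem F_bd (h : FC N π δ CT Ex L B pt θ ψ v₀ Cb r₁) (q y : E m) : ‖Fd θ ψ pt L q y‖ ≤ 1 := by
  obtain ⟨r, hr⟩ : ∃ r : ℝ, r = ‖L (pt y) (pt q)‖ := ⟨_, rfl⟩
  have hr0 : 0 ≤ r := by
    rw [hr]
    exact norm_nonneg _
  have h1 := h.hψ.bd r hr0
  have h2 := h.hψ.nonneg (r ^ 2)
  have h3 := h.hθ.nonneg q
  have h4 := h.hθ.nonneg y
  have h5 : θ q * θ y ≤ 1 := mul_le_one₀ (h.hθ.le_one q) h4 (h.hθ.le_one y)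
  unfold Fd
  rw [norm_neg, norm_smul, ← hr, Real.norm_of_nonneg (mul_nonneg (mul_nonneg h3 h4) h2), mul_assoc]
  exact mul_le_one₀ h5 (mul_nonneg h2 hr0) h1

theorem F_N (h : FC N π δ CT Ex L B pt θ ψ v₀ Cb r₁) {q y : E m} (hq : q ∈ N) (hy : y ∈ N) :
    Fd θ ψ pt L q y = -(ψ (‖L y q‖ ^ 2) • L y q) := by
  obtain ⟨h1, h2⟩ := fsm_N h hq
  obtain ⟨h3, h4⟩ := fsm_N h hy
  unfold Fd
  rw [h1, h2, h3, h4, one_mul, one_mul]

theorem F_tan (h : FC N π δ CT Ex L B pt θ ψ v₀ Cb r₁) {q y : E m} (hq : q ∈ N) (hy : y ∈ N) :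
    fderiv ℝ π y (Fd θ ψ pt L q y) = Fd θ ψ pt L q y := by
  rw [F_N h hq hy, map_neg, map_smul]
  by_cases hv : ‖L y q‖ ≤ v₀
  · rw [h.hG.tan y hy q hq hv]
  · push Not at hv
    have h1 : ψ (‖L y q‖ ^ 2) = 0 := by
      refine h.hψ.zero _ ?_
      have h2 := h.r_pos
      have h3 := h.r_v
      exact pow_le_pow_left₀ (by linarith) (by linarith) 2
    rw [h1, zero_smul, zero_smul]

theorem F_nhds (h : FC N π δ CT Ex L B pt θ ψ v₀ Cb r₁) {q y : E m} (hq : q ∈ N) (hy : y ∈ N) :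
    (∀ᶠ z in 𝓝 y, Fd θ ψ pt L q z = -(ψ (‖L (π z) q‖ ^ 2) • L (π z) q)) ∧
      ∀ᶠ z in 𝓝 q, Fd θ ψ pt L z y = -(ψ (‖L y (π z)‖ ^ 2) • L y (π z)) := by
  have hδ := h.hT.pos
  obtain ⟨h1, h2⟩ := fsm_N h hq
  obtain ⟨h3, h4⟩ := fsm_N h hy
  have hmem : ∀ w ∈ N, ∀ᶠ z in 𝓝 w, infDist z N < δ := by
    intro w hw
    refine (nbhdN N δ).mem_nhds ?_
    show infDist w N < δ
    rw [infDist_zero_of_mem hw]
    exact hδ
  constructor
  · filter_upwards [hmem y hy] with z hz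
    obtain ⟨h5, h6⟩ := fsm_th h hz
    unfold Fd
    rw [h1, h2, h5, h6, one_mul, one_mul]
  · filter_upwards [hmem q hq] with z hz
    obtain ⟨h5, h6⟩ := fsm_th h hz
    unfold Fd
    rw [h3, h4, h5, h6, one_mul, one_mul]

end H79NG
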