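import Pool.Agent.H79.NG.Fdn
import Pool.Agent.H79.NG.Fsm
import Pool.Agent.H79.NG.Bas

/-!
# [H79 NG FMO] Monotonicity of the fields (F1)

`FC.r_B` gives `Cb (3 r₁/2)² ≤ 1/2`, so `‖B y q‖ ≤ Cb ‖y - q‖² ≤ Cb ‖L y q‖² ≤ 1/2` (`chord`, `Bbd`;
`‖L y q‖ ≤ 3 r₁/2 < v₀`).
`F_mono`: let `ℓ = L y q`, `r = ‖ℓ‖`. If `r = 0` then `F_form` is `ψ(0)(‖a‖² + <a, B a>) ≥ 0`. Let
`r > 0`, `a = α ℓ/r + u` with `<u,ℓ> = 0`, `α = <ℓ,a>/r`, `‖a‖² = α² + ‖u‖²`. `<a, B a> = <u, B u>` (`Bker`,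
`Bsymm`), at most `‖u‖²/2` in absolute value. `F_form` with `b = a`:
`2 ψ'(r²) r² α² + ψ(r²)(α² + ‖u‖² + <u,Bu>) ≥ (2 r² ψ'(r²) + ψ(r²)) α² + ψ(r²) ‖u‖²/2 ≥ 0`
(`Psi.mono`, `Psi.nonneg`).
`F_strict`: `‖L y q‖ ≤ 2 ‖y - q‖ ≤ r₁/8 < r₁/4`; `ψ = 1/r₁` near `r²` (`Psi.near` for `s` near `r²`), so
`deriv ψ (r²) = 0`, `F_form` gives `(1/r₁)(‖a‖² + <a,B a>) ≥ (1/r₁)(1/2) ‖a‖²`.
-/

set_option autoImplicit false

namespace H79NG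

open H60NH H60NT Metric Set Filter Topology
open scoped NNReal ContDiff

variable {m : ℕ} {N : Set (E m)} {π : E m → E m} {δ CT : ℝ} {Ex L : E m → E m → E m}
  {B : E m → E m → E m →L[ℝ] E m} {pt : E m → E m} {θ : E m → ℝ} {ψ : ℝ → ℝ} {v₀ Cb r₁ : ℝ}

private theorem fmo_B (h : FC N π δ CT Ex L B pt θ ψ v₀ Cb r₁) {q y : E m} (hq : q ∈ N)
    (hy : y ∈ N) (h1 : ‖L y q‖ ≤ 3 * r₁ / 2) (x : E m) :
    -(1 / 2 * ‖x‖ ^ 2) ≤ inner ℝ x (B y q x) := by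
  have hr := h.r_pos
  have hv : ‖L y q‖ ≤ v₀ := by linarith [h.r_v]
  have hc := h.hG.chord y hy q hq hv
  have hCb : 0 ≤ Cb := by linarith [h.hG.one_le]
  have hB : ‖B y q‖ ≤ 1 / 2 := by
    calc ‖B y q‖ ≤ Cb * ‖y - q‖ ^ 2 := h.hG.Bbd y hy q hq
      _ ≤ Cb * (3 * r₁ / 2) ^ 2 := by
        have h2 : ‖y - q‖ ≤ 3 * r₁ / 2 := hc.trans h1
        gcongr
      _ ≤ 1 / 2 := by nlinarith [h.r_B]
  have h3 : |inner ℝ x (B y q x)| ≤ 1 / 2 * ‖x‖ ^ 2 := by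
    calc |inner ℝ x (B y q x)| ≤ ‖x‖ * ‖B y q x‖ := abs_real_inner_le_norm _ _
      _ ≤ ‖x‖ * (1 / 2 * ‖x‖) := by
        refine mul_le_mul_of_nonneg_left ?_ (norm_nonneg _)
        exact ((B y q).le_opNorm x).trans (mul_le_mul_of_nonneg_right hB (norm_nonneg _))
      _ = 1 / 2 * ‖x‖ ^ 2 := by ring
  exact (abs_le.mp h3).1

theorem F_mono (h : FC N π δ CT Ex L B pt θ ψ v₀ Cb r₁) {q y a : E m} (hq : q ∈ N) (hy : y ∈ N)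
    (h1 : ‖L y q‖ ≤ 3 * r₁ / 2) (ha : fderiv ℝ π y a = a) :
    0 ≤ inner ℝ a (fderiv ℝ (Fd θ ψ pt L q) y a) := by
  have hr := h.r_pos
  have hv : ‖L y q‖ < v₀ := by linarith [h.r_v]
  rw [F_form h hq hy hv ha ha]
  have hψ0 := h.hψ.nonneg (‖L y q‖ ^ 2)
  have hm := h.hψ.mono (‖L y q‖ ^ 2) (sq_nonneg _)
    (pow_le_pow_left₀ (norm_nonneg _) h1 2)
  have hk := h.hG.Bker y hy q hq hv
  have hs := h.hG.Bsymm y hy q hq hv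
  have hb := fmo_B h hq hy h1
  obtain ⟨ℓ, hℓ⟩ : ∃ ℓ, ℓ = L y q := ⟨_, rfl⟩
  rw [← hℓ] at hψ0 hm hk ⊢
  obtain ⟨T, hT⟩ : ∃ T : E m →L[ℝ] E m, T = B y q := ⟨_, rfl⟩
  rw [← hT] at hk hs hb ⊢
  obtain ⟨p, hp⟩ : ∃ p : ℝ, p = ψ (‖ℓ‖ ^ 2) := ⟨_, rfl⟩
  obtain ⟨p', hp'⟩ : ∃ p' : ℝ, p' = deriv ψ (‖ℓ‖ ^ 2) := ⟨_, rfl⟩
  rw [← hp] at hψ0
  rw [← hp, ← hp'] at hm ⊢
  by_cases h0 : ℓ = 0
  · have h2 := hb a
    rw [h0]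
    simp only [inner_zero_left, mul_zero, zero_add]
    refine mul_nonneg hψ0 ?_
    rw [real_inner_self_eq_norm_sq]
    linarith [sq_nonneg ‖a‖]
  · have hn : 0 < ‖ℓ‖ := norm_pos_iff.mpr h0
    have hn2 : ‖ℓ‖ ^ 2 ≠ 0 := by positivity
    obtain ⟨c, hc⟩ : ∃ c : ℝ, c = inner ℝ ℓ a / ‖ℓ‖ ^ 2 := ⟨_, rfl⟩
    have hla : inner ℝ ℓ a = c * ‖ℓ‖ ^ 2 := by rw [hc]; field_simp
    obtain ⟨u, hu⟩ : ∃ u, u = a - c • ℓ := ⟨_, rfl⟩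
    have hau : a = u + c • ℓ := by rw [hu]; abel
    have hul : inner ℝ ℓ u = 0 := by
      rw [hu, inner_sub_right, inner_smul_right, real_inner_self_eq_norm_sq, hla, sub_self]
    have hna : inner ℝ a a = ‖u‖ ^ 2 + c ^ 2 * ‖ℓ‖ ^ 2 := by
      have h3 : inner ℝ u ℓ = 0 := by rw [real_inner_comm]; exact hul
      rw [hau, inner_add_left, inner_add_right, inner_add_right, inner_smul_left,
        inner_smul_left, inner_smul_right, inner_smul_right, h3, hul,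
        real_inner_self_eq_norm_sq, real_inner_self_eq_norm_sq]
      simp
      ring
    have hTa : inner ℝ a (T a) = inner ℝ u (T u) := by
      have h4 : T a = T u := by rw [hau, map_add, map_smul, hk, smul_zero, add_zero]
      have h5 : inner ℝ ℓ (T u) = 0 := by rw [← hs, hk, inner_zero_left]
      rw [h4, hau, inner_add_left, inner_smul_left, h5]
      simp
    have hbu := hb u
    rw [hna, hTa, hla]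
    have e1 : 2 * p' * (c * ‖ℓ‖ ^ 2) * (c * ‖ℓ‖ ^ 2) +
        p * (‖u‖ ^ 2 + c ^ 2 * ‖ℓ‖ ^ 2 + inner ℝ u (T u)) =
        (p + 2 * ‖ℓ‖ ^ 2 * p') * (c ^ 2 * ‖ℓ‖ ^ 2) +
        p * (‖u‖ ^ 2 + inner ℝ u (T u)) := by ring
    rw [e1]
    refine add_nonneg (mul_nonneg hm (by positivity)) (mul_nonneg hψ0 ?_)
    linarith [sq_nonneg ‖u‖]

theorem F_strict (h : FC N π δ CT Ex L B pt θ ψ v₀ Cb r₁) {q y a : E m} (hq : q ∈ N) (hy : y ∈ N)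
    (h1 : ‖y - q‖ ≤ r₁ / 16) (ha : fderiv ℝ π y a = a) :
    1 / (2 * r₁) * ‖a‖ ^ 2 ≤ inner ℝ a (fderiv ℝ (Fd θ ψ pt L q) y a) := by
  have hr := h.r_pos
  have hL : ‖L y q‖ ≤ r₁ / 8 := (L_le h y q).trans (by linarith)
  have hv : ‖L y q‖ < v₀ := by linarith [h.r_v]
  rw [F_form h hq hy hv ha ha]
  have hb := fmo_B h hq hy (by linarith) a
  have hlt : ‖L y q‖ ^ 2 < (r₁ / 4) ^ 2 :=
    pow_lt_pow_left₀ (by linarith) (norm_nonneg _) (by norm_num)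
  have hp : ψ (‖L y q‖ ^ 2) = 1 / r₁ := h.hψ.near _ hlt.le
  have hp' : deriv ψ (‖L y q‖ ^ 2) = 0 := by
    have h2 : ψ =ᶠ[𝓝 (‖L y q‖ ^ 2)] fun _ => 1 / r₁ := by
      filter_upwards [gt_mem_nhds hlt] with s hs
      exact h.hψ.near s (le_of_lt hs)
    rw [h2.deriv_eq, deriv_const]
  rw [hp, hp', real_inner_self_eq_norm_sq]
  have h3 : 1 / (2 * r₁) * ‖a‖ ^ 2 = 1 / r₁ * (1 / 2 * ‖a‖ ^ 2) := by
    field_simp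
  rw [h3]
  have h4 : 1 / r₁ * (1 / 2 * ‖a‖ ^ 2) ≤ 1 / r₁ * (‖a‖ ^ 2 + inner ℝ a (B y q a)) :=
    mul_le_mul_of_nonneg_left (by linarith) (by positivity)
  linarith

end H79NG
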