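import Pool.Agent.H79.NG.Fdn
import Pool.Agent.H79.NG.Fsm
import Pool.Agent.H79.NG.Bas

/-!
# [H79 NG FNE] The fields near the diagonal (F2)

`‖L y q‖ ≤ 2 ‖y - q‖ ≤ r₁/8 < r₁/4`.
`F_near0`: `F = -(1/r₁) L` (`F_N`, `Psi.near`), so the left side is
`(1/r₁) ‖L y q - Dπ(y)(q - y)‖ ≤ (Cb/r₁) ‖y - q‖³` (`cub`).
`F_neary`: `F_near` and `cuby`: the left side is
`(1/r₁) ‖DL a - (D2 π y a (q - y) - Dπ(y) a)‖`. `F_nearq`: `F_near` and `cubq`.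
-/

set_option autoImplicit false

namespace H79NG

open H60NH H60NT Metric Set Filter Topology
open scoped NNReal ContDiff

variable {m : ℕ} {N : Set (E m)} {π : E m → E m} {δ CT : ℝ} {Ex L : E m → E m → E m}
  {B : E m → E m → E m →L[ℝ] E m} {pt : E m → E m} {θ : E m → ℝ} {ψ : ℝ → ℝ} {v₀ Cb r₁ : ℝ}

private theorem fne_lt (h : FC N π δ CT Ex L B pt θ ψ v₀ Cb r₁) {q y : E m}
    (h1 : ‖y - q‖ ≤ r₁ / 16) : ‖L y q‖ < r₁ / 4 := by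
  have hr := h.r_pos
  have h2 := L_le h y q
  linarith

private theorem fne_bd {r c : ℝ} (hr : 0 < r) {w : E m} (hw : ‖w‖ ≤ c) :
    ‖-((1 / r) • w)‖ ≤ c / r := by
  rw [norm_neg, norm_smul, Real.norm_eq_abs, abs_of_pos (by positivity : 0 < 1 / r),
    div_eq_mul_one_div c r, mul_comm c]
  exact mul_le_mul_of_nonneg_left hw (by positivity)

theorem F_near0 (h : FC N π δ CT Ex L B pt θ ψ v₀ Cb r₁) {q y : E m} (hq : q ∈ N) (hy : y ∈ N)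
    (h1 : ‖y - q‖ ≤ r₁ / 16) :
    ‖Fd θ ψ pt L q y - (1 / r₁) • fderiv ℝ π y (y - q)‖ ≤ Cb / r₁ * ‖y - q‖ ^ 3 := by
  have hr := h.r_pos
  have hlt := fne_lt h h1
  have hp : ψ (‖L y q‖ ^ 2) = 1 / r₁ :=
    h.hψ.near _ (pow_le_pow_left₀ (norm_nonneg _) hlt.le 2)
  have e1 : Fd θ ψ pt L q y - (1 / r₁) • fderiv ℝ π y (y - q) =
      -((1 / r₁) • (L y q - fderiv ℝ π y (q - y))) := by
    rw [F_N h hq hy, hp, ← neg_sub q y, map_neg]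
    module
  rw [e1]
  refine (fne_bd hr (h.hG.cub y hy q hq)).trans (le_of_eq ?_)
  ring

theorem F_neary (h : FC N π δ CT Ex L B pt θ ψ v₀ Cb r₁) {q y a : E m} (hq : q ∈ N) (hy : y ∈ N)
    (h1 : ‖y - q‖ ≤ r₁ / 16) (ha : fderiv ℝ π y a = a) :
    ‖fderiv ℝ (Fd θ ψ pt L q) y a - (1 / r₁) • (fderiv ℝ π y a + D2 π y a (y - q))‖ ≤
      Cb / r₁ * ‖y - q‖ ^ 2 * ‖a‖ := by
  have hr := h.r_pos
  have hlt := fne_lt h h1
  have e1 : fderiv ℝ (Fd θ ψ pt L q) y a - (1 / r₁) • (fderiv ℝ π y a + D2 π y a (y - q)) =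
      -((1 / r₁) • (fderiv ℝ (fun z => L z q) y a -
        (D2 π y a (q - y) - fderiv ℝ π y a))) := by
    rw [(F_near h hq hy hlt).1 a ha, ← neg_sub q y, map_neg]
    module
  rw [e1]
  refine (fne_bd hr (h.hG.cuby y hy q hq a ha)).trans (le_of_eq ?_)
  ring

theorem F_nearq (h : FC N π δ CT Ex L B pt θ ψ v₀ Cb r₁) {q y b : E m} (hq : q ∈ N) (hy : y ∈ N)
    (h1 : ‖y - q‖ ≤ r₁ / 16) (hb : fderiv ℝ π q b = b) :
    ‖fderiv ℝ (fun p => Fd θ ψ pt L p y) q b + (1 / r₁) • fderiv ℝ π y b‖ ≤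
      Cb / r₁ * ‖y - q‖ ^ 2 * ‖b‖ := by
  have hr := h.r_pos
  have hlt := fne_lt h h1
  have e1 : fderiv ℝ (fun p => Fd θ ψ pt L p y) q b + (1 / r₁) • fderiv ℝ π y b =
      -((1 / r₁) • (fderiv ℝ (fun z => L y z) q b - fderiv ℝ π y b)) := by
    rw [(F_near h hq hy hlt).2 b hb]
    module
  rw [e1]
  refine (fne_bd hr (h.hG.cubq y hy q hq b hb)).trans (le_of_eq ?_)
  ring

end H79NG
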