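import Pool.Agent.H79.NG.Fdn
import Pool.Agent.H79.NG.Fsm
import Pool.Agent.H79.NG.Bas

/-!
# [H79 NG FUN] The fields in the region where their length is one

Let `r = ‖L y q‖`, `r₁/2 ≤ r ≤ 3 r₁/2 (< v₀)`; `r > 0`. `Psi.unit`: `ψ(r²) = 1/r`, so `F = -(1/r) L` (`F_N`),
`‖F‖ = 1`, `B y q F = -(1/r) B y q L = 0` (`Bker`). `Psi.der`: `2 ψ'(r²) = -1/r³`. `F_form`:
`<b, DF a> = -(1/r³) <L,a><L,b> + (1/r)(<b,a> + <b, B a>)` and `<L,a> = - r <F,a>`, `<L,b> = - r <F,b>`, so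
`= (1/r)(<b,a> - <a,F><b,F> + <b,B a>)`.
`dr`: `t ↦ ‖L (Γ t) q‖` along a curve `Γ` with `Γ(s) = y ∈ N`, `Γ'(s) = a` tangent: `‖·‖` is differentiable
at `L y q ≠ 0`; the derivative is `<L, DL a>/r = - <L,a>/r = <a,F>` (`gauss`; `HasDerivAt.norm_sq` and
square root, or `HasFDerivAt.norm`; the curve need not stay in `N`).
-/

set_option autoImplicit false

namespace H79NG

open H60NH H60NT Metric Set Filter Topology
open scoped NNReal ContDiff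

variable {m : ℕ} {N : Set (E m)} {π : E m → E m} {δ CT : ℝ} {Ex L : E m → E m → E m}
  {B : E m → E m → E m →L[ℝ] E m} {pt : E m → E m} {θ : E m → ℝ} {ψ : ℝ → ℝ} {v₀ Cb r₁ : ℝ}

theorem F_unit (h : FC N π δ CT Ex L B pt θ ψ v₀ Cb r₁) {q y : E m} (hq : q ∈ N) (hy : y ∈ N)
    (h1 : r₁ / 2 ≤ ‖L y q‖) (h2 : ‖L y q‖ ≤ 3 * r₁ / 2) :
    ‖Fd θ ψ pt L q y‖ = 1 ∧ Fd θ ψ pt L q y = -((1 / ‖L y q‖) • L y q) ∧
      B y q (Fd θ ψ pt L q y) = 0 ∧
      ∀ a b, fderiv ℝ π y a = a → fderiv ℝ π y b = b →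
        inner ℝ b (fderiv ℝ (Fd θ ψ pt L q) y a) = 1 / ‖L y q‖ *
          (inner ℝ b a - inner ℝ a (Fd θ ψ pt L q y) * inner ℝ b (Fd θ ψ pt L q y) +
            inner ℝ b (B y q a)) := by
  have hr₁ := h.r_pos
  have hv := h.r_v
  obtain ⟨r, hr⟩ : ∃ r : ℝ, r = ‖L y q‖ := ⟨_, rfl⟩
  rw [← hr] at h1 h2
  have hr0 : 0 < r := by linarith
  have hLv : ‖L y q‖ < v₀ := by
    rw [← hr]
    linarith
  have hψ : ψ (r ^ 2) = 1 / r := by
    rw [eq_div_iff hr0.ne']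
    exact h.hψ.unit r h1 h2
  have hψ' : deriv ψ (r ^ 2) = -1 / (2 * r ^ 3) := by
    rw [eq_div_iff (by positivity), mul_comm]
    exact h.hψ.der r h1 h2
  have hF : Fd θ ψ pt L q y = -((1 / r) • L y q) := by
    rw [F_N h hq hy, ← hr, hψ]
  refine ⟨?_, ?_, ?_, ?_⟩
  · rw [hF, norm_neg, norm_smul, ← hr, Real.norm_of_nonneg (by positivity)]
    field_simp
  · rw [hF, hr]
  · rw [hF, map_neg, map_smul, h.hG.Bker y hy q hq hLv, smul_zero, neg_zero]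
  · intro a b ha hb
    rw [F_form h hq hy hLv ha hb, ← hr, hψ, hψ', hF, inner_neg_right, inner_neg_right,
      real_inner_smul_right, real_inner_smul_right, real_inner_comm a (L y q),
      real_inner_comm b (L y q)]
    field_simp
    ring

theorem F_dr (h : FC N π δ CT Ex L B pt θ ψ v₀ Cb r₁) {q y a : E m} (hq : q ∈ N) (hy : y ∈ N)
    (h1 : r₁ / 2 ≤ ‖L y q‖) (h2 : ‖L y q‖ ≤ 3 * r₁ / 2) (ha : fderiv ℝ π y a = a)
    {Γ : ℝ → E m} {s : ℝ} (hΓ : HasDerivAt Γ a s) (hs : Γ s = y) :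
    HasDerivAt (fun t => ‖L (Γ t) q‖) (inner ℝ a (Fd θ ψ pt L q y)) s := by
  have hr₁ := h.r_pos
  have hv := h.r_v
  obtain ⟨r, hr⟩ : ∃ r : ℝ, r = ‖L y q‖ := ⟨_, rfl⟩
  have h1' := h1
  have h2' := h2
  rw [← hr] at h1 h2
  have hr0 : 0 < r := by linarith
  have hLv : ‖L y q‖ < v₀ := by
    rw [← hr]
    linarith
  have hF := (F_unit h hq hy h1' h2').2.1
  have hsm : ContDiff ℝ ∞ (fun z : E m => L z q) :=
    h.hG.smooth.comp (contDiff_id.prodMk contDiff_const)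
  have hd : HasFDerivAt (fun z : E m => L z q) (fderiv ℝ (fun z => L z q) y) y :=
    ((hsm.differentiable (by simp)) y).hasFDerivAt
  have hd' : HasDerivAt (fun t => L (Γ t) q) (fderiv ℝ (fun z => L z q) y a) s := by
    rw [← hs] at hd
    have h3 := hd.comp_hasDerivAt s hΓ
    rw [hs] at h3
    exact h3
  have hn := hd'.norm_sq
  have hne : ‖L (Γ s) q‖ ^ 2 ≠ 0 := by
    rw [hs, ← hr]
    positivity
  have hs2 := hn.sqrt hne
  have e1 : (fun t => Real.sqrt (‖L (Γ t) q‖ ^ 2)) = fun t => ‖L (Γ t) q‖ := by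
    funext t
    exact Real.sqrt_sq (norm_nonneg _)
  rw [e1, hs] at hs2
  have e2 : 2 * inner ℝ (L y q) (fderiv ℝ (fun z => L z q) y a) /
      (2 * Real.sqrt (‖L y q‖ ^ 2)) = inner ℝ a (Fd θ ψ pt L q y) := by
    rw [h.hG.gauss y hy q hq hLv a ha, Real.sqrt_sq (norm_nonneg _), hF, inner_neg_right,
      real_inner_smul_right, ← hr, real_inner_comm a (L y q)]
    field_simp
  rw [e2] at hs2
  exact hs2

end H79NG
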