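import Mathlib

/-!
# [H79 NG VAR] First variation of the energy of a family of curves (Mathlib only)

Write `T(x) = Dγ(x)(1,0)`, `S(x) = Dγ(x)(0,1)`; smooth. Let `e(t) = <T(t,0), S(t,0)>`. Then
`e'(t) = <D T(t,0)(1,0), S(t,0)> + <T(t,0), D S(t,0)(1,0)>`. The first term is `0` for `t ∈ [0,1]` by
`h1`. By symmetry of the second derivative of `γ`
(`D S(x)(1,0) = D²γ(x)(1,0)(0,1) = D²γ(x)(0,1)(1,0) = D T(x)(0,1)`,
`ContDiffAt.isSymmSndFDerivAt`) the second term is `<T(t,0), DT(t,0)(0,1)>`, which is half of the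
derivative of `s ↦ ‖T(t,s)‖²` at `s = 0`, i.e. `f₀` by `h2` (uniqueness of derivatives,
`HasDerivAt.norm_sq`). So `e' = f₀` on `[0,1]` and `e(1) - e(0) = f₀` (e.g. the derivative of
`e(t) - f₀ t` vanishes on `[0,1]`; `constant_of_has_deriv_right_zero` or `exists_deriv_eq_slope`).
-/

set_option autoImplicit false

namespace H79NG

open Metric Set Filter Topology
open scoped NNReal ContDiff

theorem first_variation {V : Type*} [NormedAddCommGroup V] [InnerProductSpace ℝ V]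
    {γ : ℝ × ℝ → V} (hγ : ContDiff ℝ ∞ γ) {f₀ : ℝ}
    (h1 : ∀ t ∈ Icc (0 : ℝ) 1, inner ℝ (fderiv ℝ (fun x => fderiv ℝ γ x (1, 0)) (t, 0) (1, 0))
      (fderiv ℝ γ (t, 0) (0, 1)) = 0)
    (h2 : ∀ t ∈ Icc (0 : ℝ) 1,
      HasDerivAt (fun s : ℝ => ‖fderiv ℝ γ (t, s) (1, 0)‖ ^ 2) (2 * f₀) 0) :
    inner ℝ (fderiv ℝ γ (1, 0) (1, 0)) (fderiv ℝ γ (1, 0) (0, 1)) -
      inner ℝ (fderiv ℝ γ (0, 0) (1, 0)) (fderiv ℝ γ (0, 0) (0, 1)) = f₀ := by
  have hγ1 : ContDiff ℝ ∞ (fderiv ℝ γ) := hγ.fderiv_right (by simp)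
  have hγd1 : Differentiable ℝ (fderiv ℝ γ) := hγ1.differentiable (by simp)
  have hsym : ∀ x a b, fderiv ℝ (fderiv ℝ γ) x a b = fderiv ℝ (fderiv ℝ γ) x b a := by
    intro x a b
    have h1 : IsSymmSndFDerivAt ℝ γ x := by
      refine (hγ.contDiffAt (x := x)).isSymmSndFDerivAt ?_
      rw [minSmoothness_of_isRCLikeNormedField]
      exact WithTop.coe_le_coe.mpr le_top
    exact h1.eq a b
  -- the derivative of `x ↦ Dγ(x) b`
  have hap : ∀ (b x : ℝ × ℝ), HasFDerivAt (fun x => fderiv ℝ γ x b)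
      ((fderiv ℝ (fderiv ℝ γ) x).flip b) x := by
    intro b x
    have h2 := (ContinuousLinearMap.apply ℝ V b).hasFDerivAt.comp x (hγd1 x).hasFDerivAt
    have h3 : (ContinuousLinearMap.apply ℝ V b).comp (fderiv ℝ (fderiv ℝ γ) x) =
        (fderiv ℝ (fderiv ℝ γ) x).flip b := ContinuousLinearMap.ext fun w => rfl
    rw [h3] at h2
    exact h2
  have hcurve1 : ∀ (b : ℝ × ℝ) (t : ℝ), HasDerivAt (fun t : ℝ => fderiv ℝ γ (t, 0) b)
      (fderiv ℝ (fderiv ℝ γ) (t, 0) (1, 0) b) t := by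
    intro b t
    have h3 : HasDerivAt (fun t : ℝ => ((t, 0) : ℝ × ℝ)) (1, 0) t :=
      (hasDerivAt_id t).prodMk (hasDerivAt_const t (0 : ℝ))
    exact (hap b (t, 0)).comp_hasDerivAt t h3
  have hcurve2 : ∀ (b : ℝ × ℝ) (t s : ℝ), HasDerivAt (fun s : ℝ => fderiv ℝ γ (t, s) b)
      (fderiv ℝ (fderiv ℝ γ) (t, s) (0, 1) b) s := by
    intro b t s
    have h3 : HasDerivAt (fun s : ℝ => ((t, s) : ℝ × ℝ)) (0, 1) s :=
      (hasDerivAt_const s t).prodMk (hasDerivAt_id s)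
    exact (hap b (t, s)).comp_hasDerivAt s h3
  -- the derivative of `e`
  have hder : ∀ t ∈ Icc (0 : ℝ) 1, HasDerivAt
      (fun t : ℝ => inner ℝ (fderiv ℝ γ (t, 0) (1, 0)) (fderiv ℝ γ (t, 0) (0, 1)) - f₀ * t) 0 t := by
    intro t ht
    have h3 := (hcurve1 (1, 0) t).inner ℝ (hcurve1 (0, 1) t)
    have h4 : inner ℝ (fderiv ℝ (fderiv ℝ γ) (t, 0) (1, 0) (1, 0)) (fderiv ℝ γ (t, 0) (0, 1)) =
        0 := by
      have h5 := h1 t ht
      rw [(hap (1, 0) (t, 0)).fderiv] at h5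
      exact h5
    have h5 : inner ℝ (fderiv ℝ γ (t, 0) (1, 0)) (fderiv ℝ (fderiv ℝ γ) (t, 0) (1, 0) (0, 1)) =
        f₀ := by
      have h6 := (hcurve2 (1, 0) t 0).norm_sq
      have h7 := h6.unique (h2 t ht)
      rw [hsym (t, 0) (1, 0) (0, 1)]
      linarith
    rw [h4, h5] at h3
    have h6 := h3.sub ((hasDerivAt_id t).const_mul f₀)
    have h7 : f₀ + 0 - f₀ * 1 = 0 := by ring
    rw [h7] at h6
    exact h6
  have hconst := constant_of_has_deriv_right_zero (a := (0 : ℝ)) (b := 1)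
    (f := fun t : ℝ => inner ℝ (fderiv ℝ γ (t, 0) (1, 0)) (fderiv ℝ γ (t, 0) (0, 1)) - f₀ * t)
    (fun t ht => (hder t ht).continuousAt.continuousWithinAt)
    (fun t ht => (hder t ⟨ht.1, ht.2.le⟩).hasDerivWithinAt) 1 (by norm_num)
  simp only [mul_one, mul_zero, sub_zero] at hconst
  linarith

end H79NG
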