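import Pool.Agent.H79.NG.Extn
import Pool.Agent.H79.NG.Var
import Pool.Agent.H79.NG.Bas

/-!
# [H79 NG GAU] Gauss lemma

`chord_log`: `Γ(t) = Ex y (t • L y q)` is a geodesic on `[-1,1]` with speed `‖L y q‖`, `Γ(0) = y` (`zero`),
`Γ(1) = q` (`exp`); `geod_chord`.

`gauss`. Take `pt` from `exists_ext`. Let `Y(s) = pt (y + s • a)` and `ℓ(s) = L (Y s) q`; smooth in `s`,
`Y(0) = y`, `Y'(0) = Dπ(y) a = a` (`Ext.derN`), `ℓ'(0) = fderiv ℝ (fun z => L z q) y a`. For `s` near `0`: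
`infDist (y + s • a) N < 3 δ`, so `Y(s) ∈ N`, and `‖ℓ(s)‖ < v₀`, so `ℓ(s)` is tangent at `Y(s)` and
`Ex (Y s) (ℓ s) = q`. Let `γ(t,s) = Ex (Y s) (t • ℓ s)`; smooth on `ℝ × ℝ`. By the chain rule
`T(t,s) := Dγ(t,s)(1,0) = fderiv ℝ (Ex (Y s)) (t • ℓ s) (ℓ s)`. For `s` near `0` and `t ∈ [0,1]`, `ExpS.geod`
(for `Y(s), ℓ(s)`) gives: `γ(t,s) ∈ N`, `T(t,s)` tangent, `‖T(t,s)‖ = ‖ℓ(s)‖`, and the `t`-derivative of
`T(t,s)` is `D2 π γ T T`. So
* `h2` of `first_variation`: for each `t ∈ [0,1]`, `s ↦ ‖T(t,s)‖²` equals `‖ℓ(s)‖²` near `s = 0`,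
derivative `2 <ℓ(0), ℓ'(0)>`: `f₀ = <ℓ(0), ℓ'(0)>`.
* `h1`: `S(t) = Dγ(t,0)(0,1)` is tangent at `γ(t,0)`: `γ(t,s) = π(γ(t,s))` for `s` near `0`
(`γ(t,s) ∈ N`), differentiate in `s`: `S = Dπ(γ) S`. And `D T(t,0)(1,0) = D2 π γ T T`; `D2_inner`.
* `t = 1`: `γ(1,s) = q` near `s = 0`, so `Dγ(1,0)(0,1) = 0`. `t = 0`: `γ(0,s) = Ex (Y s) 0 = Y(s)` near
`s = 0`, so `Dγ(0,0)(0,1) = a`; `T(0,0) = fderiv ℝ (Ex y) 0 (ℓ 0) = ℓ(0)` (`der0`).
`first_variation`: `0 - <ℓ(0), a> = <ℓ(0), ℓ'(0)>`.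
-/

set_option autoImplicit false

namespace H79NG

open H60NH H60NT Metric Set Filter Topology
open scoped NNReal ContDiff

theorem chord_log {m : ℕ} {N : Set (E m)} {π : E m → E m} {δ C v₀ : ℝ} {Ex L : E m → E m → E m}
    (hT : TC N π δ C) (hX : ExpS N π Ex v₀) (hL : LogS N π Ex L v₀)
    {y q : E m} (hy : y ∈ N) (hq : q ∈ N) (h : ‖L y q‖ ≤ v₀) : ‖y - q‖ ≤ ‖L y q‖ := by
  have _ := hT
  have G := hX.geod y hy (L y q) (hL.tan y hy q hq h) h
  have h1 := geod_chord G (s := 0) (t := 1) (by norm_num) (by norm_num)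
  simp only [zero_smul, one_smul] at h1
  rw [hX.zero y hy, hL.exp y hy q hq h] at h1
  simpa using h1

theorem gauss {m : ℕ} {N : Set (E m)} {π : E m → E m} {δ C v₀ : ℝ} {Ex L : E m → E m → E m}
    (hT : TC N π δ C) (hX : ExpS N π Ex v₀) (hL : LogS N π Ex L v₀)
    {y q : E m} (hy : y ∈ N) (hq : q ∈ N) (h : ‖L y q‖ < v₀) {a : E m}
    (ha : fderiv ℝ π y a = a) :
    inner ℝ (L y q) (fderiv ℝ (fun z => L z q) y a) = - inner ℝ (L y q) a := by
  obtain ⟨pt, hp⟩ := exists_ext hT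
  obtain ⟨Y, hY⟩ : ∃ Y : ℝ → E m, Y = fun s => pt (y + s • a) := ⟨_, rfl⟩
  obtain ⟨l, hl⟩ : ∃ l : ℝ → E m, l = fun s => L (Y s) q := ⟨_, rfl⟩
  obtain ⟨γ, hγ⟩ : ∃ γ : ℝ × ℝ → E m, γ = fun x => Ex (Y x.2) (x.1 • l x.2) := ⟨_, rfl⟩
  have hYs : ContDiff ℝ ∞ Y := by
    rw [hY]
    exact hp.smooth.comp (contDiff_const.add (contDiff_id.smul contDiff_const))
  have hls : ContDiff ℝ ∞ l := by
    rw [hl]
    exact hL.smooth.comp (hYs.prodMk contDiff_const)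
  have hγs : ContDiff ℝ ∞ γ := by
    rw [hγ]
    exact hX.smooth.comp ((hYs.comp contDiff_snd).prodMk
      (contDiff_fst.smul (hls.comp contDiff_snd)))
  have hY0 : Y 0 = y := by
    rw [hY]
    show pt (y + (0 : ℝ) • a) = y
    rw [zero_smul, add_zero, hp.eqN hT hy]
  have hl0 : l 0 = L y q := by
    rw [hl]
    show L (Y 0) q = L y q
    rw [hY0]
  have hev1 : ∀ᶠ s in 𝓝 (0 : ℝ), Y s ∈ N := by
    have hc : Continuous fun s : ℝ => y + s • a := by fun_prop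
    have h1 : ∀ᶠ s in 𝓝 (0 : ℝ), infDist (y + s • a) N < 3 * δ := by
      have h2 := (nbhdN N (3 * δ)).preimage hc
      refine h2.mem_nhds ?_
      show infDist (y + (0 : ℝ) • a) N < 3 * δ
      rw [zero_smul, add_zero]
      exact inf_lt hT hy (by norm_num)
    filter_upwards [h1] with s hs
    rw [hY]
    exact hp.mem hT hs
  have hev2 : ∀ᶠ s in 𝓝 (0 : ℝ), ‖l s‖ < v₀ := by
    have hc : Continuous fun s : ℝ => ‖l s‖ := hls.continuous.norm
    exact hc.continuousAt.eventually_lt_const (by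
      show ‖l 0‖ < v₀
      rw [hl0]; exact h)
  have hYd : HasDerivAt Y a 0 := by
    have h1 : HasDerivAt (fun s : ℝ => y + s • a) a 0 := by
      simpa using ((hasDerivAt_id (0 : ℝ)).smul_const a).const_add y
    have h2 : HasFDerivAt pt (fderiv ℝ pt y) (y + (0 : ℝ) • a) := by
      rw [zero_smul, add_zero]
      exact (hp.smooth.differentiable (by simp) y).hasFDerivAt
    have h3 := h2.comp_hasDerivAt (0 : ℝ) h1
    rw [hp.fd (inf_lt hT hy (by norm_num)), ha] at h3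
    rw [hY]
    exact h3
  obtain ⟨l', hl'⟩ : ∃ l', l' = fderiv ℝ (fun z => L z q) y a := ⟨_, rfl⟩
  have hld : HasDerivAt l l' 0 := by
    have h1 : ContDiff ℝ ∞ (fun z => L z q) := hL.smooth.comp (contDiff_id.prodMk contDiff_const)
    have h2 : HasFDerivAt (fun z => L z q) (fderiv ℝ (fun z => L z q) y) (Y 0) := by
      rw [hY0]
      exact (h1.differentiable (by simp) y).hasFDerivAt
    have h3 := h2.comp_hasDerivAt (0 : ℝ) hYd
    rw [hl, hl']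
    exact h3
  -- partial derivatives
  have hγd : ∀ x, HasFDerivAt γ (fderiv ℝ γ x) x := fun x =>
    (hγs.differentiable (by simp) x).hasFDerivAt
  have hc1 : ∀ t s : ℝ, HasDerivAt (fun t : ℝ => (t, s)) ((1 : ℝ), (0 : ℝ)) t := fun t s =>
    (hasDerivAt_id t).prodMk (hasDerivAt_const t s)
  have hc2 : ∀ t s : ℝ, HasDerivAt (fun s : ℝ => (t, s)) ((0 : ℝ), (1 : ℝ)) s := fun t s =>
    (hasDerivAt_const s t).prodMk (hasDerivAt_id s)
  have hp1 : ∀ t s : ℝ, HasDerivAt (fun t : ℝ => γ (t, s)) (fderiv ℝ γ (t, s) (1, 0)) t :=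
    fun t s => (hγd (t, s)).comp_hasDerivAt t (hc1 t s)
  have hp2 : ∀ t s : ℝ, HasDerivAt (fun s : ℝ => γ (t, s)) (fderiv ℝ γ (t, s) (0, 1)) s :=
    fun t s => (hγd (t, s)).comp_hasDerivAt s (hc2 t s)
  have hTt : ∀ t s : ℝ, fderiv ℝ γ (t, s) (1, 0) = fderiv ℝ (Ex (Y s)) (t • l s) (l s) := by
    intro t s
    have h1 : ContDiff ℝ ∞ (Ex (Y s)) := hX.smooth.comp (contDiff_const.prodMk contDiff_id)
    have h2 : HasDerivAt (fun t : ℝ => t • l s) (l s) t := by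
      simpa using (hasDerivAt_id t).smul_const (l s)
    have h3 := ((h1.differentiable (by simp) (t • l s)).hasFDerivAt).comp_hasDerivAt t h2
    refine (hp1 t s).unique ?_
    rw [hγ]
    exact h3
  have hG : ∀ s, Y s ∈ N → ‖l s‖ < v₀ →
      Geod N π (fun t : ℝ => γ (t, s)) (fun t : ℝ => fderiv ℝ γ (t, s) (1, 0)) ‖l s‖
        (Icc (-1) 1) := by
    intro s hs1 hs2
    have h1 : fderiv ℝ π (Y s) (l s) = l s := by
      rw [hl] at hs2 ⊢
      exact hL.tan (Y s) hs1 q hq hs2.le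
    have h2 := hX.geod (Y s) hs1 (l s) h1 hs2.le
    have e1 : (fun t : ℝ => γ (t, s)) = fun t : ℝ => Ex (Y s) (t • l s) := by rw [hγ]
    have e2 : (fun t : ℝ => fderiv ℝ γ (t, s) (1, 0)) =
        fun t : ℝ => fderiv ℝ (Ex (Y s)) (t • l s) (l s) := funext fun t => hTt t s
    rw [e1, e2]
    exact h2
  have h01 : ∀ t ∈ Icc (0 : ℝ) 1, t ∈ Icc (-1 : ℝ) 1 := fun t ht => ⟨by linarith [ht.1], ht.2⟩
  have hG0 := hG 0 (by rw [hY0]; exact hy) (by rw [hl0]; exact h)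
  have hS : ∀ t ∈ Icc (0 : ℝ) 1, fderiv ℝ π (γ (t, 0)) (fderiv ℝ γ (t, 0) (0, 1)) =
      fderiv ℝ γ (t, 0) (0, 1) := by
    intro t ht
    have h1 : (fun s : ℝ => π (γ (t, s))) =ᶠ[𝓝 0] fun s : ℝ => γ (t, s) := by
      filter_upwards [hev1, hev2] with s hs1 hs2
      exact hT.fixed _ ((hG s hs1 hs2).mem t (h01 t ht))
    have h2 := (hasFD hT (inf_lt hT (hG0.mem t (h01 t ht)) (by norm_num : (0 : ℝ) < 4))
      ).comp_hasDerivAt (0 : ℝ) (hp2 t 0)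
    exact h2.unique ((hp2 t 0).congr_of_eventuallyEq h1)
  have key := first_variation hγs (f₀ := inner ℝ (l 0) l') (fun t ht => by
      have h1 : HasDerivAt (fun t : ℝ => fderiv ℝ γ (t, 0) (1, 0))
          (fderiv ℝ (fun x => fderiv ℝ γ x (1, 0)) (t, 0) (1, 0)) t := by
        have h2 : ContDiff ℝ ∞ (fun x => fderiv ℝ γ x (1, 0)) :=
          (hγs.fderiv_right (m := ∞) (by simp)).clm_apply contDiff_const
        exact ((h2.differentiable (by simp) (t, 0)).hasFDerivAt).comp_hasDerivAt t (hc1 t 0)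
      rw [h1.unique (hG0.der2 t (h01 t ht))]
      exact D2_inner hT (hG0.mem t (h01 t ht)) (hG0.tan t (h01 t ht)) (hG0.tan t (h01 t ht))
        (hS t ht)) (fun t ht => by
      have h1 : (fun s : ℝ => ‖fderiv ℝ γ (t, s) (1, 0)‖ ^ 2) =ᶠ[𝓝 0] fun s => ‖l s‖ ^ 2 := by
        filter_upwards [hev1, hev2] with s hs1 hs2
        have h2 := (hG s hs1 hs2).speed t (h01 t ht)
        rw [h2]
      exact hld.norm_sq.congr_of_eventuallyEq h1)
  have hS1 : fderiv ℝ γ (1, 0) (0, 1) = 0 := by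
    have h1 : (fun s : ℝ => γ (1, s)) =ᶠ[𝓝 0] fun _ => q := by
      filter_upwards [hev1, hev2] with s hs1 hs2
      rw [hγ]
      show Ex (Y s) ((1 : ℝ) • l s) = q
      rw [one_smul]
      rw [hl] at hs2 ⊢
      exact hL.exp (Y s) hs1 q hq hs2.le
    exact (hp2 1 0).unique ((hasDerivAt_const (0 : ℝ) q).congr_of_eventuallyEq h1)
  have hS0 : fderiv ℝ γ (0, 0) (0, 1) = a := by
    have h1 : (fun s : ℝ => γ (0, s)) =ᶠ[𝓝 0] Y := by
      filter_upwards [hev1] with s hs1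
      rw [hγ]
      show Ex (Y s) ((0 : ℝ) • l s) = Y s
      rw [zero_smul, hX.zero _ hs1]
    exact (hp2 0 0).unique (hYd.congr_of_eventuallyEq h1)
  have hT0 : fderiv ℝ γ (0, 0) (1, 0) = l 0 := by
    rw [hTt, zero_smul, hY0, hl0]
    exact hX.der0 y hy _ (hL.tan y hy q hq h.le)
  rw [hS1, hS0, hT0, inner_zero_right, hl0] at key
  rw [← hl']
  linarith

end H79NG
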