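import Pool.Agent.H79.NG.Gau
import Pool.Agent.H79.NG.Extn
import Pool.Agent.H79.NG.Bas

/-!
# [H79 NG SMM] Symmetry of the derivative of `L`

Take `pt` from `exists_ext`; `f(z) = ‖L (pt z) q‖² / 2` is smooth on `E m`. For `z` near `y`
(`infDist z N < 3 δ`, `‖L (pt z) q‖ < v₀`) put `x = pt z = π z ∈ N`. For every `b`:
`Df(z) b = <L x q, fderiv ℝ (fun w => L w q) x (Dπ(z) b)> = - <L x q, Dπ(z) b>` (chain rule; `Dπ(z) b` is
tangent at `x = π z` by `TC.idem`; `gauss`) `= - <Dπ(z) (L x q), b>` (`symm1`, valid for `infDist < 4 δ`).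
Hence the second derivative of `f` at `y` is, for all `a, b`,
`D²f(y)(a)(b) = - <D2 π y a (L y q) + Dπ(y)(fderiv ℝ (fun w => L w q) y (Dπ(y) a)), b>`
(`hasFD2` and the chain rule, `π y = y`). It is symmetric in `a, b` (`ContDiffAt.isSymmSndFDerivAt`).
For `a, b` tangent: `<D2 π y a (L y q), b> = 0` (`D2_inner`, `L y q` is tangent), `Dπ(y) a = a`,
`Dπ(y) b = b`; so `D²f(y)(a)(b) = - <fderiv ℝ (fun w => L w q) y a, b>`.
-/

set_option autoImplicit false

namespace H79NG

open H60NH H60NT Metric Set Filter Topology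
open scoped NNReal ContDiff

theorem dL_symm {m : ℕ} {N : Set (E m)} {π : E m → E m} {δ C v₀ : ℝ} {Ex L : E m → E m → E m}
    (hT : TC N π δ C) (hX : ExpS N π Ex v₀) (hL : LogS N π Ex L v₀)
    {y q : E m} (hy : y ∈ N) (hq : q ∈ N) (h : ‖L y q‖ < v₀) {a b : E m}
    (ha : fderiv ℝ π y a = a) (hb : fderiv ℝ π y b = b) :
    inner ℝ (fderiv ℝ (fun z => L z q) y a) b = inner ℝ (fderiv ℝ (fun z => L z q) y b) a := by
  obtain ⟨pt, hp⟩ := exists_ext hT
  have hδ := hT.pos
  have hy4 : infDist y N < 4 * δ := inf_lt hT hy (by norm_num)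
  have hy3 : infDist y N < 3 * δ := inf_lt hT hy (by norm_num)
  have hpy : pt y = y := hp.eqN hT hy
  have hLs : ContDiff ℝ ∞ (fun w => L w q) := hL.smooth.comp (contDiff_id.prodMk contDiff_const)
  have hLd : ∀ w, HasFDerivAt (fun w => L w q) (fderiv ℝ (fun w => L w q) w) w := fun w =>
    (hLs.differentiable (by simp) w).hasFDerivAt
  have hptd : ∀ z, infDist z N < 3 * δ → HasFDerivAt pt (fderiv ℝ π z) z := by
    intro z hz
    rw [← hp.fd hz]
    exact (hp.smooth.differentiable (by simp) z).hasFDerivAt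
  have hcomp : ∀ z, infDist z N < 3 * δ → HasFDerivAt (fun z => L (pt z) q)
      ((fderiv ℝ (fun w => L w q) (pt z)).comp (fderiv ℝ π z)) z := by
    intro z hz
    exact HasFDerivAt.comp (g := fun w => L w q) z (hLd (pt z)) (hptd z hz)
  -- the Riesz map
  let J : E m →L[ℝ] (E m →L[ℝ] ℝ) :=
    (isBoundedBilinearMap_inner (𝕜 := ℝ) (E := E m)).toContinuousLinearMap
  have hJ : ∀ x b, J x b = inner ℝ x b := fun x b => rfl
  obtain ⟨D, hD⟩ : ∃ D, D = fderiv ℝ (fun w => L w q) y := ⟨_, rfl⟩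
  have hev : ∀ᶠ z in 𝓝 y, HasFDerivAt (fun z => (1 / 2 : ℝ) * ‖L (pt z) q‖ ^ 2)
      (-(J (fderiv ℝ π z (L (pt z) q)))) z := by
    have h1 : ∀ᶠ z in 𝓝 y, infDist z N < 3 * δ := (nbhdN N (3 * δ)).mem_nhds hy3
    have h2 : ∀ᶠ z in 𝓝 y, ‖L (pt z) q‖ < v₀ := by
      have h3 : Continuous fun z => ‖L (pt z) q‖ :=
        (hLs.continuous.comp hp.smooth.continuous).norm
      refine (h3.tendsto y).eventually (gt_mem_nhds ?_)
      rw [hpy]
      exact h
    filter_upwards [h1, h2] with z hz1 hz2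
    have hz : pt z ∈ N := hp.mem hT hz1
    have h3 := ((hcomp z hz1).norm_sq).const_mul (1 / 2 : ℝ)
    refine h3.congr_fderiv ?_
    ext b
    have h5 : fderiv ℝ π (pt z) (fderiv ℝ π z b) = fderiv ℝ π z b := by
      rw [hp.eq z hz1]
      exact hT.idem z (by linarith) b
    have h6 := gauss hT hX hL hz hq hz2 h5
    have h7 : (-(J (fderiv ℝ π z (L (pt z) q)))) b =
        - inner ℝ (L (pt z) q) (fderiv ℝ π z b) := by
      rw [ContinuousLinearMap.neg_apply, hJ, hT.symm1 z (by linarith)]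
    rw [h7, ← h6]
    simp
  have hder : HasFDerivAt (fun z => -(J (fderiv ℝ π z (L (pt z) q))))
      (-(J.comp ((fderiv ℝ π y).comp (D.comp (fderiv ℝ π y)) +
        (D2 π y).flip (L (pt y) q)))) y := by
    have h1 := hcomp y hy3
    rw [hpy, ← hD] at h1
    have h2 := (hasFD2 hT hy4).clm_apply h1
    exact (J.hasFDerivAt.comp y h2).neg
  have hs := second_derivative_symmetric_of_eventually hev hder a b
  have hval : ∀ a b, fderiv ℝ π y a = a → fderiv ℝ π y b = b →
      (-(J.comp ((fderiv ℝ π y).comp (D.comp (fderiv ℝ π y)) +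
        (D2 π y).flip (L (pt y) q)))) a b = - inner ℝ (D a) b := by
    intro a b ha hb
    have h1 : (-(J.comp ((fderiv ℝ π y).comp (D.comp (fderiv ℝ π y)) +
        (D2 π y).flip (L (pt y) q)))) a b =
        -(inner ℝ (fderiv ℝ π y (D (fderiv ℝ π y a)) + D2 π y a (L (pt y) q)) b) := rfl
    rw [h1, ha, hpy, inner_add_left, hT.symm1 y hy4, hb,
      D2_inner hT hy ha (hL.tan y hy q hq h.le) hb, add_zero]
  rw [hval a b ha hb, hval b a hb ha, neg_inj, hD] at hs
  exact hs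

end H79NG
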