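import Pool.Agent.H79.NG.Gau
import Pool.Agent.H79.NG.Smm
import Pool.Agent.H79.NG.Kde
import Pool.Agent.H79.NG.Bfa
import Pool.Agent.H79.NG.Bfb
import Pool.Agent.H79.NG.Cutn
import Pool.Agent.H79.NG.Extn
import Pool.Agent.H79.NG.Bas

/-!
# [H79 NG LGA] Assembly: the structure `LogG`

Take `pt`, `θ` (`exists_ext`, `exists_cutN` with `r = δ`, `s = 2 δ`), `B y q = Bt θ pt L (y,q)`,
`Cb = max 1 (...)` of the constants of `dL_near`, `Bt_bounds`. Fields: `pos .. tan` from `LogS`; `chord`
from `chord_log`; `gauss`; `Bbd`, `Blip`, `cub`, `cuby`, `cubq`: increase the constant.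
With `Bt_N`, `proj_symm`, `proj_idem`, `DL = fderiv ℝ (fun z => L z q) y`:
* `form`: `<b, B a> = - <Dπ b, DL (Dπ a)> - <b, Dπ a> = - <b, DL a> - <b, a>` for tangent `a, b`.
* `Bsymm`: `<B a, b> = - <DL a', b'> - <a', b'>`, `a' = Dπ(y) a`, `b' = Dπ(y) b`; symmetric by `dL_symm`.
* `Bker`: `ℓ = L y q` is tangent. For all `b`: `<B ℓ, b> = <ℓ, B b> = - <ℓ, Dπ DL b'> - <ℓ, b'> =
- <ℓ, DL b'> - <ℓ, b'> = 0` by `gauss` with `a = b'`. So `B ℓ = 0` (`ext_inner_right` or take `b = B ℓ`).
-/

set_option autoImplicit false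

namespace H79NG

open H60NH H60NT Metric Set Filter Topology
open scoped NNReal ContDiff

theorem exists_logG {m : ℕ} {N : Set (E m)} {π : E m → E m} {δ C v₀ : ℝ} {Ex L : E m → E m → E m}
    (hT : TC N π δ C) (hX : ExpS N π Ex v₀) (hL : LogS N π Ex L v₀) :
    ∃ (B : E m → E m → E m →L[ℝ] E m) (Cb : ℝ), LogG N π L B v₀ Cb := by
  obtain ⟨pt, hp⟩ := exists_ext hT
  obtain ⟨θ, hθ⟩ := exists_cutN hT.compact hT.nonempty hT.pos
    (show δ < 2 * δ by have := hT.pos; linarith)
  obtain ⟨C₁, hC1, k1, k2, k3⟩ := dL_near hT hX hL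
  obtain ⟨C₂, hC2, l1, l2⟩ := Bt_bounds hT hX hL hp hθ
  have e1 : C₁ ≤ 1 + C₁ + C₂ := by linarith
  have e2 : C₂ ≤ 1 + C₁ + C₂ := by linarith
  refine ⟨fun y q => Bt θ pt L (y, q), 1 + C₁ + C₂, ?_⟩
  -- the operator on vectors
  have hB : ∀ y ∈ N, ∀ q ∈ N, ∀ a b, inner ℝ b (Bt θ pt L (y, q) a) =
      - inner ℝ (fderiv ℝ π y b) (fderiv ℝ (fun z => L z q) y (fderiv ℝ π y a)) -
        inner ℝ (fderiv ℝ π y b) (fderiv ℝ π y a) := by
    intro y hy q hq a b
    rw [Bt_N hT hp hθ hy hq, inner_sub_right, inner_neg_right, ← proj_symm hT hy,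
      ← proj_symm hT hy b a]
    congr 1
    rw [proj_symm hT hy b (fderiv ℝ π y a), proj_idem hT hy, proj_symm hT hy]
  exact
    { pos := hL.pos
      one_le := by linarith
      smooth := hL.smooth
      diag := hL.diag
      low := hL.low
      lip := hL.lip
      tan := hL.tan
      chord := fun y hy q hq h => chord_log hT hX hL hy hq h
      gauss := fun y hy q hq h a ha => gauss hT hX hL hy hq h ha
      form := by
        intro y hy q hq h a b ha hb
        show _ = - inner ℝ b a - inner ℝ b (Bt θ pt L (y, q) a)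
        rw [hB y hy q hq, ha, hb]
        ring
      Bsymm := by
        intro y hy q hq h a b
        show inner ℝ (Bt θ pt L (y, q) a) b = inner ℝ a (Bt θ pt L (y, q) b)
        rw [real_inner_comm, hB y hy q hq, hB y hy q hq]
        have h1 := dL_symm hT hX hL hy hq h (proj_idem hT hy a) (proj_idem hT hy b)
        rw [real_inner_comm, h1, real_inner_comm]
        congr 1
        exact real_inner_comm _ _
      Bker := by
        intro y hy q hq h
        show Bt θ pt L (y, q) (L y q) = 0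
        have ht : fderiv ℝ π y (L y q) = L y q := hL.tan y hy q hq h.le
        have h1 : ∀ b, inner ℝ b (Bt θ pt L (y, q) (L y q)) = 0 := by
          intro b
          rw [hB y hy q hq, ht]
          have h2 := dL_symm hT hX hL hy hq h ht (proj_idem hT hy b)
          have h3 := gauss hT hX hL hy hq h (proj_idem hT hy b)
          rw [real_inner_comm, h2, real_inner_comm, h3, neg_neg,
            real_inner_comm (fderiv ℝ π y b) (L y q), sub_self]
        have h4 := h1 (Bt θ pt L (y, q) (L y q))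
        exact inner_self_eq_zero.mp h4
      Bbd := fun y _ q _ => (l1 y q).trans (mul_le_mul_of_nonneg_right e2 (sq_nonneg _))
      Blip := fun y _ q _ q' _ => (l2 y q q').trans (mul_le_mul_of_nonneg_right
        (mul_le_mul_of_nonneg_right e2 (by positivity)) (norm_nonneg _))
      cub := fun y hy q hq => (k1 y hy q hq).trans (mul_le_mul_of_nonneg_right e1 (by positivity))
      cuby := fun y hy q hq a ha => (k2 y hy q hq a ha).trans (mul_le_mul_of_nonneg_right
        (mul_le_mul_of_nonneg_right e1 (sq_nonneg _)) (norm_nonneg _))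
      cubq := fun y hy q hq b hb => (k3 y hy q hq b hb).trans (mul_le_mul_of_nonneg_right
        (mul_le_mul_of_nonneg_right e1 (sq_nonneg _)) (norm_nonneg _)) }

end H79NG
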