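import Pool.Agent.H79.NG.Bas

/-!
# [H79 NG LGT] A normal chord vanishes

Let `K` be from `exists_lipN`, `v₁ = min v₀ (1/(8 K))`. Let `y ∈ N`, `‖v‖ ≤ v₁`, `t = Dπ(y) v` (tangent,
`‖t‖ ≤ ‖v‖`), `n = v - t` (`‖n‖ ≤ 2 ‖v‖`, `Dπ(y) n = 0`), `z = Ex y t ∈ N` (`ExpS.geod` at time `1`) with
`‖z - y‖ ≤ ‖t‖ ≤ ‖v‖` (`geod_chord` between the times `0` and `1`; `Ex y (0 • t) = y`), and let
`q = z + n ∈ N`. Then `‖n - Dπ(z) n‖ ≤ K ‖n‖²` (chord from `z` to `q`) and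
`‖Dπ(z) n‖ = ‖(Dπ(z) - Dπ(y)) n‖ ≤ K ‖z - y‖ ‖n‖`. So `‖n‖ ≤ K (‖n‖ + ‖z - y‖) ‖n‖ ≤ 3 K v₁ ‖n‖ ≤
(3/8) ‖n‖`, hence `n = 0`.
-/

set_option autoImplicit false

namespace H79NG

open H60NH H60NT Metric Set Filter Topology
open scoped NNReal ContDiff

theorem normal_zero {m : ℕ} {N : Set (E m)} {π : E m → E m} {δ C v₀ : ℝ} {Ex : E m → E m → E m}
    (hT : TC N π δ C) (hX : ExpS N π Ex v₀) : ∃ v₁ : ℝ, 0 < v₁ ∧ v₁ ≤ v₀ ∧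
      ∀ y ∈ N, ∀ v, ‖v‖ ≤ v₁ → Ex y (fderiv ℝ π y v) + (v - fderiv ℝ π y v) ∈ N →
        fderiv ℝ π y v = v := by
  obtain ⟨K, hK1, hCK, hK⟩ := exists_lipN hT
  have hK0 : 0 < K := by linarith
  refine ⟨min v₀ (1 / (8 * K)), lt_min hX.pos (by positivity), min_le_left _ _, ?_⟩
  intro y hy v hv hmem
  have hv0 : ‖v‖ ≤ v₀ := hv.trans (min_le_left _ _)
  have hv1 : ‖v‖ ≤ 1 / (8 * K) := hv.trans (min_le_right _ _)
  obtain ⟨t, ht⟩ : ∃ t, t = fderiv ℝ π y v := ⟨_, rfl⟩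
  rw [← ht] at hmem ⊢
  have htt : fderiv ℝ π y t = t := by rw [ht]; exact proj_idem hT hy v
  have htn : ‖t‖ ≤ ‖v‖ := by rw [ht]; exact proj_le hT hy v
  obtain ⟨n, hn⟩ : ∃ n, n = v - t := ⟨_, rfl⟩
  rw [← hn] at hmem
  have hn0 : fderiv ℝ π y n = 0 := by rw [hn, map_sub, htt, ← ht, sub_self]
  have hg := hX.geod y hy t htt (htn.trans hv0)
  have h1 : (1 : ℝ) ∈ Icc (-1 : ℝ) 1 := by constructor <;> norm_num
  have h0 : (0 : ℝ) ∈ Icc (-1 : ℝ) 1 := by constructor <;> norm_num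
  have hz : Ex y t ∈ N := by
    have h := hg.mem 1 h1
    simpa using h
  have hzy : ‖Ex y t - y‖ ≤ ‖t‖ := by
    have h := geod_chord hg h1 h0
    simpa [hX.zero y hy] using h
  have e1 := (hK (Ex y t) hz (Ex y t + n) hmem).2.2
  rw [add_sub_cancel_left] at e1
  have e2 := (hK y hy (Ex y t) hz).1
  have e3 : ‖fderiv ℝ π (Ex y t) n‖ ≤ K * ‖v‖ * ‖n‖ := by
    have e4 : fderiv ℝ π (Ex y t) n = -((fderiv ℝ π y - fderiv ℝ π (Ex y t)) n) := by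
      rw [ContinuousLinearMap.sub_apply, hn0, zero_sub, neg_neg]
    rw [e4, norm_neg]
    refine (ContinuousLinearMap.le_opNorm _ _).trans ?_
    refine mul_le_mul_of_nonneg_right (e2.trans ?_) (norm_nonneg _)
    rw [norm_sub_rev]
    exact mul_le_mul_of_nonneg_left (hzy.trans htn) hK0.le
  have e5 : ‖n‖ ≤ 2 * ‖v‖ := by
    rw [hn]
    calc ‖v - t‖ ≤ ‖v‖ + ‖t‖ := norm_sub_le _ _
      _ ≤ 2 * ‖v‖ := by linarith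
  have e6 : ‖n‖ ≤ ‖n - fderiv ℝ π (Ex y t) n‖ + ‖fderiv ℝ π (Ex y t) n‖ := by
    calc ‖n‖ = ‖(n - fderiv ℝ π (Ex y t) n) + fderiv ℝ π (Ex y t) n‖ := by rw [sub_add_cancel]
      _ ≤ _ := norm_add_le _ _
  have e7 : K * ‖v‖ ≤ 1 / 8 := by
    calc K * ‖v‖ ≤ K * (1 / (8 * K)) := mul_le_mul_of_nonneg_left hv1 hK0.le
      _ = 1 / 8 := by field_simp
  have e8 : K * ‖n‖ ^ 2 ≤ 1 / 4 * ‖n‖ := by
    calc K * ‖n‖ ^ 2 = K * ‖n‖ * ‖n‖ := by ring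
      _ ≤ K * (2 * ‖v‖) * ‖n‖ := by
        refine mul_le_mul_of_nonneg_right (mul_le_mul_of_nonneg_left e5 hK0.le) (norm_nonneg _)
      _ = 2 * (K * ‖v‖) * ‖n‖ := by ring
      _ ≤ 2 * (1 / 8) * ‖n‖ := mul_le_mul_of_nonneg_right (by linarith) (norm_nonneg _)
      _ = 1 / 4 * ‖n‖ := by ring
  have e9 : K * ‖v‖ * ‖n‖ ≤ 1 / 8 * ‖n‖ := mul_le_mul_of_nonneg_right e7 (norm_nonneg _)
  have e10 : ‖n‖ = 0 := by
    have := norm_nonneg n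
    linarith
  have e11 : n = 0 := norm_eq_zero.mp e10
  rw [hn, sub_eq_zero] at e11
  exact e11.symm

end H79NG
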