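import Mathlib
import Pool.Agent.H79.NG.Ccb

/-!
# [H79 NG PER] Localization of a smooth map with vanishing first order part (Mathlib only + CCB)

`V` finite dimensional inner product space; `R : V × V → V` smooth with compact support, `R(y,0) = 0`,
`D_v R(y,0) = 0`. Then `DR(y,0) = 0` (the part `D_y R(y,0)` vanishes since `R(·,0) = 0`), and with `M`
from `cc_bounds`: `‖DR(y,v)‖ = ‖DR(y,v) - DR(y,0)‖ ≤ M ‖v‖`, `‖R(y,v)‖ ≤ M ‖v‖²` (mean value
inequality on the ball of radius `‖v‖` in the second variable, along the segment from `(y,0)`).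
Let `χ : V → ℝ` be a smooth bump: `1` for `‖v‖ ≤ 1`, `0` for `‖v‖ ≥ 2`, values in `[0,1]`,
`‖Dχ‖ ≤ C_χ` (`ContDiffBump`, compact support). For `r > 0` let `g(y,v) = χ(v/r) R(y,v)`; smooth;
`g = R` for `‖v‖ ≤ r`; `g(y,0) = 0`. Its derivative at `(y,v)` vanishes if `‖v‖ > 2r`, and for
`‖v‖ ≤ 2 r` it has norm at most `(C_χ/r) M (2r)² + M 2r ≤ (4 C_χ + 2) M r`. So `g` is Lipschitz with
constant `(4 C_χ + 2) M r ≤ ε` for small `r` (`lipschitzWith_of_nnnorm_fderiv_le`).
-/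

set_option autoImplicit false

namespace H79NG

open Metric Set Filter Topology
open scoped NNReal ContDiff

theorem per_comp_inr {V W : Type*} [NormedAddCommGroup V] [NormedSpace ℝ V]
    [NormedAddCommGroup W] [NormedSpace ℝ W] (L : V × V →L[ℝ] W) :
    ‖L.comp (ContinuousLinearMap.inr ℝ V V)‖ ≤ ‖L‖ :=
  calc ‖L.comp (ContinuousLinearMap.inr ℝ V V)‖ ≤ ‖L‖ * ‖ContinuousLinearMap.inr ℝ V V‖ :=
        ContinuousLinearMap.opNorm_comp_le _ _
    _ ≤ ‖L‖ * 1 := by
        gcongr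
        exact ContinuousLinearMap.norm_inr_le_one ℝ V V
    _ = ‖L‖ := mul_one _

theorem exists_pert {V : Type*} [NormedAddCommGroup V] [InnerProductSpace ℝ V]
    [FiniteDimensional ℝ V] {R : V × V → V} (hR : ContDiff ℝ ∞ R) (hc : HasCompactSupport R)
    (h0 : ∀ y, R (y, 0) = 0) (h1 : ∀ y b, fderiv ℝ R (y, 0) (0, b) = 0) {ε : ℝ≥0}
    (hε : 0 < ε) :
    ∃ (r : ℝ) (g : V × V → V), 0 < r ∧ ContDiff ℝ ∞ g ∧ LipschitzWith ε g ∧
      (∀ y v, ‖v‖ ≤ r → g (y, v) = R (y, v)) ∧ ∀ y, g (y, 0) = 0 := by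
  obtain ⟨M, hM, -, -, -, -, hM4, -⟩ := cc_bounds hR hc
  have hRd : Differentiable ℝ R := hR.differentiable (by simp)
  -- the derivative vanishes on the zero section
  have hz : ∀ y, fderiv ℝ R (y, 0) = 0 := by
    intro y
    refine ContinuousLinearMap.ext fun w => ?_
    have h2 : HasFDerivAt (fun y : V => R (y, 0))
        ((fderiv ℝ R (y, 0)).comp (ContinuousLinearMap.inl ℝ V V)) y :=
      HasFDerivAt.comp (g := R) y (hRd (y, 0)).hasFDerivAt
        ((hasFDerivAt_id y).prodMk (hasFDerivAt_const (0 : V) y))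
    have h3 : (fun y : V => R (y, 0)) = fun _ => (0 : V) := funext h0
    rw [h3] at h2
    have h4 := h2.unique (hasFDerivAt_const (0 : V) y)
    have h5 : fderiv ℝ R (y, 0) (w.1, 0) = 0 := by
      have h6 := congrArg (fun L : V →L[ℝ] V => L w.1) h4
      exact h6
    have h7 : w = (w.1, 0) + (0, w.2) := by simp
    rw [h7, map_add, h5, h1 y w.2]
    simp
  have hD : ∀ y v, ‖fderiv ℝ R (y, v)‖ ≤ M * ‖v‖ := by
    intro y v
    have h2 := hM4 (y, v) (y, 0)
    rw [hz y, sub_zero, Prod.mk_sub_mk, sub_self, sub_zero, Prod.norm_mk, norm_zero,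
      max_eq_right (norm_nonneg _)] at h2
    exact h2
  have hS : ∀ y v, ‖R (y, v)‖ ≤ M * ‖v‖ ^ 2 := by
    intro y v
    have h2 := (convex_closedBall (0 : V) ‖v‖).norm_image_sub_le_of_norm_hasFDerivWithin_le
      (f := fun w : V => R (y, w))
      (f' := fun w => (fderiv ℝ R (y, w)).comp (ContinuousLinearMap.inr ℝ V V))
      (C := M * ‖v‖) (x := 0) (y := v)
      (fun w _ => (HasFDerivAt.comp (g := R) w (hRd (y, w)).hasFDerivAt
        ((hasFDerivAt_const y w).prodMk (hasFDerivAt_id w))).hasFDerivWithinAt) (fun w hw => by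
        have h3 : ‖w‖ ≤ ‖v‖ := by simpa using hw
        calc ‖(fderiv ℝ R (y, w)).comp (ContinuousLinearMap.inr ℝ V V)‖
            ≤ ‖fderiv ℝ R (y, w)‖ := per_comp_inr _
          _ ≤ M * ‖w‖ := hD y w
          _ ≤ M * ‖v‖ := by gcongr) (by simp) (by simp)
    simp only [h0, sub_zero] at h2
    calc ‖R (y, v)‖ ≤ M * ‖v‖ * ‖v‖ := h2
      _ = M * ‖v‖ ^ 2 := by ring
  -- the bump function
  let χ : ContDiffBump (0 : V) := ⟨1, 2, one_pos, one_lt_two⟩
  have hχs : ContDiff ℝ ∞ (χ : V → ℝ) := χ.contDiff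
  have hχd : Differentiable ℝ (χ : V → ℝ) := hχs.differentiable (by simp)
  obtain ⟨K, hK, -, hK1, -, -, -, -⟩ := cc_bounds hχs χ.hasCompactSupport
  have hχ0 : ∀ w : V, 2 < ‖w‖ → fderiv ℝ (χ : V → ℝ) w = 0 := by
    intro w hw
    have h2 : w ∉ tsupport (χ : V → ℝ) := by
      rw [χ.tsupport_eq]
      simpa using hw
    by_contra hne
    exact h2 (support_fderiv_subset ℝ (Function.mem_support.mpr hne))
  set A : ℝ := (2 + 4 * K) * M + 1 with hA
  have hA1 : 0 < A := by positivity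
  set r : ℝ := (ε : ℝ) / A with hr
  have hr0 : 0 < r := div_pos (NNReal.coe_pos.mpr hε) hA1
  have hrA : r * A = ε := by rw [hr]; field_simp
  set g : V × V → V := fun p => χ (r⁻¹ • p.2) • R p with hg
  have hgs : ContDiff ℝ ∞ g :=
    (hχs.comp (contDiff_const.smul contDiff_snd)).smul hR
  have hgd : ∀ p : V × V, HasFDerivAt g (χ (r⁻¹ • p.2) • fderiv ℝ R p +
      ((fderiv ℝ (χ : V → ℝ) (r⁻¹ • p.2)).comp
        (r⁻¹ • ContinuousLinearMap.snd ℝ V V)).smulRight (R p)) p := by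
    intro p
    have h2 : HasFDerivAt (fun p : V × V => r⁻¹ • p.2)
        (r⁻¹ • ContinuousLinearMap.snd ℝ V V) p :=
      (ContinuousLinearMap.snd ℝ V V).hasFDerivAt.const_smul r⁻¹
    have h3 := HasFDerivAt.comp (g := (χ : V → ℝ)) p (hχd (r⁻¹ • p.2)).hasFDerivAt h2
    exact h3.smul (hRd p).hasFDerivAt
  refine ⟨r, g, hr0, hgs, ?_, fun y v hv => ?_, fun y => ?_⟩
  · refine lipschitzWith_of_nnnorm_fderiv_le (𝕜 := ℝ) (hgs.differentiable (by simp)) fun p => ?_
    rw [← NNReal.coe_le_coe, coe_nnnorm, (hgd p).fderiv]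
    by_cases hp : ‖p.2‖ ≤ 2 * r
    · have hDp : ‖fderiv ℝ R p‖ ≤ M * (2 * r) :=
        (hD p.1 p.2).trans (mul_le_mul_of_nonneg_left hp hM)
      have hSp : ‖R p‖ ≤ M * (2 * r) ^ 2 := by
        refine (hS p.1 p.2).trans ?_
        gcongr
      have h2 : ‖χ (r⁻¹ • p.2) • fderiv ℝ R p‖ ≤ M * (2 * r) := by
        have h3 : ‖χ (r⁻¹ • p.2)‖ ≤ 1 := by
          rw [Real.norm_eq_abs, abs_of_nonneg χ.nonneg]
          exact χ.le_one
        calc ‖χ (r⁻¹ • p.2) • fderiv ℝ R p‖ ≤ ‖χ (r⁻¹ • p.2)‖ * ‖fderiv ℝ R p‖ :=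
              ContinuousLinearMap.opNorm_smul_le _ _
          _ ≤ 1 * (M * (2 * r)) := mul_le_mul h3 hDp (ContinuousLinearMap.opNorm_nonneg _)
              zero_le_one
          _ = M * (2 * r) := one_mul _
      have h4 : ‖((fderiv ℝ (χ : V → ℝ) (r⁻¹ • p.2)).comp
          (r⁻¹ • ContinuousLinearMap.snd ℝ V V)).smulRight (R p)‖ ≤
          (K * r⁻¹) * (M * (2 * r) ^ 2) := by
        rw [ContinuousLinearMap.norm_smulRight_apply]
        gcongr
        calc ‖(fderiv ℝ (χ : V → ℝ) (r⁻¹ • p.2)).comp (r⁻¹ • ContinuousLinearMap.snd ℝ V V)‖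
            ≤ ‖fderiv ℝ (χ : V → ℝ) (r⁻¹ • p.2)‖ * ‖r⁻¹ • ContinuousLinearMap.snd ℝ V V‖ :=
              ContinuousLinearMap.opNorm_comp_le _ _
          _ ≤ K * r⁻¹ := by
              refine mul_le_mul (hK1 _) ?_ (ContinuousLinearMap.opNorm_nonneg _) hK
              calc ‖r⁻¹ • ContinuousLinearMap.snd ℝ V V‖
                  ≤ ‖r⁻¹‖ * ‖ContinuousLinearMap.snd ℝ V V‖ :=
                    ContinuousLinearMap.opNorm_smul_le _ _
                _ ≤ r⁻¹ * 1 := by
                    rw [Real.norm_eq_abs, abs_of_pos (inv_pos.mpr hr0)]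
                    gcongr
                    exact ContinuousLinearMap.norm_snd_le ℝ V V
                _ = r⁻¹ := mul_one _
      calc ‖χ (r⁻¹ • p.2) • fderiv ℝ R p +
            ((fderiv ℝ (χ : V → ℝ) (r⁻¹ • p.2)).comp
              (r⁻¹ • ContinuousLinearMap.snd ℝ V V)).smulRight (R p)‖
          ≤ M * (2 * r) + (K * r⁻¹) * (M * (2 * r) ^ 2) :=
            (ContinuousLinearMap.opNorm_add_le _ _).trans (add_le_add h2 h4)
        _ = r * ((2 + 4 * K) * M) := by field_simp; ring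
        _ ≤ r * A := by
            refine mul_le_mul_of_nonneg_left ?_ hr0.le
            rw [hA]
            linarith
        _ = ε := hrA
    · have h2 : 2 < ‖r⁻¹ • p.2‖ := by
        rw [norm_smul, Real.norm_eq_abs, abs_of_pos (inv_pos.mpr hr0), inv_mul_eq_div,
          lt_div_iff₀ hr0]
        exact not_le.mp hp
      have h3 : χ (r⁻¹ • p.2) = 0 := by
        refine χ.zero_of_le_dist ?_
        rw [dist_zero_right]
        exact h2.le
      rw [h3, hχ0 _ h2]
      simp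
  · have h2 : χ (r⁻¹ • v) = 1 := by
      refine χ.one_of_mem_closedBall ?_
      rw [mem_closedBall_zero_iff, norm_smul, Real.norm_eq_abs, abs_of_pos (inv_pos.mpr hr0),
        inv_mul_eq_div]
      exact (div_le_one hr0).mpr hv
    change χ (r⁻¹ • v) • R (y, v) = R (y, v)
    rw [h2, one_smul]
  · change χ (r⁻¹ • (0 : V)) • R (y, 0) = 0
    rw [h0, smul_zero]

end H79NG
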