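import Pool.Agent.H79.NG.Lgr
import Pool.Agent.H79.NG.Lgt
import Pool.Agent.H79.NG.Per
import Pool.Agent.H79.NG.Giv

/-!
# [H79 NG LGE] The inverse `L` of the exponential map

Take `R` from `exists_R`, `r, g` from `exists_pert` with `ε = 1/8`, `v₁'` from `normal_zero`; and
`v₁ = min (min v₁' r) 1`. Let `A : E m × E m ≃L[ℝ] E m × E m`, `A(y,v) = (y, y + v)`, inverse
`(y,q) ↦ (y, q - y)` of norm at most `2` (`‖q - y‖ ≤ 2 max(‖y‖,‖q‖)`). `G(y,v) = (0, g(y,v))` is smooth and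
`1/8`-Lipschitz, `(1/8) 2 < 1`. `glob_inv` gives a smooth `f` with `f (A w + G w) = w`,
`A (f z) + G (f z) = z`. Let `L y q = (f (y,q)).2`. Since `A (f z) + G (f z) = z`, the first component of
`f (y,q)` is `y` and (*) `q = y + L y q + g(y, L y q)`; conversely, if `q = y + v + g(y,v)` then
`L y q = v` (**).
* `diag`: (**) with `v = 0`, `g(y,0) = 0`. * `low`: `‖g(y,v)‖ = ‖g(y,v) - g(y,0)‖ ≤ ‖v‖/8`, (*) gives
`‖q - y‖ ≤ (9/8) ‖L y q‖`.
* `lip`: subtract (*) for `(y,q)`, `(y',q')`: `‖L y q - L y' q'‖ ≤ ‖q - q'‖ + ‖y - y'‖ +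
(1/8)(‖y - y'‖ + ‖L y q - L y' q'‖)`, so `(7/8)‖..‖ ≤ (9/8)(‖y-y'‖ + ‖q-q'‖)`, and `9/7 ≤ 2`.
* `tan`, `exp`: `y, q ∈ N`, `v = L y q`, `‖v‖ ≤ v₁`: `g(y,v) = R(y,v) = Ex y (Dπ(y) v) - y - Dπ(y) v`, so (*)
says `q = Ex y (Dπ(y) v) + (v - Dπ(y) v)`, which lies in `N`; `normal_zero` gives `Dπ(y) v = v` and then
`q = Ex y v`.
* `uniq`: `y ∈ N`, `v` tangent, `‖v‖ ≤ v₁`: `y + v + g(y,v) = y + v + Ex y v - y - v = Ex y v`; (**).
The statement gives the same constant for `Ex`: `ExpS` is monotone in `v₀`.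
-/

set_option autoImplicit false

namespace H79NG

open H60NH H60NT Metric Set Filter Topology
open scoped NNReal ContDiff

theorem exists_log {m : ℕ} {N : Set (E m)} {π : E m → E m} {δ C v₀ : ℝ} {Ex : E m → E m → E m}
    (hT : TC N π δ C) (hX : ExpS N π Ex v₀) :
    ∃ (L : E m → E m → E m) (v₁ : ℝ), ExpS N π Ex v₁ ∧ LogS N π Ex L v₁ := by
  obtain ⟨R, hRs, hRc, hR0, hR1, hR2⟩ := exists_R hT hX
  obtain ⟨r, g, hr, hgs, hgL, hgR, hg0⟩ := exists_pert hRs hRc hR0 hR1 (ε := 1 / 8) (by norm_num)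
  obtain ⟨v₁', hv1', hv1le, hnz⟩ := normal_zero hT hX
  obtain ⟨v₁, hv₁⟩ : ∃ v₁, v₁ = min (min v₁' r) 1 := ⟨_, rfl⟩
  have hv0 : 0 < v₁ := by rw [hv₁]; exact lt_min (lt_min hv1' hr) one_pos
  have hva : v₁ ≤ v₁' := by rw [hv₁]; exact (min_le_left _ _).trans (min_le_left _ _)
  have hvr : v₁ ≤ r := by rw [hv₁]; exact (min_le_left _ _).trans (min_le_right _ _)
  have hvo : v₁ ≤ 1 := by rw [hv₁]; exact min_le_right _ _
  -- the linear equivalence
  let A : (E m × E m) ≃L[ℝ] (E m × E m) := ContinuousLinearEquiv.equivOfInverse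
    ((ContinuousLinearMap.fst ℝ (E m) (E m)).prod
      (ContinuousLinearMap.fst ℝ (E m) (E m) + ContinuousLinearMap.snd ℝ (E m) (E m)))
    ((ContinuousLinearMap.fst ℝ (E m) (E m)).prod
      (ContinuousLinearMap.snd ℝ (E m) (E m) - ContinuousLinearMap.fst ℝ (E m) (E m)))
    (fun w => by
      refine Prod.ext rfl ?_
      show w.1 + w.2 - w.1 = w.2
      abel)
    (fun w => by
      refine Prod.ext rfl ?_
      show w.1 + (w.2 - w.1) = w.2
      abel)
  have hA : ∀ w : E m × E m, A w = (w.1, w.1 + w.2) := fun w => rfl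
  have hAs : ∀ w : E m × E m, A.symm w = (w.1, w.2 - w.1) := fun w => rfl
  have hAn : ‖(A.symm : (E m × E m) →L[ℝ] (E m × E m))‖ ≤ 2 := by
    refine ContinuousLinearMap.opNorm_le_bound _ (by norm_num) fun w => ?_
    show ‖A.symm w‖ ≤ 2 * ‖w‖
    rw [hAs]
    have h1 : ‖w.1‖ ≤ ‖w‖ := norm_fst_le w
    have h2 : ‖w.2‖ ≤ ‖w‖ := norm_snd_le w
    rw [Prod.norm_mk]
    refine max_le (by linarith [norm_nonneg w]) ?_
    calc ‖w.2 - w.1‖ ≤ ‖w.2‖ + ‖w.1‖ := norm_sub_le _ _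
      _ ≤ 2 * ‖w‖ := by linarith
  have hGs : ContDiff ℝ ∞ (fun p : E m × E m => ((0 : E m), g p)) := contDiff_const.prodMk hgs
  have hGL : LipschitzWith (1 / 8) (fun p : E m × E m => ((0 : E m), g p)) := by
    refine LipschitzWith.of_dist_le_mul fun p q => ?_
    rw [Prod.dist_eq, dist_self]
    exact max_le (by positivity) (hgL.dist_le_mul p q)
  have hc : ((1 / 8 : ℝ≥0) : ℝ) * ‖(A.symm : (E m × E m) →L[ℝ] (E m × E m))‖ < 1 := by
    have h1 : ((1 / 8 : ℝ≥0) : ℝ) = 1 / 8 := by norm_num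
    rw [h1]
    linarith
  obtain ⟨f, hfs, hf1, hf2⟩ := glob_inv A hGs hGL hc
  have hfst : ∀ y q, (f (y, q)).1 = y := by
    intro y q
    have h1 := congrArg Prod.fst (hf2 (y, q))
    rw [hA] at h1
    have h2 : (f (y, q)).1 + 0 = y := h1
    rwa [add_zero] at h2
  obtain ⟨L, hL⟩ : ∃ L : E m → E m → E m, L = fun y q => (f (y, q)).2 := ⟨_, rfl⟩
  have hf : ∀ y q, f (y, q) = (y, L y q) := by
    intro y q
    rw [hL]
    exact Prod.ext (hfst y q) rfl
  have star : ∀ y q, y + L y q + g (y, L y q) = q := by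
    intro y q
    have h1 := congrArg Prod.snd (hf2 (y, q))
    rw [hf, hA] at h1
    exact h1
  have sstar : ∀ y v, L y (y + v + g (y, v)) = v := by
    intro y v
    have h1 := hf1 (y, v)
    rw [hA] at h1
    have h2 : ((y, y + v) : E m × E m) + ((0 : E m), g (y, v)) = (y, y + v + g (y, v)) := by
      rw [Prod.mk_add_mk, add_zero]
    rw [h2, hf] at h1
    exact congrArg Prod.snd h1
  have gle : ∀ y v y' v', ‖g (y, v) - g (y', v')‖ ≤ 1 / 8 * (‖y - y'‖ + ‖v - v'‖) := by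
    intro y v y' v'
    have h1 := hgL.dist_le_mul (y, v) (y', v')
    rw [dist_eq_norm, Prod.dist_eq, dist_eq_norm, dist_eq_norm] at h1
    have h2 : ((1 / 8 : ℝ≥0) : ℝ) = 1 / 8 := by norm_num
    rw [h2] at h1
    refine h1.trans ?_
    have h3 : max ‖y - y'‖ ‖v - v'‖ ≤ ‖y - y'‖ + ‖v - v'‖ :=
      max_le (by linarith [norm_nonneg (v - v')]) (by linarith [norm_nonneg (y - y')])
    exact mul_le_mul_of_nonneg_left h3 (by norm_num)
  have key : ∀ y ∈ N, ∀ v, ‖v‖ ≤ v₁ →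
      y + v + g (y, v) = Ex y (fderiv ℝ π y v) + (v - fderiv ℝ π y v) := by
    intro y hy v hv
    rw [hgR y v (hv.trans hvr), hR2 y hy v (hv.trans hvo)]
    abel
  have kt : ∀ y ∈ N, ∀ q ∈ N, ‖L y q‖ ≤ v₁ → fderiv ℝ π y (L y q) = L y q := by
    intro y hy q hq h
    refine hnz y hy (L y q) (h.trans hva) ?_
    rw [← key y hy (L y q) h, star]
    exact hq
  refine ⟨L, v₁, ⟨hv0, hX.smooth, hX.zero, hX.der0, fun y hy v hv hn =>
    hX.geod y hy v hv (hn.trans (hva.trans hv1le))⟩, ?_⟩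
  refine ⟨hv0, ?_, ?_, ?_, ?_, kt, ?_, ?_⟩
  · have h1 : (fun p : E m × E m => L p.1 p.2) = fun p => (f p).2 := by
      rw [hL]
    rw [h1]
    exact contDiff_snd.comp hfs
  · intro y
    have h1 := sstar y 0
    rwa [hg0, add_zero, add_zero] at h1
  · intro y q
    have h1 : ‖g (y, L y q)‖ ≤ 1 / 8 * ‖L y q‖ := by
      have h2 := gle y (L y q) y 0
      rwa [hg0, sub_zero, sub_self, norm_zero, zero_add, sub_zero] at h2
    have h3 : q - y = L y q + g (y, L y q) := by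
      calc q - y = (y + L y q + g (y, L y q)) - y := by rw [star]
        _ = L y q + g (y, L y q) := by abel
    rw [norm_sub_rev, h3]
    calc ‖L y q + g (y, L y q)‖ ≤ ‖L y q‖ + ‖g (y, L y q)‖ := norm_add_le _ _
      _ ≤ 2 * ‖L y q‖ := by linarith [norm_nonneg (L y q)]
  · intro y y' q q'
    have h1 := gle y (L y q) y' (L y' q')
    have h2 : L y q - L y' q' =
        (q - q') - (y - y') - (g (y, L y q) - g (y', L y' q')) := by
      have h3 := star y q
      have h4 := star y' q'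
      calc L y q - L y' q' = ((y + L y q + g (y, L y q)) - (y' + L y' q' + g (y', L y' q'))) -
            (y - y') - (g (y, L y q) - g (y', L y' q')) := by abel
        _ = _ := by rw [h3, h4]
    have h5 : ‖L y q - L y' q'‖ ≤ ‖q - q'‖ + ‖y - y'‖ +
        1 / 8 * (‖y - y'‖ + ‖L y q - L y' q'‖) := by
      calc ‖L y q - L y' q'‖ = ‖(q - q') - (y - y') - (g (y, L y q) - g (y', L y' q'))‖ := by
            rw [← h2]
        _ ≤ ‖(q - q') - (y - y')‖ + ‖g (y, L y q) - g (y', L y' q')‖ := norm_sub_le _ _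
        _ ≤ (‖q - q'‖ + ‖y - y'‖) + 1 / 8 * (‖y - y'‖ + ‖L y q - L y' q'‖) :=
            add_le_add (norm_sub_le _ _) h1
    linarith [norm_nonneg (q - q'), norm_nonneg (y - y')]
  · intro y hy q hq h
    have h1 := key y hy (L y q) h
    rw [star, kt y hy q hq h, sub_self, add_zero] at h1
    exact h1.symm
  · intro y hy v hv hn
    have h1 := key y hy v hn
    rw [hv, sub_self, add_zero] at h1
    rw [← h1]
    exact sstar y v

end H79NG
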