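import Pool.Agent.H79.NG.Def

/-!
# [H79 NG PSI] The radial profile

Let `0 < r₁`. `η(s) = Real.smoothTransition ((s - (r₁/4)²) / ((3 r₁/8)² - (r₁/4)²))`: smooth, values in
`[0,1]`, nondecreasing, `0` for `s ≤ (r₁/4)²`, `1` for `s ≥ (3 r₁/8)²`.
`ω(s) = 1 - Real.smoothTransition ((s - (7 r₁/4)²) / ((2 r₁)² - (7 r₁/4)²))`: smooth, values in `[0,1]`,
`1` for `s ≤ (7 r₁/4)²`, `0` for `s ≥ (2 r₁)²`.
`ψ(s) = ω(s) ((1/r₁) (1 - η(s)) + η(s) / √s)`.
Smooth: `η(s)/√s` is `0` near every `s ≤ 0` (as `η = 0` for `s < (r₁/4)²`), and for `s > 0` the function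
`√s` is smooth and nonzero. `nonneg`, `near`, `zero` are clear (`near`: `ω = 1`, `η = 0`).
`bd`: `ψ(r²) r ≤ (r/r₁)(1 - η(r²)) + η(r²) ≤ 1` if `r ≤ r₁`; if `r > r₁`, `η(r²) = 1` and
`ψ(r²) r = ω ≤ 1`.
`unit`: `r² ≥ (r₁/2)² > (3 r₁/8)²` and `r² ≤ (3 r₁/2)² < (7 r₁/4)²`: `ψ(r²) = 1/r`.
`der`: `ψ(s) = 1/√s` in a neighbourhood of `s = r²`, so `ψ'(r²) = -1/(2 r³)`.
`mono`: for `0 ≤ s < (7 r₁/4)²`, `ω = 1` near `s`. For `s < (r₁/4)²` (also `s = 0`): `ψ` is constant near
`s`, `ψ + 2 s ψ' = 1/r₁`. For `s > 0`: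
`ψ + 2 s ψ' = (1/r₁)(1 - η) + η/√s + 2 s (- η'/r₁ + η'/√s - η/(2 s √s))
= (1/r₁)(1 - η) + 2 s η' (1/√s - 1/r₁) ≥ 0`, because `η' ≥ 0`, and `η' = 0` unless
`√s ≤ 3 r₁/8 ≤ r₁` (for `s > (3 r₁/8)²`, `η` is locally constant; at `s = (3 r₁/8)²` the factor
`1/√s - 1/r₁` is positive anyway).
-/

set_option autoImplicit false

namespace H79NG

open H60NH H60NT Metric Set Filter Topology
open scoped NNReal ContDiff

/-- A smooth step. -/
private noncomputable def stp (A B s : ℝ) : ℝ := Real.smoothTransition ((s - A) / (B - A))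

private theorem stp_smooth (A B : ℝ) : ContDiff ℝ ∞ (stp A B) := by
  have h1 : ContDiff ℝ ∞ (fun s : ℝ => (s - A) / (B - A)) :=
    (contDiff_id.sub contDiff_const).div_const _
  exact (Real.smoothTransition.contDiff (n := (⊤ : ℕ∞))).comp h1

private theorem stp_nonneg (A B s : ℝ) : 0 ≤ stp A B s := Real.smoothTransition.nonneg _

private theorem stp_le_one (A B s : ℝ) : stp A B s ≤ 1 := Real.smoothTransition.le_one _

private theorem stp_zero {A B s : ℝ} (hAB : A < B) (hs : s ≤ A) : stp A B s = 0 :=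
  Real.smoothTransition.zero_of_nonpos (div_nonpos_of_nonpos_of_nonneg (by linarith) (by linarith))

private theorem stp_one {A B s : ℝ} (hAB : A < B) (hs : B ≤ s) : stp A B s = 1 := by
  refine Real.smoothTransition.one_of_one_le ?_
  rw [le_div_iff₀ (by linarith)]
  linarith

private theorem stp_mono {A B : ℝ} (hAB : A < B) : Monotone (stp A B) := by
  intro s t hst
  unfold stp
  apply Real.smoothTransition.monotone
  exact div_le_div_of_nonneg_right (by linarith) (by linarith)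

private theorem stp_deriv_nonneg {A B : ℝ} (hAB : A < B) (s : ℝ) : 0 ≤ deriv (stp A B) s :=
  (stp_mono hAB).deriv_nonneg

theorem exists_psi {r₁ : ℝ} (h : 0 < r₁) : ∃ ψ : ℝ → ℝ, Psi ψ r₁ := by
  set A : ℝ := (r₁ / 4) ^ 2 with hA
  set B : ℝ := (3 * r₁ / 8) ^ 2 with hB
  set A' : ℝ := (7 * r₁ / 4) ^ 2 with hA'
  set B' : ℝ := (2 * r₁) ^ 2 with hB'
  have hr2 : 0 < r₁ ^ 2 := by positivity
  have hA0 : 0 < A := by positivity
  have hAB : A < B := by rw [hA, hB]; nlinarith
  have hBA' : B < A' := by rw [hB, hA']; nlinarith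
  have hAB' : A' < B' := by rw [hA', hB']; nlinarith
  set η : ℝ → ℝ := stp A B with hη
  set om : ℝ → ℝ := fun s => 1 - stp A' B' s with hom
  set ψ : ℝ → ℝ := fun s => om s * ((1 / r₁) * (1 - η s) + η s / Real.sqrt s) with hψ
  have hηs : ContDiff ℝ ∞ η := stp_smooth A B
  have hom0 : ∀ s, 0 ≤ om s := fun s => by
    have := stp_le_one A' B' s
    show 0 ≤ 1 - stp A' B' s
    linarith
  have hom1 : ∀ s, om s ≤ 1 := fun s => by
    have := stp_nonneg A' B' s
    show 1 - stp A' B' s ≤ 1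
    linarith
  have hη0 : ∀ s, 0 ≤ η s := fun s => stp_nonneg A B s
  have hη1 : ∀ s, η s ≤ 1 := fun s => stp_le_one A B s
  have home : ∀ s, s ≤ A' → om s = 1 := fun s hs => by
    show 1 - stp A' B' s = 1
    rw [stp_zero hAB' hs, sub_zero]
  have hηz : ∀ s, s ≤ A → η s = 0 := fun s hs => stp_zero hAB hs
  have hηe : ∀ s, B ≤ s → η s = 1 := fun s hs => stp_one hAB hs
  have hzero : ∀ s, B' ≤ s → ψ s = 0 := fun s hs => by
    have : om s = 0 := by
      show 1 - stp A' B' s = 0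
      rw [stp_one hAB' hs, sub_self]
    show om s * _ = 0
    rw [this, zero_mul]
  have hdivs : ContDiff ℝ ∞ (fun s => η s / Real.sqrt s) := by
    rw [contDiff_iff_contDiffAt]
    intro s
    rcases lt_or_ge s A with hs | hs
    · have hev : (fun s => η s / Real.sqrt s) =ᶠ[𝓝 s] fun _ => (0 : ℝ) := by
        filter_upwards [Iio_mem_nhds hs] with t ht
        rw [hηz t (le_of_lt ht), zero_div]
      exact contDiffAt_const.congr_of_eventuallyEq hev
    · have hs0 : 0 < s := lt_of_lt_of_le hA0 hs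
      exact hηs.contDiffAt.div (Real.contDiffAt_sqrt hs0.ne') (Real.sqrt_pos.mpr hs0).ne'
  have hinner : ContDiff ℝ ∞ (fun s => (1 / r₁) * (1 - η s) + η s / Real.sqrt s) :=
    (contDiff_const.mul (contDiff_const.sub hηs)).add hdivs
  have hmid : ∀ s, B ≤ s → s ≤ A' → ψ s = 1 / Real.sqrt s := by
    intro s h1 h2
    show om s * ((1 / r₁) * (1 - η s) + η s / Real.sqrt s) = _
    rw [home s h2, hηe s h1]
    ring
  refine ⟨ψ, ?_, ?_, ?_, ?_, ?_, ?_, ?_, hzero⟩
  · exact (contDiff_const.sub (stp_smooth A' B')).mul hinner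
  · intro s
    have h1 := hη0 s
    have h2 := hη1 s
    have h3 : 0 ≤ 1 - η s := by linarith
    have h4 := hom0 s
    show 0 ≤ om s * ((1 / r₁) * (1 - η s) + η s / Real.sqrt s)
    have h5 : 0 ≤ η s / Real.sqrt s := div_nonneg h1 (Real.sqrt_nonneg _)
    positivity
  · intro r hr
    rcases hr.eq_or_lt with hr0 | hr0
    · rw [← hr0, mul_zero]
      exact zero_le_one
    have e1 : ψ (r ^ 2) * r = om (r ^ 2) * ((r / r₁) * (1 - η (r ^ 2)) + η (r ^ 2)) := by
      show om (r ^ 2) * ((1 / r₁) * (1 - η (r ^ 2)) + η (r ^ 2) / Real.sqrt (r ^ 2)) * r = _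
      rw [Real.sqrt_sq hr]
      field_simp
    rw [e1]
    have h1 := hη0 (r ^ 2)
    have h2 := hη1 (r ^ 2)
    have h4 := hom0 (r ^ 2)
    have h5 := hom1 (r ^ 2)
    have h6 : (r / r₁) * (1 - η (r ^ 2)) + η (r ^ 2) ≤ 1 := by
      rcases le_or_gt r r₁ with hc | hc
      · have : r / r₁ ≤ 1 := by rw [div_le_one h]; exact hc
        nlinarith
      · rw [hηe (r ^ 2) (by rw [hB]; nlinarith)]
        simp
    have h7 : 0 ≤ (r / r₁) * (1 - η (r ^ 2)) + η (r ^ 2) := by
      have : 0 ≤ r / r₁ := by positivity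
      have h8 : 0 ≤ 1 - η (r ^ 2) := by linarith
      positivity
    nlinarith
  · intro s hs
    show om s * ((1 / r₁) * (1 - η s) + η s / Real.sqrt s) = _
    rw [home s (hs.trans (hAB.le.trans hBA'.le)), hηz s hs]
    ring
  · intro r h1 h2
    have hr : 0 < r := by linarith
    rw [hmid (r ^ 2) (by rw [hB]; nlinarith) (by rw [hA']; nlinarith), Real.sqrt_sq hr.le]
    field_simp
  · intro r h1 h2
    have hr : 0 < r := by linarith
    have hlo : B < r ^ 2 := by rw [hB]; nlinarith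
    have hhi : r ^ 2 < A' := by rw [hA']; nlinarith
    have hev : ψ =ᶠ[𝓝 (r ^ 2)] fun s => (Real.sqrt s)⁻¹ := by
      filter_upwards [Ioo_mem_nhds hlo hhi] with t ht
      rw [hmid t ht.1.le ht.2.le, one_div]
    have hd : HasDerivAt (fun s => (Real.sqrt s)⁻¹)
        (-(1 / (2 * Real.sqrt (r ^ 2))) / Real.sqrt (r ^ 2) ^ 2) (r ^ 2) :=
      (Real.hasDerivAt_sqrt (by positivity)).inv (by
        rw [Real.sqrt_sq hr.le]; exact hr.ne')
    rw [hev.deriv_eq, hd.deriv, Real.sqrt_sq hr.le]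
    field_simp
  · intro s h1 h2
    have hhi : s < A' := by rw [hA']; nlinarith
    have hev : ψ =ᶠ[𝓝 s] fun s => (1 / r₁) * (1 - η s) + η s / Real.sqrt s := by
      filter_upwards [Iio_mem_nhds hhi] with t ht
      show om t * ((1 / r₁) * (1 - η t) + η t / Real.sqrt t) = _
      rw [home t (le_of_lt ht), one_mul]
    rcases lt_or_ge s A with hs | hs
    · have hev2 : ψ =ᶠ[𝓝 s] fun _ => 1 / r₁ := by
        filter_upwards [hev, Iio_mem_nhds hs] with t ht ht'
        rw [ht, hηz t (le_of_lt ht')]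
        ring
      rw [hev2.deriv_eq, deriv_const, mul_zero, add_zero, hev2.eq_of_nhds]
      positivity
    · have hs0 : 0 < s := lt_of_lt_of_le hA0 hs
      set q : ℝ := Real.sqrt s with hq
      have hq0 : 0 < q := Real.sqrt_pos.mpr hs0
      have hqq : q * q = s := Real.mul_self_sqrt hs0.le
      have hdη : HasDerivAt η (deriv η s) s :=
        (hηs.differentiable (by simp)).differentiableAt.hasDerivAt
      have hd : HasDerivAt (fun s => (1 / r₁) * (1 - η s) + η s / Real.sqrt s)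
          ((1 / r₁) * (0 - deriv η s) +
            (deriv η s * q - η s * (1 / (2 * q))) / q ^ 2) s :=
        (((hasDerivAt_const s (1 : ℝ)).sub hdη).const_mul (1 / r₁)).add
          (hdη.div (Real.hasDerivAt_sqrt hs0.ne') hq0.ne')
      rw [hev.deriv_eq, hd.deriv, hev.eq_of_nhds]
      have e1 : (1 / r₁) * (1 - η s) + η s / Real.sqrt s + 2 * s * ((1 / r₁) * (0 - deriv η s) +
            (deriv η s * q - η s * (1 / (2 * q))) / q ^ 2) =
          (1 / r₁) * (1 - η s) + 2 * s * deriv η s * (1 / q - 1 / r₁) := by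
        rw [← hq, ← hqq]
        field_simp
        ring
      rw [e1]
      have h3 : 0 ≤ 1 - η s := by have := hη1 s; linarith
      have h4 : 0 ≤ 2 * s * deriv η s * (1 / q - 1 / r₁) := by
        rcases le_or_gt q r₁ with hc | hc
        · have h5 : 0 ≤ 1 / q - 1 / r₁ := by
            rw [sub_nonneg]
            exact one_div_le_one_div_of_le hq0 hc
          have h6 : 0 ≤ deriv η s := stp_deriv_nonneg hAB s
          positivity
        · have hBs : B < s := by rw [hB]; nlinarith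
          have hev3 : η =ᶠ[𝓝 s] fun _ => (1 : ℝ) := by
            filter_upwards [Ioi_mem_nhds hBs] with t ht
            exact hηe t (le_of_lt ht)
          rw [hev3.deriv_eq, deriv_const]
          simp
      positivity

end H79NG
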