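import Pool.Agent.H79.NG.Def

/-!
# [H79 NG ROR] The difference of the distances

`(r - rg)' = <v,f> - <v,g> = - <v, g - f>`, of absolute value at most `a C₀ d ≤ d/2`. Mean value
inequality on `[s₀,s]`, `s - s₀ ≤ 1`, and `r(s₀) - rg(s₀) = d`.
-/

set_option autoImplicit false

namespace H79NG

open H60NH H60NT Metric Set Filter Topology
open scoped NNReal ContDiff

theorem ror {V : Type*} [NormedAddCommGroup V] [InnerProductSpace ℝ V]
    {r₁ CB C₀ C₂ a d s₀ : ℝ} {v dv f g df dg : ℝ → V} {P B Bg : ℝ → V →L[ℝ] V} {r rg : ℝ → ℝ}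
    (h : RecD r₁ CB C₀ C₂ a d s₀ v dv f g df dg P B Bg r rg) (hC : 0 ≤ C₀)
    (ha : 2 * C₀ * a ≤ 1) : ∀ s ∈ Icc s₀ (s₀ + 1), |r s - rg s - d| ≤ d / 2 := by
  intro s hs
  have hd := h.d_pos
  have hmem : s₀ ∈ Icc s₀ (s₀ + 1) := ⟨le_rfl, by linarith⟩
  have hmv := (convex_Icc s₀ (s₀ + 1)).norm_image_sub_le_of_norm_hasDerivWithin_le
    (f := fun t => r t - rg t) (f' := fun t => inner ℝ (v t) (f t) - inner ℝ (v t) (g t))
    (C := d / 2)
    (fun t ht => ((h.hr t ht).sub (h.hrg t ht)).hasDerivWithinAt)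
    (fun t ht => by
      rw [← inner_sub_right]
      have h1 : ‖f t - g t‖ ≤ C₀ * d := by
        rw [norm_sub_rev]
        exact h.crude t ht
      have h2 := norm_inner_le_norm (𝕜 := ℝ) (v t) (f t - g t)
      rw [h.speed t ht] at h2
      have h3 : a * ‖f t - g t‖ ≤ a * (C₀ * d) := mul_le_mul_of_nonneg_left h1 h.a_nonneg
      nlinarith)
    hmem hs
  simp only [h.r0] at hmv
  rw [Real.norm_eq_abs, Real.norm_eq_abs] at hmv
  have h4 : |s - s₀| ≤ 1 := by
    rw [abs_of_nonneg (by linarith [hs.1])]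
    linarith [hs.2]
  have h5 : d / 2 * |s - s₀| ≤ d / 2 * 1 := mul_le_mul_of_nonneg_left h4 (by linarith)
  linarith

end H79NG
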