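import Pool.Agent.H79.NG.Rot

/-!
# [H79 NG ROW] The component orthogonal to the field changes slowly

`w(s) = a² - <v,f>²`, `k = <v,f>`. `k' = <dv,f> + <v,df> = 0 + (1/r)(a² - k² + <v,B v>)`: `<dv,f> =
<dv,P f> = <P dv, f> = 0`, and `form` with `b = v` (`<v,v> = a²`). So
`w' = - 2 k k'`, `|w'| ≤ 2 a (2/r₁)(3/2) w = (6 a/r₁) w ≤ w/4` (`Bvv`, `w ≥ 0`, `|k| ≤ a`,
`1/r ≤ 2/r₁`, `24 a ≤ r₁`). Hence `w(s) exp(-(s-s₀)/4)` is nonincreasing and `w(s) exp((s-s₀)/4)` is
nondecreasing on `[s₀, s₀+1]`: `exp(-1/4) w(s₀) ≤ w(s) ≤ exp(1/4) w(s₀)`, and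
`exp(1/4) ≤ 2`.
-/

set_option autoImplicit false

namespace H79NG

open H60NH H60NT Metric Set Filter Topology
open scoped NNReal ContDiff

/-- A function with nonnegative derivative on an interval is nondecreasing. -/
private theorem row_mono {a b : ℝ} (hab : a ≤ b) {f f' : ℝ → ℝ}
    (hd : ∀ s ∈ Icc a b, HasDerivAt f (f' s) s) (hn : ∀ s ∈ Icc a b, 0 ≤ f' s) : f a ≤ f b := by
  have hm : MonotoneOn f (Icc a b) := by
    refine monotoneOn_of_deriv_nonneg (convex_Icc a b)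
      (fun s hs => (hd s hs).continuousAt.continuousWithinAt) ?_ ?_
    · intro s hs
      rw [interior_Icc] at hs
      exact (hd s (Ioo_subset_Icc_self hs)).differentiableAt.differentiableWithinAt
    · intro s hs
      rw [interior_Icc] at hs
      rw [(hd s (Ioo_subset_Icc_self hs)).deriv]
      exact hn s (Ioo_subset_Icc_self hs)
  exact hm (left_mem_Icc.mpr hab) (right_mem_Icc.mpr hab) hab

theorem row {V : Type*} [NormedAddCommGroup V] [InnerProductSpace ℝ V]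
    {r₁ CB C₀ C₂ a d s₀ : ℝ} {v dv f g df dg : ℝ → V} {P B Bg : ℝ → V →L[ℝ] V} {r rg : ℝ → ℝ}
    (h : RecD r₁ CB C₀ C₂ a d s₀ v dv f g df dg P B Bg r rg) (hr₁ : 0 < r₁)
    (ha : 24 * a ≤ r₁) : ∀ s ∈ Icc s₀ (s₀ + 1),
    (a ^ 2 - inner ℝ (v s₀) (f s₀) ^ 2) / 2 ≤ a ^ 2 - inner ℝ (v s) (f s) ^ 2 ∧
      a ^ 2 - inner ℝ (v s) (f s) ^ 2 ≤ 2 * (a ^ 2 - inner ℝ (v s₀) (f s₀) ^ 2) := by
  have ha0 := h.a_nonneg
  set k : ℝ → ℝ := fun s => inner ℝ (v s) (f s) with hk
  set k' : ℝ → ℝ := fun s => inner ℝ (v s) (df s) with hk'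
  set w : ℝ → ℝ := fun s => a ^ 2 - k s ^ 2 with hw
  have hdk : ∀ s ∈ Icc s₀ (s₀ + 1), HasDerivAt k (k' s) s := by
    intro s hs
    have h1 := (h.hv s hs).inner ℝ (h.hf s hs)
    have h2 : inner ℝ (dv s) (f s) = (0 : ℝ) := by
      rw [← h.Pf s hs, ← h.Psymm s hs, h.Pdv s hs, inner_zero_left]
    rw [h2, add_zero] at h1
    exact h1
  have hdw : ∀ s ∈ Icc s₀ (s₀ + 1), HasDerivAt w (-(2 * k s * k' s)) s := by
    intro s hs
    have h1 := ((hdk s hs).pow 2).const_sub (a ^ 2)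
    refine h1.congr_deriv ?_
    norm_num
  have hwn : ∀ s ∈ Icc s₀ (s₀ + 1), 0 ≤ w s := by
    intro s hs
    have := vperp (h.speed s hs) (h.uf s hs)
    show 0 ≤ a ^ 2 - inner ℝ (v s) (f s) ^ 2
    rw [← this]
    positivity
  have hbd : ∀ s ∈ Icc s₀ (s₀ + 1), |-(2 * k s * k' s)| ≤ w s / 4 := by
    intro s hs
    have hr : 0 < r s := by have := h.r_lo s hs; linarith
    have hri : 1 / r s ≤ 2 / r₁ := by
      rw [div_le_div_iff₀ hr hr₁]
      have := h.r_lo s hs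
      linarith
    have hri0 : 0 < 1 / r s := by positivity
    have hB := Bvv (h.speed s hs) (h.uf s hs) (h.Bsymm s hs) (h.Bf s hs) (h.Bbd s hs)
    have hform := h.form s hs (v s) (h.Pv s hs)
    have hvv : inner ℝ (v s) (v s) = a ^ 2 := by rw [real_inner_self_eq_norm_sq, h.speed s hs]
    have e1 : k' s = 1 / r s * (w s + inner ℝ (v s) (B s (v s))) := by
      show inner ℝ (v s) (df s) = _
      rw [hform, hvv]
      show _ = 1 / r s * (a ^ 2 - inner ℝ (v s) (f s) ^ 2 + inner ℝ (v s) (B s (v s)))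
      ring
    have hw1 := hwn s hs
    have hB' : |inner ℝ (v s) (B s (v s))| ≤ w s / 2 := hB
    have e2 : |k' s| ≤ 2 / r₁ * (3 / 2 * w s) := by
      rw [e1, abs_mul, abs_of_pos hri0]
      have e3 : |w s + inner ℝ (v s) (B s (v s))| ≤ 3 / 2 * w s := by
        refine (abs_add_le _ _).trans ?_
        rw [abs_of_nonneg hw1]
        linarith
      exact mul_le_mul hri e3 (abs_nonneg _) (by positivity)
    have e4 : |k s| ≤ a := by
      have := abs_real_inner_le_norm (v s) (f s)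
      rwa [h.speed s hs, h.uf s hs, mul_one] at this
    rw [abs_neg, abs_mul, abs_mul, abs_of_nonneg (by norm_num : (0 : ℝ) ≤ 2)]
    calc 2 * |k s| * |k' s| ≤ 2 * a * (2 / r₁ * (3 / 2 * w s)) :=
          mul_le_mul (by linarith) e2 (abs_nonneg _) (by positivity)
      _ = 24 * a / r₁ * (w s / 4) := by ring
      _ ≤ 1 * (w s / 4) := by
          refine mul_le_mul_of_nonneg_right ?_ (by positivity)
          rw [div_le_one hr₁]
          exact ha
      _ = w s / 4 := one_mul _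
  have hexp : Real.exp (1 / 4) ≤ 2 := by
    have h1 : (3 / 4 : ℝ) ≤ Real.exp (-(1 / 4)) := by
      have := Real.add_one_le_exp (-(1 / 4) : ℝ)
      linarith
    rw [Real.exp_neg] at h1
    have h2 := Real.exp_pos (1 / 4 : ℝ)
    have h3 : 3 / 4 * Real.exp (1 / 4) ≤ 1 := by
      have := mul_le_mul_of_nonneg_right h1 h2.le
      rwa [inv_mul_cancel₀ h2.ne'] at this
    linarith
  intro s hs
  have hsub : Icc s₀ s ⊆ Icc s₀ (s₀ + 1) := Icc_subset_Icc_right hs.2
  have hde : ∀ (c t : ℝ), HasDerivAt (fun t : ℝ => Real.exp (c * (t - s₀)))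
      (Real.exp (c * (t - s₀)) * c) t := by
    intro c t
    have := (((hasDerivAt_id t).sub_const s₀).const_mul c).exp
    simpa using this
  have hm1 := row_mono hs.1 (f := fun t => w t * Real.exp (1 / 4 * (t - s₀)))
    (f' := fun t => -(2 * k t * k' t) * Real.exp (1 / 4 * (t - s₀)) +
      w t * (Real.exp (1 / 4 * (t - s₀)) * (1 / 4)))
    (fun t ht => (hdw t (hsub ht)).mul (hde (1 / 4) t))
    (fun t ht => by
      have h1 := hbd t (hsub ht)
      have h2 := (abs_le.mp h1).1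
      have h3 := Real.exp_pos (1 / 4 * (t - s₀))
      have h4 : -(2 * k t * k' t) * Real.exp (1 / 4 * (t - s₀)) +
          w t * (Real.exp (1 / 4 * (t - s₀)) * (1 / 4)) =
          (-(2 * k t * k' t) + w t / 4) * Real.exp (1 / 4 * (t - s₀)) := by ring
      rw [h4]
      exact mul_nonneg (by linarith) h3.le)
  have hm2 := row_mono hs.1 (f := fun t => -(w t * Real.exp (-(1 / 4) * (t - s₀))))
    (f' := fun t => -(-(2 * k t * k' t) * Real.exp (-(1 / 4) * (t - s₀)) +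
      w t * (Real.exp (-(1 / 4) * (t - s₀)) * (-(1 / 4)))))
    (fun t ht => ((hdw t (hsub ht)).mul (hde (-(1 / 4)) t)).neg)
    (fun t ht => by
      have h1 := hbd t (hsub ht)
      have h2 := (abs_le.mp h1).2
      have h3 := Real.exp_pos (-(1 / 4) * (t - s₀))
      have h4 : -(-(2 * k t * k' t) * Real.exp (-(1 / 4) * (t - s₀)) +
          w t * (Real.exp (-(1 / 4) * (t - s₀)) * (-(1 / 4)))) =
          (w t / 4 - -(2 * k t * k' t)) * Real.exp (-(1 / 4) * (t - s₀)) := by ring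
      rw [h4]
      exact mul_nonneg (by linarith) h3.le)
  simp only [sub_self, mul_zero, Real.exp_zero, mul_one] at hm1 hm2
  have hss : 0 ≤ s - s₀ := by linarith [hs.1]
  have hss1 : s - s₀ ≤ 1 := by linarith [hs.2]
  have hE1 : Real.exp (1 / 4 * (s - s₀)) ≤ 2 :=
    (Real.exp_le_exp.mpr (by linarith)).trans hexp
  have hws := hwn s hs
  have hws0 := hwn s₀ ⟨le_rfl, by linarith⟩
  have hE2 : Real.exp (-(1 / 4) * (s - s₀)) * Real.exp (1 / 4 * (s - s₀)) = 1 := by
    rw [← Real.exp_add]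
    ring_nf
    exact Real.exp_zero
  constructor
  · show w s₀ / 2 ≤ w s
    have : w s * Real.exp (1 / 4 * (s - s₀)) ≤ w s * 2 := mul_le_mul_of_nonneg_left hE1 hws
    linarith
  · show w s ≤ 2 * w s₀
    have h5 : w s * Real.exp (-(1 / 4) * (s - s₀)) ≤ w s₀ := by linarith
    calc w s = w s * (Real.exp (-(1 / 4) * (s - s₀)) * Real.exp (1 / 4 * (s - s₀))) := by
          rw [hE2, mul_one]
      _ = (w s * Real.exp (-(1 / 4) * (s - s₀))) * Real.exp (1 / 4 * (s - s₀)) := by ring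
      _ ≤ w s₀ * Real.exp (1 / 4 * (s - s₀)) :=
          mul_le_mul_of_nonneg_right h5 (Real.exp_pos _).le
      _ ≤ w s₀ * 2 := mul_le_mul_of_nonneg_left hE1 hws0
      _ = 2 * w s₀ := mul_comm _ _

end H79NG
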