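import Pool.Agent.H79.NG.Rot
import Pool.Agent.H79.NG.Row
import Pool.Agent.H79.NG.Ror
import Mathlib.Analysis.ODE.Gronwall

/-!
# [H79 NG ROH] Gronwall for `H = g - f`

Let `σ ≥ 0`, `σ² = a² - <v(s₀),f(s₀)>²`, `C₃ = 2 (8/r₁² + CB)`. By `row`, `w(s) ≤ 2 σ²`, so
`√w ≤ (3/2) σ ≤ 2 σ`. By `ror`, `|r - rg| ≤ (3/2) d ≤ 2 d`. `rot_alg`:
`‖P(dg - df)‖ ≤ C₃ d σ + (5 a/r₁) ‖H‖` (first conclusion). With `normal`,
`‖dg - df‖ ≤ C₃ d σ + (5 a/r₁ + C₂ a) ‖H‖ ≤ C₃ d σ + ‖H‖`, if `a (5/r₁ + C₂) ≤ 1`. `H(s₀) = 0`,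
`H' = dg - df`. Gronwall (`norm_le_gronwallBound_of_norm_deriv_right_le` with `δ = 0`, `K = 1`,
`ε = C₃ d σ`): `‖H(s)‖ ≤ C₃ d σ (exp(s - s₀) - 1) ≤ 2 C₃ d σ` (`exp 1 < 3`).
-/

set_option autoImplicit false

namespace H79NG

open H60NH H60NT Metric Set Filter Topology
open scoped NNReal ContDiff

theorem roh {V : Type*} [NormedAddCommGroup V] [InnerProductSpace ℝ V]
    {r₁ CB C₀ C₂ a d s₀ σ : ℝ} {v dv f g df dg : ℝ → V} {P B Bg : ℝ → V →L[ℝ] V} {r rg : ℝ → ℝ}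
    (h : RecD r₁ CB C₀ C₂ a d s₀ v dv f g df dg P B Bg r rg) (hr₁ : 0 < r₁) (hCB : 0 ≤ CB)
    (hC₀ : 0 ≤ C₀) (hC₂ : 0 ≤ C₂) (h24 : 24 * a ≤ r₁) (hCa : 2 * C₀ * a ≤ 1)
    (hK : a * (5 / r₁ + C₂) ≤ 1) (hσ : 0 ≤ σ) (hσ2 : σ ^ 2 = a ^ 2 - inner ℝ (v s₀) (f s₀) ^ 2) :
    (∀ s ∈ Icc s₀ (s₀ + 1), ‖P s (dg s - df s)‖ ≤
      2 * (8 / r₁ ^ 2 + CB) * d * σ + 5 * a / r₁ * ‖g s - f s‖) ∧
    ∀ s ∈ Icc s₀ (s₀ + 1), ‖g s - f s‖ ≤ 4 * (8 / r₁ ^ 2 + CB) * d * σ := by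
  have ha0 := h.a_nonneg
  have hd0 := h.d_pos
  obtain ⟨A, hA⟩ : ∃ A : ℝ, A = 8 / r₁ ^ 2 + CB := ⟨_, rfl⟩
  have hA0 : 0 ≤ A := by
    rw [hA]
    positivity
  rw [← hA]
  have h1 : ∀ s ∈ Icc s₀ (s₀ + 1), ‖P s (dg s - df s)‖ ≤
      2 * A * d * σ + 5 * a / r₁ * ‖g s - f s‖ := by
    intro s hs
    have hrow := (row h hr₁ h24 s hs).2
    rw [← hσ2] at hrow
    have hror := abs_le.1 (ror h hC₀ hCa s hs)
    have hdr : |r s - rg s| ≤ 2 * d := by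
      rw [abs_le]
      constructor
      · linarith [hror.1]
      · linarith [hror.2]
    have hrot := rot_alg (CB := CB) hr₁ ha0 hd0 (h.speed s hs) (h.uf s hs) (h.ug s hs)
      (h.Psymm s hs) (h.Pidem s hs) (h.form s hs) (h.formg s hs) (h.Bf s hs) (h.Bg0 s hs)
      (h.Bgbd s hs) (h.Bdif s hs) (h.r_lo s hs) (h.rg_lo s hs) hdr
    rw [← hA] at hrot
    have hsq : Real.sqrt (a ^ 2 - inner ℝ (v s) (f s) ^ 2) ≤ 2 * σ := by
      rw [Real.sqrt_le_left (by positivity)]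
      nlinarith [sq_nonneg σ]
    have h2 : A * d * Real.sqrt (a ^ 2 - inner ℝ (v s) (f s) ^ 2) ≤ A * d * (2 * σ) :=
      mul_le_mul_of_nonneg_left hsq (by positivity)
    linarith
  refine ⟨h1, ?_⟩
  have hder : ∀ s ∈ Icc s₀ (s₀ + 1), HasDerivAt (fun s => g s - f s) (dg s - df s) s :=
    fun s hs => (h.hg s hs).sub (h.hf s hs)
  have hbound : ∀ s ∈ Ico s₀ (s₀ + 1), ‖dg s - df s‖ ≤
      1 * ‖g s - f s‖ + 2 * A * d * σ := by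
    intro s hs'
    have hs : s ∈ Icc s₀ (s₀ + 1) := Ico_subset_Icc_self hs'
    have h2 := h1 s hs
    have h3 := h.normal s hs
    have h4 : dg s - df s = P s (dg s - df s) + ((dg s - df s) - P s (dg s - df s)) := by abel
    have h5 : ‖dg s - df s‖ ≤ ‖P s (dg s - df s)‖ + ‖(dg s - df s) - P s (dg s - df s)‖ := by
      conv_lhs => rw [h4]
      exact norm_add_le _ _
    have h6 : (5 * a / r₁ + C₂ * a) * ‖g s - f s‖ ≤ 1 * ‖g s - f s‖ := by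
      refine mul_le_mul_of_nonneg_right ?_ (norm_nonneg _)
      calc 5 * a / r₁ + C₂ * a = a * (5 / r₁ + C₂) := by ring
        _ ≤ 1 := hK
    linarith
  intro s hs
  have hg := norm_le_gronwallBound_of_norm_deriv_right_le (f := fun s => g s - f s)
    (f' := fun s => dg s - df s) (δ := 0) (K := 1) (ε := 2 * A * d * σ) (a := s₀) (b := s₀ + 1)
    (fun s hs => (hder s hs).continuousAt.continuousWithinAt)
    (fun s hs => (hder s (Ico_subset_Icc_self hs)).hasDerivWithinAt)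
    (by rw [h.h0, sub_self, norm_zero]) hbound s hs
  rw [gronwallBound_of_K_ne_0 one_ne_zero] at hg
  have h7 : Real.exp (1 * (s - s₀)) - 1 ≤ 2 := by
    have h8 : Real.exp (1 * (s - s₀)) ≤ Real.exp 1 := by
      refine Real.exp_le_exp.2 ?_
      linarith [hs.2]
    have h9 := Real.exp_one_lt_d9
    linarith
  have hE : 0 ≤ 2 * A * d * σ := by positivity
  calc ‖g s - f s‖ ≤ 0 * Real.exp (1 * (s - s₀)) +
        2 * A * d * σ / 1 * (Real.exp (1 * (s - s₀)) - 1) := hg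
    _ = 2 * A * d * σ * (Real.exp (1 * (s - s₀)) - 1) := by ring
    _ ≤ 2 * A * d * σ * 2 := mul_le_mul_of_nonneg_left h7 hE
    _ = 4 * A * d * σ := by ring

end H79NG
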