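import Pool.Agent.H79.NG.Rot
import Pool.Agent.H79.NG.Row
import Pool.Agent.H79.NG.Ror
import Pool.Agent.H79.NG.Roh
import Pool.Agent.H79.NG.Cml

/-!
# [H79 NG ROK] The main lower bound (G2) and the recentering lemma

Let `C₃ = 4 (8/r₁² + CB)` (the constant of `roh`) and `C₄ = (2/r₁)(C₃²/2 + 2 C₃)`. Choose
`a₀ = min` of: `1`, `r₁/24`, `1/(2 C₀ + 1)` (so `2 C₀ a ≤ 1`), `1/(5/r₁ + C₂ + 1)`, `r₁/4`,
`1/(64 r₁² (C₄ + 1))`; `c = exp(-1)/(64 r₁²)`; `C = 2 C₃ + 5 a₀/r₁ C₃ + C₃` or anything larger.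
The first two conclusions are `roh` (`‖P(dg - df)‖ ≤ (C₃/2) d σ + (5 a/r₁) C₃ d σ`).
Third: `κ(s) = <v(s), g(s) - f(s)>`, `κ' = <dv, g - f> + <v, dg - df> = <v, dg - df>` since
`<dv, g - f> = <dv, P(g - f)> = <P dv, g - f> = 0`. `κ(s₀) = 0` (`h0`). By `ror`, `r - rg ≥ d/2`.
`rok_alg` with `w = a² - <v,f>²`, `σ²/2 ≤ w ≤ 2 σ²` (`row`), `√w ≤ 2 σ`, `‖H‖ ≤ C₃ d σ`, `d ≤ 1`, `a ≤ 1`:
`κ' ≥ d/(8 r₁²) (σ²/2) - 2 CB d σ² - (4 a/r₁)|κ| - (2/r₁)(a² C₃² d² σ²/2 + 2 a C₃ d σ²)`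
`≥ d σ² (1/(16 r₁²) - 2 CB - C₄ a) - |κ| ≥ d σ²/(64 r₁²) - |κ|`,
since `64 CB r₁² ≤ 1` gives `2 CB ≤ 1/(32 r₁²)`, and `C₄ a ≤ 1/(64 r₁²)`, `4 a/r₁ ≤ 1`. (The factor of
`w` in the first two terms, `d/(8 r₁²) - CB d`, is nonnegative; use `w ≥ σ²/2` for the product or
bound the two terms separately as above.)
`comparison` with `K = 1`, `c₀ = d σ²/(64 r₁²)`: `κ(s) ≥ d σ² exp(-1)/(64 r₁²) (s - s₀)`.
-/

set_option autoImplicit false

namespace H79NG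

open H60NH H60NT Metric Set Filter Topology
open scoped NNReal ContDiff

theorem rec_main (r₁ CB C₀ C₂ : ℝ) (hr₁ : 0 < r₁) (hCB : 0 ≤ CB) (hC₀ : 0 ≤ C₀) (hC₂ : 0 ≤ C₂)
    (h64 : 64 * CB * r₁ ^ 2 ≤ 1) :
    ∃ a₀ c C : ℝ, 0 < a₀ ∧ 0 < c ∧ 0 ≤ C ∧
      ∀ {V : Type} [NormedAddCommGroup V] [InnerProductSpace ℝ V] {a d s₀ : ℝ}
        {v dv f g df dg : ℝ → V} {P B Bg : ℝ → V →L[ℝ] V} {r rg : ℝ → ℝ},
        RecD r₁ CB C₀ C₂ a d s₀ v dv f g df dg P B Bg r rg → a ≤ a₀ → ∀ σ : ℝ, 0 ≤ σ →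
        σ ^ 2 = a ^ 2 - inner ℝ (v s₀) (f s₀) ^ 2 → ∀ s ∈ Icc s₀ (s₀ + 1),
          ‖g s - f s‖ ≤ C * d * σ ∧ ‖P s (dg s - df s)‖ ≤ C * d * σ ∧
          c * d * σ ^ 2 * (s - s₀) ≤ inner ℝ (v s) (g s - f s) := by
  obtain ⟨C₃, hC₃⟩ : ∃ C₃ : ℝ, C₃ = 4 * (8 / r₁ ^ 2 + CB) := ⟨_, rfl⟩
  have hC₃0 : 0 ≤ C₃ := by
    rw [hC₃]
    positivity
  obtain ⟨C₄, hC₄⟩ : ∃ C₄ : ℝ, C₄ = 2 / r₁ * (C₃ ^ 2 / 2 + 2 * C₃) := ⟨_, rfl⟩
  have hC₄0 : 0 ≤ C₄ := by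
    rw [hC₄]
    positivity
  obtain ⟨a₀, ha₀⟩ : ∃ a₀ : ℝ, a₀ = min (min 1 (r₁ / 24)) (min (1 / (2 * C₀ + 1))
      (min (1 / (5 / r₁ + C₂ + 1)) (1 / (64 * r₁ ^ 2 * (C₄ + 1))))) := ⟨_, rfl⟩
  have ha₀0 : 0 < a₀ := by
    rw [ha₀]
    refine lt_min (lt_min one_pos (by positivity)) (lt_min (by positivity)
      (lt_min (by positivity) (by positivity)))
  have q1 : a₀ ≤ 1 := by
    rw [ha₀]
    exact (min_le_left _ _).trans (min_le_left _ _)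
  have q2 : a₀ ≤ r₁ / 24 := by
    rw [ha₀]
    exact (min_le_left _ _).trans (min_le_right _ _)
  have q3 : a₀ ≤ 1 / (2 * C₀ + 1) := by
    rw [ha₀]
    exact (min_le_right _ _).trans (min_le_left _ _)
  have q4 : a₀ ≤ 1 / (5 / r₁ + C₂ + 1) := by
    rw [ha₀]
    exact (min_le_right _ _).trans ((min_le_right _ _).trans (min_le_left _ _))
  have q5 : a₀ ≤ 1 / (64 * r₁ ^ 2 * (C₄ + 1)) := by
    rw [ha₀]
    exact (min_le_right _ _).trans ((min_le_right _ _).trans (min_le_right _ _))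
  refine ⟨a₀, Real.exp (-1) / (64 * r₁ ^ 2), 2 * C₃, ha₀0, by positivity, by positivity, ?_⟩
  intro V _ _ a d s₀ v dv f g df dg P B Bg r rg h haa σ hσ hσ2
  have ha0 := h.a_nonneg
  have hd0 := h.d_pos
  have hd1 := h.d_le
  have ha1 : a ≤ 1 := haa.trans q1
  have h24 : 24 * a ≤ r₁ := by linarith
  have hCa : 2 * C₀ * a ≤ 1 := by
    have h1 : a ≤ 1 / (2 * C₀ + 1) := haa.trans q3
    rw [le_div_iff₀ (by positivity)] at h1
    linarith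
  have hK : a * (5 / r₁ + C₂) ≤ 1 := by
    have h1 : a ≤ 1 / (5 / r₁ + C₂ + 1) := haa.trans q4
    rw [le_div_iff₀ (by positivity)] at h1
    linarith
  have h5a : a * C₄ ≤ 1 / (64 * r₁ ^ 2) := by
    have h1 : a ≤ 1 / (64 * r₁ ^ 2 * (C₄ + 1)) := haa.trans q5
    rw [le_div_iff₀ (by positivity)] at h1
    rw [le_div_iff₀ (by positivity)]
    have h2 : 0 ≤ a * (64 * r₁ ^ 2) := by positivity
    linarith
  obtain ⟨hP, hH⟩ := roh h hr₁ hCB hC₀ hC₂ h24 hCa hK hσ hσ2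
  have hH' : ∀ s ∈ Icc s₀ (s₀ + 1), ‖g s - f s‖ ≤ C₃ * d * σ := by
    intro s hs
    rw [hC₃]
    exact hH s hs
  have hdσ : 0 ≤ d * σ := by positivity
  -- the lower bound
  have hlow : ∀ s ∈ Icc s₀ (s₀ + 1),
      d * σ ^ 2 / (64 * r₁ ^ 2) - 1 * |inner ℝ (v s) (g s - f s)| ≤
        inner ℝ (v s) (dg s - df s) := by
    intro s hs
    have hror := abs_le.1 (ror h hC₀ hCa s hs)
    have hdr : d / 2 ≤ r s - rg s := by linarith [hror.1]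
    obtain ⟨hw1, hw2⟩ := row h hr₁ h24 s hs
    rw [← hσ2] at hw1 hw2
    have halg := rok_alg (CB := CB) hr₁ ha0 hd0 (h.speed s hs) (h.uf s hs) (h.ug s hs)
      (h.Pv s hs) (h.form s hs) (h.formg s hs) (h.Bsymm s hs) (h.Bgsymm s hs) (h.Bf s hs)
      (h.Bg0 s hs) (h.Bgbd s hs) (h.Bdif s hs) (h.r_lo s hs) (h.rg_lo s hs) (h.r_hi s hs)
      (h.rg_hi s hs) hdr
    obtain ⟨w, hw⟩ : ∃ w : ℝ, w = a ^ 2 - inner ℝ (v s) (f s) ^ 2 := ⟨_, rfl⟩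
    obtain ⟨η, hη⟩ : ∃ η : ℝ, η = ‖g s - f s‖ := ⟨_, rfl⟩
    obtain ⟨κ, hκ⟩ : ∃ κ : ℝ, κ = |inner ℝ (v s) (g s - f s)| := ⟨_, rfl⟩
    rw [← hw, ← hη, ← hκ] at halg
    rw [← hw] at hw1 hw2
    rw [← hκ]
    have hκ0 : 0 ≤ κ := by
      rw [hκ]
      exact abs_nonneg _
    have hη0 : 0 ≤ η := by
      rw [hη]
      exact norm_nonneg _
    have hη1 : η ≤ C₃ * d * σ := by
      rw [hη]
      exact hH' s hs
    have hsq : Real.sqrt w ≤ 2 * σ := by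
      rw [Real.sqrt_le_left (by positivity)]
      nlinarith [sq_nonneg σ]
    have hsq0 := Real.sqrt_nonneg w
    have t1 : d * σ ^ 2 / (16 * r₁ ^ 2) ≤ d / (8 * r₁ ^ 2) * w := by
      calc d * σ ^ 2 / (16 * r₁ ^ 2) = d / (8 * r₁ ^ 2) * (σ ^ 2 / 2) := by
            field_simp
            ring
        _ ≤ d / (8 * r₁ ^ 2) * w := mul_le_mul_of_nonneg_left hw1 (by positivity)
    have t2 : CB * d * w ≤ d * σ ^ 2 / (32 * r₁ ^ 2) := by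
      calc CB * d * w ≤ CB * d * (2 * σ ^ 2) := mul_le_mul_of_nonneg_left hw2 (by positivity)
        _ = (2 * CB) * (d * σ ^ 2) := by ring
        _ ≤ 1 / (32 * r₁ ^ 2) * (d * σ ^ 2) := by
            refine mul_le_mul_of_nonneg_right ?_ (by positivity)
            rw [le_div_iff₀ (by positivity)]
            linarith
        _ = d * σ ^ 2 / (32 * r₁ ^ 2) := by ring
    have t3 : 4 * a / r₁ * κ ≤ 1 * κ := by
      refine mul_le_mul_of_nonneg_right ?_ hκ0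
      rw [div_le_one hr₁]
      linarith
    have t4 : 2 / r₁ * (a ^ 2 * η ^ 2 / 2 + a * η * Real.sqrt w) ≤
        d * σ ^ 2 / (64 * r₁ ^ 2) := by
      have u1 : a ^ 2 * η ^ 2 ≤ a * d * σ ^ 2 * C₃ ^ 2 := by
        have v1 : η ^ 2 ≤ (C₃ * d * σ) ^ 2 := pow_le_pow_left₀ hη0 hη1 2
        have v2 : a ^ 2 ≤ a := by nlinarith
        have v3 : d ^ 2 ≤ d := by nlinarith
        calc a ^ 2 * η ^ 2 ≤ a * (C₃ * d * σ) ^ 2 :=
              mul_le_mul v2 v1 (by positivity) ha0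
          _ = a * (d ^ 2) * (σ ^ 2 * C₃ ^ 2) := by ring
          _ ≤ a * d * (σ ^ 2 * C₃ ^ 2) :=
              mul_le_mul_of_nonneg_right (mul_le_mul_of_nonneg_left v3 ha0) (by positivity)
          _ = a * d * σ ^ 2 * C₃ ^ 2 := by ring
      have u2 : a * η * Real.sqrt w ≤ a * d * σ ^ 2 * (2 * C₃) := by
        calc a * η * Real.sqrt w ≤ a * (C₃ * d * σ) * (2 * σ) :=
              mul_le_mul (mul_le_mul_of_nonneg_left hη1 ha0) hsq hsq0 (by positivity)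
          _ = a * d * σ ^ 2 * (2 * C₃) := by ring
      calc 2 / r₁ * (a ^ 2 * η ^ 2 / 2 + a * η * Real.sqrt w)
          ≤ 2 / r₁ * (a * d * σ ^ 2 * C₃ ^ 2 / 2 + a * d * σ ^ 2 * (2 * C₃)) := by
            refine mul_le_mul_of_nonneg_left ?_ (by positivity)
            linarith
        _ = (a * C₄) * (d * σ ^ 2) := by
            rw [hC₄]
            ring
        _ ≤ 1 / (64 * r₁ ^ 2) * (d * σ ^ 2) := mul_le_mul_of_nonneg_right h5a (by positivity)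
        _ = d * σ ^ 2 / (64 * r₁ ^ 2) := by ring
    have t5 : d * σ ^ 2 / (16 * r₁ ^ 2) - d * σ ^ 2 / (32 * r₁ ^ 2) - d * σ ^ 2 / (64 * r₁ ^ 2) =
        d * σ ^ 2 / (64 * r₁ ^ 2) := by
      field_simp
      ring
    linarith
  have hder : ∀ s ∈ Icc s₀ (s₀ + 1), HasDerivAt (fun s => inner ℝ (v s) (g s - f s))
      (inner ℝ (v s) (dg s - df s)) s := by
    intro s hs
    have h1 := (h.hv s hs).inner ℝ ((h.hg s hs).sub (h.hf s hs))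
    have h2 : inner ℝ (dv s) (g s - f s) = 0 := by
      have h3 : P s (g s - f s) = g s - f s := by
        rw [map_sub, h.Pg s hs, h.Pf s hs]
      rw [← h3, ← h.Psymm s hs, h.Pdv s hs, inner_zero_left]
    have h4 : inner ℝ (v s) (dg s - df s) =
        inner ℝ (v s) (dg s - df s) + inner ℝ (dv s) (g s - f s) := by
      rw [h2, add_zero]
    rw [h4]
    exact h1
  have hcmp := comparison (κ := fun s => inner ℝ (v s) (g s - f s))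
    (κ' := fun s => inner ℝ (v s) (dg s - df s)) (s₀ := s₀)
    (c₀ := d * σ ^ 2 / (64 * r₁ ^ 2)) (K := 1) zero_le_one (by positivity) hder
    (by
      show inner ℝ (v s₀) (g s₀ - f s₀) = 0
      rw [h.h0, sub_self, inner_zero_right]) hlow
  intro s hs
  have hHs := hH' s hs
  refine ⟨?_, ?_, ?_⟩
  · have : 0 ≤ C₃ * d * σ := by positivity
    linarith
  · have h1 := hP s hs
    have h2 : 5 * a / r₁ ≤ 1 := by
      rw [div_le_one hr₁]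
      linarith
    have h3 : 5 * a / r₁ * ‖g s - f s‖ ≤ 1 * (C₃ * d * σ) :=
      mul_le_mul h2 hHs (norm_nonneg _) zero_le_one
    have h4 : 2 * (8 / r₁ ^ 2 + CB) * d * σ = C₃ * d * σ / 2 := by
      rw [hC₃]
      ring
    have : 0 ≤ C₃ * d * σ := by positivity
    linarith
  · have h1 := hcmp s hs
    calc Real.exp (-1) / (64 * r₁ ^ 2) * d * σ ^ 2 * (s - s₀)
        = d * σ ^ 2 / (64 * r₁ ^ 2) * Real.exp (-1) * (s - s₀) := by ring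
      _ ≤ inner ℝ (v s) (g s - f s) := h1

end H79NG
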