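import Pool.Agent.H79.NG.Fsm
import Pool.Agent.H79.NG.Bas

/-!
# [H79 NG RPT] The recentred point

Let `ℓ = L P q`, `ρ = ‖ℓ‖`, `w = (r₁/ρ) • ℓ`, tangent at `P`, `‖w‖ = r₁ ≤ v₀`, `q' = Ex P w`. `q' ∈ N` (`ExpS.geod`
for `w` at time `1`, or for `ℓ` at time `r₁/ρ`), `L P q' = w` (`LogS.uniq`). `Γ(t) = Ex P (t • ℓ)` is a geodesic
on `[-1,1]` with speed `ρ ≤ v₀`, `Γ(1) = q` (`LogS.exp`), `Γ(r₁/ρ) = q'`, so
`‖q - q'‖ ≤ ρ (1 - r₁/ρ) = ρ - r₁` (`geod_chord`). By `F_N` and `Psi.unit` (`r₁` and `ρ` are in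
`[r₁/2, 3 r₁/2]`): `F_{q'}(P) = -(1/r₁) w = -(1/ρ) ℓ = F_q(P)`.
-/

set_option autoImplicit false

namespace H79NG

open H60NH H60NT Metric Set Filter Topology
open scoped NNReal ContDiff

variable {m : ℕ} {N : Set (E m)} {π : E m → E m} {δ CT : ℝ} {Ex L : E m → E m → E m}
  {B : E m → E m → E m →L[ℝ] E m} {pt : E m → E m} {θ : E m → ℝ} {ψ : ℝ → ℝ} {v₀ Cb r₁ : ℝ}

theorem rpoint (h : FC N π δ CT Ex L B pt θ ψ v₀ Cb r₁) {q P : E m} (hq : q ∈ N) (hP : P ∈ N)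
    (h1 : r₁ < ‖L P q‖) (h2 : ‖L P q‖ ≤ 5 * r₁ / 4) :
    ∃ q' ∈ N, ‖L P q'‖ = r₁ ∧ ‖q - q'‖ ≤ ‖L P q‖ - r₁ ∧
      Fd θ ψ pt L q' P = Fd θ ψ pt L q P := by
  have hr := h.r_pos
  have hrv := h.r_v
  obtain ⟨ℓ, hℓ⟩ : ∃ ℓ : E m, ℓ = L P q := ⟨_, rfl⟩
  obtain ⟨ρ, hρ⟩ : ∃ ρ : ℝ, ρ = ‖ℓ‖ := ⟨_, rfl⟩
  rw [← hℓ, ← hρ] at h1 h2
  have hρ0 : 0 < ρ := hr.trans h1
  have hρv : ρ ≤ v₀ := by linarith
  have hLv : ‖L P q‖ ≤ v₀ := by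
    rw [← hℓ, ← hρ]
    exact hρv
  have htan : fderiv ℝ π P ℓ = ℓ := by
    rw [hℓ]
    exact h.hL.tan P hP q hq hLv
  have hexp : Ex P ℓ = q := by
    rw [hℓ]
    exact h.hL.exp P hP q hq hLv
  obtain ⟨w, hw⟩ : ∃ w : E m, w = (r₁ / ρ) • ℓ := ⟨_, rfl⟩
  have hwn : ‖w‖ = r₁ := by
    rw [hw, norm_smul, Real.norm_of_nonneg (by positivity), ← hρ]
    field_simp
  have hwt : fderiv ℝ π P w = w := by
    rw [hw, map_smul, htan]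
  have hg := h.hX.geod P hP ℓ htan (by rw [← hρ]; exact hρv)
  have hq' : Ex P w ∈ N := by
    have hg' := h.hX.geod P hP w hwt (by rw [hwn]; linarith)
    have h3 := hg'.mem 1 ⟨by norm_num, le_rfl⟩
    simpa using h3
  have hLq' : L P (Ex P w) = w := h.hL.uniq P hP w hwt (by rw [hwn]; linarith)
  have hq1 : r₁ / ρ ≤ 1 := by
    rw [div_le_one hρ0]
    exact h1.le
  have hdist : ‖q - Ex P w‖ ≤ ρ - r₁ := by
    have h3 := geod_chord hg (s := 1) (t := r₁ / ρ) ⟨by norm_num, le_rfl⟩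
      ⟨by have : 0 ≤ r₁ / ρ := by positivity
          linarith, hq1⟩
    simp only [one_smul] at h3
    rw [hexp, ← hw, ← hρ, abs_of_nonneg (by linarith)] at h3
    refine h3.trans_eq ?_
    field_simp
  refine ⟨Ex P w, hq', ?_, ?_, ?_⟩
  · rw [hLq', hwn]
  · rw [← hℓ, ← hρ]
    exact hdist
  · rw [F_N h hq' hP, F_N h hq hP, hLq', hwn, ← hℓ, ← hρ]
    have h4 := h.hψ.unit r₁ (by linarith) (by linarith)
    have h5 := h.hψ.unit ρ (by linarith) (by linarith)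
    have h6 : ψ (r₁ ^ 2) = 1 / r₁ := by
      rw [eq_div_iff hr.ne']
      exact h4
    have h7 : ψ (ρ ^ 2) = 1 / ρ := by
      rw [eq_div_iff hρ0.ne']
      exact h5
    rw [h6, h7, hw, smul_smul]
    congr 2
    field_simp

end H79NG
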