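import Pool.Agent.H79.NG.Ral
import Pool.Agent.H79.NG.Rpt
import Pool.Agent.H79.NG.Rok
import Pool.Agent.H79.NG.Fbd
import Pool.Agent.H79.NG.Fdn
import Pool.Agent.H79.NG.Fsm
import Pool.Agent.H79.NG.Bas

/-!
# [H79 NG RCE] Recentering (F3)

`C₁` from `two_bounds` for `F q y = Fd θ ψ pt L q y` (`F_smooth`, `F_cpt`); `a₀', c, C₂` from `rec_main` with
`CB = 10 Cb`, `C₀ = C₁`, `C₂ = CT` (`64 * (10 Cb) r₁² ≤ 1` is `r_B`). `a₀ = min a₀' (r₁/16)`,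
`C = max C₁ C₂`. Given `q`, `P`, take `q'` from `rpoint`; `d = ‖L P q‖ - r₁ > 0`, `‖q' - q‖ ≤ d`. The first
three bounds: `two_bounds` (fifth, third with `y = y'`, and sixth statement). For a geodesic use `recD_of`
and `rec_main` (`V := E m`): the first and the third statement are the conclusions of `rec_main`. Second
one: for `b` tangent at `y = Γ s`, by `F_symm` for `q'` and `q` (`‖L y q‖, ‖L y q'‖ < v₀` by the fields `r_hi`,
`rg_hi` of `RecD` and `4 r₁ ≤ v₀`) `<V, DF' b - DF b> = <b, DF' V - DF V> = <Dπ b, dg - df> = <b, Dπ(dg - df)>`,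
at most `‖b‖ C₂ d σ`.
-/

set_option autoImplicit false

namespace H79NG

open H60NH H60NT Metric Set Filter Topology
open scoped NNReal ContDiff

variable {m : ℕ} {N : Set (E m)} {π : E m → E m} {δ CT : ℝ} {Ex L : E m → E m → E m}
  {B : E m → E m → E m →L[ℝ] E m} {pt : E m → E m} {θ : E m → ℝ} {ψ : ℝ → ℝ} {v₀ Cb r₁ : ℝ}

theorem recentre_main (h : FC N π δ CT Ex L B pt θ ψ v₀ Cb r₁) :
    ∃ a₀ c C : ℝ, 0 < a₀ ∧ 0 < c ∧ 0 ≤ C ∧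
      ∀ q ∈ N, ∀ P ∈ N, r₁ < ‖L P q‖ → ‖L P q‖ ≤ 5 * r₁ / 4 → ∃ q' ∈ N, ‖L P q'‖ = r₁ ∧
        (∀ y, ‖Fd θ ψ pt L q' y - Fd θ ψ pt L q y‖ ≤ C * (‖L P q‖ - r₁)) ∧
        (∀ y, ‖fderiv ℝ (Fd θ ψ pt L q') y - fderiv ℝ (Fd θ ψ pt L q) y‖ ≤
          C * (‖L P q‖ - r₁)) ∧
        (∀ y y', ‖(fderiv ℝ (Fd θ ψ pt L q') y - fderiv ℝ (Fd θ ψ pt L q) y) -
          (fderiv ℝ (Fd θ ψ pt L q') y' - fderiv ℝ (Fd θ ψ pt L q) y')‖ ≤
            C * (‖L P q‖ - r₁) * ‖y - y'‖) ∧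
        ∀ (Γ V : ℝ → E m) (a sP : ℝ), 0 ≤ a → a ≤ a₀ → Geod N π Γ V a (Icc sP (sP + 1)) →
          Γ sP = P → ∀ s ∈ Icc sP (sP + 1), ∀ σ : ℝ, 0 ≤ σ →
          σ ^ 2 = a ^ 2 - (inner ℝ (V sP) (Fd θ ψ pt L q P)) ^ 2 →
            ‖Fd θ ψ pt L q' (Γ s) - Fd θ ψ pt L q (Γ s)‖ ≤ C * (‖L P q‖ - r₁) * σ ∧
            (∀ b, fderiv ℝ π (Γ s) b = b →
              |inner ℝ (V s) (fderiv ℝ (Fd θ ψ pt L q') (Γ s) b -
                fderiv ℝ (Fd θ ψ pt L q) (Γ s) b)| ≤ C * (‖L P q‖ - r₁) * σ * ‖b‖) ∧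
            c * (‖L P q‖ - r₁) * σ ^ 2 * (s - sP) ≤
              inner ℝ (V s) (Fd θ ψ pt L q' (Γ s) - Fd θ ψ pt L q (Γ s)) := by
  obtain ⟨C₁, hC1, -, -, b3, -, b5, b6⟩ :=
    two_bounds (F := Fd θ ψ pt L) (F_smooth h) (F_cpt h)
  have hr := h.r_pos
  have hCb := h.hG.one_le
  have hCT := h.hT.one_le
  obtain ⟨a₁, c, C₂, ha1, hc, hC2, hrec⟩ := rec_main r₁ (10 * Cb) C₁ CT hr (by linarith)
    (by linarith) (by linarith) (by have := h.r_B; linarith)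
  have e1 : C₁ ≤ C₁ + C₂ := by linarith
  have e2 : C₂ ≤ C₁ + C₂ := by linarith
  refine ⟨min a₁ (r₁ / 16), c, C₁ + C₂, lt_min ha1 (by linarith), hc, by linarith, ?_⟩
  intro q hq P hP h1 h2
  obtain ⟨q', hq', h3, h4, h5⟩ := rpoint h hq hP h1 h2
  have hd : 0 < ‖L P q‖ - r₁ := by linarith
  have hqq : ‖q' - q‖ ≤ ‖L P q‖ - r₁ := by rw [norm_sub_rev]; exact h4
  refine ⟨q', hq', h3, ?_, ?_, ?_, ?_⟩
  · intro y
    exact (b5 q q' y).trans (mul_le_mul e1 hqq (norm_nonneg _) (by linarith))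
  · intro y
    have k := b3 q' q y y
    rw [sub_self, norm_zero, add_zero] at k
    exact k.trans (mul_le_mul e1 hqq (norm_nonneg _) (by linarith))
  · intro y y'
    exact (b6 q q' y y').trans (mul_le_mul_of_nonneg_right
      (mul_le_mul e1 hqq (norm_nonneg _) (by linarith)) (norm_nonneg _))
  · intro Γ V a sP ha0 ha hΓ hs s hs' σ hσ hσ2
    have ha16 : 16 * a ≤ r₁ := by
      have := ha.trans (min_le_right _ _)
      linarith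
    have hD := recD_of h (by linarith : (0 : ℝ) ≤ C₁) b5 hq hq' hP h1 h2 h3 h4 h5 ha16 hΓ hs
    have hσ3 : σ ^ 2 = a ^ 2 - inner ℝ (V sP) (Fd θ ψ pt L q (Γ sP)) ^ 2 := by rw [hs]; exact hσ2
    obtain ⟨l1, l2, l3⟩ := hrec hD (ha.trans (min_le_left _ _)) σ hσ hσ3 s hs'
    have hm : C₂ * (‖L P q‖ - r₁) * σ ≤ (C₁ + C₂) * (‖L P q‖ - r₁) * σ :=
      mul_le_mul_of_nonneg_right (mul_le_mul_of_nonneg_right e2 hd.le) hσ
    refine ⟨l1.trans hm, ?_, l3⟩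
    intro b hb
    have hyN := hΓ.mem s hs'
    have hV := hΓ.tan s hs'
    have h6 : ‖L (Γ s) q‖ < v₀ := by
      have h7 := hD.r_hi s hs'
      have h8 := h.r_v
      have h9 : ‖L (Γ s) q‖ ≤ 2 * r₁ := h7
      linarith
    have h6' : ‖L (Γ s) q'‖ < v₀ := by
      have h7 := hD.rg_hi s hs'
      have h8 := h.r_v
      have h9 : ‖L (Γ s) q'‖ ≤ 2 * r₁ := h7
      linarith
    have k1 := F_symm h hq hyN h6 hb hV
    have k2 := F_symm h hq' hyN h6' hb hV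
    have k3 : inner ℝ (V s) (fderiv ℝ (Fd θ ψ pt L q') (Γ s) b -
        fderiv ℝ (Fd θ ψ pt L q) (Γ s) b) =
        inner ℝ b (fderiv ℝ π (Γ s) (fderiv ℝ (Fd θ ψ pt L q') (Γ s) (V s) -
          fderiv ℝ (Fd θ ψ pt L q) (Γ s) (V s))) := by
      rw [inner_sub_right, k1, k2, ← proj_symm h.hT hyN, hb, inner_sub_right]
    rw [k3]
    refine (abs_real_inner_le_norm _ _).trans ?_
    rw [mul_comm]
    exact mul_le_mul_of_nonneg_right (l2.trans hm) (norm_nonneg _)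

end H79NG
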