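import Pool.Agent.H79.NG.Bas

/-!
# [H79 NG TWO] Two-point geodesics (F4, existence)

`t = v₀ / 10`, `C' = 2`. Let `ℓ = L y₁ y₂`, `‖ℓ‖ ≤ 2 ‖y₁ - y₂‖ ≤ v₀/5` (`lip`, `diag`), tangent at `y₁`,
`Ex y₁ ℓ = y₂`. `T = s₂ - s₁ ≥ 1`, `w = 5 ℓ`, `‖w‖ ≤ v₀`, `τ(s) = (s - s₁)/(5 T)`; for `s ∈ [s₁ - 4, s₂ + 4]`,
`τ(s) ∈ [-4/5, 1/5 + 4/5] ⊂ [-1,1]`. `Γ(s) = Ex y₁ (τ(s) • w)`,
`V(s) = (1/(5T)) • fderiv ℝ (Ex y₁) (τ(s) • w) w`: `ExpS.geod` for `w` and the chain rule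
(`HasDerivAt.scomp`; `V' = (1/(5T))² D2(..) = D2 π Γ V V`); speed `a = ‖w‖/(5T) = ‖ℓ‖/T ≤ 2 ‖y₁ - y₂‖/T`.
`Γ(s₁) = Ex y₁ (0 • w) = y₁`, `Γ(s₂) = Ex y₁ ((1/5) • 5 ℓ) = y₂`.
-/

set_option autoImplicit false

namespace H79NG

open H60NH H60NT Metric Set Filter Topology
open scoped NNReal ContDiff

private theorem geod_reparam {m : ℕ} {N : Set (E m)} {π : E m → E m} {Γ V : ℝ → E m} {a : ℝ}
    {I : Set ℝ} (h : Geod N π Γ V a I) (c s₁ : ℝ) (hc : 0 ≤ c) (J : Set ℝ)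
    (hJ : ∀ s ∈ J, c * (s - s₁) ∈ I) :
    Geod N π (fun s => Γ (c * (s - s₁))) (fun s => c • V (c * (s - s₁))) (c * a) J := by
  have hτ : ∀ s, HasDerivAt (fun s : ℝ => c * (s - s₁)) c s := by
    intro s
    have h1 := ((hasDerivAt_id s).sub_const s₁).const_mul c
    simpa using h1
  refine ⟨?_, ?_, ?_, ?_, ?_⟩
  · intro s hs
    exact h.mem _ (hJ s hs)
  · intro s hs
    show fderiv ℝ π (Γ (c * (s - s₁))) (c • V (c * (s - s₁))) = c • V (c * (s - s₁))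
    rw [map_smul, h.tan _ (hJ s hs)]
  · intro s hs
    exact (h.der _ (hJ s hs)).scomp s (hτ s)
  · intro s hs
    have h1 := ((h.der2 _ (hJ s hs)).scomp s (hτ s)).const_smul c
    have h2 : D2 π (Γ (c * (s - s₁))) (c • V (c * (s - s₁))) (c • V (c * (s - s₁))) =
        c • (c • D2 π (Γ (c * (s - s₁))) (V (c * (s - s₁))) (V (c * (s - s₁)))) := by
      rw [map_smul, map_smul, ContinuousLinearMap.smul_apply]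
    show HasDerivAt (fun s => c • V (c * (s - s₁))) _ s
    rw [h2]
    exact h1
  · intro s hs
    rw [norm_smul, Real.norm_of_nonneg hc, h.speed _ (hJ s hs)]

theorem two_point {m : ℕ} {N : Set (E m)} {π : E m → E m} {δ C v₀ : ℝ}
    {Ex L : E m → E m → E m} (hT : TC N π δ C) (hX : ExpS N π Ex v₀) (hL : LogS N π Ex L v₀) :
    ∃ t C' : ℝ, 0 < t ∧ 0 ≤ C' ∧ ∀ y₁ ∈ N, ∀ y₂ ∈ N, ‖y₁ - y₂‖ ≤ t → ∀ s₁ s₂ : ℝ,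
      s₁ + 1 ≤ s₂ → ∃ (Γ V : ℝ → E m) (a : ℝ), 0 ≤ a ∧ a ≤ C' * ‖y₁ - y₂‖ / (s₂ - s₁) ∧
        Geod N π Γ V a (Icc (s₁ - 4) (s₂ + 4)) ∧ Γ s₁ = y₁ ∧ Γ s₂ = y₂ := by
  have hv := hX.pos
  refine ⟨v₀ / 10, 2, by positivity, by norm_num, ?_⟩
  intro y₁ hy₁ y₂ hy₂ hy s₁ s₂ hs
  obtain ⟨ℓ, hℓ⟩ : ∃ ℓ : E m, ℓ = L y₁ y₂ := ⟨_, rfl⟩
  obtain ⟨T, hT'⟩ : ∃ T : ℝ, T = s₂ - s₁ := ⟨_, rfl⟩
  have hT1 : 1 ≤ T := by linarith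
  have hT0 : 0 < T := by linarith
  have h1 : ‖ℓ‖ ≤ 2 * ‖y₁ - y₂‖ := by
    have h2 := hL.lip y₁ y₁ y₂ y₁
    rw [hL.diag, sub_zero, sub_self, norm_zero, zero_add, norm_sub_rev y₂ y₁] at h2
    rw [hℓ]
    exact h2
  have h2 : ‖ℓ‖ ≤ v₀ / 5 := by linarith
  have h3 : ‖L y₁ y₂‖ ≤ v₀ := by
    rw [← hℓ]
    linarith
  have htan : fderiv ℝ π y₁ ℓ = ℓ := by
    rw [hℓ]
    exact hL.tan y₁ hy₁ y₂ hy₂ h3
  have hexp : Ex y₁ ℓ = y₂ := by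
    rw [hℓ]
    exact hL.exp y₁ hy₁ y₂ hy₂ h3
  have hw : ‖(5 : ℝ) • ℓ‖ ≤ v₀ := by
    rw [norm_smul, Real.norm_of_nonneg (by norm_num)]
    linarith
  have hwt : fderiv ℝ π y₁ ((5 : ℝ) • ℓ) = (5 : ℝ) • ℓ := by
    rw [map_smul, htan]
  have hg := hX.geod y₁ hy₁ _ hwt hw
  have hc : 0 ≤ 1 / (5 * T) := by positivity
  have hr := geod_reparam hg (1 / (5 * T)) s₁ hc (Icc (s₁ - 4) (s₂ + 4)) (by
    intro s hs'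
    obtain ⟨ha, hb⟩ := hs'
    have e1 : 1 / (5 * T) * (s - s₁) = (s - s₁) / (5 * T) := by ring
    rw [e1]
    constructor
    · rw [le_div_iff₀ (by positivity)]
      linarith
    · rw [div_le_iff₀ (by positivity)]
      linarith)
  refine ⟨_, _, _, ?_, ?_, hr, ?_, ?_⟩
  · positivity
  · rw [norm_smul, Real.norm_of_nonneg (by norm_num), ← hT']
    have e1 : 1 / (5 * T) * (5 * ‖ℓ‖) = ‖ℓ‖ / T := by
      field_simp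
    rw [e1]
    exact div_le_div_of_nonneg_right h1 hT0.le
  · show Ex y₁ ((1 / (5 * T) * (s₁ - s₁)) • (5 : ℝ) • ℓ) = y₁
    rw [sub_self, mul_zero, zero_smul, hX.zero y₁ hy₁]
  · show Ex y₁ ((1 / (5 * T) * (s₂ - s₁)) • (5 : ℝ) • ℓ) = y₂
    rw [← hT', smul_smul]
    have e1 : 1 / (5 * T) * T * 5 = 1 := by
      field_simp
    rw [e1, one_smul, hexp]

end H79NG
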