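import Pool.Agent.H79.NG.Exc
import Pool.Agent.H79.NG.Lge
import Pool.Agent.H79.NG.Lga
import Pool.Agent.H79.NG.Psn
import Pool.Agent.H79.NG.Fmo
import Pool.Agent.H79.NG.Fne
import Pool.Agent.H79.NG.Rce
import Pool.Agent.H79.NG.Two
import Pool.Agent.H79.NG.Cmp

/-!
# [H79 NG GEOFIN] Assembly: the structure `Geo` (helper79)

`r₁ = min (v₀/4) (1/(640 Cb))`, `ρ₀ = r₁/8`, `κ₀ = 1/r₁`, `dd q y = ‖L y q‖`, `F q y = Fd θ ψ pt L q y`.
-/

set_option autoImplicit false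

namespace H79NG

open H60NH H60NT Metric Set Filter Topology
open scoped NNReal ContDiff

theorem exists_FC {m : ℕ} {N : Set (E m)} {π : E m → E m} {δ C : ℝ} (hT : TC N π δ C) :
    ∃ (Ex L : E m → E m → E m) (B : E m → E m → E m →L[ℝ] E m) (pt : E m → E m) (θ : E m → ℝ)
      (ψ : ℝ → ℝ) (v₀ Cb r₁ : ℝ), FC N π δ C Ex L B pt θ ψ v₀ Cb r₁ := by
  obtain ⟨Ex, v', hX'⟩ := exists_exp hT
  obtain ⟨L, v₀, hX, hL⟩ := exists_log hT hX'
  obtain ⟨B, Cb, hG⟩ := exists_logG hT hX hL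
  obtain ⟨pt, hp⟩ := exists_ext hT
  obtain ⟨θ, hθ⟩ := exists_cutN hT.compact hT.nonempty hT.pos
    (show δ < 2 * δ by have := hT.pos; linarith)
  have hCb : (0 : ℝ) < 640 * Cb := by have := hG.one_le; linarith
  have hr : 0 < min (v₀ / 4) (1 / (640 * Cb)) := by
    have := hX.pos
    exact lt_min (by linarith) (by positivity)
  obtain ⟨ψ, hψ⟩ := exists_psi hr
  have h1 : min (v₀ / 4) (1 / (640 * Cb)) ≤ 1 / (640 * Cb) := min_le_right _ _
  have h2 : 1 / (640 * Cb) ≤ 1 := by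
    rw [div_le_one hCb]
    have := hG.one_le; linarith
  refine ⟨Ex, L, B, pt, θ, ψ, v₀, Cb, min (v₀ / 4) (1 / (640 * Cb)), hT, hX, hL, hG, hp, hθ, hψ,
    hr, h1.trans h2, ?_, ?_⟩
  · have := min_le_left (v₀ / 4) (1 / (640 * Cb))
    linarith
  · have h3 : min (v₀ / 4) (1 / (640 * Cb)) ^ 2 ≤ 1 / (640 * Cb) := by
      rw [sq]
      calc _ ≤ (1 / (640 * Cb)) * 1 := mul_le_mul h1 (h1.trans h2) hr.le (by positivity)
        _ = _ := mul_one _
    calc 640 * Cb * min (v₀ / 4) (1 / (640 * Cb)) ^ 2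
        ≤ 640 * Cb * (1 / (640 * Cb)) := mul_le_mul_of_nonneg_left h3 hCb.le
      _ = 1 := mul_one_div_cancel hCb.ne'

theorem exists_geo_main {m : ℕ} {N : Set (E m)} {π : E m → E m} {δ C : ℝ} (hT : TC N π δ C) :
    ∃ (F : E m → E m → E m) (dd : E m → E m → ℝ) (r₁ ρ₀ κ₀ t₃ a₀ c C' : ℝ),
      Geo N π F dd r₁ ρ₀ κ₀ t₃ a₀ c C' := by
  obtain ⟨Ex, L, B, pt, θ, ψ, v₀, Cb, r₁, h⟩ := exists_FC hT
  obtain ⟨C₁, hC1, b1, b2, b3, b4, b5, b6⟩ := two_bounds (F := Fd θ ψ pt L) (F_smooth h) (F_cpt h)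
  obtain ⟨a₁, c₁, C₂, ha1, hc1, hC2, hrec⟩ := recentre_main h
  obtain ⟨t, C₃, ht, hC3, h2p⟩ := two_point hT h.hX h.hL
  obtain ⟨a₂, C₄, ha2, hC4, hcmp⟩ := cmp_geod hT
  have hr := h.r_pos
  have hCb := h.hG.one_le
  have hCr : 0 ≤ Cb / r₁ := div_nonneg (by linarith) hr.le
  set C' : ℝ := C₁ + C₂ + C₃ + C₄ + Cb / r₁ + 2 with hC'
  have e1 : C₁ ≤ C' := by rw [hC']; linarith
  have e2 : C₂ ≤ C' := by rw [hC']; linarith
  have e3 : C₃ ≤ C' := by rw [hC']; linarith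
  have e4 : C₄ ≤ C' := by rw [hC']; linarith
  have e5 : Cb / r₁ ≤ C' := by rw [hC']; linarith
  have e6 : 2 ≤ C' := by rw [hC']; linarith
  have ht3 : min (r₁ / 16) t ≤ r₁ / 16 := min_le_left _ _
  have ht4 : min (r₁ / 16) t ≤ t := min_le_right _ _
  have m1 : ∀ x, 0 ≤ x → C₁ * x ≤ C' * x := fun x hx => mul_le_mul_of_nonneg_right e1 hx
  have m2 : ∀ x, 0 ≤ x → C₂ * x ≤ C' * x := fun x hx => mul_le_mul_of_nonneg_right e2 hx
  have h32 : r₁ + 3 * (r₁ / 8) ≤ 3 * r₁ / 2 := by linarith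
  have h3v : 3 * r₁ / 2 ≤ v₀ := by have := h.r_v; linarith
  refine ⟨fun q y => Fd θ ψ pt L q y, fun q y => ‖L y q‖, r₁, r₁ / 8, 1 / r₁, min (r₁ / 16) t,
    min a₁ a₂, min (1 / (2 * r₁)) c₁, C', ?_⟩
  refine
    { r1_pos := hr
      rho_pos := by linarith
      kap_pos := by positivity
      t_pos := lt_min (by linarith) ht
      a_pos := lt_min ha1 ha2
      c_pos := lt_min (by positivity) hc1
      one_le := by linarith
      smooth := F_smooth h
      bd := fun q y => F_bd h q y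
      bdy := fun q y => (b1 q y).trans e1
      bdq := fun q y => (b2 q y).trans e1
      lipy := fun q q' y y' => (b3 q q' y y').trans (m1 _ (by positivity))
      lipq := fun q q' y => (b4 q q' y).trans (m1 _ (by positivity))
      tan := fun q hq y hy => F_tan h hq hy
      dd_nonneg := fun q y => norm_nonneg _
      dd_self := fun q _ => by show ‖L q q‖ = 0; rw [h.hL.diag]; exact norm_zero
      dd_lip := ?_
      dd_near := ?_
      mono := fun q hq y hy hd a ha => F_mono h hq hy (le_trans hd h32) ha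
      strict := ?_
      near0 := ?_
      neary := ?_
      nearq := ?_
      recentre := ?_
      twopt := ?_
      cmp := ?_ }
  · intro q _ y _ y' _
    show |‖L y q‖ - ‖L y' q‖| ≤ _
    have h1 := h.hL.lip y y' q q
    rw [sub_self, norm_zero, add_zero] at h1
    exact ((abs_norm_sub_norm_le _ _).trans h1).trans
      (mul_le_mul_of_nonneg_right e6 (norm_nonneg _))
  · intro q hq y hy hd
    exact h.hG.chord y hy q hq (le_trans (le_trans hd h32) h3v)
  · intro q hq y hy hd a ha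
    refine le_trans (mul_le_mul_of_nonneg_right (min_le_left _ _) (by positivity)) ?_
    exact F_strict h hq hy (hd.trans ht3) ha
  · intro q hq y hy hd
    exact (F_near0 h hq hy (hd.trans ht3)).trans (mul_le_mul_of_nonneg_right e5 (by positivity))
  · intro q hq y hy hd a ha
    refine (F_neary h hq hy (hd.trans ht3) ha).trans ?_
    exact mul_le_mul_of_nonneg_right (mul_le_mul_of_nonneg_right e5 (by positivity))
      (norm_nonneg _)
  · intro q hq y hy hd b hb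
    refine (F_nearq h hq hy (hd.trans ht3) hb).trans ?_
    exact mul_le_mul_of_nonneg_right (mul_le_mul_of_nonneg_right e5 (by positivity))
      (norm_nonneg _)
  · intro q hq P hP hd1 hd2
    have hd1' : r₁ < ‖L P q‖ := hd1
    have hd2' : ‖L P q‖ ≤ 5 * r₁ / 4 := by
      have : ‖L P q‖ ≤ r₁ + 2 * (r₁ / 8) := hd2
      linarith
    obtain ⟨q', hq', k1, k2, k3, k4, k5⟩ := hrec q hq P hP hd1' hd2'
    have hd : 0 ≤ ‖L P q‖ - r₁ := by linarith
    refine ⟨q', hq', k1, fun y => (k2 y).trans (m2 _ hd), fun y => (k3 y).trans (m2 _ hd), ?_, ?_⟩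
    · intro y y'
      exact (k4 y y').trans (mul_le_mul_of_nonneg_right (m2 _ hd) (norm_nonneg _))
    · intro Γ V a sP ha0 ha hΓ hs s hs' σ hσ hσ2
      obtain ⟨l1, l2, l3⟩ := k5 Γ V a sP ha0 (ha.trans (min_le_left _ _)) hΓ hs s hs' σ hσ hσ2
      refine ⟨l1.trans (mul_le_mul_of_nonneg_right (m2 _ hd) hσ), fun b hb => (l2 b hb).trans ?_,
        le_trans ?_ l3⟩
      · exact mul_le_mul_of_nonneg_right (mul_le_mul_of_nonneg_right (m2 _ hd) hσ)
          (norm_nonneg _)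
      · have hs0 : 0 ≤ s - sP := by linarith [hs'.1]
        refine mul_le_mul_of_nonneg_right (mul_le_mul_of_nonneg_right
          (mul_le_mul_of_nonneg_right (min_le_right _ _) hd) (sq_nonneg _)) hs0
  · intro y₁ hy₁ y₂ hy₂ hd s₁ s₂ hs
    obtain ⟨Γ, V, a, k1, k2, k3, k4, k5⟩ := h2p y₁ hy₁ y₂ hy₂ (hd.trans ht4) s₁ s₂ hs
    refine ⟨Γ, V, a, k1, k2.trans ?_, k3, k4, k5⟩
    have : 0 < s₂ - s₁ := by linarith
    exact div_le_div_of_nonneg_right (mul_le_mul_of_nonneg_right e3 (norm_nonneg _)) this.le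
  · intro Γ V Γ' V' a a' A s₁ s₂ ha ha' hs hA hg hg' s hs'
    refine (hcmp Γ V Γ' V' a a' A s₁ s₂ ha ha' hs (hA.trans (min_le_right _ _)) hg hg' s
      hs').trans ?_
    refine mul_le_mul_of_nonneg_right e4 ?_
    have : 0 < s₂ - s₁ := by linarith
    positivity

end H79NG
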