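import Pool.Agent.H79.NG.Vfx
import Pool.Agent.H79.NG.Flw
import Pool.Agent.H79.NG.Ccb
import Pool.Agent.H79.NG.Bas

/-!
# [H79 NG GFL] The geodesic flow for small times

Take `X₀` from `exists_field`, `M` from `cc_bounds` (so `‖X₀‖ ≤ M`, Lipschitz constant `M`), and
`τ > 0` with `8 τ M ≤ 1`, `4 τ M ≤ δ`, e.g. `τ = min 1 δ / (8 (M + 1))`. `X = τ • X₀` is smooth, Lipschitz
with constant `τ M ≤ 1/8`. Take `Φ` from `exists_flow`. For `|t| < 2`: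
`‖Φ w t - w‖ ≤ 2 τ M ≤ min (δ/2) (1/4)` (mean value inequality, `‖X‖ ≤ τ M`). For
`infDist y N ≤ δ`, `‖p‖ ≤ 2`: `X (y,p) = (τ • p, τ • D2 π y p p)`.
-/

set_option autoImplicit false

namespace H79NG

open H60NH H60NT Metric Set Filter Topology
open scoped NNReal ContDiff

theorem exists_gflow {m : ℕ} {N : Set (E m)} {π : E m → E m} {δ C : ℝ} (hT : TC N π δ C) :
    ∃ (τ : ℝ) (X : E m × E m → E m × E m) (Φ : E m × E m → ℝ → E m × E m),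
      0 < τ ∧ LipschitzWith (1 / 8) X ∧
      (∀ t ∈ Ioo (-2 : ℝ) 2, ContDiff ℝ ∞ (fun w => Φ w t)) ∧ (∀ w, Φ w 0 = w) ∧
      (∀ w, ∀ t ∈ Ioo (-2 : ℝ) 2, HasDerivAt (Φ w) (X (Φ w t)) t) ∧
      (∀ w, ∀ t ∈ Ioo (-2 : ℝ) 2, ‖Φ w t - w‖ ≤ δ / 2 ∧ ‖Φ w t - w‖ ≤ 1 / 2) ∧
      ∀ y p, infDist y N ≤ δ → ‖p‖ ≤ 2 → X (y, p) = (τ • p, τ • D2 π y p p) := by
  have hδ := hT.pos
  obtain ⟨X₀, hX₀, hX₀c, hX₀e⟩ := exists_field hT
  obtain ⟨M, hM, hMb, -, -, hMl, -, -⟩ := cc_bounds hX₀ hX₀c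
  obtain ⟨τ, hτ⟩ : ∃ τ : ℝ, τ = min 1 δ / (8 * (M + 1)) := ⟨_, rfl⟩
  have hmin : 0 < min 1 δ := lt_min one_pos hδ
  have hτ0 : 0 < τ := by
    rw [hτ]
    positivity
  have hτM : τ * M ≤ min 1 δ / 8 := by
    rw [hτ, div_mul_eq_mul_div, div_le_div_iff₀ (by positivity) (by norm_num)]
    nlinarith
  have hτM1 : τ * M ≤ 1 / 8 := hτM.trans (by
    have := min_le_left 1 δ
    linarith)
  have hτMδ : τ * M ≤ δ / 8 := hτM.trans (by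
    have := min_le_right 1 δ
    linarith)
  have hXs : ContDiff ℝ ∞ (fun w => τ • X₀ w) := hX₀.const_smul τ
  have hXL : LipschitzWith (1 / 8) (fun w => τ • X₀ w) := by
    refine LipschitzWith.of_dist_le_mul fun x y => ?_
    have h5 : (((1 / 8 : ℝ≥0)) : ℝ) = 1 / 8 := by norm_num
    rw [h5, dist_eq_norm, dist_eq_norm, ← smul_sub, norm_smul, Real.norm_of_nonneg hτ0.le]
    calc τ * ‖X₀ x - X₀ y‖ ≤ τ * (M * ‖x - y‖) := mul_le_mul_of_nonneg_left (hMl x y) hτ0.le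
      _ = τ * M * ‖x - y‖ := by ring
      _ ≤ 1 / 8 * ‖x - y‖ := mul_le_mul_of_nonneg_right hτM1 (norm_nonneg _)
  obtain ⟨Φ, hΦs, hΦ0, hΦd⟩ := exists_flow hXs hXL
  have hb : ∀ w, ∀ t ∈ Ioo (-2 : ℝ) 2, ‖Φ w t - w‖ ≤ τ * M * 2 := by
    intro w t ht
    have h1 := (convex_Ioo (-2 : ℝ) 2).norm_image_sub_le_of_norm_hasDerivWithin_le (f := Φ w)
      (f' := fun t => τ • X₀ (Φ w t)) (C := τ * M) (x := 0) (y := t)
      (fun x hx => (hΦd w x hx).hasDerivWithinAt)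
      (fun x _ => by
        rw [norm_smul, Real.norm_of_nonneg hτ0.le]
        exact mul_le_mul_of_nonneg_left (hMb _) hτ0.le)
      ⟨by norm_num, by norm_num⟩ ht
    rw [hΦ0, sub_zero, Real.norm_eq_abs] at h1
    refine h1.trans (mul_le_mul_of_nonneg_left ?_ (by positivity))
    rw [abs_le]
    exact ⟨ht.1.le, ht.2.le⟩
  refine ⟨τ, fun w => τ • X₀ w, Φ, hτ0, hXL, hΦs, hΦ0, hΦd, ?_, ?_⟩
  · intro w t ht
    have h1 := hb w t ht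
    constructor <;> linarith
  · intro y p hy hp
    show τ • X₀ (y, p) = _
    rw [hX₀e y p hy hp]
    rfl

end H79NG
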