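import Pool.Agent.H79.NG.Cub
import Pool.Agent.H79.NG.Extn
import Pool.Agent.H79.NG.Ccb
import Pool.Agent.H79.NG.Bas

/-!
# [H79 NG KFN] The cubic remainder as a smooth function with compact support

`Kf_smooth`: `pt`, `Pj pt` (`Ext.smoothPj`), `L`, `θ` are smooth. `Kf_cpt`: support in
`tsupport θ ×ˢ tsupport θ`. `Kf_N`, `Kf_nhds`: `θ = 1` on `{infDist ≤ δ}`, `pt = π`,
`Pj pt y = fderiv ℝ π (π y)`; on `N`, `π y = y`.
`Kf_bd`: let `M` be a bound for `‖Kf‖` (`cc_bounds`), `C'` from `cubic`. If `θ p.1 * θ p.2 = 0` the value is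
`0`. Otherwise `infDist y N, infDist q N < 2 δ`; `x = π y`, `z = π q ∈ N`, `pt y = x`, `pt q = z`,
`Pj pt y = fderiv ℝ π x`. If `‖y - q‖ < 2 δ` and `‖L x z‖ ≤ v₀`:
`‖Kf‖ ≤ ‖L x z - fderiv ℝ π x (z - x)‖ ≤ C' ‖x - z‖³ ≤ C' C³ ‖y - q‖³` (`lip0`). If `‖y - q‖ ≥ 2 δ`:
`‖Kf‖ ≤ M ≤ M/(2 δ)³ ‖y - q‖³`. If `‖y - q‖ < 2 δ` and `‖L x z‖ > v₀`: `v₀ < ‖L x z‖ ≤ 2 ‖x - z‖ ≤
2 C ‖y - q‖` (`lip`, `diag`), so `‖Kf‖ ≤ M ≤ M (2 C/v₀)³ ‖y - q‖³`.
-/

set_option autoImplicit false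

namespace H79NG

open H60NH H60NT Metric Set Filter Topology
open scoped NNReal ContDiff

/-- The remainder `L - Dπ(y)(q - y)`, cut off. -/
noncomputable def Kf {m : ℕ} (θ : E m → ℝ) (pt : E m → E m) (L : E m → E m → E m)
    (p : E m × E m) : E m :=
  (θ p.1 * θ p.2) • (L (pt p.1) (pt p.2) - Pj pt p.1 (pt p.2 - pt p.1))

theorem Kf_smooth {m : ℕ} {N : Set (E m)} {π pt : E m → E m} {δ v₀ r s : ℝ} {θ : E m → ℝ}
    {Ex L : E m → E m → E m} (hL : LogS N π Ex L v₀) (hp : Ext N π δ pt)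
    (hθ : CutN N r s θ) : ContDiff ℝ ∞ (Kf θ pt L) := by
  have h1 : ContDiff ℝ ∞ (fun p : E m × E m => L (pt p.1) (pt p.2)) :=
    hL.smooth.comp ((hp.smooth.comp contDiff_fst).prodMk (hp.smooth.comp contDiff_snd))
  have h2 : ContDiff ℝ ∞ (fun p : E m × E m => Pj pt p.1 (pt p.2 - pt p.1)) :=
    (hp.smoothPj.comp contDiff_fst).clm_apply
      ((hp.smooth.comp contDiff_snd).sub (hp.smooth.comp contDiff_fst))
  exact ((hθ.smooth.comp contDiff_fst).mul (hθ.smooth.comp contDiff_snd)).smul (h1.sub h2)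

theorem Kf_cpt {m : ℕ} {N : Set (E m)} {pt : E m → E m} {r s : ℝ} {θ : E m → ℝ}
    {L : E m → E m → E m} (hθ : CutN N r s θ) : HasCompactSupport (Kf θ pt L) := by
  have hc : IsCompact (tsupport θ ×ˢ tsupport θ) := IsCompact.prod hθ.cpt hθ.cpt
  refine HasCompactSupport.of_support_subset_isCompact hc ?_
  intro p hp
  rw [Function.mem_support] at hp
  constructor
  · refine subset_tsupport θ ?_
    rw [Function.mem_support]
    intro h0
    exact hp (by simp only [Kf, h0, zero_mul, zero_smul])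
  · refine subset_tsupport θ ?_
    rw [Function.mem_support]
    intro h0
    exact hp (by simp only [Kf, h0, mul_zero, zero_smul])

theorem Kf_nhds {m : ℕ} {N : Set (E m)} {π pt : E m → E m} {δ C s : ℝ} {θ : E m → ℝ}
    {L : E m → E m → E m} (hT : TC N π δ C) (hp : Ext N π δ pt) (hθ : CutN N δ s θ)
    {y q : E m} (hy : infDist y N < δ) (hq : infDist q N < δ) :
    Kf θ pt L (y, q) = L (π y) (π q) - fderiv ℝ π (π y) (π q - π y) := by
  have hδ := hT.pos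
  have hy3 : infDist y N < 3 * δ := by linarith
  have hq3 : infDist q N < 3 * δ := by linarith
  show (θ y * θ q) • (L (pt y) (pt q) - Pj pt y (pt q - pt y)) = _
  rw [hθ.one y hy.le, hθ.one q hq.le, hp.pj hT hy3, hp.eq y hy3, hp.eq q hq3, mul_one, one_smul]

theorem Kf_bd {m : ℕ} {N : Set (E m)} {π : E m → E m} {δ C v₀ : ℝ} {Ex L : E m → E m → E m}
    (hT : TC N π δ C) (hX : ExpS N π Ex v₀) (hL : LogS N π Ex L v₀)
    {pt : E m → E m} {θ : E m → ℝ} (hp : Ext N π δ pt) (hθ : CutN N δ (2 * δ) θ) :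
    ∃ C' : ℝ, 0 ≤ C' ∧ ∀ y q, ‖Kf θ pt L (y, q)‖ ≤ C' * ‖y - q‖ ^ 3 := by
  have hδ := hT.pos
  have hC := hT.one_le
  obtain ⟨M, hM0, hM, -⟩ := cc_bounds (Kf_smooth hL hp hθ) (Kf_cpt (L := L) (pt := pt) hθ)
  obtain ⟨C₁, hC1, h1⟩ := cubic hT hX hL
  have hv := hL.pos
  refine ⟨C₁ * C ^ 3 + M / (2 * δ) ^ 3 + M * (2 * C / v₀) ^ 3, by positivity, ?_⟩
  have hA : 0 ≤ C₁ * C ^ 3 := by positivity
  have hB : 0 ≤ M / (2 * δ) ^ 3 := by positivity
  have hD : 0 ≤ M * (2 * C / v₀) ^ 3 := by positivity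
  intro y q
  by_cases hy : infDist y N < 2 * δ
  swap
  · have h2 : Kf θ pt L (y, q) = 0 := by
      show (θ y * θ q) • _ = _
      rw [hθ.zero y (not_lt.mp hy), zero_mul, zero_smul]
    rw [h2, norm_zero]
    positivity
  by_cases hq : infDist q N < 2 * δ
  swap
  · have h2 : Kf θ pt L (y, q) = 0 := by
      show (θ y * θ q) • _ = _
      rw [hθ.zero q (not_lt.mp hq), mul_zero, zero_smul]
    rw [h2, norm_zero]
    positivity
  have hy3 : infDist y N < 3 * δ := by linarith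
  have hq3 : infDist q N < 3 * δ := by linarith
  by_cases hd : ‖y - q‖ < 2 * δ
  swap
  · have h2 : (2 * δ) ^ 3 ≤ ‖y - q‖ ^ 3 := pow_le_pow_left₀ (by linarith) (not_lt.mp hd) 3
    calc ‖Kf θ pt L (y, q)‖ ≤ M := hM _
      _ = M / (2 * δ) ^ 3 * (2 * δ) ^ 3 := by field_simp
      _ ≤ M / (2 * δ) ^ 3 * ‖y - q‖ ^ 3 := mul_le_mul_of_nonneg_left h2 hB
      _ ≤ _ := mul_le_mul_of_nonneg_right (by linarith) (by positivity)
  have hx : π y ∈ N := hT.mem y (by linarith)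
  have hz : π q ∈ N := hT.mem q (by linarith)
  have hxz : ‖π y - π q‖ ≤ C * ‖y - q‖ := hT.lip0 y q hy hd
  by_cases hl : ‖L (π y) (π q)‖ ≤ v₀
  · have h2 : ‖Kf θ pt L (y, q)‖ ≤ ‖L (π y) (π q) - fderiv ℝ π (π y) (π q - π y)‖ := by
      show ‖(θ y * θ q) • (L (pt y) (pt q) - Pj pt y (pt q - pt y))‖ ≤ _
      rw [hp.pj hT hy3, hp.eq y hy3, hp.eq q hq3, norm_smul, Real.norm_eq_abs,
        abs_of_nonneg (mul_nonneg (hθ.nonneg y) (hθ.nonneg q))]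
      refine mul_le_of_le_one_left (norm_nonneg _) ?_
      exact mul_le_one₀ (hθ.le_one y) (hθ.nonneg q) (hθ.le_one q)
    calc ‖Kf θ pt L (y, q)‖ ≤ C₁ * ‖π y - π q‖ ^ 3 := h2.trans (h1 _ hx _ hz hl)
      _ ≤ C₁ * (C * ‖y - q‖) ^ 3 :=
          mul_le_mul_of_nonneg_left (pow_le_pow_left₀ (norm_nonneg _) hxz 3) hC1
      _ = C₁ * C ^ 3 * ‖y - q‖ ^ 3 := by ring
      _ ≤ _ := mul_le_mul_of_nonneg_right (by linarith) (by positivity)
  · have h2 : v₀ ≤ 2 * C * ‖y - q‖ := by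
      have h3 := hL.lip (π y) (π y) (π q) (π y)
      rw [hL.diag, sub_zero, sub_self, norm_zero, zero_add, norm_sub_rev (π q)] at h3
      have h4 := not_le.mp hl
      nlinarith
    have h3 : 1 ≤ 2 * C / v₀ * ‖y - q‖ := by
      rw [div_mul_eq_mul_div, le_div_iff₀ hv, one_mul]
      exact h2
    calc ‖Kf θ pt L (y, q)‖ ≤ M * 1 := by rw [mul_one]; exact hM _
      _ ≤ M * (2 * C / v₀ * ‖y - q‖) ^ 3 :=
          mul_le_mul_of_nonneg_left (one_le_pow₀ h3) hM0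
      _ = M * (2 * C / v₀) ^ 3 * ‖y - q‖ ^ 3 := by ring
      _ ≤ _ := mul_le_mul_of_nonneg_right (by linarith) (by positivity)

end H79NG
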