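import Pool.Agent.H79.NG.Cutn
import Pool.Agent.H79.NG.Extn
import Pool.Agent.H79.NG.Bas

/-!
# [H79 NG LGR] The nonlinear part of the exponential map

Take `pt` from `exists_ext`, `θ` from `exists_cutN` (`r = δ`, `s = 2 δ`), `χ` a `ContDiffBump` at `0` with
`rIn = 1`, `rOut = 2`, and
`R (y,v) = (θ y χ v) • (Ex (pt y) (Pj pt y v) - pt y - Pj pt y v)`. It is smooth (`Ext.smoothPj`,
`ExpS.smooth`), with support in `tsupport θ ×ˢ closedBall 0 2`. If `infDist y N ≥ 2 δ` then `θ y = 0` and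
`R (y,·) = 0`. If `infDist y N < 2 δ`: `z = pt y ∈ N`, `Pj pt y = fderiv ℝ π (π y) = fderiv ℝ π z` maps to
tangent vectors at `z` (`proj_idem`), so `R (y,0) = (θ y χ 0) • (Ex z 0 - z - 0) = 0`, and the derivative
of `v ↦ R (y,v)` at `0` in the direction `b` is, since the bracket vanishes at `v = 0`,
`(θ y χ 0) • (fderiv ℝ (Ex z) 0 (Pj pt y b) - Pj pt y b) = 0` by `der0`. The relation with
`fderiv ℝ R (y,0) (0,b)` is the chain rule (`v ↦ (y,v)`). For `y ∈ N`, `‖v‖ ≤ 1`: `θ y = 1`, `χ v = 1`,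
`pt y = y`, `Pj pt y = fderiv ℝ π y`.
-/

set_option autoImplicit false

namespace H79NG

open H60NH H60NT Metric Set Filter Topology
open scoped NNReal ContDiff

theorem exists_R {m : ℕ} {N : Set (E m)} {π : E m → E m} {δ C v₀ : ℝ} {Ex : E m → E m → E m}
    (hT : TC N π δ C) (hX : ExpS N π Ex v₀) :
    ∃ R : E m × E m → E m, ContDiff ℝ ∞ R ∧ HasCompactSupport R ∧ (∀ y, R (y, 0) = 0) ∧
      (∀ y b, fderiv ℝ R (y, 0) (0, b) = 0) ∧
      ∀ y ∈ N, ∀ v, ‖v‖ ≤ 1 → R (y, v) = Ex y (fderiv ℝ π y v) - y - fderiv ℝ π y v := by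
  have hδ := hT.pos
  obtain ⟨pt, hp⟩ := exists_ext hT
  obtain ⟨θ, hθ⟩ := exists_cutN hT.compact hT.nonempty (r := δ) (s := 2 * δ) hδ (by linarith)
  let χ : ContDiffBump (0 : E m) := ⟨1, 2, one_pos, one_lt_two⟩
  have hχs : ContDiff ℝ ∞ (χ : E m → ℝ) := χ.contDiff
  have hPs : ContDiff ℝ ∞ (fun p : E m × E m => Pj pt p.1 p.2) :=
    (hp.smoothPj.comp contDiff_fst).clm_apply contDiff_snd
  have hpts : ContDiff ℝ ∞ (fun p : E m × E m => pt p.1) := hp.smooth.comp contDiff_fst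
  have hXs : ContDiff ℝ ∞ (fun p : E m × E m => Ex (pt p.1) (Pj pt p.1 p.2)) :=
    hX.smooth.comp (hpts.prodMk hPs)
  have hcs : ContDiff ℝ ∞ (fun p : E m × E m => θ p.1 * χ p.2) :=
    (hθ.smooth.comp contDiff_fst).mul (hχs.comp contDiff_snd)
  obtain ⟨R, hR⟩ : ∃ R : E m × E m → E m, R = fun p =>
    (θ p.1 * χ p.2) • (Ex (pt p.1) (Pj pt p.1 p.2) - pt p.1 - Pj pt p.1 p.2) := ⟨_, rfl⟩
  have hRs : ContDiff ℝ ∞ R := by
    rw [hR]
    exact hcs.smul ((hXs.sub hpts).sub hPs)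
  have hzero : ∀ y, 2 * δ ≤ infDist y N → ∀ v, R (y, v) = 0 := by
    intro y hy v
    rw [hR]
    show (θ y * χ v) • (Ex (pt y) (Pj pt y v) - pt y - Pj pt y v) = 0
    rw [hθ.zero y hy, zero_mul, zero_smul]
  refine ⟨R, hRs, ?_, ?_, ?_, ?_⟩
  · refine HasCompactSupport.intro (hθ.cpt.isCompact.prod (isCompact_closedBall (0 : E m) 2)) ?_
    intro p hpn
    rw [hR]
    show (θ p.1 * χ p.2) • (Ex (pt p.1) (Pj pt p.1 p.2) - pt p.1 - Pj pt p.1 p.2) = 0
    by_cases h1 : p.1 ∈ tsupport θ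
    · have h2 : p.2 ∉ closedBall (0 : E m) 2 := fun h3 => hpn ⟨h1, h3⟩
      rw [mem_closedBall, not_le] at h2
      have h3 : χ p.2 = 0 := χ.zero_of_le_dist h2.le
      rw [h3, mul_zero, zero_smul]
    · rw [image_eq_zero_of_notMem_tsupport h1, zero_mul, zero_smul]
  · intro y
    by_cases hy : infDist y N < 2 * δ
    · have hz : pt y ∈ N := hp.mem hT (by linarith)
      rw [hR]
      show (θ y * χ 0) • (Ex (pt y) (Pj pt y 0) - pt y - Pj pt y 0) = 0
      rw [map_zero, hX.zero _ hz, sub_self, sub_zero, smul_zero]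
    · exact hzero y (not_lt.mp hy) 0
  · intro y b
    have hd : HasFDerivAt (fun v : E m => R (y, v))
        ((fderiv ℝ R (y, 0)).comp (ContinuousLinearMap.inr ℝ (E m) (E m))) 0 :=
      HasFDerivAt.comp (g := R) (0 : E m) (hRs.differentiable (by simp) (y, 0)).hasFDerivAt
        ((hasFDerivAt_const y (0 : E m)).prodMk (hasFDerivAt_id (0 : E m)))
    have hb : fderiv ℝ R (y, 0) (0, b) =
        ((fderiv ℝ R (y, 0)).comp (ContinuousLinearMap.inr ℝ (E m) (E m))) b := by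
      simp
    rw [hb]
    by_cases hy : infDist y N < 2 * δ
    · have hz : pt y ∈ N := hp.mem hT (by linarith)
      have hEd : HasFDerivAt (Ex (pt y)) (fderiv ℝ (Ex (pt y)) 0) (Pj pt y 0) := by
        rw [map_zero]
        have h1 : ContDiff ℝ ∞ (Ex (pt y)) :=
          hX.smooth.comp (contDiff_const.prodMk contDiff_id)
        exact (h1.differentiable (by simp) 0).hasFDerivAt
      have hE2 : HasFDerivAt (fun v => Ex (pt y) (Pj pt y v))
          ((fderiv ℝ (Ex (pt y)) 0).comp (Pj pt y)) 0 :=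
        HasFDerivAt.comp (0 : E m) hEd (Pj pt y).hasFDerivAt
      have hE3 : HasFDerivAt (fun v => Ex (pt y) (Pj pt y v) - pt y - Pj pt y v)
          ((fderiv ℝ (Ex (pt y)) 0).comp (Pj pt y) - Pj pt y) 0 :=
        (hE2.sub_const (pt y)).sub (Pj pt y).hasFDerivAt
      have hc : HasFDerivAt (fun v : E m => θ y * χ v) (θ y • fderiv ℝ (χ : E m → ℝ) 0) 0 :=
        (hχs.differentiable (by simp) 0).hasFDerivAt.const_mul (θ y)
      have h4 := hc.smul hE3
      have h5 : (fun v : E m => R (y, v)) =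
          fun v => (θ y * χ v) • (Ex (pt y) (Pj pt y v) - pt y - Pj pt y v) := by
        rw [hR]
      rw [h5] at hd
      rw [hd.unique h4]
      have h6 : Ex (pt y) (Pj pt y 0) - pt y - Pj pt y 0 = 0 := by
        rw [map_zero, hX.zero _ hz, sub_self, sub_zero]
      have h7 : fderiv ℝ (Ex (pt y)) 0 (Pj pt y b) = Pj pt y b := by
        refine hX.der0 _ hz _ ?_
        rw [hp.pj hT (by linarith), hp.eq y (by linarith)]
        exact proj_idem hT (hT.mem y (by linarith)) b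
      rw [h6]
      simp [h7]
    · have h5 : (fun v : E m => R (y, v)) = fun _ => 0 :=
        funext fun v => hzero y (not_lt.mp hy) v
      rw [h5] at hd
      rw [hd.unique (hasFDerivAt_const (0 : E m) (0 : E m))]
      simp
  · intro y hy v hv
    rw [hR]
    show (θ y * χ v) • (Ex (pt y) (Pj pt y v) - pt y - Pj pt y v) = _
    have h1 : θ y = 1 := hθ.one y (by rw [infDist_zero_of_mem hy]; exact hδ.le)
    have h2 : χ v = 1 := by
      refine χ.one_of_mem_closedBall ?_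
      rw [mem_closedBall_zero_iff]
      exact hv
    rw [h1, h2, one_mul, one_smul, hp.eqN hT hy, hp.pjN hT hy]

end H79NG
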