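import Pool.Agent.H79.NG.Fun
import Pool.Agent.H79.NG.Fdn
import Pool.Agent.H79.NG.Fsm
import Pool.Agent.H79.NG.Bas

/-!
# [H79 NG RAL] The data along a geodesic satisfy `RecD`

`d = ‖L P q‖ - r₁ ∈ (0, r₁/4] ⊂ (0,1]`. For `s ∈ [sP, sP+1]`, `y = Γ s ∈ N`: `‖y - P‖ ≤ a |s - sP| ≤ a ≤
r₁/16` (`geod_chord`), so by `LogG.lip` `|‖L y q‖ - ‖L P q‖| ≤ 2 ‖y - P‖ ≤ r₁/8`: `‖L y q‖` lies in
`[7 r₁/8, 11 r₁/8]`; in the same way `‖L y q'‖ ∈ [7 r₁/8, 9 r₁/8]`; all are in `[r₁/2, 3 r₁/2]` and `< v₀`.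
* `speed, Pv, hv, a_nonneg`: `Geod` (`a = ‖V sP‖`). `Pdv`: `D2_normal`. `Psymm, Pidem`: `proj_symm`,
`proj_idem`. `uf, ug, form, formg, Bf, Bg0`: `F_unit` at `y = Γ s` (with `a := V s`). `Pf, Pg`: `F_tan`.
* `hf, hg`: `Fd θ ψ pt L q` is differentiable (`F_smooth`), chain rule with `Γ' = V`. `hr, hrg`: `F_dr`.
* `normal`: `F_normal` for `q'` and `q` subtracted: `(dg - df) - Dπ(dg - df) = D2 π Γ V (g - f)`, norm at most
`CT a ‖g - f‖` (`D2_le`).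
* `Bsymm, Bgsymm`: `LogG.Bsymm`. `Bbd, Bgbd`: `‖B y q‖ ≤ Cb ‖y - q‖² ≤ Cb (3 r₁/2)² ≤ 1/2` (`chord`, `r_B`).
* `Bdif`: with `r = ‖L y q‖`, `r' = ‖L y q'‖`, `‖y - q‖ ≤ r`, `‖y - q'‖ ≤ r'`, `‖q - q'‖ ≤ d`,
`|r - r'| ≤ 2 ‖q - q'‖ ≤ 2 d` (`lip`), `r ≤ 3 r'` (`r ≤ 3 r₁/2`, `r' ≥ r₁/2`):
`‖(1/r') B' - (1/r) B‖ ≤ (1/r') ‖B' - B‖ + |1/r' - 1/r| ‖B‖ ≤ (1/r') Cb (r + r') d + (2 d/(r r')) Cb r²
≤ 4 Cb d + 6 Cb d = 10 Cb d`.
* `r_lo .. rg_hi`: above. `r0`: `‖L P q‖ - ‖L P q'‖ = d`. `h0`: `h5`. `crude`: `hC₀` and `‖q' - q‖ ≤ d`.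
-/

set_option autoImplicit false

namespace H79NG

open H60NH H60NT Metric Set Filter Topology
open scoped NNReal ContDiff

variable {m : ℕ} {N : Set (E m)} {π : E m → E m} {δ CT : ℝ} {Ex L : E m → E m → E m}
  {B : E m → E m → E m →L[ℝ] E m} {pt : E m → E m} {θ : E m → ℝ} {ψ : ℝ → ℝ} {v₀ Cb r₁ : ℝ}

theorem recD_of (h : FC N π δ CT Ex L B pt θ ψ v₀ Cb r₁) {C₀ : ℝ} (h0 : 0 ≤ C₀)
    (hC₀ : ∀ q q' y, ‖Fd θ ψ pt L q' y - Fd θ ψ pt L q y‖ ≤ C₀ * ‖q' - q‖)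
    {q q' P : E m} (hq : q ∈ N) (hq' : q' ∈ N) (hP : P ∈ N) (h1 : r₁ < ‖L P q‖)
    (h2 : ‖L P q‖ ≤ 5 * r₁ / 4) (h3 : ‖L P q'‖ = r₁) (h4 : ‖q - q'‖ ≤ ‖L P q‖ - r₁)
    (h5 : Fd θ ψ pt L q' P = Fd θ ψ pt L q P) {Γ V : ℝ → E m} {a sP : ℝ}
    (ha : 16 * a ≤ r₁) (hΓ : Geod N π Γ V a (Icc sP (sP + 1))) (hs : Γ sP = P) :
    RecD r₁ (10 * Cb) C₀ CT a (‖L P q‖ - r₁) sP V (fun s => D2 π (Γ s) (V s) (V s))
      (fun s => Fd θ ψ pt L q (Γ s)) (fun s => Fd θ ψ pt L q' (Γ s))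
      (fun s => fderiv ℝ (Fd θ ψ pt L q) (Γ s) (V s))
      (fun s => fderiv ℝ (Fd θ ψ pt L q') (Γ s) (V s))
      (fun s => fderiv ℝ π (Γ s)) (fun s => B (Γ s) q) (fun s => B (Γ s) q')
      (fun s => ‖L (Γ s) q‖) (fun s => ‖L (Γ s) q'‖) := by
  have hr1 := h.r_pos
  have hrv := h.r_v
  have hCb := h.hG.one_le
  have hI0 : sP ∈ Icc sP (sP + 1) := ⟨le_rfl, by linarith⟩
  have ha0 : 0 ≤ a := by
    rw [← hΓ.speed sP hI0]
    exact norm_nonneg _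
  have hyP : ∀ s ∈ Icc sP (sP + 1), ‖Γ s - P‖ ≤ a := by
    intro s hsI
    rw [← hs]
    refine (geod_chord hΓ hsI hI0).trans ?_
    have h6 : |s - sP| ≤ 1 := by
      rw [abs_of_nonneg (by linarith [hsI.1])]
      linarith [hsI.2]
    have h7 := mul_le_mul_of_nonneg_left h6 ha0
    linarith
  -- the distances
  have hrange : ∀ p : E m, r₁ ≤ ‖L P p‖ → ‖L P p‖ ≤ 5 * r₁ / 4 → ∀ s ∈ Icc sP (sP + 1),
      r₁ / 2 ≤ ‖L (Γ s) p‖ ∧ ‖L (Γ s) p‖ ≤ 3 * r₁ / 2 ∧ ‖L (Γ s) p‖ < v₀ := by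
    intro p hp1 hp2 s hsI
    have h6 := h.hG.lip (Γ s) P p p
    rw [sub_self, norm_zero, add_zero] at h6
    have h7 := hyP s hsI
    have h8 := abs_norm_sub_norm_le (L (Γ s) p) (L P p)
    rw [abs_le] at h8
    refine ⟨?_, ?_, ?_⟩ <;> linarith [h8.1, h8.2]
  have hq1 := hrange q h1.le h2
  have hq2 := hrange q' h3.ge (by rw [h3]; linarith)
  have hFd : ∀ p : E m, Differentiable ℝ (Fd θ ψ pt L p) := by
    intro p
    have h6 : ContDiff ℝ ∞ (fun y : E m => Fd θ ψ pt L p y) :=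
      (F_smooth h).comp (contDiff_const.prodMk contDiff_id)
    exact h6.differentiable (by norm_num)
  have hchord : ∀ p ∈ N, ∀ s ∈ Icc sP (sP + 1), ‖L (Γ s) p‖ < v₀ →
      ‖B (Γ s) p‖ ≤ Cb * ‖L (Γ s) p‖ ^ 2 ∧ ‖Γ s - p‖ ≤ ‖L (Γ s) p‖ := by
    intro p hp s hsI hlt
    have h6 := h.hG.chord (Γ s) (hΓ.mem s hsI) p hp hlt.le
    refine ⟨(h.hG.Bbd (Γ s) (hΓ.mem s hsI) p hp).trans ?_, h6⟩
    exact mul_le_mul_of_nonneg_left (pow_le_pow_left₀ (norm_nonneg _) h6 2) (by linarith)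
  have hhalf : ∀ x : ℝ, 0 ≤ x → x ≤ 3 * r₁ / 2 → Cb * x ^ 2 ≤ 1 / 2 := by
    intro x hx0 hx
    have h6 : x ^ 2 ≤ (3 * r₁ / 2) ^ 2 := pow_le_pow_left₀ hx0 hx 2
    have h7 := mul_le_mul_of_nonneg_left h6 (show 0 ≤ Cb by linarith)
    have h8 := h.r_B
    have h9 : Cb * (3 * r₁ / 2) ^ 2 = 9 / 2560 * (640 * Cb * r₁ ^ 2) := by ring
    rw [h9] at h7
    linarith
  have hd1 : 0 < ‖L P q‖ - r₁ := by linarith
  constructor
  · exact ha0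
  · exact hd1
  · linarith [h.r_le]
  · exact hΓ.speed
  · exact fun s hsI => (F_unit h hq (hΓ.mem s hsI) (hq1 s hsI).1 (hq1 s hsI).2.1).1
  · exact fun s hsI => (F_unit h hq' (hΓ.mem s hsI) (hq2 s hsI).1 (hq2 s hsI).2.1).1
  · exact fun s hsI x y => proj_symm h.hT (hΓ.mem s hsI) x y
  · exact fun s hsI x => proj_idem h.hT (hΓ.mem s hsI) x
  · exact hΓ.tan
  · exact fun s hsI => F_tan h hq (hΓ.mem s hsI)
  · exact fun s hsI => F_tan h hq' (hΓ.mem s hsI)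
  · exact hΓ.der2
  · exact fun s hsI => D2_normal h.hT (hΓ.mem s hsI) (hΓ.tan s hsI) (hΓ.tan s hsI)
  · exact fun s hsI => ((hFd q (Γ s)).hasFDerivAt).comp_hasDerivAt s (hΓ.der s hsI)
  · exact fun s hsI => ((hFd q' (Γ s)).hasFDerivAt).comp_hasDerivAt s (hΓ.der s hsI)
  · exact fun s hsI => F_dr h hq (hΓ.mem s hsI) (hq1 s hsI).1 (hq1 s hsI).2.1 (hΓ.tan s hsI)
      (hΓ.der s hsI) rfl
  · exact fun s hsI => F_dr h hq' (hΓ.mem s hsI) (hq2 s hsI).1 (hq2 s hsI).2.1 (hΓ.tan s hsI)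
      (hΓ.der s hsI) rfl
  · exact fun s hsI b hb => (F_unit h hq (hΓ.mem s hsI) (hq1 s hsI).1 (hq1 s hsI).2.1).2.2.2
      (V s) b (hΓ.tan s hsI) hb
  · exact fun s hsI b hb => (F_unit h hq' (hΓ.mem s hsI) (hq2 s hsI).1 (hq2 s hsI).2.1).2.2.2
      (V s) b (hΓ.tan s hsI) hb
  · intro s hsI
    have h6 := F_normal h hq (hΓ.mem s hsI) (hΓ.tan s hsI)
    have h7 := F_normal h hq' (hΓ.mem s hsI) (hΓ.tan s hsI)
    have h8 : (fderiv ℝ (Fd θ ψ pt L q') (Γ s) (V s) - fderiv ℝ (Fd θ ψ pt L q) (Γ s) (V s)) -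
        fderiv ℝ π (Γ s) (fderiv ℝ (Fd θ ψ pt L q') (Γ s) (V s) -
          fderiv ℝ (Fd θ ψ pt L q) (Γ s) (V s)) =
        D2 π (Γ s) (V s) (Fd θ ψ pt L q' (Γ s) - Fd θ ψ pt L q (Γ s)) := by
      rw [map_sub, map_sub, ← h6, ← h7]
      abel
    beta_reduce
    rw [h8]
    refine (D2_le h.hT (hΓ.mem s hsI) _ _).trans (le_of_eq ?_)
    rw [hΓ.speed s hsI]
  · exact fun s hsI x y => h.hG.Bsymm (Γ s) (hΓ.mem s hsI) q hq (hq1 s hsI).2.2 x y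
  · exact fun s hsI x y => h.hG.Bsymm (Γ s) (hΓ.mem s hsI) q' hq' (hq2 s hsI).2.2 x y
  · exact fun s hsI => (F_unit h hq (hΓ.mem s hsI) (hq1 s hsI).1 (hq1 s hsI).2.1).2.2.1
  · exact fun s hsI => (F_unit h hq' (hΓ.mem s hsI) (hq2 s hsI).1 (hq2 s hsI).2.1).2.2.1
  · exact fun s hsI => ((hchord q hq s hsI (hq1 s hsI).2.2).1).trans
      (hhalf _ (norm_nonneg _) (hq1 s hsI).2.1)
  · exact fun s hsI => ((hchord q' hq' s hsI (hq2 s hsI).2.2).1).trans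
      (hhalf _ (norm_nonneg _) (hq2 s hsI).2.1)
  · intro s hsI
    beta_reduce
    obtain ⟨r, hr⟩ : ∃ r : ℝ, r = ‖L (Γ s) q‖ := ⟨_, rfl⟩
    obtain ⟨r', hr'⟩ : ∃ r' : ℝ, r' = ‖L (Γ s) q'‖ := ⟨_, rfl⟩
    obtain ⟨a1, a2, a3⟩ := hq1 s hsI
    obtain ⟨b1, b2, b3⟩ := hq2 s hsI
    obtain ⟨c1, c2⟩ := hchord q hq s hsI a3
    obtain ⟨d1, d2⟩ := hchord q' hq' s hsI b3
    rw [← hr] at a1 a2 a3 c1 c2
    rw [← hr'] at b1 b2 b3 d1 d2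
    rw [← hr, ← hr']
    have hr0 : 0 < r := by linarith
    have hr0' : 0 < r' := by linarith
    obtain ⟨d, hd⟩ : ∃ d : ℝ, d = ‖L P q‖ - r₁ := ⟨_, rfl⟩
    rw [← hd] at h4 hd1 ⊢
    have e : (1 / r') • B (Γ s) q' - (1 / r) • B (Γ s) q =
        (1 / r') • (B (Γ s) q' - B (Γ s) q) + (1 / r' - 1 / r) • B (Γ s) q := by
      module
    have hrr : |r - r'| ≤ 2 * d := by
      have h6 := h.hG.lip (Γ s) (Γ s) q q'
      rw [sub_self, norm_zero, zero_add] at h6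
      have h7 := abs_norm_sub_norm_le (L (Γ s) q) (L (Γ s) q')
      rw [← hr, ← hr'] at h7
      linarith
    have hB' : ‖B (Γ s) q' - B (Γ s) q‖ ≤ Cb * (4 * r') * d := by
      have h6 := h.hG.Blip (Γ s) (hΓ.mem s hsI) q' hq' q hq
      refine h6.trans ?_
      rw [norm_sub_rev q' q]
      refine mul_le_mul (mul_le_mul_of_nonneg_left ?_ (by linarith)) h4 (norm_nonneg _)
        (by positivity)
      linarith
    have h6 : ‖(1 / r') • (B (Γ s) q' - B (Γ s) q)‖ ≤ 4 * Cb * d := by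
      rw [norm_smul, Real.norm_of_nonneg (by positivity)]
      have h7 := mul_le_mul_of_nonneg_left hB' (show 0 ≤ 1 / r' by positivity)
      refine h7.trans (le_of_eq ?_)
      field_simp
    have h8 : ‖(1 / r' - 1 / r) • B (Γ s) q‖ ≤ 6 * Cb * d := by
      rw [norm_smul, Real.norm_eq_abs]
      have h9 : |1 / r' - 1 / r| = |r - r'| / (r * r') := by
        have h10 : 1 / r' - 1 / r = (r - r') / (r * r') := by
          field_simp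
        rw [h10, abs_div, abs_of_pos (mul_pos hr0 hr0')]
      rw [h9]
      have h11 : |r - r'| / (r * r') * ‖B (Γ s) q‖ ≤ 2 * d / (r * r') * (Cb * r ^ 2) := by
        refine mul_le_mul (div_le_div_of_nonneg_right hrr (mul_pos hr0 hr0').le) c1
          (norm_nonneg _) (by positivity)
      refine h11.trans ?_
      have h12 : 2 * d / (r * r') * (Cb * r ^ 2) = 2 * Cb * d * (r / r') := by
        field_simp
      rw [h12]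
      have h13 : r / r' ≤ 3 := by
        rw [div_le_iff₀ hr0']
        linarith
      have h14 := mul_le_mul_of_nonneg_left h13 (show 0 ≤ 2 * Cb * d by positivity)
      linarith
    rw [e]
    refine (norm_add_le _ _).trans ?_
    linarith
  · exact fun s hsI => (hq1 s hsI).1
  · exact fun s hsI => by linarith [(hq1 s hsI).2.1]
  · exact fun s hsI => (hq2 s hsI).1
  · exact fun s hsI => by linarith [(hq2 s hsI).2.1]
  · beta_reduce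
    rw [hs, h3]
  · beta_reduce
    rw [hs, h5]
  · intro s hsI
    refine (hC₀ q q' (Γ s)).trans (mul_le_mul_of_nonneg_left ?_ h0)
    rw [norm_sub_rev]
    exact h4

end H79NG
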