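import Pool.Agent.H79.NG.Def

/-!
# [H79 NG ROT] Pointwise algebra of the recentering argument (elementary inner product algebra)

All statements are at one fixed time. Notation: `k = <v,f>`, `k' = <v,g>`, `H = g - f`,
`κ = <v,H> = k' - k`, `u = v - k f` (so `‖u‖² = a² - k² = w ≥ 0`, `<u,f> = 0`), `Bf = 0`, `Bg g = 0`.

`vperp`: `‖v - k f‖² = a² - k²` as `‖f‖ = 1`; in particular `0 ≤ a² - k²`.

`Bvv`: `B v = B u`, `<v, B v> = <v, B u> = <B v, u> = <B u, u>`, so `|<v,Bv>| ≤ ‖B‖ ‖u‖² ≤ w/2`.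

`rot_alg`: for `b` with `P b = b`, `<b, dg - df> = <b, X>` with
`X = (1/rg)(v - k' g + Bg v) - (1/r)(v - k f + B v)`. So `P(dg - df) = P X` (test with `P b`, `P`
symmetric and idempotent) and `‖P(dg - df)‖² = <P(dg-df), X> ≤ ‖P(dg-df)‖ ‖X‖`, i.e. `≤ ‖X‖`. Now
`X = (1/rg - 1/r) u + (1/rg)(k f - k' g) + ((1/rg) Bg v - (1/r) B v)`,
`k f - k' g = - k H - κ g`,
`(1/rg) Bg v - (1/r) B v = ((1/rg) Bg - (1/r) B) u + (k/rg) Bg f`, `Bg f = Bg (g - H) = - Bg H`.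
With `|1/rg - 1/r| = |r - rg|/(r rg) ≤ 8 d/r₁²` (`r, rg ≥ r₁/2`, `|r - rg| ≤ 2 d`), `|k|, |κ|/‖H‖ ≤ a`,
`1/rg ≤ 2/r₁`, `‖Bg‖ ≤ 1/2`:
`‖X‖ ≤ (8 d/r₁²) ‖u‖ + (2/r₁)(2 a ‖H‖) + CB d ‖u‖ + (a/r₁) ‖H‖`.

`rok_alg`: `<v, dg - df> = (1/rg)(a² - k'² + <v,Bg v>) - (1/r)(a² - k² + <v,B v>)` (`form` with `b = v`),
`a² - k'² = w - (k + k') κ`. So it is
`(1/rg - 1/r) w - (1/rg)(k + k') κ + (1/rg) <v,Bg v> - (1/r) <v,B v>`.
`<v,B v> = <u,B u>`. `<v,Bg v>`: `v = k f + u`, `f = g - H`, `Bg f = - Bg H`,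
`<Bg v, v> = k² <Bg H, H> - 2 k <Bg H, u> + <Bg u, u>`
(`<Bg f,f> = <-Bg H, g - H> = <Bg H,H> - <H, Bg g> = <Bg H,H>`, `<Bg f,u> = -<Bg H,u>`). Hence
`(1/rg)<v,Bg v> - (1/r)<v,B v> = <((1/rg) Bg - (1/r) B) u, u> + (1/rg)(k² <Bg H,H> - 2 k <Bg H,u>)`
`≥ - CB d w - (2/r₁)(a² ‖H‖²/2 + a ‖H‖ ‖u‖)`, `‖u‖ = √w`.
`(1/rg - 1/r) = (r - rg)/(r rg) ≥ (d/2)/(4 r₁²)` and `(1/rg)|k + k'||κ| ≤ (2/r₁)(2 a)|κ|`.
-/

set_option autoImplicit false

namespace H79NG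

open H60NH H60NT Metric Set Filter Topology
open scoped NNReal ContDiff

theorem vperp {V : Type*} [NormedAddCommGroup V] [InnerProductSpace ℝ V] {v f : V} {a : ℝ}
    (hv : ‖v‖ = a) (hf : ‖f‖ = 1) : ‖v - inner ℝ v f • f‖ ^ 2 = a ^ 2 - inner ℝ v f ^ 2 := by
  rw [norm_sub_sq_real, real_inner_smul_right, norm_smul, hf, hv, mul_one, Real.norm_eq_abs,
    sq_abs]
  ring

private theorem rot_inner (V : Type*) [NormedAddCommGroup V] [InnerProductSpace ℝ V]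
    (T : V →L[ℝ] V) (c : ℝ) (hT : ‖T‖ ≤ c) (x y : V) : |inner ℝ (T x) y| ≤ c * ‖x‖ * ‖y‖ := by
  have h1 := abs_real_inner_le_norm (T x) y
  have h2 := T.le_opNorm x
  have h3 : ‖T‖ * ‖x‖ ≤ c * ‖x‖ := mul_le_mul_of_nonneg_right hT (norm_nonneg _)
  exact h1.trans (mul_le_mul_of_nonneg_right (h2.trans h3) (norm_nonneg _))

theorem Bvv {V : Type*} [NormedAddCommGroup V] [InnerProductSpace ℝ V] {v f : V} {a : ℝ}
    {B : V →L[ℝ] V} (hv : ‖v‖ = a) (hf : ‖f‖ = 1) (hs : ∀ x y, inner ℝ (B x) y = inner ℝ x (B y))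
    (h0 : B f = 0) (hB : ‖B‖ ≤ 1 / 2) :
    |inner ℝ v (B v)| ≤ (a ^ 2 - inner ℝ v f ^ 2) / 2 := by
  set u : V := v - inner ℝ v f • f with hu
  have hBv : B v = B u := by
    rw [hu, map_sub, map_smul, h0, smul_zero, sub_zero]
  have e1 : inner ℝ v (B v) = inner ℝ (B u) u := by
    rw [hBv, ← hs, hBv]
  rw [e1, ← vperp hv hf, ← hu]
  have h1 := rot_inner V B (1 / 2) hB u u
  refine h1.trans (le_of_eq ?_)
  ring

private theorem rot_k {V : Type*} [NormedAddCommGroup V] [InnerProductSpace ℝ V] {v f : V} {a : ℝ}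
    (hv : ‖v‖ = a) (hf : ‖f‖ = 1) : |inner ℝ v f| ≤ a := by
  have := abs_real_inner_le_norm v f
  rwa [hv, hf, mul_one] at this

theorem rot_alg {V : Type*} [NormedAddCommGroup V] [InnerProductSpace ℝ V]
    {r₁ CB a d r rg : ℝ} {v f g df dg : V} {P B Bg : V →L[ℝ] V} (hr₁ : 0 < r₁) (ha : 0 ≤ a)
    (hd : 0 < d) (hv : ‖v‖ = a) (hf : ‖f‖ = 1) (hg : ‖g‖ = 1)
    (Ps : ∀ x y, inner ℝ (P x) y = inner ℝ x (P y)) (Pi : ∀ x, P (P x) = P x)
    (form : ∀ b, P b = b → inner ℝ b df =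
      1 / r * (inner ℝ b v - inner ℝ v f * inner ℝ b f + inner ℝ b (B v)))
    (formg : ∀ b, P b = b → inner ℝ b dg =
      1 / rg * (inner ℝ b v - inner ℝ v g * inner ℝ b g + inner ℝ b (Bg v)))
    (Bf : B f = 0) (Bg0 : Bg g = 0) (Bgbd : ‖Bg‖ ≤ 1 / 2)
    (Bdif : ‖(1 / rg) • Bg - (1 / r) • B‖ ≤ CB * d)
    (r_lo : r₁ / 2 ≤ r) (rg_lo : r₁ / 2 ≤ rg) (hdr : |r - rg| ≤ 2 * d) :
    ‖P (dg - df)‖ ≤ (8 / r₁ ^ 2 + CB) * d * Real.sqrt (a ^ 2 - inner ℝ v f ^ 2) +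
      5 * a / r₁ * ‖g - f‖ := by
  set k : ℝ := inner ℝ v f with hk
  set k' : ℝ := inner ℝ v g with hk'
  set H : V := g - f with hH
  set u : V := v - k • f with hu
  have hr : 0 < r := by linarith
  have hrg : 0 < rg := by linarith
  have hun : ‖u‖ = Real.sqrt (a ^ 2 - k ^ 2) := by
    rw [hk, ← vperp hv hf, Real.sqrt_sq (norm_nonneg _)]
  set X : V := (1 / rg) • (v - k' • g + Bg v) - (1 / r) • (v - k • f + B v) with hX
  set Y : V := P (dg - df) with hY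
  have hPY : P Y = Y := Pi _
  have hYX : ‖Y‖ ≤ ‖X‖ := by
    have e1 : inner ℝ Y Y = inner ℝ Y X := by
      have e2 : inner ℝ Y Y = inner ℝ Y (dg - df) := by
        conv_lhs => rw [hY]
        rw [Ps, ← hY, hPY, real_inner_comm]
      rw [e2, inner_sub_right, form Y hPY, formg Y hPY, hX, inner_sub_right, real_inner_smul_right,
        real_inner_smul_right, inner_add_right, inner_add_right, inner_sub_right, inner_sub_right,
        real_inner_smul_right, real_inner_smul_right]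
    have e3 : ‖Y‖ * ‖Y‖ ≤ ‖Y‖ * ‖X‖ := by
      rw [← real_inner_self_eq_norm_mul_norm, e1]
      exact real_inner_le_norm Y X
    rcases (norm_nonneg Y).eq_or_lt with h0 | h0
    · rw [← h0]; exact norm_nonneg _
    · exact le_of_mul_le_mul_left e3 h0
  have hBgf : Bg f = - Bg H := by
    rw [hH, map_sub, Bg0, zero_sub, neg_neg]
  have hvu : v = u + k • f := by rw [hu]; abel
  have hBv : B v = B u := by
    rw [hu, map_sub, map_smul, Bf, smul_zero, sub_zero]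
  have hBgv : Bg v = Bg u - k • Bg H := by
    conv_lhs => rw [hvu]
    rw [map_add, map_smul, hBgf, smul_neg, sub_eq_add_neg]
  have hXe : X = (1 / rg - 1 / r) • u - (1 / rg) • (k • H + (k' - k) • g) +
      ((1 / rg) • Bg - (1 / r) • B) u - (k / rg) • Bg H := by
    have e1 : ((1 / rg) • Bg - (1 / r) • B) u = (1 / rg) • Bg u - (1 / r) • B u := rfl
    rw [e1, hX, hBv, hBgv, hH]
    have e2 : v - k • f = u := rfl
    have e3 : v - k' • g = u + k • f - k' • g := by rw [← hvu]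
    rw [e2, e3, show k / rg = (1 / rg) * k by ring]
    module
  have hka : |k| ≤ a := rot_k hv hf
  have hκ : |k' - k| ≤ a * ‖H‖ := by
    have e1 : k' - k = inner ℝ v H := by rw [hH, inner_sub_right]
    rw [e1, ← hv]
    exact abs_real_inner_le_norm v H
  have hrgi : 1 / rg ≤ 2 / r₁ := by
    rw [div_le_div_iff₀ hrg hr₁]
    linarith
  have hrgi0 : 0 < 1 / rg := by positivity
  have hdiff : |1 / rg - 1 / r| ≤ 8 / r₁ ^ 2 * d := by
    have e1 : 1 / rg - 1 / r = (r - rg) / (r * rg) := by field_simp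
    rw [e1, abs_div, abs_of_pos (mul_pos hr hrg), div_le_iff₀ (mul_pos hr hrg)]
    have e2 : r₁ ^ 2 / 4 ≤ r * rg := by nlinarith
    calc |r - rg| ≤ 2 * d := hdr
      _ = 8 / r₁ ^ 2 * d * (r₁ ^ 2 / 4) := by field_simp; ring
      _ ≤ 8 / r₁ ^ 2 * d * (r * rg) := mul_le_mul_of_nonneg_left e2 (by positivity)
  have n1 : ‖(1 / rg - 1 / r) • u‖ ≤ 8 / r₁ ^ 2 * d * ‖u‖ := by
    rw [norm_smul, Real.norm_eq_abs]
    exact mul_le_mul_of_nonneg_right hdiff (norm_nonneg _)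
  have n2 : ‖(1 / rg) • (k • H + (k' - k) • g)‖ ≤ 2 / r₁ * (2 * a * ‖H‖) := by
    rw [norm_smul, Real.norm_eq_abs, abs_of_pos hrgi0]
    have e1 : ‖k • H + (k' - k) • g‖ ≤ 2 * a * ‖H‖ := by
      refine (norm_add_le _ _).trans ?_
      rw [norm_smul, norm_smul, hg, mul_one, Real.norm_eq_abs, Real.norm_eq_abs]
      have := mul_le_mul_of_nonneg_right hka (norm_nonneg H)
      linarith
    exact mul_le_mul hrgi e1 (norm_nonneg _) (by positivity)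
  have n3 : ‖((1 / rg) • Bg - (1 / r) • B) u‖ ≤ CB * d * ‖u‖ :=
    (ContinuousLinearMap.le_opNorm _ _).trans (mul_le_mul_of_nonneg_right Bdif (norm_nonneg _))
  have n4 : ‖(k / rg) • Bg H‖ ≤ a / r₁ * ‖H‖ := by
    rw [norm_smul, Real.norm_eq_abs, abs_div, abs_of_pos hrg]
    have e1 : ‖Bg H‖ ≤ 1 / 2 * ‖H‖ :=
      (Bg.le_opNorm H).trans (mul_le_mul_of_nonneg_right Bgbd (norm_nonneg _))
    have e2 : |k| / rg ≤ a * (2 / r₁) := by
      rw [div_eq_mul_one_div]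
      exact mul_le_mul hka hrgi hrgi0.le ha
    calc |k| / rg * ‖Bg H‖ ≤ a * (2 / r₁) * (1 / 2 * ‖H‖) :=
          mul_le_mul e2 e1 (norm_nonneg _) (by positivity)
      _ = a / r₁ * ‖H‖ := by ring
  refine hYX.trans ?_
  rw [hXe, ← hun]
  refine (norm_sub_le _ _).trans ?_
  have t1 := norm_add_le ((1 / rg - 1 / r) • u - (1 / rg) • (k • H + (k' - k) • g))
    (((1 / rg) • Bg - (1 / r) • B) u)
  have t2 := norm_sub_le ((1 / rg - 1 / r) • u) ((1 / rg) • (k • H + (k' - k) • g))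
  have e5 : (8 / r₁ ^ 2 + CB) * d * ‖u‖ + 5 * a / r₁ * ‖H‖ =
      8 / r₁ ^ 2 * d * ‖u‖ + 2 / r₁ * (2 * a * ‖H‖) + CB * d * ‖u‖ + a / r₁ * ‖H‖ := by ring
  rw [e5]
  linarith

theorem rok_alg {V : Type*} [NormedAddCommGroup V] [InnerProductSpace ℝ V]
    {r₁ CB a d r rg : ℝ} {v f g df dg : V} {P B Bg : V →L[ℝ] V} (hr₁ : 0 < r₁) (ha : 0 ≤ a)
    (hd : 0 < d) (hv : ‖v‖ = a) (hf : ‖f‖ = 1) (hg : ‖g‖ = 1) (Pv : P v = v)
    (form : ∀ b, P b = b → inner ℝ b df =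
      1 / r * (inner ℝ b v - inner ℝ v f * inner ℝ b f + inner ℝ b (B v)))
    (formg : ∀ b, P b = b → inner ℝ b dg =
      1 / rg * (inner ℝ b v - inner ℝ v g * inner ℝ b g + inner ℝ b (Bg v)))
    (Bs : ∀ x y, inner ℝ (B x) y = inner ℝ x (B y))
    (Bgs : ∀ x y, inner ℝ (Bg x) y = inner ℝ x (Bg y))
    (Bf : B f = 0) (Bg0 : Bg g = 0) (Bgbd : ‖Bg‖ ≤ 1 / 2)
    (Bdif : ‖(1 / rg) • Bg - (1 / r) • B‖ ≤ CB * d)
    (r_lo : r₁ / 2 ≤ r) (rg_lo : r₁ / 2 ≤ rg) (r_hi : r ≤ 2 * r₁) (rg_hi : rg ≤ 2 * r₁)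
    (hdr : d / 2 ≤ r - rg) :
    d / (8 * r₁ ^ 2) * (a ^ 2 - inner ℝ v f ^ 2) - CB * d * (a ^ 2 - inner ℝ v f ^ 2) -
      4 * a / r₁ * |inner ℝ v (g - f)| -
      2 / r₁ * (a ^ 2 * ‖g - f‖ ^ 2 / 2 +
        a * ‖g - f‖ * Real.sqrt (a ^ 2 - inner ℝ v f ^ 2)) ≤ inner ℝ v (dg - df) := by
  set k : ℝ := inner ℝ v f with hk
  set k' : ℝ := inner ℝ v g with hk'
  set H : V := g - f with hH
  set u : V := v - k • f with hu
  have hr : 0 < r := by linarith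
  have hrg : 0 < rg := by linarith
  have hun : ‖u‖ = Real.sqrt (a ^ 2 - k ^ 2) := by
    rw [hk, ← vperp hv hf, Real.sqrt_sq (norm_nonneg _)]
  have hun2 : ‖u‖ ^ 2 = a ^ 2 - k ^ 2 := vperp hv hf
  have hvv : inner ℝ v v = a ^ 2 := by rw [real_inner_self_eq_norm_sq, hv]
  have hκ : inner ℝ v H = k' - k := by rw [hH, inner_sub_right]
  have hka : |k| ≤ a := rot_k hv hf
  have hka' : |k'| ≤ a := rot_k hv hg
  have hBgf : Bg f = - Bg H := by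
    rw [hH, map_sub, Bg0, zero_sub, neg_neg]
  have hvu : v = u + k • f := by rw [hu]; abel
  have hBv : B v = B u := by
    rw [hu, map_sub, map_smul, Bf, smul_zero, sub_zero]
  have hBgv : Bg v = Bg u - k • Bg H := by
    conv_lhs => rw [hvu]
    rw [map_add, map_smul, hBgf, smul_neg, sub_eq_add_neg]
  have hvBv : inner ℝ v (B v) = inner ℝ (B u) u := by
    rw [hBv, ← Bs, hBv]
  have hBgHg : inner ℝ (Bg H) g = 0 := by rw [Bgs, Bg0, inner_zero_right]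
  have hfH : f = g - H := by rw [hH]; abel
  have hBgHf : inner ℝ (Bg H) f = - inner ℝ (Bg H) H := by
    conv_lhs => rw [hfH]
    rw [inner_sub_right, hBgHg, zero_sub]
  have hBguf : inner ℝ (Bg u) f = - inner ℝ (Bg H) u := by
    rw [Bgs, hBgf, inner_neg_right, real_inner_comm]
  have hvBgv : inner ℝ v (Bg v) =
      inner ℝ (Bg u) u + k ^ 2 * inner ℝ (Bg H) H - 2 * k * inner ℝ (Bg H) u := by
    rw [real_inner_comm, hBgv]
    conv_lhs => rw [hvu]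
    rw [inner_sub_left, inner_add_right, inner_add_right, real_inner_smul_left,
      real_inner_smul_right, real_inner_smul_left, real_inner_smul_right, hBguf, hBgHf]
    ring
  have hT : inner ℝ (((1 / rg) • Bg - (1 / r) • B) u) u =
      1 / rg * inner ℝ (Bg u) u - 1 / r * inner ℝ (B u) u := by
    have e1 : ((1 / rg) • Bg - (1 / r) • B) u = (1 / rg) • Bg u - (1 / r) • B u := rfl
    rw [e1, inner_sub_left, real_inner_smul_left, real_inner_smul_left]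
  have hmain : inner ℝ v (dg - df) = (1 / rg - 1 / r) * (a ^ 2 - k ^ 2) -
      1 / rg * ((k + k') * (k' - k)) + inner ℝ (((1 / rg) • Bg - (1 / r) • B) u) u +
      1 / rg * (k ^ 2 * inner ℝ (Bg H) H - 2 * k * inner ℝ (Bg H) u) := by
    rw [inner_sub_right, form v Pv, formg v Pv, hvv, ← hk, ← hk', hvBv, hvBgv, hT]
    ring
  have hrgi : 1 / rg ≤ 2 / r₁ := by
    rw [div_le_div_iff₀ hrg hr₁]
    linarith
  have hrgi0 : 0 < 1 / rg := by positivity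
  have hw0 : 0 ≤ a ^ 2 - k ^ 2 := by rw [← hun2]; positivity
  have b1 : d / (8 * r₁ ^ 2) * (a ^ 2 - k ^ 2) ≤ (1 / rg - 1 / r) * (a ^ 2 - k ^ 2) := by
    refine mul_le_mul_of_nonneg_right ?_ hw0
    have e1 : 1 / rg - 1 / r = (r - rg) / (r * rg) := by field_simp
    rw [e1, div_le_div_iff₀ (by positivity) (mul_pos hr hrg)]
    have e2 : r * rg ≤ (2 * r₁) * (2 * r₁) := mul_le_mul r_hi rg_hi hrg.le (by positivity)
    calc d * (r * rg) ≤ d * ((2 * r₁) * (2 * r₁)) := mul_le_mul_of_nonneg_left e2 hd.le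
      _ = (d / 2) * (8 * r₁ ^ 2) := by ring
      _ ≤ (r - rg) * (8 * r₁ ^ 2) := mul_le_mul_of_nonneg_right hdr (by positivity)
  have b2 : 1 / rg * ((k + k') * (k' - k)) ≤ 4 * a / r₁ * |k' - k| := by
    have e1 : (k + k') * (k' - k) ≤ 2 * a * |k' - k| := by
      have e2 : (k + k') * (k' - k) ≤ |k + k'| * |k' - k| := by
        rw [← abs_mul]; exact le_abs_self _
      have e3 : |k + k'| ≤ 2 * a := (abs_add_le _ _).trans (by linarith)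
      exact e2.trans (mul_le_mul_of_nonneg_right e3 (abs_nonneg _))
    calc 1 / rg * ((k + k') * (k' - k)) ≤ 1 / rg * (2 * a * |k' - k|) :=
          mul_le_mul_of_nonneg_left e1 hrgi0.le
      _ ≤ 2 / r₁ * (2 * a * |k' - k|) :=
          mul_le_mul_of_nonneg_right hrgi (by positivity)
      _ = 4 * a / r₁ * |k' - k| := by ring
  have b3 : -(CB * d * (a ^ 2 - k ^ 2)) ≤ inner ℝ (((1 / rg) • Bg - (1 / r) • B) u) u := by
    have e1 := rot_inner V _ _ Bdif u u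
    have e2 := neg_abs_le (inner ℝ (((1 / rg) • Bg - (1 / r) • B) u) u)
    have e3 : CB * d * ‖u‖ * ‖u‖ = CB * d * (a ^ 2 - k ^ 2) := by rw [← hun2]; ring
    rw [e3] at e1
    linarith
  have hk2 : k ^ 2 ≤ a ^ 2 := by rw [← sq_abs k]; exact pow_le_pow_left₀ (abs_nonneg _) hka 2
  have b4 : -(2 / r₁ * (a ^ 2 * ‖H‖ ^ 2 / 2 + a * ‖H‖ * ‖u‖)) ≤
      1 / rg * (k ^ 2 * inner ℝ (Bg H) H - 2 * k * inner ℝ (Bg H) u) := by
    have e1 := rot_inner V _ _ Bgbd H H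
    have e2 := rot_inner V _ _ Bgbd H u
    have e3 : |k ^ 2 * inner ℝ (Bg H) H - 2 * k * inner ℝ (Bg H) u| ≤
        a ^ 2 * ‖H‖ ^ 2 / 2 + a * ‖H‖ * ‖u‖ := by
      refine (abs_sub _ _).trans ?_
      rw [abs_mul, abs_mul, abs_mul, abs_of_nonneg (sq_nonneg k),
        abs_of_nonneg (by norm_num : (0 : ℝ) ≤ 2)]
      have f1 : k ^ 2 * |inner ℝ (Bg H) H| ≤ a ^ 2 * (1 / 2 * ‖H‖ * ‖H‖) :=
        mul_le_mul hk2 e1 (abs_nonneg _) (by positivity)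
      have f2 : 2 * |k| * |inner ℝ (Bg H) u| ≤ 2 * a * (1 / 2 * ‖H‖ * ‖u‖) :=
        mul_le_mul (by linarith) e2 (abs_nonneg _) (by positivity)
      calc _ ≤ a ^ 2 * (1 / 2 * ‖H‖ * ‖H‖) + 2 * a * (1 / 2 * ‖H‖ * ‖u‖) := add_le_add f1 f2
        _ = _ := by ring
    have e4 := neg_abs_le (k ^ 2 * inner ℝ (Bg H) H - 2 * k * inner ℝ (Bg H) u)
    have e5 : -(a ^ 2 * ‖H‖ ^ 2 / 2 + a * ‖H‖ * ‖u‖) ≤
        k ^ 2 * inner ℝ (Bg H) H - 2 * k * inner ℝ (Bg H) u := by linarith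
    have e6 : 0 ≤ a ^ 2 * ‖H‖ ^ 2 / 2 + a * ‖H‖ * ‖u‖ := by positivity
    calc -(2 / r₁ * (a ^ 2 * ‖H‖ ^ 2 / 2 + a * ‖H‖ * ‖u‖))
        ≤ -(1 / rg * (a ^ 2 * ‖H‖ ^ 2 / 2 + a * ‖H‖ * ‖u‖)) := by
          rw [neg_le_neg_iff]
          exact mul_le_mul_of_nonneg_right hrgi e6
      _ = 1 / rg * -(a ^ 2 * ‖H‖ ^ 2 / 2 + a * ‖H‖ * ‖u‖) := by ring
      _ ≤ _ := mul_le_mul_of_nonneg_left e5 hrgi0.le
  rw [hmain, hκ, ← hun]
  linarith

end H79NG
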