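import Pool.Agent.H79.NG.Cutn
import Pool.Agent.H79.NG.Bas

/-!
# [H79 NG VFX] The geodesic vector field

`X(y,p) = (θ(y) χ(p)) • (p, D2 π y p p)` with `θ` from `exists_cutN` (`r = δ`, `s = 2 δ`) and `χ` a
`ContDiffBump` at `0 : E m` with `rIn = 2`, `rOut = 3`. Smooth: on the open set `{infDist y N < 4 δ}`,
`y ↦ D2 π y = fderiv ℝ (fderiv ℝ π) y` is smooth (`smAt`, `ContDiffAt.fderiv_right` twice or
`ContDiffOn.fderiv_of_isOpen` with `TC.smooth`); on the open set `{2 δ < infDist y N}` the product
vanishes. These two open sets cover. Compact support: the support is contained in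
`tsupport θ ×ˢ closedBall 0 3`.
-/

set_option autoImplicit false

namespace H79NG

open H60NH H60NT Metric Set Filter Topology
open scoped NNReal ContDiff

theorem exists_field {m : ℕ} {N : Set (E m)} {π : E m → E m} {δ C : ℝ} (hT : TC N π δ C) :
    ∃ X : E m × E m → E m × E m, ContDiff ℝ ∞ X ∧ HasCompactSupport X ∧
      ∀ y p, infDist y N ≤ δ → ‖p‖ ≤ 2 → X (y, p) = (p, D2 π y p p) := by
  have hδ := hT.pos
  obtain ⟨θ, hθ⟩ := exists_cutN hT.compact hT.nonempty hδ (show δ < 2 * δ by linarith)
  obtain ⟨χ, hχin, hχout⟩ : ∃ χ : ContDiffBump (0 : E m), χ.rIn = 2 ∧ χ.rOut = 3 :=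
    ⟨⟨2, 3, by norm_num, by norm_num⟩, rfl, rfl⟩
  have hzero : ∀ w : E m × E m, 2 * δ ≤ infDist w.1 N →
      (θ w.1 * χ w.2) • ((w.2, D2 π w.1 w.2 w.2) : E m × E m) = 0 := by
    intro w hw
    rw [hθ.zero _ hw, zero_mul, zero_smul]
  refine ⟨fun w => (θ w.1 * χ w.2) • ((w.2, D2 π w.1 w.2 w.2) : E m × E m), ?_, ?_, ?_⟩
  · rw [contDiff_iff_contDiffAt]
    intro w
    by_cases hw : infDist w.1 N < 4 * δ
    · have h1 : ContDiffAt ℝ ∞ (fderiv ℝ (fderiv ℝ π)) w.1 :=
        ((smAt hT hw).fderiv_right (m := ∞) (by simp)).fderiv_right (m := ∞) (by simp)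
      have h2 : ContDiffAt ℝ ∞ (fun w : E m × E m => D2 π w.1) w :=
        h1.comp w contDiffAt_fst
      have h3 : ContDiffAt ℝ ∞ (fun w : E m × E m => D2 π w.1 w.2 w.2) w :=
        (h2.clm_apply contDiffAt_snd).clm_apply contDiffAt_snd
      have h4 : ContDiffAt ℝ ∞ (fun w : E m × E m => θ w.1 * χ w.2) w :=
        ((hθ.smooth.contDiffAt).comp w contDiffAt_fst).mul
          ((χ.contDiff.contDiffAt).comp w contDiffAt_snd)
      exact h4.smul (contDiffAt_snd.prodMk h3)
    · have hw' : 2 * δ < infDist w.1 N := by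
        rw [not_lt] at hw
        linarith
      have hopen : IsOpen {w : E m × E m | 2 * δ < infDist w.1 N} :=
        isOpen_lt continuous_const ((continuous_infDist_pt N).comp continuous_fst)
      have h1 : (fun w : E m × E m => (θ w.1 * χ w.2) • ((w.2, D2 π w.1 w.2 w.2) : E m × E m))
          =ᶠ[𝓝 w] fun _ => 0 := by
        filter_upwards [hopen.mem_nhds hw'] with w' hw''
        exact hzero w' (le_of_lt hw'')
      exact (contDiffAt_const.congr_of_eventuallyEq h1)
  · have hc : IsCompact (tsupport θ ×ˢ closedBall (0 : E m) 3) :=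
      IsCompact.prod hθ.cpt (isCompact_closedBall _ _)
    refine HasCompactSupport.of_support_subset_isCompact hc ?_
    intro w hw
    rw [Function.mem_support] at hw
    constructor
    · refine subset_tsupport _ ?_
      rw [Function.mem_support]
      intro h0
      exact hw (by rw [h0, zero_mul, zero_smul])
    · rw [mem_closedBall]
      by_contra h0
      rw [not_le] at h0
      have h1 : χ w.2 = 0 := χ.zero_of_le_dist (by rw [hχout]; exact h0.le)
      exact hw (by rw [h1, mul_zero, zero_smul])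
  · intro y p hy hp
    have h1 : θ y = 1 := hθ.one y hy
    have h2 : χ p = 1 := χ.one_of_mem_closedBall (by
      rw [hχin, mem_closedBall, dist_zero_right]
      exact hp)
    show (θ y * χ p) • ((p, D2 π y p p) : E m × E m) = (p, D2 π y p p)
    rw [h1, h2, one_mul, one_smul]

end H79NG
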